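import Pool.Agent.Work.MP_ccc26a_nt.OddCase

set_option autoImplicit false

namespace Pool.Agent.Work.MP_ccc26a_nt

variable {r : ℕ} {G : Matrix (Fin r) (Fin r) ℤ}

/-- The positions of an octad of the Golay code. -/
def oct (i : Fin 8) : Fin 24 := ![0, 1, 3, 7, 8, 9, 11, 13] i

theorem oct_injective : Function.Injective oct := by decide

theorem chk_oct : ∀ k < 24, (ent basRows k 0 + ent basRows k 1 + ent basRows k 3 + ent basRows k 7 +
    ent basRows k 8 + ent basRows k 9 + ent basRows k 11 + ent basRows k 13) % 4 = 0 := by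
  decide +kernel

theorem sum_oct (k : Fin 24) : (4 : ℤ) ∣ ∑ i : Fin 8, Bas k (oct i) := by
  have h := chk_oct k k.2
  rw [Fin.sum_univ_eight]
  exact Int.dvd_of_emod_eq_zero h

theorem bas_par (k j : Fin 24) : (2 : ℤ) ∣ Bas k j - Bas k 0 :=
  Int.dvd_of_emod_eq_zero (chk_par k k.2 j j.2)

theorem caseA_even (hG : IsEvenPosDef G) (hcov : CovRat G) {w : Fin r → (Fin r → ℤ)}
    (hform : ∀ x y : Fin r → ℤ, 8 * bL G x y = ∑ i, bL G x (w i) * bL G y (w i))
    (hr : r ≤ 8) {σ : Fin r → ℤ} (hσ : ∀ i, σ i = 1 ∨ σ i = -1)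
    (hS : ∀ a ∈ (coordHom G w).range, ∃ b : Fin r → ℤ, (∀ i, a i = 2 * b i) ∧
      (4 : ℤ) ∣ ∑ i, σ i * b i ∧ ((∀ i, (2 : ℤ) ∣ b i) ∨ (r = 8 ∧ ∀ i, b i % 2 = 1))) :
    PrimitivelyEmbeds G Lam := by
  have hσ2 : ∀ i, σ i * σ i = 1 := by
    intro i
    rcases hσ i with h | h <;> rw [h] <;> norm_num
  let o : Fin r → Fin 24 := fun i => oct (Fin.castLE hr i)
  have ho : Function.Injective o := oct_injective.comp (Fin.castLE_injective hr)
  let α : (Fin r → ℤ) →ₗ[ℤ] (Fin 24 → ℤ) :=
    { toFun := fun x j => ∑ i, if o i = j then σ i * bL G x (w i) else 0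
      map_add' := fun x y => by
        ext j
        simp only [Pi.add_apply, ← Finset.sum_add_distrib, bL_add_left]
        exact Finset.sum_congr rfl fun i _ => by split_ifs <;> ring
      map_smul' := fun n x => by
        ext j
        simp only [Pi.smul_apply, smul_eq_mul, RingHom.id_apply, Finset.mul_sum, bL_smul_left]
        exact Finset.sum_congr rfl fun i _ => by split_ifs <;> ring }
  have hα : ∀ x j, α x j = ∑ i, if o i = j then σ i * bL G x (w i) else 0 := fun x j => rfl
  have hαo : ∀ x i, α x (o i) = σ i * bL G x (w i) := by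
    intro x i
    rw [hα, Finset.sum_eq_single i]
    · simp
    · intro b _ hb
      simp [ho.ne hb]
    · intro h; exact absurd (Finset.mem_univ i) h
  -- sums over the coordinates
  have hsum : ∀ (x : Fin r → ℤ) (f : Fin 24 → ℤ),
      ∑ j, α x j * f j = ∑ i, σ i * bL G x (w i) * f (o i) := by
    intro x f
    simp only [hα, Finset.sum_mul]
    rw [Finset.sum_comm]
    refine Finset.sum_congr rfl fun i _ => ?_
    rw [Finset.sum_eq_single (o i)]
    · simp
    · intro b _ hb
      simp [hb.symm]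
    · intro h; exact absurd (Finset.mem_univ _) h
  refine embeds_of_coords hG hcov α (fun x y => ?_) (fun x k => ?_)
  · rw [hsum, hform]
    refine Finset.sum_congr rfl fun i _ => ?_
    rw [hαo]
    linear_combination (bL G x (w i) * bL G y (w i)) * hσ2 i
  · rw [hsum]
    obtain ⟨b, hb, hb4, hcase⟩ := hS _ ⟨x, rfl⟩
    have h1 : ∑ i, σ i * bL G x (w i) * Bas k (o i) = 2 * ∑ i, σ i * b i * Bas k (o i) := by
      rw [Finset.mul_sum]
      refine Finset.sum_congr rfl fun i _ => ?_
      have := hb i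
      rw [coordHom_apply] at this
      rw [this]; ring
    rw [h1]
    have h2 : (4 : ℤ) ∣ ∑ i, σ i * b i * Bas k (o i) := by
      rcases hcase with hev | ⟨hr8, hodd⟩
      · have h3 : ∑ i, σ i * b i * Bas k (o i) =
            ∑ i, σ i * b i * (Bas k (o i) - Bas k 0) + Bas k 0 * ∑ i, σ i * b i := by
          rw [Finset.mul_sum, ← Finset.sum_add_distrib]
          exact Finset.sum_congr rfl fun i _ => by ring
        rw [h3]
        refine dvd_add (Finset.dvd_sum fun i _ => ?_) (Dvd.dvd.mul_left hb4 _)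
        obtain ⟨m, hm⟩ := hev i
        obtain ⟨n, hn⟩ := bas_par k (o i)
        exact ⟨σ i * m * n, by rw [hm, hn]; ring⟩
      · subst hr8
        have h3 : ∑ i, σ i * b i * Bas k (o i) =
            ∑ i, (σ i * b i - 1) * (Bas k (o i) - Bas k 0) + Bas k 0 * ∑ i, σ i * b i +
              (∑ i, Bas k (o i) - 8 * Bas k 0) := by
          have h4 : (8 : ℤ) * Bas k 0 = ∑ i : Fin 8, Bas k 0 := by simp
          rw [h4, Finset.mul_sum, ← Finset.sum_sub_distrib, ← Finset.sum_add_distrib,
            ← Finset.sum_add_distrib]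
          exact Finset.sum_congr rfl fun i _ => by ring
        rw [h3]
        refine dvd_add (dvd_add (Finset.dvd_sum fun i _ => ?_) (Dvd.dvd.mul_left hb4 _)) ?_
        · have h4 : (2 : ℤ) ∣ σ i * b i - 1 := by
            have := hodd i
            rcases hσ i with h | h <;> rw [h] <;> omega
          obtain ⟨m, hm⟩ := h4
          obtain ⟨n, hn⟩ := bas_par k (o i)
          exact ⟨m * n, by rw [hm, hn]; ring⟩
        · refine dvd_sub (sum_oct k) ?_
          exact ⟨2 * Bas k 0, by ring⟩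
    obtain ⟨m, hm⟩ := h2
    exact ⟨m, by rw [hm]; ring⟩

theorem exists_of_prime_dvd_det {p : ℕ} (hp : p.Prime) {A : Matrix (Fin r) (Fin r) ℤ}
    (h : (p : ℤ) ∣ A.det) : ∃ z : Fin r → ℤ, (∀ i, (p : ℤ) ∣ A.mulVec z i) ∧
      ¬ (∀ i, (p : ℤ) ∣ z i) := by
  have : Fact p.Prime := ⟨hp⟩
  have h1 : (A.map (Int.castRingHom (ZMod p))).det = 0 := by
    rw [← RingHom.mapMatrix_apply, ← RingHom.map_det]
    exact (ZMod.intCast_zmod_eq_zero_iff_dvd _ p).mpr h
  obtain ⟨v, hv0, hv⟩ := Matrix.exists_mulVec_eq_zero_iff.mpr h1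
  have h2 : ∀ i, ∃ z : ℤ, (z : ZMod p) = v i := fun i => ZMod.intCast_surjective (v i)
  choose z hz using h2
  refine ⟨z, fun i => ?_, fun hcon => hv0 ?_⟩
  · rw [← ZMod.intCast_zmod_eq_zero_iff_dvd]
    have h3 := congrFun hv i
    simp only [Matrix.mulVec, dotProduct, Matrix.map_apply, Pi.zero_apply] at h3 ⊢
    push_cast
    rw [← h3]
    exact Finset.sum_congr rfl fun j _ => by rw [hz]; rfl
  · ext i
    rw [← hz i, Pi.zero_apply]
    exact (ZMod.intCast_zmod_eq_zero_iff_dvd _ p).mpr (hcon i)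

theorem bL_eq_dot (A : Matrix (Fin r) (Fin r) ℤ) (x y : Fin r → ℤ) :
    bL A x y = ∑ i, x i * A.mulVec y i := by
  simp only [bL, Matrix.mulVec, dotProduct, Finset.mul_sum, Int.cast_id, mul_assoc]

theorem caseA_odd (hG : IsEvenPosDef G) (h2 : ∀ x : Fin r → ℤ, bL G x x ≠ 2)
    {w : Fin r → (Fin r → ℤ)}
    (hw : ∀ i j, bL G (w i) (w j) = if i = j then 8 else 0)
    (hform : ∀ x y : Fin r → ℤ, 8 * bL G x y = ∑ i, bL G x (w i) * bL G y (w i))
    (hS : ∀ α : Fin r → ℤ, (∀ β ∈ (coordHom G w).range, (8 : ℤ) ∣ ∑ i, α i * β i) →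
      α ∈ (coordHom G w).range) : G.det = 1 := by
  have hinj : ∀ z : Fin r → ℤ, coordHom G w z = 0 → z = 0 := by
    intro z hz
    by_contra hne
    have h3 := four_le hG h2 hne
    have h4 := hform z z
    have h5 : ∀ i, bL G z (w i) = 0 := fun i => congrFun hz i
    simp only [h5, mul_zero, Finset.sum_const_zero] at h4
    omega
  -- no prime divides the determinant
  have hprime : ∀ p : ℕ, p.Prime → ¬ ((p : ℤ) ∣ G.det) := by
    intro p hp hdvd
    have hp0 : (p : ℤ) ≠ 0 := by exact_mod_cast hp.ne_zero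
    obtain ⟨z, hz, hz0⟩ := exists_of_prime_dvd_det hp hdvd
    have h3 : ∀ x : Fin r → ℤ, (p : ℤ) ∣ bL G x z := by
      intro x
      rw [bL_eq_dot]
      exact Finset.dvd_sum fun i _ => Dvd.dvd.mul_left (hz i) _
    have h4 : ∀ i, ∃ α, bL G z (w i) = p * α := by
      intro i
      rw [bL_comm hG.symm]
      exact h3 (w i)
    choose α hα using h4
    obtain ⟨z', hz'⟩ := hS α (by
      rintro _ ⟨x, rfl⟩
      obtain ⟨k, hk⟩ := h3 x
      refine ⟨k, ?_⟩
      have h5 := hform z x
      rw [bL_comm hG.symm z x, hk] at h5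
      have h6 : ∑ i, bL G z (w i) * bL G x (w i) = p * ∑ i, α i * coordHom G w x i := by
        rw [Finset.mul_sum]
        exact Finset.sum_congr rfl fun i _ => by rw [hα i, coordHom_apply]; ring
      rw [h6] at h5
      apply mul_left_cancel₀ hp0
      rw [← h5]; ring)
    have h5 : z - (p : ℤ) • z' = 0 := by
      apply hinj
      rw [map_sub, map_zsmul, hz']
      ext i
      simp only [Pi.sub_apply, Pi.smul_apply, smul_eq_mul, coordHom_apply, Pi.zero_apply]
      rw [hα i]; ring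
    apply hz0
    intro i
    have h6 := congrFun (sub_eq_zero.mp h5) i
    exact ⟨z' i, by rw [h6]; simp⟩
  have habs : G.det.natAbs = 1 := by
    by_contra hne
    obtain ⟨p, hp, hdvd⟩ := Nat.exists_prime_and_dvd hne
    exact hprime p hp (Int.natCast_dvd.mpr hdvd)
  -- positivity
  have hpos : 0 < G.det := by
    have h3 : Matrix.of w * G * (Matrix.of w).transpose = (8 : ℤ) • (1 : Matrix (Fin r) (Fin r) ℤ) := by
      ext i j
      have h4 := hw i j
      rw [Matrix.smul_apply, Matrix.one_apply, Matrix.mul_apply]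
      simp only [Matrix.mul_apply, Matrix.of_apply, Matrix.transpose_apply, smul_eq_mul, mul_ite,
        mul_one, mul_zero]
      rw [← h4, bL, Finset.sum_comm]
      refine Finset.sum_congr rfl fun k _ => ?_
      rw [Finset.sum_mul]
      rfl
    have h4 := congrArg Matrix.det h3
    rw [Matrix.det_mul, Matrix.det_mul, Matrix.det_transpose, Matrix.det_smul, Matrix.det_one,
      Fintype.card_fin, mul_one] at h4
    have h5 : 0 < (Matrix.of w).det * G.det * (Matrix.of w).det := by
      rw [h4]; positivity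
    have h6 : (Matrix.of w).det * G.det * (Matrix.of w).det =
        G.det * ((Matrix.of w).det * (Matrix.of w).det) := by ring
    rw [h6] at h5
    have h7 := mul_self_nonneg (Matrix.of w).det
    by_contra hcon
    push Not at hcon
    have := mul_nonpos_of_nonpos_of_nonneg hcon h7
    omega
  omega

/-- The case of a lattice with a vector of norm 8. -/
theorem caseA (hG : IsEvenPosDef G) (h2 : ∀ x : Fin r → ℤ, bL G x x ≠ 2)
    (hcov : CovRat G) {ℓ : Fin r → ℤ} (hℓ : bL G ℓ ℓ = 8) :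
    ∃ Λ : Matrix (Fin 24) (Fin 24) ℤ, IsLeech Λ ∧ PrimitivelyEmbeds G Λ := by
  have hi0 : Nonempty (Fin r) := by
    by_contra hne
    rw [not_nonempty_iff] at hne
    have : bL G ℓ ℓ = 0 := by simp [bL]
    omega
  obtain ⟨i0⟩ := hi0
  obtain ⟨w, hw, hw2, hform⟩ := exists_frame hG h2 hcov hℓ
  have hF := frameData hG h2 hcov i0 hw hw2 hform
  by_cases hev : ∀ a ∈ (coordHom G w).range, ∀ i, (2 : ℤ) ∣ a i
  · obtain ⟨hr, σ, hσ, hS⟩ := hF.even_case i0 hev
    exact ⟨Lam, isLeech_lam, caseA_even hG hcov hform hr hσ hS⟩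
  · push Not at hev
    obtain ⟨a0, ha0, i, hi⟩ := hev
    obtain ⟨hr, hS⟩ := hF.odd_case i ha0 (by omega)
    have hdet := caseA_odd hG h2 hw hform hS
    subst hr
    refine ⟨G, ⟨hG, hdet, h2⟩, ?_⟩
    exact embeds_of_isometry hG hcov hG h2 LinearMap.id fun x y => rfl

end Pool.Agent.Work.MP_ccc26a_nt
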