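import Pool.Agent.Work.MP_ccc26a_nt.Confs

set_option autoImplicit false

namespace Pool.Agent.Work.MP_ccc26a_nt

variable {r : ℕ} {G : Matrix (Fin r) (Fin r) ℤ}

/-- Squared distance of two lattice points. -/
def dd (G : Matrix (Fin r) (Fin r) ℤ) (v w : Fin r → ℤ) : ℤ := bL G (v - w) (v - w)

theorem dd_comm (v w : Fin r → ℤ) : dd G v w = dd G w v := by
  have : v - w = -(w - v) := by abel
  rw [dd, dd, this, bL_neg_left, bL_neg_right, neg_neg]

theorem dd_self (v : Fin r → ℤ) : dd G v v = 0 := by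
  rw [dd, sub_self, bL_zero_left]

/-- The vertices of the Delaunay cell of a deepest hole. -/
structure HoleData (G : Matrix (Fin r) (Fin r) ℤ) (V : Set (Fin r → ℤ)) (c : Fin r → ℝ) (ρ : ℝ) :
    Prop where
  le_two : ρ ≤ 2
  nonempty : V.Nonempty
  mem : ∀ v ∈ V, bL G (rv v - c) (rv v - c) = ρ
  star : ∀ u : Fin r → ℝ, u ≠ 0 → ∃ v ∈ V, 0 < bL G u (rv v - c)

theorem exists_holeData (hG : IsEvenPosDef G) (hcov : CovRat G) :
    ∃ V : Set (Fin r → ℤ), ∃ c ρ, HoleData G V c ρ := by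
  obtain ⟨c, ρ, hρ, H1, H2⟩ := exists_hole hG hcov
  refine ⟨{v | bL G (rv v - c) (rv v - c) = ρ}, c, ρ, hρ, ?_, fun v hv => hv, fun u hu => ?_⟩
  · obtain ⟨w, hw⟩ := H2 c
    refine ⟨w, ?_⟩
    have hneg : rv w - c = -(c - rv w) := by abel
    show bL G (rv w - c) (rv w - c) = ρ
    rw [hneg, bL_neg_left, bL_neg_right, neg_neg]
    exact le_antisymm hw (H1 w)
  · exact hole_lemma hG H1 H2 hu

variable {V : Set (Fin r → ℤ)} {c : Fin r → ℝ} {ρ : ℝ}

theorem bL_sub_sub_real (hG : G.IsSymm) (x y : Fin r → ℝ) :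
    bL G (x - y) (x - y) = bL G x x - 2 * bL G x y + bL G y y := by
  rw [bL_sub_left, bL_sub_right, bL_sub_right, bL_comm hG y x]
  ring

theorem bL_add_add_real (hG : G.IsSymm) (x y : Fin r → ℝ) :
    bL G (x + y) (x + y) = bL G x x + 2 * bL G x y + bL G y y := by
  rw [bL_add_left, bL_add_right, bL_add_right, bL_comm hG y x]
  ring

theorem HoleData.inner (hG : IsEvenPosDef G) (H : HoleData G V c ρ) {v w : Fin r → ℤ}
    (hv : v ∈ V) (hw : w ∈ V) : bL G (rv v - c) (rv w - c) = ρ - (dd G v w : ℝ) / 2 := by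
  have h1 : ((dd G v w : ℤ) : ℝ) = bL G ((rv v - c) - (rv w - c)) ((rv v - c) - (rv w - c)) := by
    rw [dd, ← bL_rv, rv_sub]
    congr 1 <;> abel
  rw [bL_sub_sub_real hG.symm, H.mem v hv, H.mem w hw] at h1
  linarith

theorem HoleData.dist (hG : IsEvenPosDef G) (h2 : ∀ x : Fin r → ℤ, bL G x x ≠ 2)
    (h8 : ∀ x : Fin r → ℤ, bL G x x ≠ 8) (H : HoleData G V c ρ) {v w : Fin r → ℤ}
    (hv : v ∈ V) (hw : w ∈ V) (hvw : v ≠ w) : dd G v w = 4 ∨ dd G v w = 6 := by
  have h1 := four_le hG h2 (sub_ne_zero.mpr hvw)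
  obtain ⟨k, hk⟩ := hG.even (v - w)
  have h3 := h8 (v - w)
  have h4 := bL_real_nonneg hG ((rv v - c) + (rv w - c))
  rw [bL_add_add_real hG.symm, H.mem v hv, H.mem w hw, H.inner hG hv hw] at h4
  have h5 : (dd G v w : ℝ) ≤ ((8 : ℤ) : ℝ) := by
    have := H.le_two
    push_cast
    linarith
  have h6 : dd G v w ≤ 8 := by exact_mod_cast h5
  rw [dd] at h6 ⊢
  omega

theorem quad_ne (hG : IsEvenPosDef G) (h8 : ∀ x : Fin r → ℤ, bL G x x ≠ 8)
    (a b c d : Fin r → ℤ) :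
    dd G a b + dd G b c + dd G c d + dd G d a - dd G a c - dd G b d ≠ 8 := by
  have h1 := h8 (a - b + (c - d))
  intro h
  apply h1
  rw [← h]
  simp only [dd, bL_add_left, bL_add_right, bL_sub_left, bL_sub_right, bL_comm hG.symm b a,
    bL_comm hG.symm c a, bL_comm hG.symm d a, bL_comm hG.symm c b, bL_comm hG.symm d b,
    bL_comm hG.symm d c]
  ring

theorem HoleData.tri (hG : IsEvenPosDef G) (H : HoleData G V c ρ) {x y z : Fin r → ℤ}
    (hx : x ∈ V) (hy : y ∈ V) (hz : z ∈ V) (hxy : dd G x y = 6) (hyz : dd G y z = 6)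
    (hxz : dd G x z = 6) : ρ = 2 ∧ (rv x - c) + (rv y - c) + (rv z - c) = 0 := by
  have h1 : bL G ((rv x - c) + (rv y - c) + (rv z - c)) ((rv x - c) + (rv y - c) + (rv z - c)) =
      9 * ρ - 18 := by
    rw [bL_add_add_real hG.symm, bL_add_add_real hG.symm, bL_add_left, H.mem x hx, H.mem y hy,
      H.mem z hz, H.inner hG hx hy, H.inner hG hx hz, H.inner hG hy hz, hxy, hyz, hxz]
    push_cast
    ring
  have h2 := bL_real_nonneg hG ((rv x - c) + (rv y - c) + (rv z - c))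
  have h3 := H.le_two
  have h4 : ρ = 2 := by linarith
  refine ⟨h4, ?_⟩
  by_contra hne
  have h5 := hG.pos _ hne
  rw [h1, h4] at h5
  norm_num at h5

theorem HoleData.tri_far (hG : IsEvenPosDef G) (h2 : ∀ x : Fin r → ℤ, bL G x x ≠ 2)
    (h8 : ∀ x : Fin r → ℤ, bL G x x ≠ 8) (H : HoleData G V c ρ) {x y z w : Fin r → ℤ}
    (hx : x ∈ V) (hy : y ∈ V) (hz : z ∈ V) (hw : w ∈ V) (hxy : dd G x y = 6)
    (hyz : dd G y z = 6) (hxz : dd G x z = 6) (hwx : w ≠ x) (hwy : w ≠ y) (hwz : w ≠ z) :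
    dd G w x = 4 ∧ dd G w y = 4 ∧ dd G w z = 4 := by
  obtain ⟨hρ, hsum⟩ := H.tri hG hx hy hz hxy hyz hxz
  have h1 : bL G (rv w - c) ((rv x - c) + (rv y - c) + (rv z - c)) = 0 := by
    rw [hsum, bL_zero_right]
  rw [bL_add_right, bL_add_right, H.inner hG hw hx, H.inner hG hw hy, H.inner hG hw hz, hρ] at h1
  have h3 : ((dd G w x + dd G w y + dd G w z : ℤ) : ℝ) = ((12 : ℤ) : ℝ) := by
    push_cast
    linarith
  have h4 : dd G w x + dd G w y + dd G w z = 12 := by exact_mod_cast h3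
  have h5 := H.dist hG h2 h8 hw hx hwx
  have h6 := H.dist hG h2 h8 hw hy hwy
  have h7 := H.dist hG h2 h8 hw hz hwz
  omega

/-- A vector with constant products with the vertices is zero. -/
theorem HoleData.span (H : HoleData G V c ρ) {u : Fin r → ℝ} {κ : ℝ}
    (h : ∀ v ∈ V, bL G u (rv v) = κ) : u = 0 := by
  by_contra hne
  obtain ⟨v, hv, hv0⟩ := H.star u hne
  obtain ⟨w, hw, hw0⟩ := H.star (-u) (neg_ne_zero.mpr hne)
  rw [bL_sub_right, h v hv] at hv0
  rw [bL_sub_right, bL_neg_left, bL_neg_left, h w hw] at hw0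
  linarith

/-- Extension of an induced path by a further vertex. -/
theorem HoleData.path (hG : IsEvenPosDef G) (h2 : ∀ x : Fin r → ℤ, bL G x x ≠ 2)
    (h8 : ∀ x : Fin r → ℤ, bL G x x ≠ 8) (H : HoleData G V c ρ) {x y z w : Fin r → ℤ}
    (hx : x ∈ V) (hy : y ∈ V) (hz : z ∈ V) (hw : w ∈ V) (hxy : dd G x y = 6)
    (hyz : dd G y z = 6) (hxz : dd G x z = 4) (hwx : w ≠ x) (hwy : w ≠ y) (hwz : w ≠ z) :
    dd G w x + dd G w y + dd G w z = 14 := by
  have hyne : z ≠ y := by rintro rfl; rw [dd_self] at hyz; omega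
  have hzx : z ≠ x := by rintro rfl; rw [dd_self] at hxz; omega
  have h5 := H.dist hG h2 h8 hw hx hwx
  have h6 := H.dist hG h2 h8 hw hy hwy
  have h7 := H.dist hG h2 h8 hw hz hwz
  have q1 := quad_ne hG h8 x y z w
  have q2 := quad_ne hG h8 x y w z
  have q3 := quad_ne hG h8 x z y w
  rw [dd_comm z w, dd_comm y w] at q1
  rw [dd_comm y w, dd_comm z x, dd_comm x w] at q2
  rw [dd_comm z y, dd_comm y w, dd_comm z w] at q3
  have t1 : dd G w x = 6 → dd G w y = 6 → False := by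
    intro h1 h3
    have := H.tri_far hG h2 h8 hx hy hw hz hxy (by rw [dd_comm]; exact h3)
      (by rw [dd_comm]; exact h1) hzx hyne (Ne.symm hwz)
    rw [dd_comm z y] at this
    omega
  rcases h5 with h5 | h5 <;> rcases h6 with h6 | h6 <;> rcases h7 with h7 | h7 <;>
    first
      | omega
      | exact (t1 h5 h6).elim

/-- Reformulation with points instead of difference vectors. -/
theorem finishPts (hG : IsEvenPosDef G) {m : ℕ} {G0 : Matrix (Fin m) (Fin m) ℤ}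
    (conf : ∀ b : Fin m → (Fin r → ℤ), (∀ i j, bL G (b i) (b j) = G0 i j) →
      (∀ u : Fin r → ℝ, (∀ i, bL G u (rv (b i)) = 0) → u = 0) → PrimitivelyEmbeds G Lam)
    (pts : Fin (m + 1) → (Fin r → ℤ)) (D0 : Fin (m + 1) → Fin (m + 1) → ℤ)
    (hD : ∀ i j, i < j → dd G (pts i) (pts j) = D0 i j)
    (hD0 : ∀ i j, D0 i j = D0 j i) (hD1 : ∀ i, D0 i i = 0)
    (hcheck : ∀ i j : Fin m, D0 i.succ 0 + D0 j.succ 0 - D0 i.succ j.succ = 2 * G0 i j)
    (hsp : ∀ u : Fin r → ℝ, (∀ i, bL G u (rv (pts i)) = bL G u (rv (pts 0))) → u = 0) :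
    PrimitivelyEmbeds G Lam := by
  have hD' : ∀ i j, dd G (pts i) (pts j) = D0 i j := by
    intro i j
    rcases lt_trichotomy i j with h | h | h
    · exact hD i j h
    · rw [h, dd_self, hD1]
    · rw [dd_comm, hD j i h, hD0]
  refine conf (fun i => pts i.succ - pts 0) (fun i j => ?_) (fun u hu => ?_)
  · have h1 : dd G (pts i.succ) (pts j.succ) =
        dd G (pts i.succ) (pts 0) - 2 * bL G (pts i.succ - pts 0) (pts j.succ - pts 0) +
          dd G (pts j.succ) (pts 0) := by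
      have h3 : pts i.succ - pts j.succ = (pts i.succ - pts 0) - (pts j.succ - pts 0) := by abel
      rw [dd, h3, bL_sub_sub hG.symm]
      rfl
    rw [hD', hD', hD'] at h1
    have h3 := hcheck i j
    omega
  · apply hsp
    intro i
    refine Fin.cases rfl (fun i => ?_) i
    have := hu i
    rw [rv_sub, bL_sub_right] at this
    linarith

theorem conf_c1 (hG : IsEvenPosDef G) (h2 : ∀ x : Fin r → ℤ, bL G x x ≠ 2)
    (h8 : ∀ x : Fin r → ℤ, bL G x x ≠ 8) (hcov : CovRat G) (b : Fin 0 → (Fin r → ℤ))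
    (hspan : ∀ u : Fin r → ℝ, (∀ i, bL G u (rv (b i)) = 0) → u = 0) :
    PrimitivelyEmbeds G Lam := by
  refine finishB hG h2 h8 hcov b 0 (fun i => i.elim0) hspan 0 1 one_ne_zero ?_ ?_
    (fun i => i.elim0) (fun i => i.elim0) (fun i => i.elim0)
  · ext i
    exact i.elim0
  · intro p hp hdvd
    exfalso
    have : p ∣ 1 := by exact_mod_cast hdvd
    exact hp.one_lt.ne' (Nat.dvd_one.mp this)

end Pool.Agent.Work.MP_ccc26a_nt
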