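import Pool.Agent.Work.MP_ccc26a_nt.CaseBPath

set_option autoImplicit false

namespace Pool.Agent.Work.MP_ccc26a_nt

variable {r : ℕ} {G : Matrix (Fin r) (Fin r) ℤ} {V : Set (Fin r → ℤ)} {c : Fin r → ℝ} {ρ : ℝ}

/-- There is no induced path with three vertices. -/
def NoPath (G : Matrix (Fin r) (Fin r) ℤ) (V : Set (Fin r → ℤ)) : Prop :=
  ∀ x ∈ V, ∀ y ∈ V, ∀ z ∈ V, x ≠ z → dd G x y = 6 → dd G y z = 6 → dd G x z = 6

/-- No four vertices with mutual distances four. -/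
theorem indep_four (hG : IsEvenPosDef G) (h8 : ∀ x : Fin r → ℤ, bL G x x ≠ 8)
    {x y z w : Fin r → ℤ} (hxy : dd G x y = 4) (hxz : dd G x z = 4) (hxw : dd G x w = 4)
    (hyz : dd G y z = 4) (hyw : dd G y w = 4) (hzw : dd G z w = 4) : False := by
  have q := quad_ne hG h8 x y z w
  rw [dd_comm w x] at q
  omega

/-- If there is a triangle, then each vertex belongs to a triangle. -/
theorem HoleData.exists_tri (hG : IsEvenPosDef G) (h2 : ∀ x : Fin r → ℤ, bL G x x ≠ 2)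
    (h8 : ∀ x : Fin r → ℤ, bL G x x ≠ 8) (H : HoleData G V c ρ) (hρ : ρ = 2)
    (hno : NoPath G V) {v : Fin r → ℤ} (hv : v ∈ V) :
    ∃ w ∈ V, ∃ x ∈ V, dd G v w = 6 ∧ dd G w x = 6 ∧ dd G v x = 6 := by
  by_cases hw : ∃ w ∈ V, dd G v w = 6
  · obtain ⟨w, hw, hvw⟩ := hw
    have hvwne : v ≠ w := by rintro rfl; rw [dd_self] at hvw; omega
    by_cases hx : ∃ x ∈ V, x ≠ v ∧ x ≠ w ∧ (dd G x v = 6 ∨ dd G x w = 6)
    · obtain ⟨x, hx, hxv, hxw, hor⟩ := hx
      rcases hor with h | h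
      · have h3 := hno x hx v hv w hw hxw h hvw
        exact ⟨w, hw, x, hx, hvw, by rw [dd_comm]; exact h3, by rw [dd_comm]; exact h⟩
      · have h3 := hno x hx w hw v hv hxv h (by rw [dd_comm]; exact hvw)
        exact ⟨w, hw, x, hx, hvw, by rw [dd_comm]; exact h, by rw [dd_comm]; exact h3⟩
    · exfalso
      push Not at hx
      set u : Fin r → ℝ := -((rv v - c) + (rv w - c)) with hu
      have hprod : ∀ y ∈ V, bL G u (rv y - c) ≤ 0 := by
        intro y hy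
        rw [hu, bL_neg_left, bL_add_left]
        rcases eq_or_ne y v with h | h
        · rw [h, H.mem v hv, H.inner hG hw hv, dd_comm, hvw, hρ]; norm_num
        · rcases eq_or_ne y w with h' | h'
          · rw [h', H.mem w hw, H.inner hG hv hw, hvw, hρ]; norm_num
          · have h3 := hx y hy h h'
            have h4 := H.dist hG h2 h8 hy hv h
            have h5 := H.dist hG h2 h8 hy hw h'
            have h6 : dd G y v = 4 := by omega
            have h7 : dd G y w = 4 := by omega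
            rw [H.inner hG hv hy, H.inner hG hw hy, dd_comm v y, dd_comm w y, h6, h7, hρ]; norm_num
      have hu0 : u ≠ 0 := by
        intro h
        have h3 : bL G u (rv v - c) = 0 := by rw [h, bL_zero_left]
        rw [hu, bL_neg_left, bL_add_left, H.mem v hv, H.inner hG hw hv, dd_comm, hvw, hρ] at h3
        norm_num at h3
      obtain ⟨y, hy, hy0⟩ := H.star u hu0
      have := hprod y hy
      linarith
  · exfalso
    push Not at hw
    set u : Fin r → ℝ := -(rv v - c) with hu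
    have hprod : ∀ y ∈ V, bL G u (rv y - c) ≤ 0 := by
      intro y hy
      rw [hu, bL_neg_left]
      rcases eq_or_ne y v with h | h
      · rw [h, H.mem v hv, hρ]; norm_num
      · have h4 := H.dist hG h2 h8 hv hy h.symm
        have h5 := hw y hy
        have h6 : dd G v y = 4 := by omega
        rw [H.inner hG hv hy, h6, hρ]; norm_num
    have hu0 : u ≠ 0 := by
      intro h
      have h3 : bL G u (rv v - c) = 0 := by rw [h, bL_zero_left]
      rw [hu, bL_neg_left, H.mem v hv, hρ] at h3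
      norm_num at h3
    obtain ⟨y, hy, hy0⟩ := H.star u hu0
    have := hprod y hy
    linarith

/-- The case with a triangle. -/
theorem tri_case (hG : IsEvenPosDef G) (h2 : ∀ x : Fin r → ℤ, bL G x x ≠ 2)
    (h8 : ∀ x : Fin r → ℤ, bL G x x ≠ 8) (hcov : CovRat G) (H : HoleData G V c ρ)
    (hno : NoPath G V) {a1 a2 a3 : Fin r → ℤ} (ha1 : a1 ∈ V) (ha2 : a2 ∈ V) (ha3 : a3 ∈ V)
    (h12 : dd G a1 a2 = 6) (h23 : dd G a2 a3 = 6) (h13 : dd G a1 a3 = 6) :
    PrimitivelyEmbeds G Lam := by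
  obtain ⟨hρ, hasum⟩ := H.tri hG ha1 ha2 ha3 h12 h23 h13
  by_cases hV : ∀ v ∈ V, v = a1 ∨ v = a2 ∨ v = a3
  · refine finishPts hG (conf_c3 hG h2 h8 hcov) ![a1, a2, a3]
      ![![0, 6, 6], ![6, 0, 6], ![6, 6, 0]] ?_ (by decide) (by decide)
      (by decide) ?_
    · intro i j hij
      fin_cases i <;> fin_cases j <;> simp at hij <;> simpa
    · intro u hu
      refine H.span (κ := bL G u (rv a1)) fun v hv => ?_
      rcases hV v hv with rfl | rfl | rfl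
      · rfl
      · exact hu 1
      · exact hu 2
  push Not at hV
  obtain ⟨b1, hb1, hb11, hb12, hb13⟩ := hV
  obtain ⟨b2, hb2, b3, hb3, k12, k23, k13⟩ := H.exists_tri hG h2 h8 hρ hno hb1
  obtain ⟨-, hbsum⟩ := H.tri hG hb1 hb2 hb3 k12 k23 k13
  -- a vertex outside of the first triangle
  have hA : ∀ v ∈ V, v ≠ a1 → v ≠ a2 → v ≠ a3 → dd G v a1 = 4 ∧ dd G v a2 = 4 ∧ dd G v a3 = 4 :=
    fun v hv => H.tri_far hG h2 h8 ha1 ha2 ha3 hv h12 h23 h13
  have hB : ∀ v ∈ V, v ≠ b1 → v ≠ b2 → v ≠ b3 → dd G v b1 = 4 ∧ dd G v b2 = 4 ∧ dd G v b3 = 4 :=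
    fun v hv => H.tri_far hG h2 h8 hb1 hb2 hb3 hv k12 k23 k13
  obtain ⟨m11, m12, m13⟩ := hA b1 hb1 hb11 hb12 hb13
  have hb2a : b2 ≠ a1 ∧ b2 ≠ a2 ∧ b2 ≠ a3 := by
    refine ⟨?_, ?_, ?_⟩ <;> rintro rfl <;> omega
  have hb3a : b3 ≠ a1 ∧ b3 ≠ a2 ∧ b3 ≠ a3 := by
    refine ⟨?_, ?_, ?_⟩ <;> rintro rfl <;> omega
  obtain ⟨m21, m22, m23⟩ := hA b2 hb2 hb2a.1 hb2a.2.1 hb2a.2.2
  obtain ⟨m31, m32, m33⟩ := hA b3 hb3 hb3a.1 hb3a.2.1 hb3a.2.2
  -- the third point of a triangle is an affine combination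
  have hκ : ∀ (u : Fin r → ℝ) (κ : ℝ), bL G u (rv a1) = κ → bL G u (rv a2) = κ →
      bL G u (rv a3) = κ → bL G u c = κ := by
    intro u κ e1 e2 e3
    have h3 : bL G u ((rv a1 - c) + (rv a2 - c) + (rv a3 - c)) = 0 := by rw [hasum, bL_zero_right]
    simp only [bL_add_right, bL_sub_right, e1, e2, e3] at h3
    linarith
  have hκB : ∀ (u : Fin r → ℝ) (κ : ℝ), bL G u c = κ → bL G u (rv b1) = κ → bL G u (rv b2) = κ →
      bL G u (rv b3) = κ := by
    intro u κ e0 e1 e2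
    have h3 : bL G u ((rv b1 - c) + (rv b2 - c) + (rv b3 - c)) = 0 := by rw [hbsum, bL_zero_right]
    simp only [bL_add_right, bL_sub_right, e0, e1, e2] at h3
    linarith
  by_cases hV : ∀ v ∈ V, v = a1 ∨ v = a2 ∨ v = a3 ∨ v = b1 ∨ v = b2 ∨ v = b3
  · rw [dd_comm] at m11 m12 m13 m21 m22 m23
    refine finishPts hG (conf_c32 hG h2 h8 hcov) ![a1, a2, a3, b1, b2]
      ![![0, 6, 6, 4, 4], ![6, 0, 6, 4, 4], ![6, 6, 0, 4, 4], ![4, 4, 4, 0, 6], ![4, 4, 4, 6, 0]]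
      ?_ (by decide) (by decide) (by decide) ?_
    · intro i j hij
      fin_cases i <;> fin_cases j <;> simp at hij <;> simpa
    · intro u hu
      have e2 := hu 1
      have e3 := hu 2
      have e4 := hu 3
      have e5 := hu 4
      have e0 := hκ u _ rfl e2 e3
      refine H.span (κ := bL G u (rv a1)) fun v hv => ?_
      rcases hV v hv with rfl | rfl | rfl | rfl | rfl | rfl
      · rfl
      · exact e2
      · exact e3
      · exact e4
      · exact e5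
      · exact hκB u _ e0 e4 e5
  push Not at hV
  obtain ⟨c1, hc1, hc11, hc12, hc13, hc14, hc15, hc16⟩ := hV
  obtain ⟨c2, hc2, c3, hc3, l12, l23, l13⟩ := H.exists_tri hG h2 h8 hρ hno hc1
  obtain ⟨-, hcsum⟩ := H.tri hG hc1 hc2 hc3 l12 l23 l13
  have hC : ∀ v ∈ V, v ≠ c1 → v ≠ c2 → v ≠ c3 → dd G v c1 = 4 ∧ dd G v c2 = 4 ∧ dd G v c3 = 4 :=
    fun v hv => H.tri_far hG h2 h8 hc1 hc2 hc3 hv l12 l23 l13
  obtain ⟨n11, n12, n13⟩ := hA c1 hc1 hc11 hc12 hc13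
  obtain ⟨o11, o12, o13⟩ := hB c1 hc1 hc14 hc15 hc16
  have hc2a : c2 ≠ a1 ∧ c2 ≠ a2 ∧ c2 ≠ a3 := by
    refine ⟨?_, ?_, ?_⟩ <;> rintro rfl <;> omega
  have hc2b : c2 ≠ b1 ∧ c2 ≠ b2 ∧ c2 ≠ b3 := by
    refine ⟨?_, ?_, ?_⟩ <;> rintro rfl <;> omega
  obtain ⟨n21, n22, n23⟩ := hA c2 hc2 hc2a.1 hc2a.2.1 hc2a.2.2
  obtain ⟨o21, o22, o23⟩ := hB c2 hc2 hc2b.1 hc2b.2.1 hc2b.2.2
  have hκC : ∀ (u : Fin r → ℝ) (κ : ℝ), bL G u c = κ → bL G u (rv c1) = κ → bL G u (rv c2) = κ →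
      bL G u (rv c3) = κ := by
    intro u κ e0 e1 e2
    have h3 : bL G u ((rv c1 - c) + (rv c2 - c) + (rv c3 - c)) = 0 := by rw [hcsum, bL_zero_right]
    simp only [bL_add_right, bL_sub_right, e0, e1, e2] at h3
    linarith
  have hV9 : ∀ v ∈ V, (v = a1 ∨ v = a2 ∨ v = a3) ∨ (v = b1 ∨ v = b2 ∨ v = b3) ∨
      (v = c1 ∨ v = c2 ∨ v = c3) := by
    intro v hv
    by_contra hcon
    push Not at hcon
    obtain ⟨⟨e1, e2, e3⟩, ⟨f1, f2, f3⟩, ⟨g1, g2, g3⟩⟩ := hcon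
    have e := (hA v hv e1 e2 e3).1
    have f := (hB v hv f1 f2 f3).1
    have g := (hC v hv g1 g2 g3).1
    exact indep_four hG h8 e f g (by rw [dd_comm]; exact m11) (by rw [dd_comm]; exact n11)
      (by rw [dd_comm]; exact o11)
  rw [dd_comm] at m11 m12 m13 m21 m22 m23 n11 n12 n13 n21 n22 n23 o11 o12 o21 o22
  refine finishPts hG (conf_c322 hG h2 h8 hcov) ![a1, a2, a3, b1, b2, c1, c2]
    ![![0, 6, 6, 4, 4, 4, 4], ![6, 0, 6, 4, 4, 4, 4], ![6, 6, 0, 4, 4, 4, 4],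
      ![4, 4, 4, 0, 6, 4, 4], ![4, 4, 4, 6, 0, 4, 4], ![4, 4, 4, 4, 4, 0, 6],
      ![4, 4, 4, 4, 4, 6, 0]]
    ?_ (by decide) (by decide) (by decide) ?_
  · intro i j hij
    fin_cases i <;> fin_cases j <;> simp at hij <;> simpa
  · intro u hu
    have e2 := hu 1
    have e3 := hu 2
    have e4 := hu 3
    have e5 := hu 4
    have e6 := hu 5
    have e7 := hu 6
    have e0 := hκ u _ rfl e2 e3
    refine H.span (κ := bL G u (rv a1)) fun v hv => ?_
    rcases hV9 v hv with (rfl | rfl | rfl) | (rfl | rfl | rfl) | (rfl | rfl | rfl)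
    · rfl
    · exact e2
    · exact e3
    · exact e4
    · exact e5
    · exact hκB u _ e0 e4 e5
    · exact e6
    · exact e7
    · exact hκC u _ e0 e6 e7

/-- The case of an edge without triangle. -/
theorem edge_case (hG : IsEvenPosDef G) (h2 : ∀ x : Fin r → ℤ, bL G x x ≠ 2)
    (h8 : ∀ x : Fin r → ℤ, bL G x x ≠ 8) (hcov : CovRat G) (H : HoleData G V c ρ)
    (hdeg : ∀ x ∈ V, ∀ y ∈ V, ∀ z ∈ V, x ≠ z → dd G y x = 6 → dd G y z ≠ 6)
    {a1 a2 : Fin r → ℤ} (ha1 : a1 ∈ V) (ha2 : a2 ∈ V) (h12 : dd G a1 a2 = 6) :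
    PrimitivelyEmbeds G Lam := by
  have hne12 : a1 ≠ a2 := by rintro rfl; rw [dd_self] at h12; omega
  have hfar : ∀ x1 ∈ V, ∀ x2 ∈ V, dd G x1 x2 = 6 → ∀ v ∈ V, v ≠ x1 → v ≠ x2 →
      dd G x1 v = 4 ∧ dd G x2 v = 4 := by
    intro x1 hx1 x2 hx2 hx12 v hv hv1 hv2
    have d1 := H.dist hG h2 h8 hx1 hv hv1.symm
    have d2 := H.dist hG h2 h8 hx2 hv hv2.symm
    have e1 := hdeg x2 hx2 x1 hx1 v hv hv2.symm hx12
    have e2 := hdeg x1 hx1 x2 hx2 v hv hv1.symm (by rw [dd_comm]; exact hx12)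
    omega
  by_cases hV : ∀ v ∈ V, v = a1 ∨ v = a2
  · refine finishPts hG (conf_c2 hG h2 h8 hcov) ![a1, a2]
      ![![0, 6], ![6, 0]] ?_ (by decide) (by decide)
      (by decide) ?_
    · intro i j hij
      fin_cases i <;> fin_cases j <;> simp at hij <;> simpa
    · intro u hu
      refine H.span (κ := bL G u (rv a1)) fun v hv => ?_
      rcases hV v hv with rfl | rfl
      · rfl
      · exact hu 1
  by_cases hE2 : ∃ b1 ∈ V, ∃ b2 ∈ V, b1 ≠ a1 ∧ b1 ≠ a2 ∧ b2 ≠ a1 ∧ b2 ≠ a2 ∧ dd G b1 b2 = 6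
  · obtain ⟨b1, hb1, b2, hb2, hb11, hb12, hb21, hb22, k12⟩ := hE2
    obtain ⟨m11, m21⟩ := hfar a1 ha1 a2 ha2 h12 b1 hb1 hb11 hb12
    obtain ⟨m12, m22⟩ := hfar a1 ha1 a2 ha2 h12 b2 hb2 hb21 hb22
    by_cases hV4 : ∀ v ∈ V, v = a1 ∨ v = a2 ∨ v = b1 ∨ v = b2
    · refine finishPts hG (conf_c22 hG h2 h8 hcov) ![a1, a2, b1, b2]
        ![![0, 6, 4, 4], ![6, 0, 4, 4], ![4, 4, 0, 6], ![4, 4, 6, 0]] ?_ (by decide) (by decide)
        (by decide) ?_
      · intro i j hij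
        fin_cases i <;> fin_cases j <;> simp at hij <;> simpa
      · intro u hu
        refine H.span (κ := bL G u (rv a1)) fun v hv => ?_
        rcases hV4 v hv with rfl | rfl | rfl | rfl
        · rfl
        · exact hu 1
        · exact hu 2
        · exact hu 3
    by_cases hE3 : ∃ c1 ∈ V, ∃ c2 ∈ V, (c1 ≠ a1 ∧ c1 ≠ a2 ∧ c1 ≠ b1 ∧ c1 ≠ b2) ∧
        (c2 ≠ a1 ∧ c2 ≠ a2 ∧ c2 ≠ b1 ∧ c2 ≠ b2) ∧ dd G c1 c2 = 6
    · obtain ⟨c1, hc1, c2, hc2, ⟨hc11, hc12, hc13, hc14⟩, ⟨hc21, hc22, hc23, hc24⟩, l12⟩ := hE3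
      obtain ⟨n11, n21⟩ := hfar a1 ha1 a2 ha2 h12 c1 hc1 hc11 hc12
      obtain ⟨n12, n22⟩ := hfar a1 ha1 a2 ha2 h12 c2 hc2 hc21 hc22
      obtain ⟨o11, o21⟩ := hfar b1 hb1 b2 hb2 k12 c1 hc1 hc13 hc14
      obtain ⟨o12, o22⟩ := hfar b1 hb1 b2 hb2 k12 c2 hc2 hc23 hc24
      have hV6 : ∀ v ∈ V, v = a1 ∨ v = a2 ∨ v = b1 ∨ v = b2 ∨ v = c1 ∨ v = c2 := by
        intro v hv
        by_contra hcon
        push Not at hcon
        obtain ⟨e1, e2, e3, e4, e5, e6⟩ := hcon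
        exact indep_four hG h8 m11 n11 (hfar a1 ha1 a2 ha2 h12 v hv e1 e2).1 o11
          (hfar b1 hb1 b2 hb2 k12 v hv e3 e4).1 (hfar c1 hc1 c2 hc2 l12 v hv e5 e6).1
      refine finishPts hG (conf_c222 hG h2 h8 hcov) ![a1, a2, b1, b2, c1, c2]
        ![![0, 6, 4, 4, 4, 4], ![6, 0, 4, 4, 4, 4], ![4, 4, 0, 6, 4, 4], ![4, 4, 6, 0, 4, 4],
          ![4, 4, 4, 4, 0, 6], ![4, 4, 4, 4, 6, 0]] ?_ (by decide) (by decide)
        (by decide) ?_
      · intro i j hij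
        fin_cases i <;> fin_cases j <;> simp at hij <;> simpa
      · intro u hu
        refine H.span (κ := bL G u (rv a1)) fun v hv => ?_
        rcases hV6 v hv with rfl | rfl | rfl | rfl | rfl | rfl
        · rfl
        · exact hu 1
        · exact hu 2
        · exact hu 3
        · exact hu 4
        · exact hu 5
    · push Not at hV4
      obtain ⟨c1, hc1, hc11, hc12, hc13, hc14⟩ := hV4
      obtain ⟨n11, n21⟩ := hfar a1 ha1 a2 ha2 h12 c1 hc1 hc11 hc12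
      obtain ⟨o11, o21⟩ := hfar b1 hb1 b2 hb2 k12 c1 hc1 hc13 hc14
      have hV5 : ∀ v ∈ V, v = a1 ∨ v = a2 ∨ v = b1 ∨ v = b2 ∨ v = c1 := by
        intro v hv
        by_contra hcon
        push Not at hcon
        obtain ⟨e1, e2, e3, e4, e5⟩ := hcon
        have e6 : dd G c1 v = 4 := by
          have d1 := H.dist hG h2 h8 hc1 hv e5.symm
          rcases d1 with d1 | d1
          · exact d1
          · exfalso
            exact hE3 ⟨c1, hc1, v, hv, ⟨hc11, hc12, hc13, hc14⟩, ⟨e1, e2, e3, e4⟩, d1⟩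
        exact indep_four hG h8 m11 n11 (hfar a1 ha1 a2 ha2 h12 v hv e1 e2).1 o11
          (hfar b1 hb1 b2 hb2 k12 v hv e3 e4).1 e6
      refine finishPts hG (conf_c221 hG h2 h8 hcov) ![a1, a2, b1, b2, c1]
        ![![0, 6, 4, 4, 4], ![6, 0, 4, 4, 4], ![4, 4, 0, 6, 4], ![4, 4, 6, 0, 4],
          ![4, 4, 4, 4, 0]] ?_ (by decide) (by decide)
        (by decide) ?_
      · intro i j hij
        fin_cases i <;> fin_cases j <;> simp at hij <;> simpa
      · intro u hu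
        refine H.span (κ := bL G u (rv a1)) fun v hv => ?_
        rcases hV5 v hv with rfl | rfl | rfl | rfl | rfl
        · rfl
        · exact hu 1
        · exact hu 2
        · exact hu 3
        · exact hu 4
  · push Not at hV
    obtain ⟨b1, hb1, hb11, hb12⟩ := hV
    obtain ⟨m11, m21⟩ := hfar a1 ha1 a2 ha2 h12 b1 hb1 hb11 hb12
    by_cases hV3 : ∀ v ∈ V, v = a1 ∨ v = a2 ∨ v = b1
    · refine finishPts hG (conf_c21 hG h2 h8 hcov) ![a1, a2, b1]
        ![![0, 6, 4], ![6, 0, 4], ![4, 4, 0]] ?_ (by decide) (by decide)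
        (by decide) ?_
      · intro i j hij
        fin_cases i <;> fin_cases j <;> simp at hij <;> simpa
      · intro u hu
        refine H.span (κ := bL G u (rv a1)) fun v hv => ?_
        rcases hV3 v hv with rfl | rfl | rfl
        · rfl
        · exact hu 1
        · exact hu 2
    push Not at hV3
    obtain ⟨c1, hc1, hc11, hc12, hc13⟩ := hV3
    obtain ⟨n11, n21⟩ := hfar a1 ha1 a2 ha2 h12 c1 hc1 hc11 hc12
    have hiso : ∀ x ∈ V, ∀ y ∈ V, x ≠ y → x ≠ a1 → x ≠ a2 → y ≠ a1 → y ≠ a2 → dd G x y = 4 := by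
      intro x hx y hy hxy e1 e2 e3 e4
      rcases H.dist hG h2 h8 hx hy hxy with d | d
      · exact d
      · exact (hE2 ⟨x, hx, y, hy, e1, e2, e3, e4, d⟩).elim
    have hbc := hiso b1 hb1 c1 hc1 hc13.symm hb11 hb12 hc11 hc12
    have hV4 : ∀ v ∈ V, v = a1 ∨ v = a2 ∨ v = b1 ∨ v = c1 := by
      intro v hv
      by_contra hcon
      push Not at hcon
      obtain ⟨e1, e2, e3, e4⟩ := hcon
      exact indep_four hG h8 m11 n11 (hfar a1 ha1 a2 ha2 h12 v hv e1 e2).1 hbc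
        (hiso b1 hb1 v hv e3.symm hb11 hb12 e1 e2) (hiso c1 hc1 v hv e4.symm hc11 hc12 e1 e2)
    refine finishPts hG (conf_c211 hG h2 h8 hcov) ![a1, a2, b1, c1]
      ![![0, 6, 4, 4], ![6, 0, 4, 4], ![4, 4, 0, 4], ![4, 4, 4, 0]] ?_ (by decide) (by decide)
      (by decide) ?_
    · intro i j hij
      fin_cases i <;> fin_cases j <;> simp at hij <;> simpa
    · intro u hu
      refine H.span (κ := bL G u (rv a1)) fun v hv => ?_
      rcases hV4 v hv with rfl | rfl | rfl | rfl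
      · rfl
      · exact hu 1
      · exact hu 2
      · exact hu 3

/-- The case without edges. -/
theorem empty_case (hG : IsEvenPosDef G) (h2 : ∀ x : Fin r → ℤ, bL G x x ≠ 2)
    (h8 : ∀ x : Fin r → ℤ, bL G x x ≠ 8) (hcov : CovRat G) (H : HoleData G V c ρ)
    (hiso : ∀ x ∈ V, ∀ y ∈ V, x ≠ y → dd G x y = 4) : PrimitivelyEmbeds G Lam := by
  obtain ⟨a, ha⟩ := H.nonempty
  by_cases hV : ∀ v ∈ V, v = a
  · refine conf_c1 hG h2 h8 hcov (fun i => i.elim0) fun u _ => ?_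
    refine H.span (κ := bL G u (rv a)) fun v hv => ?_
    rw [hV v hv]
  push Not at hV
  obtain ⟨b, hb, hba⟩ := hV
  have hab := hiso a ha b hb hba.symm
  by_cases hV2 : ∀ v ∈ V, v = a ∨ v = b
  · refine finishPts hG (conf_c11 hG h2 h8 hcov) ![a, b]
      ![![0, 4], ![4, 0]] ?_ (by decide) (by decide)
      (by decide) ?_
    · intro i j hij
      fin_cases i <;> fin_cases j <;> simp at hij <;> simpa
    · intro u hu
      refine H.span (κ := bL G u (rv a)) fun v hv => ?_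
      rcases hV2 v hv with rfl | rfl
      · rfl
      · exact hu 1
  push Not at hV2
  obtain ⟨d, hd, hda, hdb⟩ := hV2
  have had := hiso a ha d hd hda.symm
  have hbd := hiso b hb d hd hdb.symm
  have hV3 : ∀ v ∈ V, v = a ∨ v = b ∨ v = d := by
    intro v hv
    by_contra hcon
    push Not at hcon
    obtain ⟨e1, e2, e3⟩ := hcon
    exact indep_four hG h8 hab had (hiso a ha v hv e1.symm) hbd (hiso b hb v hv e2.symm)
      (hiso d hd v hv e3.symm)
  refine finishPts hG (conf_c111 hG h2 h8 hcov) ![a, b, d]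
    ![![0, 4, 4], ![4, 0, 4], ![4, 4, 0]] ?_ (by decide) (by decide)
    (by decide) ?_
  · intro i j hij
    fin_cases i <;> fin_cases j <;> simp at hij <;> simpa
  · intro u hu
    refine H.span (κ := bL G u (rv a)) fun v hv => ?_
    rcases hV3 v hv with rfl | rfl | rfl
    · rfl
    · exact hu 1
    · exact hu 2

/-- The second case: there is no vector of norm 8. -/
theorem caseB (hG : IsEvenPosDef G) (h2 : ∀ x : Fin r → ℤ, bL G x x ≠ 2)
    (h8 : ∀ x : Fin r → ℤ, bL G x x ≠ 8) (hcov : CovRat G) : PrimitivelyEmbeds G Lam := by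
  obtain ⟨V, c, ρ, H⟩ := exists_holeData hG hcov
  by_cases hpath : ∃ x ∈ V, ∃ y ∈ V, ∃ z ∈ V, dd G x y = 6 ∧ dd G y z = 6 ∧ dd G x z = 4
  · obtain ⟨x, hx, y, hy, z, hz, hxy, hyz, hxz⟩ := hpath
    exact path_case hG h2 h8 hcov H hx hy hz hxy hyz hxz
  have hno : NoPath G V := by
    intro x hx y hy z hz hxz hxy hyz
    rcases H.dist hG h2 h8 hx hz hxz with d | d
    · exact (hpath ⟨x, hx, y, hy, z, hz, hxy, hyz, d⟩).elim
    · exact d
  by_cases htri : ∃ x ∈ V, ∃ y ∈ V, ∃ z ∈ V, dd G x y = 6 ∧ dd G y z = 6 ∧ dd G x z = 6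
  · obtain ⟨x, hx, y, hy, z, hz, hxy, hyz, hxz⟩ := htri
    exact tri_case hG h2 h8 hcov H hno hx hy hz hxy hyz hxz
  by_cases hedge : ∃ x ∈ V, ∃ y ∈ V, dd G x y = 6
  · obtain ⟨x, hx, y, hy, hxy⟩ := hedge
    refine edge_case hG h2 h8 hcov H ?_ hx hy hxy
    intro x hx y hy z hz hxz hyx hyz
    have hxy' : dd G x y = 6 := by rw [dd_comm]; exact hyx
    exact htri ⟨x, hx, y, hy, z, hz, hxy', hyz, hno x hx y hy z hz hxz hxy' hyz⟩
  · refine empty_case hG h2 h8 hcov H fun x hx y hy hxy => ?_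
    rcases H.dist hG h2 h8 hx hy hxy with d | d
    · exact d
    · exact (hedge ⟨x, hx, y, hy, d⟩).elim

/-- The lattice theorem. -/
theorem lattice_theorem (hG : IsEvenPosDef G) (h2 : ∀ x : Fin r → ℤ, bL G x x ≠ 2)
    (hcov : CovRat G) :
    ∃ Λ : Matrix (Fin 24) (Fin 24) ℤ, IsLeech Λ ∧ PrimitivelyEmbeds G Λ := by
  by_cases h8 : ∃ ℓ : Fin r → ℤ, bL G ℓ ℓ = 8
  · obtain ⟨ℓ, hℓ⟩ := h8
    exact caseA hG h2 hcov hℓ
  · push Not at h8
    exact ⟨Lam, isLeech_lam, caseB hG h2 h8 hcov⟩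

end Pool.Agent.Work.MP_ccc26a_nt
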