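import Pool.Agent.Work.MP_ccc26a_nt.CaseB

set_option autoImplicit false

namespace Pool.Agent.Work.MP_ccc26a_nt

variable {r : ℕ} {G : Matrix (Fin r) (Fin r) ℤ} {V : Set (Fin r → ℤ)} {c : Fin r → ℝ} {ρ : ℝ}

theorem star_case (hG : IsEvenPosDef G) (h2 : ∀ x : Fin r → ℤ, bL G x x ≠ 2)
    (h8 : ∀ x : Fin r → ℤ, bL G x x ≠ 8) (hcov : CovRat G) (H : HoleData G V c ρ)
    {y x z w : Fin r → ℤ} (hy : y ∈ V) (hx : x ∈ V) (hz : z ∈ V) (hw : w ∈ V)
    (hyx : dd G y x = 6) (hyz : dd G y z = 6) (hyw : dd G y w = 6)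
    (hxz : dd G x z = 4) (hxw : dd G x w = 4) (hzw : dd G z w = 4) :
    PrimitivelyEmbeds G Lam := by
  have hV : ∀ v ∈ V, v = y ∨ v = x ∨ v = z ∨ v = w := by
    intro v hv
    by_contra hcon
    push Not at hcon
    obtain ⟨hvy, hvx, hvz, hvw⟩ := hcon
    have p1 := H.path hG h2 h8 hx hy hz hv (by rw [dd_comm]; exact hyx) hyz hxz hvx hvy hvz
    have p2 := H.path hG h2 h8 hx hy hw hv (by rw [dd_comm]; exact hyx) hyw hxw hvx hvy hvw
    have p3 := H.path hG h2 h8 hz hy hw hv (by rw [dd_comm]; exact hyz) hyw hzw hvz hvy hvw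
    have q := quad_ne hG h8 x z w v
    rw [dd_comm w v, dd_comm z v] at q
    have d1 := H.dist hG h2 h8 hv hx hvx
    have d2 := H.dist hG h2 h8 hv hy hvy
    have d3 := H.dist hG h2 h8 hv hz hvz
    have d4 := H.dist hG h2 h8 hv hw hvw
    omega
  refine finishPts hG (conf_K13 hG h2 h8 hcov) ![y, x, z, w]
    ![![0, 6, 6, 6], ![6, 0, 4, 4], ![6, 4, 0, 4], ![6, 4, 4, 0]] ?_ (by decide) (by decide)
    (by decide) ?_
  · intro i j hij
    fin_cases i <;> fin_cases j <;> simp at hij <;> simpa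
  · intro u hu
    refine H.span (κ := bL G u (rv y)) fun v hv => ?_
    rcases hV v hv with rfl | rfl | rfl | rfl
    · rfl
    · exact hu 1
    · exact hu 2
    · exact hu 3

theorem p4_case (hG : IsEvenPosDef G) (h2 : ∀ x : Fin r → ℤ, bL G x x ≠ 2)
    (h8 : ∀ x : Fin r → ℤ, bL G x x ≠ 8) (hcov : CovRat G) (H : HoleData G V c ρ)
    {x y z w : Fin r → ℤ} (hx : x ∈ V) (hy : y ∈ V) (hz : z ∈ V) (hw : w ∈ V)
    (hxy : dd G x y = 6) (hyz : dd G y z = 6) (hzw : dd G z w = 6)
    (hxz : dd G x z = 4) (hxw : dd G x w = 4) (hyw : dd G y w = 4) :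
    PrimitivelyEmbeds G Lam := by
  by_cases hV : ∀ v ∈ V, v = x ∨ v = y ∨ v = z ∨ v = w
  · refine finishPts hG (conf_P4 hG h2 h8 hcov) ![x, y, z, w]
      ![![0, 6, 4, 4], ![6, 0, 6, 4], ![4, 6, 0, 6], ![4, 4, 6, 0]] ?_ (by decide) (by decide)
      (by decide) ?_
    · intro i j hij
      fin_cases i <;> fin_cases j <;> simp at hij <;> simpa
    · intro u hu
      refine H.span (κ := bL G u (rv x)) fun v hv => ?_
      rcases hV v hv with rfl | rfl | rfl | rfl
      · rfl
      · exact hu 1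
      · exact hu 2
      · exact hu 3
  · push Not at hV
    obtain ⟨t, ht, htx, hty, htz, htw⟩ := hV
    have p1 := H.path hG h2 h8 hx hy hz ht hxy hyz hxz htx hty htz
    have p2 := H.path hG h2 h8 hy hz hw ht hyz hzw hyw hty htz htw
    have d1 := H.dist hG h2 h8 ht hx htx
    have d2 := H.dist hG h2 h8 ht hy hty
    have d3 := H.dist hG h2 h8 ht hz htz
    have d4 := H.dist hG h2 h8 ht hw htw
    -- the new vertex is adjacent to exactly the two ends
    have hty4 : dd G t y = 4 := by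
      by_contra hne
      have hty6 : dd G t y = 6 := by omega
      -- star at `y` with leaves `x`, `z`, `t`
      have p3 := H.path hG h2 h8 hx hy ht hw hxy (by rw [dd_comm]; exact hty6)
        (by rw [dd_comm]; omega) (by rintro rfl; rw [dd_self] at hxw; omega)
        (by rintro rfl; rw [dd_self] at hyw; omega) (Ne.symm htw)
      rw [dd_comm w x, dd_comm w y, dd_comm w t] at p3
      omega
    have htz4 : dd G t z = 4 := by
      by_contra hne
      have htz6 : dd G t z = 6 := by omega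
      have p3 := H.path hG h2 h8 hw hz ht hx (by rw [dd_comm]; exact hzw)
        (by rw [dd_comm]; exact htz6)
        (by rw [dd_comm]; omega) (by rintro rfl; rw [dd_self] at hxw; omega)
        (by rintro rfl; rw [dd_self] at hxz; omega) (Ne.symm htx)
      rw [dd_comm x t] at p3
      omega
    have htx6 : dd G t x = 6 := by omega
    have htw6 : dd G t w = 6 := by omega
    -- the five-cycle
    have hV5 : ∀ v ∈ V, v = x ∨ v = y ∨ v = z ∨ v = w ∨ v = t := by
      intro v hv
      by_contra hcon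
      push Not at hcon
      obtain ⟨hvx, hvy, hvz, hvw, hvt⟩ := hcon
      have s1 := H.path hG h2 h8 hx hy hz hv hxy hyz hxz hvx hvy hvz
      have s2 := H.path hG h2 h8 hy hz hw hv hyz hzw hyw hvy hvz hvw
      have s3 := H.path hG h2 h8 hz hw ht hv hzw (by rw [dd_comm]; exact htw6)
        (by rw [dd_comm]; exact htz4) hvz hvw hvt
      have s4 := H.path hG h2 h8 hw ht hx hv (by rw [dd_comm]; exact htw6) htx6
        (by rw [dd_comm]; exact hxw) hvw hvt hvx
      have s5 := H.path hG h2 h8 ht hx hy hv htx6 hxy hty4 hvt hvx hvy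
      have e1 := H.dist hG h2 h8 hv hx hvx
      have e2 := H.dist hG h2 h8 hv hy hvy
      have e3 := H.dist hG h2 h8 hv hz hvz
      have e4 := H.dist hG h2 h8 hv hw hvw
      have e5 := H.dist hG h2 h8 hv ht hvt
      omega
    rw [dd_comm] at hty4 htz4 htx6 htw6
    refine finishPts hG (conf_C5 hG h2 h8 hcov) ![x, y, z, w, t]
      ![![0, 6, 4, 4, 6], ![6, 0, 6, 4, 4], ![4, 6, 0, 6, 4], ![4, 4, 6, 0, 6],
        ![6, 4, 4, 6, 0]] ?_ (by decide) (by decide) (by decide) ?_
    · intro i j hij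
      fin_cases i <;> fin_cases j <;> simp at hij <;> simpa
    · intro u hu
      refine H.span (κ := bL G u (rv x)) fun v hv => ?_
      rcases hV5 v hv with rfl | rfl | rfl | rfl | rfl
      · rfl
      · exact hu 1
      · exact hu 2
      · exact hu 3
      · exact hu 4

theorem path_case (hG : IsEvenPosDef G) (h2 : ∀ x : Fin r → ℤ, bL G x x ≠ 2)
    (h8 : ∀ x : Fin r → ℤ, bL G x x ≠ 8) (hcov : CovRat G) (H : HoleData G V c ρ)
    {x y z : Fin r → ℤ} (hx : x ∈ V) (hy : y ∈ V) (hz : z ∈ V)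
    (hxy : dd G x y = 6) (hyz : dd G y z = 6) (hxz : dd G x z = 4) :
    PrimitivelyEmbeds G Lam := by
  by_cases hV : ∀ v ∈ V, v = x ∨ v = y ∨ v = z
  · refine finishPts hG (conf_P3 hG h2 h8 hcov) ![x, y, z]
      ![![0, 6, 4], ![6, 0, 6], ![4, 6, 0]] ?_ (by decide) (by decide)
      (by decide) ?_
    · intro i j hij
      fin_cases i <;> fin_cases j <;> simp at hij <;> simpa
    · intro u hu
      refine H.span (κ := bL G u (rv x)) fun v hv => ?_
      rcases hV v hv with rfl | rfl | rfl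
      · rfl
      · exact hu 1
      · exact hu 2
  · push Not at hV
    obtain ⟨w, hw, hwx, hwy, hwz⟩ := hV
    have p1 := H.path hG h2 h8 hx hy hz hw hxy hyz hxz hwx hwy hwz
    have d1 := H.dist hG h2 h8 hw hx hwx
    have d2 := H.dist hG h2 h8 hw hy hwy
    have d3 := H.dist hG h2 h8 hw hz hwz
    rcases d1 with d1 | d1
    · rcases d2 with d2 | d2
      · -- `w` is adjacent to `z`
        have d3' : dd G w z = 6 := by omega
        refine p4_case hG h2 h8 hcov H hx hy hz hw hxy hyz (by rw [dd_comm]; exact d3') hxz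
          (by rw [dd_comm]; exact d1) (by rw [dd_comm]; exact d2)
      · have d3' : dd G w z = 4 := by omega
        refine star_case hG h2 h8 hcov H hy hx hz hw (by rw [dd_comm]; exact hxy) hyz
          (by rw [dd_comm]; exact d2) hxz (by rw [dd_comm]; exact d1) (by rw [dd_comm]; exact d3')
    · have d2' : dd G w y = 4 := by omega
      have d3' : dd G w z = 4 := by omega
      exact p4_case hG h2 h8 hcov H hw hx hy hz d1 hxy hyz d2' d3' hxz

end Pool.Agent.Work.MP_ccc26a_nt
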