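import Mathlib

set_option autoImplicit false

namespace Pool.Agent.Work.MP_ccc26a_nt

open Module

variable {n : ℕ}

/-- The dual code. -/
def dualCode (C : Submodule (ZMod 2) (Fin n → ZMod 2)) : Submodule (ZMod 2) (Fin n → ZMod 2) where
  carrier := {s | ∀ c ∈ C, ∑ i, s i * c i = 0}
  zero_mem' := fun c _ => by simp
  add_mem' := fun {a b} ha hb c hc => by
    simp only [Pi.add_apply, add_mul, Finset.sum_add_distrib, ha c hc, hb c hc, add_zero]
  smul_mem' := fun t a ha c hc => by
    simp only [Pi.smul_apply, smul_eq_mul, mul_assoc, ← Finset.mul_sum, ha c hc, mul_zero]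

theorem mem_dualCode {C : Submodule (ZMod 2) (Fin n → ZMod 2)} {s : Fin n → ZMod 2} :
    s ∈ dualCode C ↔ ∀ c ∈ C, ∑ i, s i * c i = 0 := Iff.rfl

theorem finrank_add_dualCode (C : Submodule (ZMod 2) (Fin n → ZMod 2)) :
    finrank (ZMod 2) C + finrank (ZMod 2) (dualCode C) = n := by
  let Φ : (Fin n → ZMod 2) →ₗ[ZMod 2] Dual (ZMod 2) C :=
    { toFun := fun s =>
        { toFun := fun c => ∑ i, s i * (c : Fin n → ZMod 2) i
          map_add' := fun a b => by
            simp only [Submodule.coe_add, Pi.add_apply, mul_add, Finset.sum_add_distrib]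
          map_smul' := fun t a => by
            simp only [Submodule.coe_smul, Pi.smul_apply, smul_eq_mul, RingHom.id_apply,
              Finset.mul_sum]
            exact Finset.sum_congr rfl fun i _ => by ring }
      map_add' := fun a b => LinearMap.ext fun c => by
        show ∑ i, (a + b) i * (c : Fin n → ZMod 2) i = _
        simp only [Pi.add_apply, add_mul, Finset.sum_add_distrib]
        rfl
      map_smul' := fun t a => LinearMap.ext fun c => by
        show ∑ i, (t • a) i * (c : Fin n → ZMod 2) i = t * ∑ i, a i * (c : Fin n → ZMod 2) i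
        simp only [Pi.smul_apply, smul_eq_mul, Finset.mul_sum]
        exact Finset.sum_congr rfl fun i _ => by ring }
  have hker : LinearMap.ker Φ = dualCode C := by
    ext s
    rw [LinearMap.mem_ker, mem_dualCode]
    constructor
    · intro h c hc
      exact LinearMap.congr_fun h ⟨c, hc⟩
    · intro h
      exact LinearMap.ext fun c => h c c.2
  have hsurj : Function.Surjective Φ := by
    intro f
    obtain ⟨g, hg⟩ := LinearMap.exists_extend f
    refine ⟨fun i => g (Pi.single i 1), LinearMap.ext fun c => ?_⟩
    show ∑ i, g (Pi.single i 1) * (c : Fin n → ZMod 2) i = f c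
    have h1 : f c = g c := by rw [← hg]; rfl
    rw [h1]
    conv_rhs => rw [← Finset.univ_sum_single (c : Fin n → ZMod 2)]
    rw [map_sum]
    refine Finset.sum_congr rfl fun i _ => ?_
    have h2 : (Pi.single i ((c : Fin n → ZMod 2) i) : Fin n → ZMod 2) =
        (c : Fin n → ZMod 2) i • Pi.single i (1 : ZMod 2) := by
      rw [← Pi.single_smul, smul_eq_mul, mul_one]
    rw [h2, map_smul, smul_eq_mul, mul_comm]
  have h1 := LinearMap.finrank_range_add_finrank_ker Φ
  rw [hker, LinearMap.range_eq_top.mpr hsurj, finrank_top, Subspace.dual_finrank_eq,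
    Module.finrank_fin_fun] at h1
  exact h1

theorem z2 (t : ZMod 2) (h : t ≠ 0) : t = 1 := by
  revert t; decide

theorem z2c (t : ZMod 2) : t = 0 ∨ t = 1 := by
  revert t; decide

/-- The number of common nonzero entries. -/
def common (s t : Fin n → ZMod 2) : ℕ := (Finset.univ.filter fun i => s i ≠ 0 ∧ t i ≠ 0).card

theorem hamming_add (s t : Fin n → ZMod 2) :
    hammingNorm (s + t) + 2 * common s t = hammingNorm s + hammingNorm t := by
  simp only [hammingNorm, common, Finset.card_filter, Finset.mul_sum, ← Finset.sum_add_distrib]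
  refine Finset.sum_congr rfl fun i _ => ?_
  rw [Pi.add_apply]
  have h11 : (1 + 1 : ZMod 2) = 0 := by decide
  rcases z2c (s i) with h | h <;> rcases z2c (t i) with h' | h' <;> simp [h, h', h11]

theorem dot_eq (s t : Fin n → ZMod 2) : ∑ i, s i * t i = (common s t : ZMod 2) := by
  simp only [common, Finset.card_filter, Nat.cast_sum]
  refine Finset.sum_congr rfl fun i _ => ?_
  generalize s i = a
  generalize t i = b
  revert a b
  decide

theorem sum_eq_hamming (s : Fin n → ZMod 2) : ∑ i, s i = (hammingNorm s : ZMod 2) := by
  simp only [hammingNorm, Finset.card_filter, Nat.cast_sum]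
  refine Finset.sum_congr rfl fun i _ => ?_
  rcases z2c (s i) with h | h <;> simp [h]

theorem natCast_zmod2 (k : ℕ) : (k : ZMod 2) = 0 ↔ 2 ∣ k := ZMod.natCast_eq_zero_iff k 2

/-- Doubly even codes are self-orthogonal. -/
theorem le_dualCode {C : Submodule (ZMod 2) (Fin n → ZMod 2)} (h4 : ∀ c ∈ C, 4 ∣ hammingNorm c) :
    C ≤ dualCode C := by
  intro s hs c hc
  rw [dot_eq, natCast_zmod2]
  have h1 := hamming_add s c
  have h2 := h4 _ (C.add_mem hs hc)
  have h3 := h4 _ hs
  have h5 := h4 _ hc
  omega

/-- Covering estimate. -/
theorem cover_count (C : Submodule (ZMod 2) (Fin n → ZMod 2)) (B : Finset (Fin n → ZMod 2))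
    (h : ∀ s, ∃ c ∈ C, ∃ t ∈ B, s = c + t) : 2 ^ n ≤ 2 ^ (finrank (ZMod 2) C) * B.card := by
  classical
  have h1 : Function.Surjective fun p : C × B => ((p.1 : Fin n → ZMod 2) + (p.2 : Fin n → ZMod 2)) := by
    intro s
    obtain ⟨c, hc, t, ht, hs⟩ := h s
    exact ⟨(⟨c, hc⟩, ⟨t, ht⟩), hs.symm⟩
  have h2 := Fintype.card_le_of_surjective _ h1
  rw [Fintype.card_prod, Fintype.card_coe, Module.card_eq_pow_finrank (K := ZMod 2) (V := C),
    Fintype.card_fun, ZMod.card, Fintype.card_fin] at h2
  exact h2

/-- The vectors of small weight. -/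
theorem card_ball_le (A : Finset (Fin n)) (k : ℕ) :
    ((Finset.univ : Finset (Fin n → ZMod 2)).filter fun t =>
      hammingNorm t ≤ k ∧ ∀ i, t i ≠ 0 → i ∈ A).card ≤ ∑ j ∈ Finset.range (k + 1), A.card.choose j := by
  classical
  have h1 : ((Finset.univ : Finset (Fin n → ZMod 2)).filter fun t =>
      hammingNorm t ≤ k ∧ ∀ i, t i ≠ 0 → i ∈ A).card ≤
      ((Finset.range (k + 1)).biUnion fun j => A.powersetCard j).card := by
    refine Finset.card_le_card_of_injOn (fun t => Finset.univ.filter fun i => t i ≠ 0) ?_ ?_
    · intro t ht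
      rw [Finset.mem_coe, Finset.mem_filter] at ht
      rw [Finset.mem_coe, Finset.mem_biUnion]
      refine ⟨hammingNorm t, ?_, ?_⟩
      · rw [Finset.mem_range]; omega
      · rw [Finset.mem_powersetCard]
        refine ⟨fun i hi => ht.2.2 i (Finset.mem_filter.mp hi).2, rfl⟩
    · intro s _ t _ hst
      ext i
      have h2 : (i ∈ Finset.univ.filter fun i => s i ≠ 0) ↔
          (i ∈ Finset.univ.filter fun i => t i ≠ 0) := by
        simp only at hst
        rw [hst]
      simp only [Finset.mem_filter, Finset.mem_univ, true_and] at h2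
      by_cases h3 : s i = 0
      · have h4 : t i = 0 := by
          by_contra h4
          exact (h2.mpr h4) h3
        rw [h3, h4]
      · rw [z2 _ h3, z2 _ (h2.mp h3)]
  refine h1.trans (Finset.card_biUnion_le.trans ?_)
  refine Finset.sum_le_sum fun j _ => ?_
  rw [Finset.card_powersetCard]

theorem code_rank_bound {C : Submodule (ZMod 2) (Fin n → ZMod 2)}
    (hcov : ∀ s, ∃ c ∈ C, hammingNorm (s - c) ≤ 4) :
    2 ^ n ≤ 2 ^ (finrank (ZMod 2) C) * ∑ j ∈ Finset.range 5, n.choose j := by
  have h1 := cover_count C ((Finset.univ : Finset (Fin n → ZMod 2)).filter fun t =>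
      hammingNorm t ≤ 4 ∧ ∀ i, t i ≠ 0 → i ∈ (Finset.univ : Finset (Fin n))) (by
    intro s
    obtain ⟨c, hc, hs⟩ := hcov s
    refine ⟨c, hc, s - c, ?_, by abel⟩
    simp [hs])
  have h2 := card_ball_le (Finset.univ : Finset (Fin n)) 4
  rw [Finset.card_univ, Fintype.card_fin] at h2
  exact h1.trans (Nat.mul_le_mul_left _ h2)

theorem code_rank_le {C : Submodule (ZMod 2) (Fin n → ZMod 2)} (hC : C ≤ dualCode C) :
    2 * finrank (ZMod 2) C ≤ n := by
  have h1 := finrank_add_dualCode C
  have h2 := Submodule.finrank_mono hC
  omega

/-- There is no doubly even code of length 32 with covering radius at most 4. -/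
theorem code32 (C : Submodule (ZMod 2) (Fin 32 → ZMod 2)) (h4 : ∀ c ∈ C, 4 ∣ hammingNorm c)
    (hcov : ∀ s, ∃ c ∈ C, hammingNorm (s - c) ≤ 4) : False := by
  have h1 := code_rank_bound hcov
  have h2 := code_rank_le (le_dualCode h4)
  have h3 : finrank (ZMod 2) C ≤ 16 := by omega
  have h5 : 2 ^ (finrank (ZMod 2) C) ≤ 2 ^ 16 := Nat.pow_le_pow_right (by norm_num) h3
  have h6 : ∑ j ∈ Finset.range 5, (32 : ℕ).choose j = 41449 := by decide
  rw [h6] at h1
  have h7 := h1.trans (Nat.mul_le_mul_right 41449 h5)
  norm_num at h7

/-- A doubly even code of length 24 with covering radius at most 4 is self-dual. -/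
theorem code24 (C : Submodule (ZMod 2) (Fin 24 → ZMod 2)) (h4 : ∀ c ∈ C, 4 ∣ hammingNorm c)
    (hone : (fun _ => 1) ∈ C)
    (hcov : ∀ s, ∃ c ∈ C, hammingNorm (s - c) ≤ 4) : dualCode C = C := by
  have h1 := code_rank_bound hcov
  have hle := le_dualCode h4
  have h2 := code_rank_le hle
  have h6 : ∑ j ∈ Finset.range 5, (24 : ℕ).choose j = 12951 := by decide
  rw [h6] at h1
  have hsum := finrank_add_dualCode C
  have h11 : 11 ≤ finrank (ZMod 2) C := by
    by_contra hlt
    push Not at hlt
    have h5 : 2 ^ (finrank (ZMod 2) C) ≤ 2 ^ 10 := Nat.pow_le_pow_right (by norm_num) (by omega)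
    have h7 := h1.trans (Nat.mul_le_mul_right 12951 h5)
    norm_num at h7
  rcases (show finrank (ZMod 2) C = 12 ∨ finrank (ZMod 2) C = 11 by omega) with hr | hr
  · exact (Submodule.eq_of_le_of_finrank_eq hle (by omega)).symm
  · exfalso
    -- a word of the dual code whose weight is not divisible by four
    have hex : ∃ w ∈ dualCode C, ¬ (4 ∣ hammingNorm w) := by
      by_contra hcon
      push Not at hcon
      have h3 := code_rank_le (le_dualCode hcon)
      omega
    obtain ⟨w, hw, hw4⟩ := hex
    obtain ⟨c, hc, hwc⟩ := hcov w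
    set v := w - c with hv
    have hvD : v ∈ dualCode C := Submodule.sub_mem _ hw (hle hc)
    have hv2 : 2 ∣ hammingNorm v := by
      have h3 := hvD _ hone
      simp only [mul_one] at h3
      rw [sum_eq_hamming, natCast_zmod2] at h3
      exact h3
    have hv4 : ¬ (4 ∣ hammingNorm v) := by
      intro h3
      apply hw4
      have h5 : w = v + c := by rw [hv]; abel
      have h7 := hamming_add v c
      rw [← h5] at h7
      have h8 := hvD c hc
      rw [dot_eq, natCast_zmod2] at h8
      have h9 := h4 c hc
      omega
    have hvn : hammingNorm v = 2 := by omega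
    obtain ⟨i, j, hij, hsupp⟩ := Finset.card_eq_two.mp hvn
    have hvi : ∀ k, v k ≠ 0 ↔ (k = i ∨ k = j) := by
      intro k
      have : k ∈ (Finset.univ.filter fun i => v i ≠ 0) ↔ k ∈ ({i, j} : Finset (Fin 24)) := by
        rw [hsupp]
      simpa using this
    have hcij : ∀ c ∈ C, c i = c j := by
      intro c hc
      have h3 := hvD c hc
      have h5 : ∑ k, v k * c k = c i + c j := by
        have h7 : ∀ k, v k * c k = (if k = i then c k else 0) + (if k = j then c k else 0) := by
          intro k
          by_cases hk : v k = 0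
          · have h8 : ¬ (k = i ∨ k = j) := fun h => (hvi k).mpr h hk
            push Not at h8
            simp [hk, h8.1, h8.2]
          · rw [z2 _ hk]
            rcases (hvi k).mp hk with h | h
            · rw [h]; simp [hij]
            · rw [h]; simp [hij.symm]
        simp only [h7, Finset.sum_add_distrib]
        simp
      rw [h5] at h3
      generalize c i = a at h3 ⊢
      generalize c j = b at h3 ⊢
      revert a b
      decide
    -- the second covering estimate
    set A : Finset (Fin 24) := (Finset.univ.erase i).erase j with hA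
    have hAcard : A.card = 22 := by
      rw [hA, Finset.card_erase_of_mem (by simp [hij.symm]), Finset.card_erase_of_mem (by simp),
        Finset.card_univ, Fintype.card_fin]
    set B0 := ((Finset.univ : Finset (Fin 24 → ZMod 2)).filter fun t =>
      hammingNorm t ≤ 3 ∧ ∀ i, t i ≠ 0 → i ∈ A) with hB0
    set B := ((B0 ×ˢ (Finset.univ : Finset (ZMod 2))) ×ˢ (Finset.univ : Finset (ZMod 2))).image
      (fun p => p.1.1 + Pi.single i p.1.2 + Pi.single j p.2) with hB
    have hB0card : B0.card ≤ 1794 := by
      have h3 := card_ball_le A 3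
      rw [hAcard] at h3
      refine h3.trans (le_of_eq ?_)
      decide
    have hBcard : B.card ≤ B0.card * 2 * 2 := by
      refine Finset.card_image_le.trans (le_of_eq ?_)
      rw [Finset.card_product, Finset.card_product, Finset.card_univ, ZMod.card]
    have h3 := cover_count C B (by
      intro s
      -- modify the entry at `i` such that the entries at `i` and `j` differ
      obtain ⟨c, hc, hs⟩ := hcov (s + Pi.single i (s i + s j + 1))
      set t := s + Pi.single i (s i + s j + 1) - c with ht
      have hti : t i = s j + 1 + c i := by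
        rw [ht]
        simp only [Pi.sub_apply, Pi.add_apply, Pi.single_eq_same]
        generalize s i = a
        generalize s j = b
        generalize c i = d
        revert a b d
        decide
      have htj : t j = s j + c j := by
        rw [ht]
        simp only [Pi.sub_apply, Pi.add_apply, Pi.single_eq_of_ne hij.symm]
        generalize s j = b
        generalize c j = d
        revert b d
        decide
      have htij : t i + t j = 1 := by
        rw [hti, htj, hcij c hc]
        generalize s j = b
        generalize c j = d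
        revert b d
        decide
      -- the part of `t` outside `i`, `j`
      set u : Fin 24 → ZMod 2 := fun k => if k = i ∨ k = j then 0 else t k with hu
      have hunorm : hammingNorm u ≤ 3 := by
        have h5 : hammingNorm u < hammingNorm t := by
          refine Finset.card_lt_card ?_
          rw [Finset.ssubset_iff_of_subset]
          · rcases (show t i ≠ 0 ∨ t j ≠ 0 by
              by_contra hcon
              push Not at hcon
              rw [hcon.1, hcon.2] at htij
              simp at htij) with h | h
            · exact ⟨i, by simp [h], by simp [hu]⟩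
            · exact ⟨j, by simp [h], by simp [hu]⟩
          · intro k hk
            simp only [Finset.mem_filter, Finset.mem_univ, true_and, hu] at hk ⊢
            by_contra hk0
            apply hk
            rw [hk0]
            simp
        omega
      refine ⟨c, hc, s - c, ?_, by abel⟩
      rw [hB, Finset.mem_image]
      refine ⟨((u, s i - c i), s j - c j), ?_, ?_⟩
      · simp only [Finset.mem_product, Finset.mem_univ, and_true, hB0, Finset.mem_filter, true_and]
        refine ⟨hunorm, fun k hk => ?_⟩
        rw [hA, Finset.mem_erase, Finset.mem_erase]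
        simp only [hu] at hk
        by_cases hki : k = i ∨ k = j
        · simp [hki] at hk
        · push Not at hki
          exact ⟨hki.2, hki.1, Finset.mem_univ _⟩
      · ext k
        simp only [Pi.add_apply, hu, Pi.sub_apply, Pi.single_apply]
        by_cases hki : k = i
        · subst hki
          simp [hij]
        · by_cases hkj : k = j
          · subst hkj
            simp [hij.symm]
          · simp only [hki, hkj, or_self, if_false, add_zero, ht, Pi.sub_apply, Pi.add_apply,
              Pi.single_apply])
    rw [hr] at h3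
    have h5 : B.card ≤ 1794 * 2 * 2 := hBcard.trans (by omega)
    have h7 := h3.trans (Nat.mul_le_mul_left _ h5)
    norm_num at h7

end Pool.Agent.Work.MP_ccc26a_nt
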