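import Pool.Agent.Work.MP_ccc26a_nt.Modular

set_option autoImplicit false

namespace Pool.Agent.Work.MP_ccc26a_nt

open Filter Topology Set

variable {r : ℕ} {G : Matrix (Fin r) (Fin r) ℤ}

theorem convex_posCone (hG : IsEvenPosDef G) : Convex ℝ {Y : NVec ℝ r | PosCone G Y} := by
  rintro Y hY W hW s t hs ht hst
  have h1 := posCone_inner hG hY hW
  obtain ⟨hY1, hY2⟩ := hY
  obtain ⟨hW1, hW2⟩ := hW
  rcases eq_or_lt_of_le hs with h0 | h0
  · have ht1 : t = 1 := by linarith
    rw [← h0, ht1, zero_smul, one_smul, zero_add]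
    exact ⟨hW1, hW2⟩
  · refine ⟨?_, ?_⟩
    · rw [bN_add_left, bN_add_right, bN_add_right, bN_smul_left, bN_smul_right, bN_smul_left,
        bN_smul_right, bN_smul_left, bN_smul_right, bN_smul_left, bN_smul_right,
        bN_comm hG.symm W Y]
      have h2 : 0 < s * (s * bN G Y Y) := by positivity
      have h3 : 0 ≤ s * (t * bN G Y W) := by positivity
      have h4 : 0 ≤ t * (s * bN G Y W) := by positivity
      have h5 : 0 ≤ t * (t * bN G W W) := by positivity
      linarith
    · simp only [Prod.snd_add, Prod.smul_snd, smul_eq_mul]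
      have : 0 ≤ t * W.2.2 := by positivity
      have : 0 < s * Y.2.2 := by positivity
      linarith

theorem continuous_bN {K : Type*} [NormedField K] :
    Continuous fun q : NVec K r × NVec K r => bN G q.1 q.2 := by
  simp only [bN, bL]
  fun_prop

theorem continuous_cplx : Continuous (cplx : NVec ℝ r × NVec ℝ r → NVec ℂ r) := by
  unfold cplx
  have h : Continuous (Complex.ofReal) := Complex.continuous_ofReal
  refine Continuous.prodMk ?_ (Continuous.prodMk ?_ ?_)
  · exact (h.comp (by fun_prop)).add ((h.comp (by fun_prop)).mul continuous_const)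
  · refine continuous_pi fun i => ?_
    exact (h.comp (by fun_prop)).add ((h.comp (by fun_prop)).mul continuous_const)
  · exact (h.comp (by fun_prop)).add ((h.comp (by fun_prop)).mul continuous_const)

theorem continuous_zc (ε : ℤ) : Continuous (zc G ε) := by
  unfold zc
  refine Continuous.prodMk continuous_const (Continuous.prodMk continuous_cplx ?_)
  have : Continuous fun p : NVec ℝ r × NVec ℝ r => bN G (cplx p) (cplx p) :=
    (continuous_bN (K := ℂ)).comp (continuous_cplx.prodMk continuous_cplx)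
  fun_prop

theorem smul_comp_mem (hG : IsEvenPosDef G) {ε : ℤ} (hε : ε = 1 ∨ ε = -1) {t : ℂ} (ht : t ≠ 0)
    {p : NVec ℝ r × NVec ℝ r} (hp : PosCone G p.2) : t • zc G ε p ∈ comp G ε := by
  have h := zc_mem hG.symm hε hp
  have hnt : 0 < ‖t‖ ^ 2 := by positivity
  refine ⟨⟨?_, ?_⟩, ?_⟩
  · rw [bM_smul_left, bM_smul_right, bM_zc hε]; simp
  · have h3 : conjM (t • zc G ε p) = (starRingEnd ℂ t) • conjM (zc G ε p) := by
      ext <;> simp [conjM]
    rw [h3, bM_smul_left, bM_smul_right, ← mul_assoc, Complex.mul_conj,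
      Complex.normSq_eq_norm_sq, Complex.re_ofReal_mul]
    exact mul_pos hnt h.1.2
  · have h3 : (t • zc G ε p).2.1.2.2 * (starRingEnd ℂ) (t • zc G ε p).1 =
        ((‖t‖ ^ 2 : ℝ) : ℂ) * ((zc G ε p).2.1.2.2 * (starRingEnd ℂ) (zc G ε p).1) := by
      simp only [Prod.smul_fst, Prod.smul_snd, smul_eq_mul, map_mul]
      rw [← Complex.normSq_eq_norm_sq, ← Complex.mul_conj]
      ring
    rw [h3, Complex.im_ofReal_mul]
    have h4 := h.2
    have h5 : (ε : ℝ) * (‖t‖ ^ 2 * ((zc G ε p).2.1.2.2 * (starRingEnd ℂ) (zc G ε p).1).im) =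
        ‖t‖ ^ 2 * (ε * ((zc G ε p).2.1.2.2 * (starRingEnd ℂ) (zc G ε p).1).im) := by ring
    rw [h5]
    exact mul_pos hnt h4

theorem comp_eq_image (hG : IsEvenPosDef G) {ε : ℤ} (hε : ε = 1 ∨ ε = -1) :
    comp G ε = (fun q : ℂ × (NVec ℝ r × NVec ℝ r) => q.1 • zc G ε q.2) ''
      ({t | t ≠ 0} ×ˢ {p | PosCone G p.2}) := by
  ext w
  constructor
  · intro hw
    obtain ⟨t, ht, p, hp, rfl⟩ := exists_zc hG hε hw
    exact ⟨(t, p), ⟨ht, hp⟩, rfl⟩
  · rintro ⟨⟨t, p⟩, ⟨ht, hp⟩, rfl⟩
    exact smul_comp_mem hG hε ht hp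

theorem isPreconnected_comp (hG : IsEvenPosDef G) {ε : ℤ} (hε : ε = 1 ∨ ε = -1) :
    IsPreconnected (comp G ε) := by
  rw [comp_eq_image hG hε]
  refine IsPreconnected.image ?_ _ ?_
  · refine IsPreconnected.prod ?_ ?_
    · have : IsConnected ({(0 : ℂ)}ᶜ : Set ℂ) :=
        isConnected_compl_singleton_of_one_lt_rank (by simp [Complex.rank_real_complex]) 0
      exact this.isPreconnected
    · have : Convex ℝ {p : NVec ℝ r × NVec ℝ r | PosCone G p.2} := by
        intro p hp q hq s t hs ht hst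
        exact convex_posCone hG hp hq hs ht hst
      exact this.isPreconnected
  · refine Continuous.continuousOn ?_
    exact continuous_fst.smul ((continuous_zc ε).comp continuous_snd)

/-- Each component of the period domain is `comp G 1` or `comp G (-1)`. -/
theorem component_eq (hG : IsEvenPosDef G) {D : Set (MVec ℂ r)} (hD : IsPeriodComponent G D) :
    ∃ ε : ℤ, (ε = 1 ∨ ε = -1) ∧ D = comp G ε := by
  obtain ⟨w, hw, rfl⟩ := hD
  -- the sign of `w`
  have himne : ∀ w ∈ periodCone G, (w.2.1.2.2 * (starRingEnd ℂ) w.1).im ≠ 0 := by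
    intro w hw h0
    have ha := periodCone_fst_ne hG hw
    -- use the parametrisation with real scaling
    set p := reIm (w.1⁻¹ • w.2.1) with hp
    have hcp : cplx p = w.1⁻¹ • w.2.1 := cplx_reIm _
    have hweq : w = w.1 • zc G 1 p := by
      refine Prod.ext ?_ (Prod.ext ?_ ?_)
      · simp [zc]
      · simp only [zc, Prod.smul_fst, Prod.smul_snd, hcp, smul_smul, mul_inv_cancel₀ ha, one_smul]
      · simp only [zc, Prod.smul_snd, smul_eq_mul, hcp, bN_smul_left, bN_smul_right]
        have h1 := hw.1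
        simp only [bM] at h1
        have h2 : bN G w.2.1 w.2.1 = -2 * w.1 * w.2.2 := by linear_combination h1
        rw [h2]
        push_cast
        field_simp
    have hnt : 0 < ‖w.1‖ ^ 2 := by positivity
    have h1 : 0 < bN G p.2 p.2 := by
      have h1 := hw.2
      have h2 : bM G w (conjM w) = (‖w.1‖ ^ 2 : ℝ) * ((2 * bN G p.2 p.2 : ℝ) : ℂ) := by
        have h3 : conjM w = (starRingEnd ℂ w.1) • conjM (zc G 1 p) := by
          conv_lhs => rw [hweq]
          ext <;> simp [conjM]
        rw [h3]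
        conv_lhs => rw [hweq]
        rw [bM_smul_left, bM_smul_right, bM_conj_zc hG.symm (Or.inl rfl), ← mul_assoc]
        have h4 : (w.1 • zc G 1 p).1 = w.1 := by rw [← hweq]
        rw [h4, Complex.mul_conj, Complex.normSq_eq_norm_sq]
      rw [h2, ← Complex.ofReal_mul, Complex.ofReal_re] at h1
      by_contra hc
      push Not at hc
      have := mul_nonpos_of_nonneg_of_nonpos hnt.le (show 2 * bN G p.2 p.2 ≤ 0 by linarith)
      linarith
    have h2 : (w.2.1.2.2 * (starRingEnd ℂ) w.1).im = ‖w.1‖ ^ 2 * p.2.2.2 := by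
      have h4 : w.2.1.2.2 = w.1 * ((p.1.2.2 : ℂ) + p.2.2.2 * Complex.I) := by
        have h5 : w.2.1.2.2 = (w.1 • zc G 1 p).2.1.2.2 := by rw [← hweq]
        rw [h5]; simp [zc, cplx]
      have h6 : w.2.1.2.2 * (starRingEnd ℂ) w.1 =
          ((‖w.1‖ ^ 2 : ℝ) : ℂ) * ((p.1.2.2 : ℂ) + p.2.2.2 * Complex.I) := by
        rw [h4, ← Complex.normSq_eq_norm_sq, ← Complex.mul_conj]; ring
      rw [h6, Complex.im_ofReal_mul]
      simp
    rw [h2] at h0
    rcases mul_eq_zero.mp h0 with h | h
    · exact absurd h hnt.ne'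
    · have := bN_self_nonpos hG p.2 h
      linarith
  have hsgn : ∃ ε : ℤ, (ε = 1 ∨ ε = -1) ∧ w ∈ comp G ε := by
    rcases lt_or_gt_of_ne (himne w hw) with h | h
    · refine ⟨-1, Or.inr rfl, hw, ?_⟩
      push_cast
      linarith
    · refine ⟨1, Or.inl rfl, hw, ?_⟩
      push_cast
      linarith
  obtain ⟨ε, hε, hwε⟩ := hsgn
  refine ⟨ε, hε, Subset.antisymm ?_ ?_⟩
  · -- the sign is constant on the connected component
    intro v hv
    have hvper : v ∈ periodCone G := connectedComponentIn_subset _ _ hv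
    refine ⟨hvper, ?_⟩
    have hcont : Continuous fun w : MVec ℂ r => (ε : ℝ) * (w.2.1.2.2 * (starRingEnd ℂ) w.1).im := by
      have h1 : Continuous fun w : MVec ℂ r => w.2.1.2.2 * (starRingEnd ℂ) w.1 := by
        have : Continuous (starRingEnd ℂ) := Complex.continuous_conj
        fun_prop
      exact continuous_const.mul (Complex.continuous_im.comp h1)
    have hpre : IsPreconnected ((fun w : MVec ℂ r =>
        (ε : ℝ) * (w.2.1.2.2 * (starRingEnd ℂ) w.1).im) ''
          connectedComponentIn (periodCone G) w) :=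
      isPreconnected_connectedComponentIn.image _ hcont.continuousOn
    by_contra hc
    push Not at hc
    have h1 : (0 : ℝ) ∈ (fun w : MVec ℂ r =>
        (ε : ℝ) * (w.2.1.2.2 * (starRingEnd ℂ) w.1).im) ''
          connectedComponentIn (periodCone G) w := by
      refine hpre.ordConnected.out ⟨v, hv, rfl⟩ ⟨w, mem_connectedComponentIn hw, rfl⟩ ?_
      exact ⟨hc, hwε.2.le⟩
    obtain ⟨u, hu, hu0⟩ := h1
    have h2 := himne u (connectedComponentIn_subset _ _ hu)
    simp only at hu0
    rcases mul_eq_zero.mp hu0 with h | h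
    · have : (ε : ℝ) * ε = 1 := sq_epsR hε
      rw [h] at this
      norm_num at this
    · exact h2 h
  · exact (isPreconnected_comp hG hε).subset_connectedComponentIn hwε fun v hv => hv.1

end Pool.Agent.Work.MP_ccc26a_nt
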