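import Pool.Agent.Work.MP_ccc26a_nt.Roots

set_option autoImplicit false

namespace Pool.Agent.Work.MP_ccc26a_nt

variable {r : ℕ} {G : Matrix (Fin r) (Fin r) ℤ}

theorem bL_real_nonneg (hG : IsEvenPosDef G) (x : Fin r → ℝ) : 0 ≤ bL G x x := by
  rcases eq_or_ne x 0 with rfl | hx
  · simp [bL_zero_left]
  · exact (hG.pos x hx).le

theorem bN_self_nonpos (hG : IsEvenPosDef G) (Y : NVec ℝ r) (h : Y.2.2 = 0) : bN G Y Y ≤ 0 := by
  have := bL_real_nonneg hG Y.2.1
  simp only [bN, h]
  linarith

/-- The positive cone of `N ⊗ ℝ`. -/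
def PosCone (G : Matrix (Fin r) (Fin r) ℤ) (Y : NVec ℝ r) : Prop := 0 < bN G Y Y ∧ 0 < Y.2.2

theorem bN_comb (hG : IsEvenPosDef G) (Y W : NVec ℝ r) :
    W.2.2 ^ 2 * bN G Y Y + Y.2.2 ^ 2 * bN G W W ≤ 2 * (Y.2.2 * W.2.2) * bN G Y W := by
  have h1 := bN_self_nonpos hG (W.2.2 • Y - Y.2.2 • W) (by simp; ring)
  rw [bN_sub_left, bN_sub_right, bN_sub_right, bN_smul_left, bN_smul_right, bN_smul_left,
      bN_smul_right, bN_smul_left, bN_smul_right, bN_smul_left, bN_smul_right,
      bN_comm hG.symm W Y] at h1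
  nlinarith

theorem posCone_inner (hG : IsEvenPosDef G) {Y W : NVec ℝ r} (hY : PosCone G Y)
    (hW : PosCone G W) : 0 < bN G Y W := by
  have h1 := bN_comb hG Y W
  have h2 : 0 < W.2.2 ^ 2 * bN G Y Y + Y.2.2 ^ 2 * bN G W W := by
    have := hY.1; have := hY.2; have := hW.1; have := hW.2
    positivity
  have h3 : 0 < 2 * (Y.2.2 * W.2.2) := by
    have := hY.2; have := hW.2
    positivity
  by_contra h
  push Not at h
  have := mul_nonpos_of_nonneg_of_nonpos h3.le h
  linarith

theorem posCone_inner_two (hG : IsEvenPosDef G) {Y W : NVec ℝ r} (hY : 2 < bN G Y Y)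
    (hY' : 0 < Y.2.2) (hW : 2 < bN G W W) (hW' : 0 < W.2.2) : 2 < bN G Y W := by
  have h1 := bN_comb hG Y W
  have h3 : 0 < 2 * (Y.2.2 * W.2.2) := by positivity
  by_contra h
  push Not at h
  have h4 : 2 * (Y.2.2 * W.2.2) * bN G Y W ≤ 2 * (Y.2.2 * W.2.2) * 2 :=
    mul_le_mul_of_nonneg_left h h3.le
  have h5 : W.2.2 ^ 2 * 2 < W.2.2 ^ 2 * bN G Y Y := mul_lt_mul_of_pos_left hY (by positivity)
  have h6 : Y.2.2 ^ 2 * 2 < Y.2.2 ^ 2 * bN G W W := mul_lt_mul_of_pos_left hW (by positivity)
  nlinarith [sq_nonneg (Y.2.2 - W.2.2)]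

theorem posCone_of_inner (hG : IsEvenPosDef G) {Y W : NVec ℝ r} (hY : PosCone G Y)
    (hW : 0 < bN G W W) (h : 0 < bN G Y W) : PosCone G W := by
  refine ⟨hW, ?_⟩
  rcases lt_trichotomy W.2.2 0 with hlt | heq | hgt
  · exfalso
    have h1 : PosCone G (-W) := by
      refine ⟨by rw [bN_neg_left, bN_neg_right]; simpa using hW, ?_⟩
      simpa using hlt
    have h2 := posCone_inner hG hY h1
    rw [bN_neg_right] at h2
    linarith
  · have := bN_self_nonpos hG W heq
    linarith
  · exact hgt

/-- The set of imaginary parts: norm greater than 2 and positive on all positive roots. -/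
def Region (G : Matrix (Fin r) (Fin r) ℤ) : Set (NVec ℝ r) :=
  {Y | 2 < bN G Y Y ∧ 0 < Y.2.2 ∧ ∀ x, PosRoot G x → 0 < bN G (toR x) Y}

theorem convex_region (hG : IsEvenPosDef G) : Convex ℝ (Region G) := by
  rintro Y ⟨hY1, hY2, hY3⟩ W ⟨hW1, hW2, hW3⟩ s t hs ht hst
  refine ⟨?_, ?_, ?_⟩
  · rw [bN_add_left, bN_add_right, bN_add_right, bN_smul_left, bN_smul_right, bN_smul_left,
      bN_smul_right, bN_smul_left, bN_smul_right, bN_smul_left, bN_smul_right,
      bN_comm hG.symm W Y]
    have h1 := posCone_inner_two hG hY1 hY2 hW1 hW2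
    have hs' : s = 1 - t := by linarith
    have e : s * (s * bN G Y Y) + s * (t * bN G Y W) + (t * (s * bN G Y W) + t * (t * bN G W W))
        - 2 = s ^ 2 * (bN G Y Y - 2) + 2 * (s * t) * (bN G Y W - 2) +
          t ^ 2 * (bN G W W - 2) := by
      rw [hs']; ring
    rcases eq_or_lt_of_le hs with h0 | h0
    · have ht1 : t = 1 := by linarith
      rw [← h0, ht1] at e
      rw [← h0, ht1]
      linarith
    · have h2 : 0 < s ^ 2 * (bN G Y Y - 2) := by
        have : 0 < bN G Y Y - 2 := by linarith
        positivity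
      have h3 : 0 ≤ 2 * (s * t) * (bN G Y W - 2) := by
        have : 0 < bN G Y W - 2 := by linarith
        positivity
      have h4 : 0 ≤ t ^ 2 * (bN G W W - 2) := by
        have : 0 < bN G W W - 2 := by linarith
        positivity
      linarith
  · simp only [Prod.snd_add, Prod.smul_snd, smul_eq_mul]
    rcases eq_or_lt_of_le hs with h0 | h0
    · have ht1 : t = 1 := by linarith
      rw [← h0, ht1]; simpa using hW2
    · have : 0 ≤ t * W.2.2 := by positivity
      have : 0 < s * Y.2.2 := by positivity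
      linarith
  · intro x hx
    rw [bN_add_right, bN_smul_right, bN_smul_right]
    have h1 := hY3 x hx
    have h2 := hW3 x hx
    rcases eq_or_lt_of_le hs with h0 | h0
    · have ht1 : t = 1 := by linarith
      rw [← h0, ht1]; simpa using h2
    · have : 0 ≤ t * bN G (toR x) W := by positivity
      have : 0 < s * bN G (toR x) Y := by positivity
      linarith

/-- The Eichler transvection with parameters `z`, `l`, where `c` is half the norm of `l`. -/
def eich {K : Type*} [CommRing K] (G : Matrix (Fin r) (Fin r) ℤ) (z l : NVec K r) (c : K)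
    (y : NVec K r) : NVec K r :=
  y - bN G y z • l + bN G y l • z - (c * bN G y z) • z

theorem bN_eich {K : Type*} [CommRing K] (hG : G.IsSymm) {z l : NVec K r} {c : K}
    (hz : bN G z z = 0) (hzl : bN G z l = 0) (hl : bN G l l = 2 * c) (y w : NVec K r) :
    bN G (eich G z l c y) (eich G z l c w) = bN G y w := by
  simp only [eich, bN_add_left, bN_add_right, bN_sub_left, bN_sub_right, bN_smul_left,
    bN_smul_right, hz, hzl, hl, bN_comm hG l z, bN_comm hG z w, bN_comm hG l w]
  ring

theorem eich_add {K : Type*} [CommRing K] (z l : NVec K r) (c : K) (y w : NVec K r) :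
    eich G z l c (y + w) = eich G z l c y + eich G z l c w := by
  simp only [eich, bN_add_left]
  module

theorem eich_smul {K : Type*} [CommRing K] (z l : NVec K r) (c : K) (a : K) (y : NVec K r) :
    eich G z l c (a • y) = a • eich G z l c y := by
  simp only [eich, bN_smul_left]
  module

theorem eich_eich {K : Type*} [CommRing K] (hG : G.IsSymm) {z l : NVec K r} {c : K}
    (hz : bN G z z = 0) (hzl : bN G z l = 0) (hl : bN G l l = 2 * c) (y : NVec K r) :
    eich G z (-l) c (eich G z l c y) = y := by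
  have h1 : bN G (eich G z l c y) z = bN G y z := by
    simp only [eich, bN_add_left, bN_sub_left, bN_smul_left, hz, bN_comm hG l z, hzl]
    ring
  have h2 : bN G (eich G z l c y) l = bN G y l - 2 * c * bN G y z := by
    simp only [eich, bN_add_left, bN_sub_left, bN_smul_left, hl, hzl]
    ring
  have h3 : eich G z (-l) c (eich G z l c y) =
      eich G z l c y + bN G y z • l - (bN G y l - 2 * c * bN G y z) • z -
        (c * bN G y z) • z := by
    conv_lhs => rw [eich]
    rw [h1, bN_neg_right, h2]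
    module
  rw [h3, eich]
  module

/-- A vector orthogonal to a nonzero isotropic vector has nonpositive norm. -/
theorem bN_nonpos_of_orth (hG : IsEvenPosDef G) {z l : NVec ℝ r} (hz0 : z ≠ 0)
    (hz : bN G z z = 0) (hzl : bN G z l = 0) : bN G l l ≤ 0 := by
  rcases eq_or_ne z.2.2 0 with h | h
  · have h1 : bL G z.2.1 z.2.1 = 0 := by
      simp only [bN, h] at hz
      linarith
    have h2 : z.2.1 = 0 := by
      by_contra hne
      exact absurd h1 (hG.pos _ hne).ne'
    have h3 : z.1 ≠ 0 := by
      intro h3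
      exact hz0 (Prod.ext h3 (Prod.ext h2 h))
    apply bN_self_nonpos hG
    simp only [bN, h, h2, bL_zero_left] at hzl
    have : z.1 * l.2.2 = 0 := by linarith
    rcases mul_eq_zero.mp this with h4 | h4
    · exact absurd h4 h3
    · exact h4
  · have h1 := bN_comb hG z l
    rw [hz, hzl] at h1
    have h2 : 0 < z.2.2 ^ 2 := by positivity
    by_contra hc
    push Not at hc
    have : 0 < z.2.2 ^ 2 * bN G l l := by positivity
    linarith

theorem posCone_eich (hG : IsEvenPosDef G) {z l : NVec ℝ r} {c : ℝ} (hz0 : z ≠ 0)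
    (hz : bN G z z = 0) (hzl : bN G z l = 0) (hl : bN G l l = 2 * c) {Y : NVec ℝ r}
    (hY : PosCone G Y) : PosCone G (eich G z l c Y) := by
  have h1 := bN_nonpos_of_orth hG hz0 hz hzl
  apply posCone_of_inner hG hY
  · rw [bN_eich hG.symm hz hzl hl]; exact hY.1
  · simp only [eich, bN_add_right, bN_sub_right, bN_smul_right]
    have h2 : c ≤ 0 := by linarith
    have h3 : c * bN G Y z * bN G Y z ≤ 0 := by
      have := mul_nonpos_of_nonpos_of_nonneg h2 (mul_self_nonneg (bN G Y z))
      linarith
    have := hY.1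
    linarith

/-- The reflection in a vector `x` of norm `-2`. -/
def reflN {K : Type*} [CommRing K] (G : Matrix (Fin r) (Fin r) ℤ) (x y : NVec K r) : NVec K r :=
  y + bN G y x • x

theorem bN_reflN {K : Type*} [CommRing K] (hG : G.IsSymm) {x : NVec K r} (hx : bN G x x = -2)
    (y w : NVec K r) : bN G (reflN G x y) (reflN G x w) = bN G y w := by
  simp only [reflN, bN_add_left, bN_add_right, bN_smul_left, bN_smul_right, hx, bN_comm hG x w]
  ring

theorem reflN_reflN {K : Type*} [CommRing K] {x : NVec K r} (hx : bN G x x = -2)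
    (y : NVec K r) : reflN G x (reflN G x y) = y := by
  simp only [reflN, bN_add_left, bN_smul_left, hx]
  module

theorem reflN_add {K : Type*} [CommRing K] (x : NVec K r) (y w : NVec K r) :
    reflN G x (y + w) = reflN G x y + reflN G x w := by
  simp only [reflN, bN_add_left]
  module

theorem reflN_smul {K : Type*} [CommRing K] (x : NVec K r) (a : K) (y : NVec K r) :
    reflN G x (a • y) = a • reflN G x y := by
  simp only [reflN, bN_smul_left]
  module

theorem posCone_reflN (hG : IsEvenPosDef G) {x : NVec ℝ r} (hx : bN G x x = -2) {Y : NVec ℝ r}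
    (hY : PosCone G Y) : PosCone G (reflN G x Y) := by
  apply posCone_of_inner hG hY
  · rw [bN_reflN hG.symm hx]; exact hY.1
  · simp only [reflN, bN_add_right, bN_smul_right]
    have := hY.1
    have := mul_self_nonneg (bN G Y x)
    linarith

end Pool.Agent.Work.MP_ccc26a_nt
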