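import Pool.Agent.Work.MP_ccc26a_nt.Finish

set_option autoImplicit false
set_option maxRecDepth 100000

namespace Pool.Agent.Work.MP_ccc26a_nt

variable {r : ℕ} {G : Matrix (Fin r) (Fin r) ℤ}

/-- Gram matrix of the configuration P3. -/
def gP3 : Matrix (Fin 2) (Fin 2) ℤ := ![![6, 2], ![2, 4]]

/-- Scaled inverse of the Gram matrix. -/
def kP3 : Matrix (Fin 2) (Fin 2) ℤ := ![![2, -1], ![-1, 3]]

/-- Vectors of the Leech lattice with the same Gram matrix. -/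
def aP3 : Fin 2 → Fin 24 → ℤ := ![![0, 2, 2, -2, 0, 0, 0, 0, -2, 0, 0, -4, 0, 2, 0, -2, 2, 0, 0, 0, 0, 0, 0, 2], ![0, 0, 2, 0, 0, 2, 0, 0, 0, 0, -2, -2, 0, 2, -2, 0, 0, 0, -2, 0, 2, 0, 0, 0]]

theorem sP3_2 : ∀ a : Fin 2 → Fin 2, (∃ i, (a i).val ≠ 0) →
    ∃ s ∈ ([![0, 0]] : List (Fin 2 → ℤ)),
      Bad 2 (bL gP3 (fun i => cl (a i) + 2 * s i) (fun i => cl (a i) + 2 * s i)) := by
  decide +kernel

theorem sP3_5 : ∀ a : Fin 2 → Fin 5, (∃ i, (a i).val ≠ 0) →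
    ∃ s ∈ ([![0, 0]] : List (Fin 2 → ℤ)),
      Bad 5 (bL gP3 (fun i => cl (a i) + 5 * s i) (fun i => cl (a i) + 5 * s i)) := by
  decide +kernel

theorem conf_P3 (hG : IsEvenPosDef G) (h2 : ∀ x : Fin r → ℤ, bL G x x ≠ 2)
    (h8 : ∀ x : Fin r → ℤ, bL G x x ≠ 8) (hcov : CovRat G) (b : Fin 2 → (Fin r → ℤ))
    (hb : ∀ i j, bL G (b i) (b j) = gP3 i j)
    (hspan : ∀ u : Fin r → ℝ, (∀ i, bL G u (rv (b i)) = 0) → u = 0) :
    PrimitivelyEmbeds G Lam := by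
  refine finishB hG h2 h8 hcov b gP3 hb hspan kP3 10 (by norm_num) ?_ ?_ aP3 ?_ ?_
  · ext i j
    revert i j
    decide +kernel
  · intro p hp hdvd
    have hdvd' : p ∣ 10 := by exact_mod_cast hdvd
    have hle : p ≤ 10 := Nat.le_of_dvd (by norm_num) hdvd'
    have hcases : p = 2 ∨ p = 5 := by
      interval_cases p <;> first | omega | (exfalso; revert hp; norm_num)
    rcases hcases with rfl | rfl
    · exact sat_of_check 2 (by norm_num) gP3 _ sP3_2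
    · exact sat_of_check 5 (by norm_num) gP3 _ sP3_5
  · decide +kernel
  · decide +kernel

/-- Gram matrix of the configuration P4. -/
def gP4 : Matrix (Fin 3) (Fin 3) ℤ := ![![6, 2, 3], ![2, 4, 1], ![3, 1, 4]]

/-- Scaled inverse of the Gram matrix. -/
def kP4 : Matrix (Fin 3) (Fin 3) ℤ := ![![3, -1, -2], ![-1, 3, 0], ![-2, 0, 4]]

/-- Vectors of the Leech lattice with the same Gram matrix. -/
def aP4 : Fin 3 → Fin 24 → ℤ := ![![0, 2, 2, -2, 0, 0, 0, 0, -2, 0, 0, -4, 0, 2, 0, -2, 2, 0, 0, 0, 0, 0, 0, 2], ![0, 0, 2, 0, 0, 2, 0, 0, 0, 0, -2, -2, 0, 2, -2, 0, 0, 0, -2, 0, 2, 0, 0, 0], ![0, 0, 0, 0, 0, 0, 0, 0, 0, 0, 0, -4, 0, 0, 0, 0, 4, 0, 0, 0, 0, 0, 0, 0]]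

theorem sP4_2 : ∀ a : Fin 3 → Fin 2, (∃ i, (a i).val ≠ 0) →
    ∃ s ∈ ([![0, 0, 0], ![1, 0, 0]] : List (Fin 3 → ℤ)),
      Bad 2 (bL gP4 (fun i => cl (a i) + 2 * s i) (fun i => cl (a i) + 2 * s i)) := by
  decide +kernel

theorem sP4_5 : ∀ a : Fin 3 → Fin 5, (∃ i, (a i).val ≠ 0) →
    ∃ s ∈ ([![0, 0, 0]] : List (Fin 3 → ℤ)),
      Bad 5 (bL gP4 (fun i => cl (a i) + 5 * s i) (fun i => cl (a i) + 5 * s i)) := by
  decide +kernel

theorem conf_P4 (hG : IsEvenPosDef G) (h2 : ∀ x : Fin r → ℤ, bL G x x ≠ 2)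
    (h8 : ∀ x : Fin r → ℤ, bL G x x ≠ 8) (hcov : CovRat G) (b : Fin 3 → (Fin r → ℤ))
    (hb : ∀ i j, bL G (b i) (b j) = gP4 i j)
    (hspan : ∀ u : Fin r → ℝ, (∀ i, bL G u (rv (b i)) = 0) → u = 0) :
    PrimitivelyEmbeds G Lam := by
  refine finishB hG h2 h8 hcov b gP4 hb hspan kP4 10 (by norm_num) ?_ ?_ aP4 ?_ ?_
  · ext i j
    revert i j
    decide +kernel
  · intro p hp hdvd
    have hdvd' : p ∣ 10 := by exact_mod_cast hdvd
    have hle : p ≤ 10 := Nat.le_of_dvd (by norm_num) hdvd'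
    have hcases : p = 2 ∨ p = 5 := by
      interval_cases p <;> first | omega | (exfalso; revert hp; norm_num)
    rcases hcases with rfl | rfl
    · exact sat_of_check 2 (by norm_num) gP4 _ sP4_2
    · exact sat_of_check 5 (by norm_num) gP4 _ sP4_5
  · decide +kernel
  · decide +kernel

/-- Gram matrix of the configuration K13. -/
def gK13 : Matrix (Fin 3) (Fin 3) ℤ := ![![6, 4, 4], ![4, 6, 4], ![4, 4, 6]]

/-- Scaled inverse of the Gram matrix. -/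
def kK13 : Matrix (Fin 3) (Fin 3) ℤ := ![![5, -2, -2], ![-2, 5, -2], ![-2, -2, 5]]

/-- Vectors of the Leech lattice with the same Gram matrix. -/
def aK13 : Fin 3 → Fin 24 → ℤ := ![![2, 0, 0, 0, 0, 2, 0, -2, 0, 2, 0, -2, 0, 0, -2, 0, 0, -2, -2, 0, 0, 4, 0, 0], ![2, 0, 0, 0, 0, 2, 0, -2, 0, 2, 0, -2, 0, 0, -2, 0, 0, -2, -2, 0, 0, 0, -4, 0], ![2, 0, 4, 0, 0, 2, 0, -2, 0, 2, 0, -2, 0, 0, -2, 0, 0, -2, -2, 0, 0, 0, 0, 0]]

theorem sK13_2 : ∀ a : Fin 3 → Fin 2, (∃ i, (a i).val ≠ 0) →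
    ∃ s ∈ ([![0, 0, 0]] : List (Fin 3 → ℤ)),
      Bad 2 (bL gK13 (fun i => cl (a i) + 2 * s i) (fun i => cl (a i) + 2 * s i)) := by
  decide +kernel

theorem sK13_7 : ∀ a : Fin 3 → Fin 7, (∃ i, (a i).val ≠ 0) →
    ∃ s ∈ ([![0, 0, 0]] : List (Fin 3 → ℤ)),
      Bad 7 (bL gK13 (fun i => cl (a i) + 7 * s i) (fun i => cl (a i) + 7 * s i)) := by
  decide +kernel

theorem conf_K13 (hG : IsEvenPosDef G) (h2 : ∀ x : Fin r → ℤ, bL G x x ≠ 2)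
    (h8 : ∀ x : Fin r → ℤ, bL G x x ≠ 8) (hcov : CovRat G) (b : Fin 3 → (Fin r → ℤ))
    (hb : ∀ i j, bL G (b i) (b j) = gK13 i j)
    (hspan : ∀ u : Fin r → ℝ, (∀ i, bL G u (rv (b i)) = 0) → u = 0) :
    PrimitivelyEmbeds G Lam := by
  refine finishB hG h2 h8 hcov b gK13 hb hspan kK13 14 (by norm_num) ?_ ?_ aK13 ?_ ?_
  · ext i j
    revert i j
    decide +kernel
  · intro p hp hdvd
    have hdvd' : p ∣ 14 := by exact_mod_cast hdvd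
    have hle : p ≤ 14 := Nat.le_of_dvd (by norm_num) hdvd'
    have hcases : p = 2 ∨ p = 7 := by
      interval_cases p <;> first | omega | (exfalso; revert hp; norm_num)
    rcases hcases with rfl | rfl
    · exact sat_of_check 2 (by norm_num) gK13 _ sK13_2
    · exact sat_of_check 7 (by norm_num) gK13 _ sK13_7
  · decide +kernel
  · decide +kernel

/-- Gram matrix of the configuration C5. -/
def gC5 : Matrix (Fin 4) (Fin 4) ℤ := ![![6, 2, 3, 4], ![2, 4, 1, 3], ![3, 1, 4, 2], ![4, 3, 2, 6]]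

/-- Scaled inverse of the Gram matrix. -/
def kC5 : Matrix (Fin 4) (Fin 4) ℤ := ![![2, 0, -1, -1], ![0, 2, 0, -1], ![-1, 0, 2, 0], ![-1, -1, 0, 2]]

/-- Vectors of the Leech lattice with the same Gram matrix. -/
def aC5 : Fin 4 → Fin 24 → ℤ := ![![0, 2, 2, -2, 0, 0, 0, 0, -2, 0, 0, -4, 0, 2, 0, -2, 2, 0, 0, 0, 0, 0, 0, 2], ![0, 0, 2, 0, 0, 2, 0, 0, 0, 0, -2, -2, 0, 2, -2, 0, 0, 0, -2, 0, 2, 0, 0, 0], ![0, 0, 0, 0, 0, 0, 0, 0, 0, 0, 0, -4, 0, 0, 0, 0, 4, 0, 0, 0, 0, 0, 0, 0], ![0, 0, 2, -2, 0, 2, 2, 0, 0, 0, 0, -4, 0, 2, 0, 0, 0, 0, -2, 0, 0, 0, -2, 2]]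

theorem sC5_5 : ∀ a : Fin 4 → Fin 5, (∃ i, (a i).val ≠ 0) →
    ∃ s ∈ ([![0, 0, 0, 0], ![-1, 0, 0, 1]] : List (Fin 4 → ℤ)),
      Bad 5 (bL gC5 (fun i => cl (a i) + 5 * s i) (fun i => cl (a i) + 5 * s i)) := by
  decide +kernel

theorem conf_C5 (hG : IsEvenPosDef G) (h2 : ∀ x : Fin r → ℤ, bL G x x ≠ 2)
    (h8 : ∀ x : Fin r → ℤ, bL G x x ≠ 8) (hcov : CovRat G) (b : Fin 4 → (Fin r → ℤ))
    (hb : ∀ i j, bL G (b i) (b j) = gC5 i j)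
    (hspan : ∀ u : Fin r → ℝ, (∀ i, bL G u (rv (b i)) = 0) → u = 0) :
    PrimitivelyEmbeds G Lam := by
  refine finishB hG h2 h8 hcov b gC5 hb hspan kC5 5 (by norm_num) ?_ ?_ aC5 ?_ ?_
  · ext i j
    revert i j
    decide +kernel
  · intro p hp hdvd
    have hdvd' : p ∣ 5 := by exact_mod_cast hdvd
    have hle : p ≤ 5 := Nat.le_of_dvd (by norm_num) hdvd'
    have hcases : p = 5 := by
      interval_cases p <;> first | omega | (exfalso; revert hp; norm_num)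
    subst hcases
    exact sat_of_check 5 (by norm_num) gC5 _ sC5_5
  · decide +kernel
  · decide +kernel

/-- Gram matrix of the configuration c11. -/
def gc11 : Matrix (Fin 1) (Fin 1) ℤ := ![![4]]

/-- Scaled inverse of the Gram matrix. -/
def kc11 : Matrix (Fin 1) (Fin 1) ℤ := ![![1]]

/-- Vectors of the Leech lattice with the same Gram matrix. -/
def ac11 : Fin 1 → Fin 24 → ℤ := ![![2, -2, 0, -2, 0, 0, 0, 0, 0, 0, 0, 0, 0, 2, -2, 0, -2, 0, 0, 2, 0, 2, 0, 0]]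

theorem sc11_2 : ∀ a : Fin 1 → Fin 2, (∃ i, (a i).val ≠ 0) →
    ∃ s ∈ ([![0]] : List (Fin 1 → ℤ)),
      Bad 2 (bL gc11 (fun i => cl (a i) + 2 * s i) (fun i => cl (a i) + 2 * s i)) := by
  decide +kernel

theorem conf_c11 (hG : IsEvenPosDef G) (h2 : ∀ x : Fin r → ℤ, bL G x x ≠ 2)
    (h8 : ∀ x : Fin r → ℤ, bL G x x ≠ 8) (hcov : CovRat G) (b : Fin 1 → (Fin r → ℤ))
    (hb : ∀ i j, bL G (b i) (b j) = gc11 i j)
    (hspan : ∀ u : Fin r → ℝ, (∀ i, bL G u (rv (b i)) = 0) → u = 0) :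
    PrimitivelyEmbeds G Lam := by
  refine finishB hG h2 h8 hcov b gc11 hb hspan kc11 4 (by norm_num) ?_ ?_ ac11 ?_ ?_
  · ext i j
    revert i j
    decide +kernel
  · intro p hp hdvd
    have hdvd' : p ∣ 4 := by exact_mod_cast hdvd
    have hle : p ≤ 4 := Nat.le_of_dvd (by norm_num) hdvd'
    have hcases : p = 2 := by
      interval_cases p <;> first | omega | (exfalso; revert hp; norm_num)
    subst hcases
    exact sat_of_check 2 (by norm_num) gc11 _ sc11_2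
  · decide +kernel
  · decide +kernel

/-- Gram matrix of the configuration c2. -/
def gc2 : Matrix (Fin 1) (Fin 1) ℤ := ![![6]]

/-- Scaled inverse of the Gram matrix. -/
def kc2 : Matrix (Fin 1) (Fin 1) ℤ := ![![1]]

/-- Vectors of the Leech lattice with the same Gram matrix. -/
def ac2 : Fin 1 → Fin 24 → ℤ := ![![4, -2, 0, 0, 0, 0, 0, 0, 0, 0, 0, 0, 2, 2, 0, 2, 0, 0, 0, 2, 2, 2, 0, 2]]

theorem sc2_2 : ∀ a : Fin 1 → Fin 2, (∃ i, (a i).val ≠ 0) →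
    ∃ s ∈ ([![0]] : List (Fin 1 → ℤ)),
      Bad 2 (bL gc2 (fun i => cl (a i) + 2 * s i) (fun i => cl (a i) + 2 * s i)) := by
  decide +kernel

theorem sc2_3 : ∀ a : Fin 1 → Fin 3, (∃ i, (a i).val ≠ 0) →
    ∃ s ∈ ([![0]] : List (Fin 1 → ℤ)),
      Bad 3 (bL gc2 (fun i => cl (a i) + 3 * s i) (fun i => cl (a i) + 3 * s i)) := by
  decide +kernel

theorem conf_c2 (hG : IsEvenPosDef G) (h2 : ∀ x : Fin r → ℤ, bL G x x ≠ 2)
    (h8 : ∀ x : Fin r → ℤ, bL G x x ≠ 8) (hcov : CovRat G) (b : Fin 1 → (Fin r → ℤ))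
    (hb : ∀ i j, bL G (b i) (b j) = gc2 i j)
    (hspan : ∀ u : Fin r → ℝ, (∀ i, bL G u (rv (b i)) = 0) → u = 0) :
    PrimitivelyEmbeds G Lam := by
  refine finishB hG h2 h8 hcov b gc2 hb hspan kc2 6 (by norm_num) ?_ ?_ ac2 ?_ ?_
  · ext i j
    revert i j
    decide +kernel
  · intro p hp hdvd
    have hdvd' : p ∣ 6 := by exact_mod_cast hdvd
    have hle : p ≤ 6 := Nat.le_of_dvd (by norm_num) hdvd'
    have hcases : p = 2 ∨ p = 3 := by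
      interval_cases p <;> first | omega | (exfalso; revert hp; norm_num)
    rcases hcases with rfl | rfl
    · exact sat_of_check 2 (by norm_num) gc2 _ sc2_2
    · exact sat_of_check 3 (by norm_num) gc2 _ sc2_3
  · decide +kernel
  · decide +kernel

/-- Gram matrix of the configuration c111. -/
def gc111 : Matrix (Fin 2) (Fin 2) ℤ := ![![4, 2], ![2, 4]]

/-- Scaled inverse of the Gram matrix. -/
def kc111 : Matrix (Fin 2) (Fin 2) ℤ := ![![2, -1], ![-1, 2]]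

/-- Vectors of the Leech lattice with the same Gram matrix. -/
def ac111 : Fin 2 → Fin 24 → ℤ := ![![2, -2, 0, -2, 0, 0, 0, 0, 0, 0, 0, 0, 0, 2, -2, 0, -2, 0, 0, 2, 0, 2, 0, 0], ![2, 0, 0, 0, -2, 0, 0, 0, 0, 0, 0, 0, 2, 2, -2, 2, 0, 0, 0, 2, 0, 0, 2, 0]]

theorem sc111_2 : ∀ a : Fin 2 → Fin 2, (∃ i, (a i).val ≠ 0) →
    ∃ s ∈ ([![0, 0]] : List (Fin 2 → ℤ)),
      Bad 2 (bL gc111 (fun i => cl (a i) + 2 * s i) (fun i => cl (a i) + 2 * s i)) := by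
  decide +kernel

theorem sc111_3 : ∀ a : Fin 2 → Fin 3, (∃ i, (a i).val ≠ 0) →
    ∃ s ∈ ([![0, 0]] : List (Fin 2 → ℤ)),
      Bad 3 (bL gc111 (fun i => cl (a i) + 3 * s i) (fun i => cl (a i) + 3 * s i)) := by
  decide +kernel

theorem conf_c111 (hG : IsEvenPosDef G) (h2 : ∀ x : Fin r → ℤ, bL G x x ≠ 2)
    (h8 : ∀ x : Fin r → ℤ, bL G x x ≠ 8) (hcov : CovRat G) (b : Fin 2 → (Fin r → ℤ))
    (hb : ∀ i j, bL G (b i) (b j) = gc111 i j)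
    (hspan : ∀ u : Fin r → ℝ, (∀ i, bL G u (rv (b i)) = 0) → u = 0) :
    PrimitivelyEmbeds G Lam := by
  refine finishB hG h2 h8 hcov b gc111 hb hspan kc111 6 (by norm_num) ?_ ?_ ac111 ?_ ?_
  · ext i j
    revert i j
    decide +kernel
  · intro p hp hdvd
    have hdvd' : p ∣ 6 := by exact_mod_cast hdvd
    have hle : p ≤ 6 := Nat.le_of_dvd (by norm_num) hdvd'
    have hcases : p = 2 ∨ p = 3 := by
      interval_cases p <;> first | omega | (exfalso; revert hp; norm_num)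
    rcases hcases with rfl | rfl
    · exact sat_of_check 2 (by norm_num) gc111 _ sc111_2
    · exact sat_of_check 3 (by norm_num) gc111 _ sc111_3
  · decide +kernel
  · decide +kernel

/-- Gram matrix of the configuration c21. -/
def gc21 : Matrix (Fin 2) (Fin 2) ℤ := ![![6, 3], ![3, 4]]

/-- Scaled inverse of the Gram matrix. -/
def kc21 : Matrix (Fin 2) (Fin 2) ℤ := ![![4, -3], ![-3, 6]]

/-- Vectors of the Leech lattice with the same Gram matrix. -/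
def ac21 : Fin 2 → Fin 24 → ℤ := ![![4, -2, 0, 0, 0, 0, 0, 0, 0, 0, 0, 0, 2, 2, 0, 2, 0, 0, 0, 2, 2, 2, 0, 2], ![2, -2, 0, -2, 0, 0, 0, 0, 0, 0, 0, 0, 0, 2, -2, 0, -2, 0, 0, 2, 0, 2, 0, 0]]

theorem sc21_3 : ∀ a : Fin 2 → Fin 3, (∃ i, (a i).val ≠ 0) →
    ∃ s ∈ ([![0, 0]] : List (Fin 2 → ℤ)),
      Bad 3 (bL gc21 (fun i => cl (a i) + 3 * s i) (fun i => cl (a i) + 3 * s i)) := by
  decide +kernel

theorem sc21_5 : ∀ a : Fin 2 → Fin 5, (∃ i, (a i).val ≠ 0) →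
    ∃ s ∈ ([![0, 0]] : List (Fin 2 → ℤ)),
      Bad 5 (bL gc21 (fun i => cl (a i) + 5 * s i) (fun i => cl (a i) + 5 * s i)) := by
  decide +kernel

theorem conf_c21 (hG : IsEvenPosDef G) (h2 : ∀ x : Fin r → ℤ, bL G x x ≠ 2)
    (h8 : ∀ x : Fin r → ℤ, bL G x x ≠ 8) (hcov : CovRat G) (b : Fin 2 → (Fin r → ℤ))
    (hb : ∀ i j, bL G (b i) (b j) = gc21 i j)
    (hspan : ∀ u : Fin r → ℝ, (∀ i, bL G u (rv (b i)) = 0) → u = 0) :
    PrimitivelyEmbeds G Lam := by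
  refine finishB hG h2 h8 hcov b gc21 hb hspan kc21 15 (by norm_num) ?_ ?_ ac21 ?_ ?_
  · ext i j
    revert i j
    decide +kernel
  · intro p hp hdvd
    have hdvd' : p ∣ 15 := by exact_mod_cast hdvd
    have hle : p ≤ 15 := Nat.le_of_dvd (by norm_num) hdvd'
    have hcases : p = 3 ∨ p = 5 := by
      interval_cases p <;> first | omega | (exfalso; revert hp; norm_num)
    rcases hcases with rfl | rfl
    · exact sat_of_check 3 (by norm_num) gc21 _ sc21_3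
    · exact sat_of_check 5 (by norm_num) gc21 _ sc21_5
  · decide +kernel
  · decide +kernel

/-- Gram matrix of the configuration c211. -/
def gc211 : Matrix (Fin 3) (Fin 3) ℤ := ![![6, 3, 3], ![3, 4, 2], ![3, 2, 4]]

/-- Scaled inverse of the Gram matrix. -/
def kc211 : Matrix (Fin 3) (Fin 3) ℤ := ![![4, -2, -2], ![-2, 5, -1], ![-2, -1, 5]]

/-- Vectors of the Leech lattice with the same Gram matrix. -/
def ac211 : Fin 3 → Fin 24 → ℤ := ![![4, -2, 0, 0, 0, 0, 0, 0, 0, 0, 0, 0, 2, 2, 0, 2, 0, 0, 0, 2, 2, 2, 0, 2], ![2, -2, 0, -2, 0, 0, 0, 0, 0, 0, 0, 0, 0, 2, -2, 0, -2, 0, 0, 2, 0, 2, 0, 0], ![2, 0, 0, 0, -2, 0, 0, 0, 0, 0, 0, 0, 2, 2, -2, 2, 0, 0, 0, 2, 0, 0, 2, 0]]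

theorem sc211_2 : ∀ a : Fin 3 → Fin 2, (∃ i, (a i).val ≠ 0) →
    ∃ s ∈ ([![0, 0, 0], ![1, 0, 0]] : List (Fin 3 → ℤ)),
      Bad 2 (bL gc211 (fun i => cl (a i) + 2 * s i) (fun i => cl (a i) + 2 * s i)) := by
  decide +kernel

theorem sc211_3 : ∀ a : Fin 3 → Fin 3, (∃ i, (a i).val ≠ 0) →
    ∃ s ∈ ([![0, 0, 0]] : List (Fin 3 → ℤ)),
      Bad 3 (bL gc211 (fun i => cl (a i) + 3 * s i) (fun i => cl (a i) + 3 * s i)) := by
  decide +kernel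

theorem conf_c211 (hG : IsEvenPosDef G) (h2 : ∀ x : Fin r → ℤ, bL G x x ≠ 2)
    (h8 : ∀ x : Fin r → ℤ, bL G x x ≠ 8) (hcov : CovRat G) (b : Fin 3 → (Fin r → ℤ))
    (hb : ∀ i j, bL G (b i) (b j) = gc211 i j)
    (hspan : ∀ u : Fin r → ℝ, (∀ i, bL G u (rv (b i)) = 0) → u = 0) :
    PrimitivelyEmbeds G Lam := by
  refine finishB hG h2 h8 hcov b gc211 hb hspan kc211 12 (by norm_num) ?_ ?_ ac211 ?_ ?_
  · ext i j
    revert i j
    decide +kernel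
  · intro p hp hdvd
    have hdvd' : p ∣ 12 := by exact_mod_cast hdvd
    have hle : p ≤ 12 := Nat.le_of_dvd (by norm_num) hdvd'
    have hcases : p = 2 ∨ p = 3 := by
      interval_cases p <;> first | omega | (exfalso; revert hp; norm_num)
    rcases hcases with rfl | rfl
    · exact sat_of_check 2 (by norm_num) gc211 _ sc211_2
    · exact sat_of_check 3 (by norm_num) gc211 _ sc211_3
  · decide +kernel
  · decide +kernel

/-- Gram matrix of the configuration c22. -/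
def gc22 : Matrix (Fin 3) (Fin 3) ℤ := ![![6, 3, 3], ![3, 4, 1], ![3, 1, 4]]

/-- Scaled inverse of the Gram matrix. -/
def kc22 : Matrix (Fin 3) (Fin 3) ℤ := ![![5, -3, -3], ![-3, 5, 1], ![-3, 1, 5]]

/-- Vectors of the Leech lattice with the same Gram matrix. -/
def ac22 : Fin 3 → Fin 24 → ℤ := ![![4, -2, 0, 0, 0, 0, 0, 0, 0, 0, 0, 0, 2, 2, 0, 2, 0, 0, 0, 2, 2, 2, 0, 2], ![2, -2, 0, -2, 0, 0, 0, 0, 0, 0, 0, 0, 0, 2, -2, 0, -2, 0, 0, 2, 0, 2, 0, 0], ![2, 0, 0, 0, 0, 0, 2, 0, 0, 0, 0, 0, 2, 2, 0, 0, 0, 2, 0, 0, 2, 0, 2, 2]]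

theorem sc22_2 : ∀ a : Fin 3 → Fin 2, (∃ i, (a i).val ≠ 0) →
    ∃ s ∈ ([![0, 0, 0], ![1, 0, 0]] : List (Fin 3 → ℤ)),
      Bad 2 (bL gc22 (fun i => cl (a i) + 2 * s i) (fun i => cl (a i) + 2 * s i)) := by
  decide +kernel

theorem sc22_3 : ∀ a : Fin 3 → Fin 3, (∃ i, (a i).val ≠ 0) →
    ∃ s ∈ ([![0, 0, 0]] : List (Fin 3 → ℤ)),
      Bad 3 (bL gc22 (fun i => cl (a i) + 3 * s i) (fun i => cl (a i) + 3 * s i)) := by
  decide +kernel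

theorem conf_c22 (hG : IsEvenPosDef G) (h2 : ∀ x : Fin r → ℤ, bL G x x ≠ 2)
    (h8 : ∀ x : Fin r → ℤ, bL G x x ≠ 8) (hcov : CovRat G) (b : Fin 3 → (Fin r → ℤ))
    (hb : ∀ i j, bL G (b i) (b j) = gc22 i j)
    (hspan : ∀ u : Fin r → ℝ, (∀ i, bL G u (rv (b i)) = 0) → u = 0) :
    PrimitivelyEmbeds G Lam := by
  refine finishB hG h2 h8 hcov b gc22 hb hspan kc22 12 (by norm_num) ?_ ?_ ac22 ?_ ?_
  · ext i j
    revert i j
    decide +kernel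
  · intro p hp hdvd
    have hdvd' : p ∣ 12 := by exact_mod_cast hdvd
    have hle : p ≤ 12 := Nat.le_of_dvd (by norm_num) hdvd'
    have hcases : p = 2 ∨ p = 3 := by
      interval_cases p <;> first | omega | (exfalso; revert hp; norm_num)
    rcases hcases with rfl | rfl
    · exact sat_of_check 2 (by norm_num) gc22 _ sc22_2
    · exact sat_of_check 3 (by norm_num) gc22 _ sc22_3
  · decide +kernel
  · decide +kernel

/-- Gram matrix of the configuration c221. -/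
def gc221 : Matrix (Fin 4) (Fin 4) ℤ := ![![6, 3, 3, 3], ![3, 4, 1, 2], ![3, 1, 4, 2], ![3, 2, 2, 4]]

/-- Scaled inverse of the Gram matrix. -/
def kc221 : Matrix (Fin 4) (Fin 4) ℤ := ![![4, -2, -2, -1], ![-2, 4, 1, -1], ![-2, 1, 4, -1], ![-1, -1, -1, 4]]

/-- Vectors of the Leech lattice with the same Gram matrix. -/
def ac221 : Fin 4 → Fin 24 → ℤ := ![![4, -2, 0, 0, 0, 0, 0, 0, 0, 0, 0, 0, 2, 2, 0, 2, 0, 0, 0, 2, 2, 2, 0, 2], ![2, -2, 0, -2, 0, 0, 0, 0, 0, 0, 0, 0, 0, 2, -2, 0, -2, 0, 0, 2, 0, 2, 0, 0], ![2, 0, 0, 0, 0, 0, 2, 0, 0, 0, 0, 0, 2, 2, 0, 0, 0, 2, 0, 0, 2, 0, 2, 2], ![2, 0, 0, 0, -2, 0, 0, 0, 0, 0, 0, 0, 2, 2, -2, 2, 0, 0, 0, 2, 0, 0, 2, 0]]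

theorem sc221_3 : ∀ a : Fin 4 → Fin 3, (∃ i, (a i).val ≠ 0) →
    ∃ s ∈ ([![0, 0, 0, 0]] : List (Fin 4 → ℤ)),
      Bad 3 (bL gc221 (fun i => cl (a i) + 3 * s i) (fun i => cl (a i) + 3 * s i)) := by
  decide +kernel

theorem conf_c221 (hG : IsEvenPosDef G) (h2 : ∀ x : Fin r → ℤ, bL G x x ≠ 2)
    (h8 : ∀ x : Fin r → ℤ, bL G x x ≠ 8) (hcov : CovRat G) (b : Fin 4 → (Fin r → ℤ))
    (hb : ∀ i j, bL G (b i) (b j) = gc221 i j)
    (hspan : ∀ u : Fin r → ℝ, (∀ i, bL G u (rv (b i)) = 0) → u = 0) :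
    PrimitivelyEmbeds G Lam := by
  refine finishB hG h2 h8 hcov b gc221 hb hspan kc221 9 (by norm_num) ?_ ?_ ac221 ?_ ?_
  · ext i j
    revert i j
    decide +kernel
  · intro p hp hdvd
    have hdvd' : p ∣ 9 := by exact_mod_cast hdvd
    have hle : p ≤ 9 := Nat.le_of_dvd (by norm_num) hdvd'
    have hcases : p = 3 := by
      interval_cases p <;> first | omega | (exfalso; revert hp; norm_num)
    subst hcases
    exact sat_of_check 3 (by norm_num) gc221 _ sc221_3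
  · decide +kernel
  · decide +kernel

/-- Gram matrix of the configuration c222. -/
def gc222 : Matrix (Fin 5) (Fin 5) ℤ := ![![6, 3, 3, 3, 3], ![3, 4, 1, 2, 2], ![3, 1, 4, 2, 2], ![3, 2, 2, 4, 1], ![3, 2, 2, 1, 4]]

/-- Scaled inverse of the Gram matrix. -/
def kc222 : Matrix (Fin 5) (Fin 5) ℤ := ![![3, -1, -1, -1, -1], ![-1, 3, 1, -1, -1], ![-1, 1, 3, -1, -1], ![-1, -1, -1, 3, 1], ![-1, -1, -1, 1, 3]]

/-- Vectors of the Leech lattice with the same Gram matrix. -/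
def ac222 : Fin 5 → Fin 24 → ℤ := ![![4, -2, 0, 0, 0, 0, 0, 0, 0, 0, 0, 0, 2, 2, 0, 2, 0, 0, 0, 2, 2, 2, 0, 2], ![2, -2, 0, -2, 0, 0, 0, 0, 0, 0, 0, 0, 0, 2, -2, 0, -2, 0, 0, 2, 0, 2, 0, 0], ![2, 0, 0, 0, 0, 0, 2, 0, 0, 0, 0, 0, 2, 2, 0, 0, 0, 2, 0, 0, 2, 0, 2, 2], ![2, 0, 0, 0, -2, 0, 0, 0, 0, 0, 0, 0, 2, 2, -2, 2, 0, 0, 0, 2, 0, 0, 2, 0], ![3, -1, 1, -1, 1, -1, 1, 1, 1, 1, 1, -1, 1, 1, 1, -1, -1, -1, 1, 1, 1, 1, 1, 1]]

theorem sc222_2 : ∀ a : Fin 5 → Fin 2, (∃ i, (a i).val ≠ 0) →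
    ∃ s ∈ ([![0, 0, 0, 0, 0], ![1, 0, 0, 0, 0]] : List (Fin 5 → ℤ)),
      Bad 2 (bL gc222 (fun i => cl (a i) + 2 * s i) (fun i => cl (a i) + 2 * s i)) := by
  decide +kernel

theorem sc222_3 : ∀ a : Fin 5 → Fin 3, (∃ i, (a i).val ≠ 0) →
    ∃ s ∈ ([![0, 0, 0, 0, 0], ![0, -1, 0, 1, 0]] : List (Fin 5 → ℤ)),
      Bad 3 (bL gc222 (fun i => cl (a i) + 3 * s i) (fun i => cl (a i) + 3 * s i)) := by
  decide +kernel

theorem conf_c222 (hG : IsEvenPosDef G) (h2 : ∀ x : Fin r → ℤ, bL G x x ≠ 2)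
    (h8 : ∀ x : Fin r → ℤ, bL G x x ≠ 8) (hcov : CovRat G) (b : Fin 5 → (Fin r → ℤ))
    (hb : ∀ i j, bL G (b i) (b j) = gc222 i j)
    (hspan : ∀ u : Fin r → ℝ, (∀ i, bL G u (rv (b i)) = 0) → u = 0) :
    PrimitivelyEmbeds G Lam := by
  refine finishB hG h2 h8 hcov b gc222 hb hspan kc222 6 (by norm_num) ?_ ?_ ac222 ?_ ?_
  · ext i j
    revert i j
    decide +kernel
  · intro p hp hdvd
    have hdvd' : p ∣ 6 := by exact_mod_cast hdvd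
    have hle : p ≤ 6 := Nat.le_of_dvd (by norm_num) hdvd'
    have hcases : p = 2 ∨ p = 3 := by
      interval_cases p <;> first | omega | (exfalso; revert hp; norm_num)
    rcases hcases with rfl | rfl
    · exact sat_of_check 2 (by norm_num) gc222 _ sc222_2
    · exact sat_of_check 3 (by norm_num) gc222 _ sc222_3
  · decide +kernel
  · decide +kernel

/-- Gram matrix of the configuration c3. -/
def gc3 : Matrix (Fin 2) (Fin 2) ℤ := ![![6, 3], ![3, 6]]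

/-- Scaled inverse of the Gram matrix. -/
def kc3 : Matrix (Fin 2) (Fin 2) ℤ := ![![2, -1], ![-1, 2]]

/-- Vectors of the Leech lattice with the same Gram matrix. -/
def ac3 : Fin 2 → Fin 24 → ℤ := ![![4, -2, 0, 0, 0, 0, 0, 0, 0, 0, 0, 0, 2, 2, 0, 2, 0, 0, 0, 2, 2, 2, 0, 2], ![2, 0, 0, -2, 0, 0, 2, 0, 0, 0, 0, -2, 2, 2, -2, 0, -2, 0, 2, 2, 0, 0, 2, 2]]

theorem sc3_3 : ∀ a : Fin 2 → Fin 3, (∃ i, (a i).val ≠ 0) →
    ∃ s ∈ ([![0, 0]] : List (Fin 2 → ℤ)),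
      Bad 3 (bL gc3 (fun i => cl (a i) + 3 * s i) (fun i => cl (a i) + 3 * s i)) := by
  decide +kernel

theorem conf_c3 (hG : IsEvenPosDef G) (h2 : ∀ x : Fin r → ℤ, bL G x x ≠ 2)
    (h8 : ∀ x : Fin r → ℤ, bL G x x ≠ 8) (hcov : CovRat G) (b : Fin 2 → (Fin r → ℤ))
    (hb : ∀ i j, bL G (b i) (b j) = gc3 i j)
    (hspan : ∀ u : Fin r → ℝ, (∀ i, bL G u (rv (b i)) = 0) → u = 0) :
    PrimitivelyEmbeds G Lam := by
  refine finishB hG h2 h8 hcov b gc3 hb hspan kc3 9 (by norm_num) ?_ ?_ ac3 ?_ ?_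
  · ext i j
    revert i j
    decide +kernel
  · intro p hp hdvd
    have hdvd' : p ∣ 9 := by exact_mod_cast hdvd
    have hle : p ≤ 9 := Nat.le_of_dvd (by norm_num) hdvd'
    have hcases : p = 3 := by
      interval_cases p <;> first | omega | (exfalso; revert hp; norm_num)
    subst hcases
    exact sat_of_check 3 (by norm_num) gc3 _ sc3_3
  · decide +kernel
  · decide +kernel

/-- Gram matrix of the configuration c32. -/
def gc32 : Matrix (Fin 4) (Fin 4) ℤ := ![![6, 3, 3, 3], ![3, 6, 3, 3], ![3, 3, 4, 1], ![3, 3, 1, 4]]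

/-- Scaled inverse of the Gram matrix. -/
def kc32 : Matrix (Fin 4) (Fin 4) ℤ := ![![4, 1, -3, -3], ![1, 4, -3, -3], ![-3, -3, 6, 3], ![-3, -3, 3, 6]]

/-- Vectors of the Leech lattice with the same Gram matrix. -/
def ac32 : Fin 4 → Fin 24 → ℤ := ![![4, -2, 0, 0, 0, 0, 0, 0, 0, 0, 0, 0, 2, 2, 0, 2, 0, 0, 0, 2, 2, 2, 0, 2], ![2, 0, 0, -2, 0, 0, 2, 0, 0, 0, 0, -2, 2, 2, -2, 0, -2, 0, 2, 2, 0, 0, 2, 2], ![2, -2, 0, -2, 0, 0, 0, 0, 0, 0, 0, 0, 0, 2, -2, 0, -2, 0, 0, 2, 0, 2, 0, 0], ![2, 0, 0, 0, 0, 0, 2, 0, 0, 0, 0, 0, 2, 2, 0, 0, 0, 2, 0, 0, 2, 0, 2, 2]]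

theorem sc32_3 : ∀ a : Fin 4 → Fin 3, (∃ i, (a i).val ≠ 0) →
    ∃ s ∈ ([![0, 0, 0, 0]] : List (Fin 4 → ℤ)),
      Bad 3 (bL gc32 (fun i => cl (a i) + 3 * s i) (fun i => cl (a i) + 3 * s i)) := by
  decide +kernel

theorem conf_c32 (hG : IsEvenPosDef G) (h2 : ∀ x : Fin r → ℤ, bL G x x ≠ 2)
    (h8 : ∀ x : Fin r → ℤ, bL G x x ≠ 8) (hcov : CovRat G) (b : Fin 4 → (Fin r → ℤ))
    (hb : ∀ i j, bL G (b i) (b j) = gc32 i j)
    (hspan : ∀ u : Fin r → ℝ, (∀ i, bL G u (rv (b i)) = 0) → u = 0) :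
    PrimitivelyEmbeds G Lam := by
  refine finishB hG h2 h8 hcov b gc32 hb hspan kc32 9 (by norm_num) ?_ ?_ ac32 ?_ ?_
  · ext i j
    revert i j
    decide +kernel
  · intro p hp hdvd
    have hdvd' : p ∣ 9 := by exact_mod_cast hdvd
    have hle : p ≤ 9 := Nat.le_of_dvd (by norm_num) hdvd'
    have hcases : p = 3 := by
      interval_cases p <;> first | omega | (exfalso; revert hp; norm_num)
    subst hcases
    exact sat_of_check 3 (by norm_num) gc32 _ sc32_3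
  · decide +kernel
  · decide +kernel

/-- Gram matrix of the configuration c322. -/
def gc322 : Matrix (Fin 6) (Fin 6) ℤ := ![![6, 3, 3, 3, 3, 3], ![3, 6, 3, 3, 3, 3], ![3, 3, 4, 1, 2, 2], ![3, 3, 1, 4, 2, 2], ![3, 3, 2, 2, 4, 1], ![3, 3, 2, 2, 1, 4]]

/-- Scaled inverse of the Gram matrix. -/
def kc322 : Matrix (Fin 6) (Fin 6) ℤ := ![![2, 1, -1, -1, -1, -1], ![1, 2, -1, -1, -1, -1], ![-1, -1, 2, 1, 0, 0], ![-1, -1, 1, 2, 0, 0], ![-1, -1, 0, 0, 2, 1], ![-1, -1, 0, 0, 1, 2]]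

/-- Vectors of the Leech lattice with the same Gram matrix. -/
def ac322 : Fin 6 → Fin 24 → ℤ := ![![4, -2, 0, 0, 0, 0, 0, 0, 0, 0, 0, 0, 2, 2, 0, 2, 0, 0, 0, 2, 2, 2, 0, 2], ![2, 0, 0, -2, 0, 0, 2, 0, 0, 0, 0, -2, 2, 2, -2, 0, -2, 0, 2, 2, 0, 0, 2, 2], ![2, -2, 0, -2, 0, 0, 0, 0, 0, 0, 0, 0, 0, 2, -2, 0, -2, 0, 0, 2, 0, 2, 0, 0], ![2, 0, 0, 0, 0, 0, 2, 0, 0, 0, 0, 0, 2, 2, 0, 0, 0, 2, 0, 0, 2, 0, 2, 2], ![2, 0, 0, 0, -2, 0, 0, 0, 0, 0, 0, 0, 2, 2, -2, 2, 0, 0, 0, 2, 0, 0, 2, 0], ![3, -1, 1, -1, 1, -1, 1, 1, 1, 1, 1, -1, 1, 1, 1, -1, -1, -1, 1, 1, 1, 1, 1, 1]]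

theorem sc322_3 : ∀ a : Fin 6 → Fin 3, (∃ i, (a i).val ≠ 0) →
    ∃ s ∈ ([![0, 0, 0, 0, 0, 0], ![1, 0, 0, 0, 0, 0], ![-1, 0, 0, 0, 0, 0]] : List (Fin 6 → ℤ)),
      Bad 3 (bL gc322 (fun i => cl (a i) + 3 * s i) (fun i => cl (a i) + 3 * s i)) := by
  decide +kernel

theorem conf_c322 (hG : IsEvenPosDef G) (h2 : ∀ x : Fin r → ℤ, bL G x x ≠ 2)
    (h8 : ∀ x : Fin r → ℤ, bL G x x ≠ 8) (hcov : CovRat G) (b : Fin 6 → (Fin r → ℤ))
    (hb : ∀ i j, bL G (b i) (b j) = gc322 i j)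
    (hspan : ∀ u : Fin r → ℝ, (∀ i, bL G u (rv (b i)) = 0) → u = 0) :
    PrimitivelyEmbeds G Lam := by
  refine finishB hG h2 h8 hcov b gc322 hb hspan kc322 3 (by norm_num) ?_ ?_ ac322 ?_ ?_
  · ext i j
    revert i j
    decide +kernel
  · intro p hp hdvd
    have hdvd' : p ∣ 3 := by exact_mod_cast hdvd
    have hle : p ≤ 3 := Nat.le_of_dvd (by norm_num) hdvd'
    have hcases : p = 3 := by
      interval_cases p <;> first | omega | (exfalso; revert hp; norm_num)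
    subst hcases
    exact sat_of_check 3 (by norm_num) gc322 _ sc322_3
  · decide +kernel
  · decide +kernel

end Pool.Agent.Work.MP_ccc26a_nt
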