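import Mathlib

set_option autoImplicit false

namespace Pool.Agent.Work.MP_ccc26a_nt

open Set

/-- A continuous nowhere zero function on a convex set has a continuous logarithm. -/
theorem exists_log_of_convex {E : Type*} [AddCommGroup E] [Module ℝ E] [TopologicalSpace E]
    [IsTopologicalAddGroup E] [ContinuousSMul ℝ E] [LocallyConvexSpace ℝ E]
    {S : Set E} (hS : Convex ℝ S) {f : E → ℂ} (hf : ContinuousOn f S)
    (h0 : ∀ z ∈ S, f z ≠ 0) :
    ∃ g : E → ℂ, ContinuousOn g S ∧ ∀ z ∈ S, Complex.exp (g z) = f z := by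
  classical
  rcases S.eq_empty_or_nonempty with rfl | hne
  · exact ⟨fun _ => 0, continuousOn_empty _, by simp⟩
  have : ContractibleSpace S := hS.contractibleSpace hne
  have : LocallyPathConnectedSpace S := hS.locallyPathConnectedSpace
  have hsc : IsSimplyConnected (univ : Set S) := by
    have h1 : SimplyConnectedSpace S := inferInstance
    exact (Homeomorph.Set.univ S).toHomotopyEquiv.simplyConnectedSpace_iff.mpr h1
  obtain ⟨g, hg, hge⟩ := Complex.exists_continuousOn_eqOn_exp_comp (X := S) (U := univ) hsc
    isOpen_univ (g := S.domRestrict f) (by rw [continuousOn_univ]; exact hf.domRestrict)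
    (by rintro ⟨⟨x, hx⟩, -, h⟩; exact h0 x hx h)
  refine ⟨fun z => if hz : z ∈ S then g ⟨z, hz⟩ else 0, ?_, ?_⟩
  · rw [continuousOn_iff_continuous_domRestrict]
    rw [continuousOn_univ] at hg
    convert! hg with z
    ext z
    simp
  · intro z hz
    have := hge (mem_univ (⟨z, hz⟩ : S))
    simp only [hz, dif_pos]
    exact this

end Pool.Agent.Work.MP_ccc26a_nt
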