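import Pool.Agent.Work.MP_ccc26a_nt.ToTube

set_option autoImplicit false

namespace Pool.Agent.Work.MP_ccc26a_nt

open Filter Topology Set

variable {r : ℕ} {G : Matrix (Fin r) (Fin r) ℤ}

/-- The real vector of an integral vector. -/
def rv (x : Fin r → ℤ) : Fin r → ℝ := fun i => (x i : ℝ)

theorem bL_rv (x y : Fin r → ℤ) : bL G (rv x) (rv y) = ((bL G x y : ℤ) : ℝ) :=
  bL_map G (Int.castRingHom ℝ) x y

theorem rv_add (x y : Fin r → ℤ) : rv (x + y) = rv x + rv y := by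
  ext; simp [rv]

theorem rv_sub (x y : Fin r → ℤ) : rv (x - y) = rv x - rv y := by
  ext; simp [rv]

theorem rv_neg (x : Fin r → ℤ) : rv (-x) = -rv x := by
  ext; simp [rv]

theorem rv_zsmul (n : ℤ) (x : Fin r → ℤ) : rv (n • x) = (n : ℝ) • rv x := by
  ext; simp [rv]

theorem rv_zero : rv (0 : Fin r → ℤ) = 0 := by
  ext; simp [rv]

theorem continuous_bL {K : Type*} [NormedField K] :
    Continuous fun q : (Fin r → K) × (Fin r → K) => bL G q.1 q.2 := by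
  simp only [bL]
  fun_prop

theorem continuous_qform : Continuous fun x : Fin r → ℝ => bL G x x :=
  (continuous_bL (K := ℝ)).comp (continuous_id.prodMk continuous_id)

/-- Coercivity of a positive definite form. -/
theorem exists_coercive (hG : IsEvenPosDef G) :
    ∃ m : ℝ, 0 < m ∧ ∀ x : Fin r → ℝ, m * ‖x‖ ^ 2 ≤ bL G x x := by
  rcases (Metric.sphere (0 : Fin r → ℝ) 1).eq_empty_or_nonempty with he | hne
  · refine ⟨1, one_pos, fun x => ?_⟩
    have hx : x = 0 := by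
      by_contra hx
      have : (‖x‖⁻¹ • x) ∈ Metric.sphere (0 : Fin r → ℝ) 1 := by
        rw [mem_sphere_zero_iff_norm, norm_smul, norm_inv, norm_norm]
        exact inv_mul_cancel₀ (norm_ne_zero_iff.mpr hx)
      rw [he] at this
      exact this
    rw [hx]
    simp [bL_zero_left]
  · obtain ⟨x0, hx0, hmin⟩ := (isCompact_sphere (0 : Fin r → ℝ) 1).exists_isMinOn hne
      (continuous_qform (G := G)).continuousOn
    have hx0' : x0 ≠ 0 := by
      rintro rfl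
      rw [mem_sphere_zero_iff_norm, norm_zero] at hx0
      exact zero_ne_one hx0
    refine ⟨bL G x0 x0, hG.pos x0 hx0', fun x => ?_⟩
    rcases eq_or_ne x 0 with rfl | hx
    · simp [bL_zero_left]
    · have hxn : 0 < ‖x‖ := norm_pos_iff.mpr hx
      have hmem : (‖x‖⁻¹ • x) ∈ Metric.sphere (0 : Fin r → ℝ) 1 := by
        rw [mem_sphere_zero_iff_norm, norm_smul, norm_inv, norm_norm]
        exact inv_mul_cancel₀ (norm_ne_zero_iff.mpr hx)
      have h1 : bL G x0 x0 ≤ bL G (‖x‖⁻¹ • x) (‖x‖⁻¹ • x) := hmin hmem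
      rw [bL_smul_left, bL_smul_right] at h1
      have h2 : 0 < ‖x‖ ^ 2 := by positivity
      calc bL G x0 x0 * ‖x‖ ^ 2 ≤ (‖x‖⁻¹ * (‖x‖⁻¹ * bL G x x)) * ‖x‖ ^ 2 :=
            mul_le_mul_of_nonneg_right h1 h2.le
        _ = bL G x x := by field_simp

/-- The integral vectors of bounded norm form a finite set. -/
theorem finite_bounded (M : ℝ) : {w : Fin r → ℤ | ‖rv w‖ ≤ M}.Finite := by
  have h1 : {w : Fin r → ℤ | ‖rv w‖ ≤ M} ⊆ Set.pi Set.univ fun _ => Set.Icc (-⌈M⌉) ⌈M⌉ := by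
    intro w hw i _
    have h2 : |(w i : ℝ)| ≤ M := by
      have := norm_le_pi_norm (rv w) i
      rw [Real.norm_eq_abs] at this
      exact this.trans hw
    have h3 : |(w i : ℝ)| ≤ (⌈M⌉ : ℝ) := h2.trans (Int.le_ceil M)
    have h4 : |w i| ≤ ⌈M⌉ := by exact_mod_cast h3
    exact abs_le.mp h4
  exact (Set.Finite.pi fun _ => Set.finite_Icc _ _).subset h1

/-- A sequence of lattice points near a convergent sequence has a constant subsequence. -/
theorem exists_frequently (hG : IsEvenPosDef G) {c : ℕ → Fin r → ℝ} {c0 : Fin r → ℝ}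
    (hc : Tendsto c atTop (𝓝 c0)) {w : ℕ → Fin r → ℤ} {B : ℝ}
    (hB : ∀ n, bL G (c n - rv (w n)) (c n - rv (w n)) ≤ B) :
    ∃ w0, ∃ᶠ n in atTop, w n = w0 := by
  obtain ⟨m, hm, hmc⟩ := exists_coercive hG
  obtain ⟨M, hM⟩ := (hc.norm).bddAbove_range
  have hB0 : 0 ≤ B := (bL_real_nonneg hG _).trans (hB 0)
  have h1 : ∀ n, ‖rv (w n)‖ ≤ M + Real.sqrt (B / m) := by
    intro n
    have h2 : ‖c n‖ ≤ M := hM ⟨n, rfl⟩
    have h3 : ‖c n - rv (w n)‖ ≤ Real.sqrt (B / m) := by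
      apply Real.le_sqrt_of_sq_le
      rw [le_div_iff₀ hm]
      have := (hmc (c n - rv (w n))).trans (hB n)
      linarith
    calc ‖rv (w n)‖ = ‖c n - (c n - rv (w n))‖ := by congr 1; abel
      _ ≤ ‖c n‖ + ‖c n - rv (w n)‖ := norm_sub_le _ _
      _ ≤ _ := add_le_add h2 h3
  by_contra hcon
  push Not at hcon
  have h4 : ∀ w0 ∈ {w : Fin r → ℤ | ‖rv w‖ ≤ M + Real.sqrt (B / m)}, ∀ᶠ n in atTop, w n ≠ w0 := by
    intro w0 _
    exact hcon w0
  have h5 : ∀ᶠ n in atTop, ∀ w0 ∈ {w : Fin r → ℤ | ‖rv w‖ ≤ M + Real.sqrt (B / m)}, w n ≠ w0 :=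
    (Filter.eventually_all_finite (finite_bounded _)).mpr h4
  obtain ⟨n, hn⟩ := h5.exists
  exact hn (w n) (h1 n) rfl

/-- Limit form of `exists_frequently`. -/
theorem exists_limit_point (hG : IsEvenPosDef G) {c : ℕ → Fin r → ℝ} {c0 : Fin r → ℝ}
    (hc : Tendsto c atTop (𝓝 c0)) {w : ℕ → Fin r → ℤ} {ρ : ℕ → ℝ} {ρ0 : ℝ}
    (hρ : Tendsto ρ atTop (𝓝 ρ0))
    (hB : ∀ n, bL G (c n - rv (w n)) (c n - rv (w n)) ≤ ρ n) :
    ∃ w0, (∃ᶠ n in atTop, w n = w0) ∧ bL G (c0 - rv w0) (c0 - rv w0) ≤ ρ0 := by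
  obtain ⟨B, hBd⟩ := hρ.bddAbove_range
  obtain ⟨w0, hw0⟩ := exists_frequently hG hc (B := B) fun n => (hB n).trans (hBd ⟨n, rfl⟩)
  refine ⟨w0, hw0, ?_⟩
  have h1 : Tendsto (fun n => ρ n - bL G (c n - rv w0) (c n - rv w0)) atTop
      (𝓝 (ρ0 - bL G (c0 - rv w0) (c0 - rv w0))) := by
    refine hρ.sub ?_
    exact ((continuous_qform (G := G)).tendsto (c0 - rv w0)).comp (hc.sub_const _)
  have h2 : ∃ᶠ n in atTop, ρ n - bL G (c n - rv w0) (c n - rv w0) ∈ Set.Ici (0 : ℝ) := by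
    refine hw0.mono fun n hn => ?_
    have := hB n
    rw [hn] at this
    simp only [Set.mem_Ici]
    linarith
  have h3 := isClosed_Ici.mem_of_frequently_of_tendsto h2 h1
  simp only [Set.mem_Ici] at h3
  linarith

/-- The covering property: every rational point has a lattice point at squared distance at
most `2`. -/
def CovRat (G : Matrix (Fin r) (Fin r) ℤ) : Prop :=
  ∀ C : Fin r → ℤ, ∀ q : ℤ, 0 < q → ∃ w : Fin r → ℤ, bL G (C - q • w) (C - q • w) ≤ 2 * q ^ 2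

theorem covering_real (hG : IsEvenPosDef G) (hcov : CovRat G) (c : Fin r → ℝ) :
    ∃ w : Fin r → ℤ, bL G (c - rv w) (c - rv w) ≤ 2 := by
  have h1 : ∀ n : ℕ, ∃ w : Fin r → ℤ,
      bL G ((fun i => (⌊((n : ℝ) + 1) * c i⌋ : ℝ) / ((n : ℝ) + 1)) - rv w)
        ((fun i => (⌊((n : ℝ) + 1) * c i⌋ : ℝ) / ((n : ℝ) + 1)) - rv w) ≤ 2 := by
    intro n
    obtain ⟨w, hw⟩ := hcov (fun i => ⌊((n : ℝ) + 1) * c i⌋) ((n : ℤ) + 1) (by positivity)
    refine ⟨w, ?_⟩
    set C : Fin r → ℤ := fun i => ⌊((n : ℝ) + 1) * c i⌋ with hC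
    have hn : (0 : ℝ) < (n : ℝ) + 1 := by positivity
    have h2 : ((fun i => (⌊((n : ℝ) + 1) * c i⌋ : ℝ) / ((n : ℝ) + 1)) - rv w) =
        ((n : ℝ) + 1)⁻¹ • rv (C - ((n : ℤ) + 1) • w) := by
      ext i
      simp only [rv, hC, Pi.sub_apply, Pi.smul_apply, smul_eq_mul]
      push_cast
      field_simp
    rw [h2, bL_smul_left, bL_smul_right, bL_rv]
    have h3 : ((bL G (C - ((n : ℤ) + 1) • w) (C - ((n : ℤ) + 1) • w) : ℤ) : ℝ) ≤
        2 * ((n : ℝ) + 1) ^ 2 := by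
      exact_mod_cast hw
    calc ((n : ℝ) + 1)⁻¹ * (((n : ℝ) + 1)⁻¹ *
          ((bL G (C - ((n : ℤ) + 1) • w) (C - ((n : ℤ) + 1) • w) : ℤ) : ℝ))
        ≤ ((n : ℝ) + 1)⁻¹ * (((n : ℝ) + 1)⁻¹ * (2 * ((n : ℝ) + 1) ^ 2)) := by gcongr
      _ = 2 := by field_simp
  choose w hw using h1
  have hlim : Tendsto (fun n : ℕ => (fun i => (⌊((n : ℝ) + 1) * c i⌋ : ℝ) / ((n : ℝ) + 1)))
      atTop (𝓝 c) := by
    rw [tendsto_pi_nhds]
    intro i
    have h2 : Tendsto (fun n : ℕ => c i - 1 / ((n : ℝ) + 1)) atTop (𝓝 (c i - 0)) :=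
      tendsto_const_nhds.sub tendsto_one_div_add_atTop_nhds_zero_nat
    rw [sub_zero] at h2
    refine tendsto_of_tendsto_of_tendsto_of_le_of_le h2 tendsto_const_nhds ?_ ?_
    · intro n
      have hn : (0 : ℝ) < (n : ℝ) + 1 := by positivity
      have h3 := (Int.sub_one_lt_floor (((n : ℝ) + 1) * c i)).le
      show c i - 1 / ((n : ℝ) + 1) ≤ (⌊((n : ℝ) + 1) * c i⌋ : ℝ) / ((n : ℝ) + 1)
      rw [le_div_iff₀ hn, sub_mul, div_mul_cancel₀ _ hn.ne']
      linarith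
    · intro n
      have hn : (0 : ℝ) < (n : ℝ) + 1 := by positivity
      have h3 := Int.floor_le (((n : ℝ) + 1) * c i)
      show (⌊((n : ℝ) + 1) * c i⌋ : ℝ) / ((n : ℝ) + 1) ≤ c i
      rw [div_le_iff₀ hn]
      linarith
  obtain ⟨w0, -, hw0⟩ := exists_limit_point hG hlim (ρ := fun _ => 2) tendsto_const_nhds hw
  exact ⟨w0, hw0⟩

/-- At a deepest hole the nearest lattice points are not contained in a half space. -/
theorem hole_lemma (hG : IsEvenPosDef G) {c : Fin r → ℝ} {ρ : ℝ}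
    (H1 : ∀ w : Fin r → ℤ, ρ ≤ bL G (c - rv w) (c - rv w))
    (H2 : ∀ c' : Fin r → ℝ, ∃ w : Fin r → ℤ, bL G (c' - rv w) (c' - rv w) ≤ ρ)
    {u : Fin r → ℝ} (hu : u ≠ 0) :
    ∃ v : Fin r → ℤ, bL G (rv v - c) (rv v - c) = ρ ∧ 0 < bL G u (rv v - c) := by
  have h1 : ∀ n : ℕ, ∃ w : Fin r → ℤ, bL G (c + (1 / ((n : ℝ) + 1)) • u - rv w)
      (c + (1 / ((n : ℝ) + 1)) • u - rv w) ≤ ρ := fun n => H2 _
  choose w hw using h1
  have hlim : Tendsto (fun n : ℕ => c + (1 / ((n : ℝ) + 1)) • u) atTop (𝓝 c) := by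
    have h2 : Tendsto (fun n : ℕ => c + (1 / ((n : ℝ) + 1)) • u) atTop (𝓝 (c + (0 : ℝ) • u)) :=
      tendsto_const_nhds.add (tendsto_one_div_add_atTop_nhds_zero_nat.smul_const u)
    simpa using h2
  obtain ⟨v, hfreq, hv⟩ := exists_limit_point hG hlim (ρ := fun _ => ρ) tendsto_const_nhds hw
  have hneg : rv v - c = -(c - rv v) := by abel
  have hveq : bL G (rv v - c) (rv v - c) = ρ := by
    rw [hneg, bL_neg_left, bL_neg_right, neg_neg]
    exact le_antisymm hv (H1 v)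
  refine ⟨v, hveq, ?_⟩
  obtain ⟨n, hn⟩ := hfreq.exists
  have h3 := hw n
  rw [hn] at h3
  set ε : ℝ := 1 / ((n : ℝ) + 1) with hε
  have hε0 : 0 < ε := by positivity
  have h4 : c + ε • u - rv v = ε • u - (rv v - c) := by abel
  have h40 : ∀ x y : Fin r → ℝ, bL G (x - y) (x - y) = bL G x x - 2 * bL G x y + bL G y y := by
    intro x y
    rw [bL_sub_left, bL_sub_right, bL_sub_right, bL_comm hG.symm y x]
    ring
  rw [h4, h40, hveq, bL_smul_left, bL_smul_right, bL_smul_left] at h3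
  have h5 : 0 < bL G u u := hG.pos u hu
  have h6 : 0 < ε * (ε * bL G u u) := by positivity
  by_contra hcon
  push Not at hcon
  have h7 : ε * bL G u (rv v - c) ≤ 0 := mul_nonpos_of_nonneg_of_nonpos hε0.le hcon
  linarith

/-- Existence of a deepest hole. -/
theorem exists_hole (hG : IsEvenPosDef G) (hcov : CovRat G) :
    ∃ c : Fin r → ℝ, ∃ ρ : ℝ, ρ ≤ 2 ∧ (∀ w : Fin r → ℤ, ρ ≤ bL G (c - rv w) (c - rv w)) ∧
      ∀ c' : Fin r → ℝ, ∃ w : Fin r → ℤ, bL G (c' - rv w) (c' - rv w) ≤ ρ := by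
  let A : Set ℝ := {ρ | ∃ c : Fin r → ℝ, ∀ w : Fin r → ℤ, ρ ≤ bL G (c - rv w) (c - rv w)}
  have hA0 : (0 : ℝ) ∈ A := ⟨0, fun w => bL_real_nonneg hG _⟩
  have hA2 : ∀ ρ ∈ A, ρ ≤ 2 := by
    rintro ρ ⟨c, hc⟩
    obtain ⟨w, hw⟩ := covering_real hG hcov c
    exact (hc w).trans hw
  have hbdd : BddAbove A := ⟨2, hA2⟩
  set ρ := sSup A with hρ
  have hρ2 : ρ ≤ 2 := csSup_le ⟨0, hA0⟩ hA2
  -- the sets of good centres in the unit cube
  have h1 : ∀ n : ℕ, ∃ c ∈ Metric.closedBall (0 : Fin r → ℝ) 1, ∀ w : Fin r → ℤ,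
      ρ - 1 / ((n : ℝ) + 1) ≤ bL G (c - rv w) (c - rv w) := by
    intro n
    have hn : (0 : ℝ) < 1 / ((n : ℝ) + 1) := by positivity
    obtain ⟨ρ', ⟨c, hc⟩, hρ'⟩ := exists_lt_of_lt_csSup ⟨0, hA0⟩ (show ρ - 1 / ((n : ℝ) + 1) < ρ by
      linarith)
    refine ⟨c - rv (fun i => ⌊c i⌋), ?_, fun w => ?_⟩
    · rw [mem_closedBall_zero_iff, pi_norm_le_iff_of_nonneg zero_le_one]
      intro i
      simp only [rv, Pi.sub_apply, Real.norm_eq_abs, abs_le]
      have h2 := Int.floor_le (c i)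
      have h3 := Int.lt_floor_add_one (c i)
      constructor <;> linarith
    · have h2 := hc ((fun i => ⌊c i⌋) + w)
      rw [rv_add, ← sub_sub] at h2
      linarith
  choose c hcK hc using h1
  obtain ⟨c0, -, φ, hφ, hlim⟩ := (isCompact_closedBall (0 : Fin r → ℝ) 1).tendsto_subseq hcK
  refine ⟨c0, ρ, hρ2, fun w => ?_, fun c' => ?_⟩
  · have h2 : Tendsto (fun n : ℕ => ρ - 1 / ((φ n : ℝ) + 1)) atTop (𝓝 (ρ - 0)) :=
      tendsto_const_nhds.sub (tendsto_one_div_add_atTop_nhds_zero_nat.comp hφ.tendsto_atTop)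
    rw [sub_zero] at h2
    have h3 : Tendsto (fun n : ℕ => bL G (c (φ n) - rv w) (c (φ n) - rv w)) atTop
        (𝓝 (bL G (c0 - rv w) (c0 - rv w))) :=
      ((continuous_qform (G := G)).tendsto (c0 - rv w)).comp (hlim.sub_const _)
    exact le_of_tendsto_of_tendsto' h2 h3 fun n => hc (φ n) w
  · have h2 : ∀ n : ℕ, ∃ w : Fin r → ℤ,
        bL G (c' - rv w) (c' - rv w) ≤ ρ + 1 / ((n : ℝ) + 1) := by
      intro n
      by_contra hcon
      push Not at hcon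
      have hn : (0 : ℝ) < 1 / ((n : ℝ) + 1) := by positivity
      have h3 : ρ + 1 / ((n : ℝ) + 1) ∈ A := ⟨c', fun w => (hcon w).le⟩
      have := le_csSup hbdd h3
      linarith
    choose w hw using h2
    have h3 : Tendsto (fun n : ℕ => ρ + 1 / ((n : ℝ) + 1)) atTop (𝓝 (ρ + 0)) :=
      tendsto_const_nhds.add tendsto_one_div_add_atTop_nhds_zero_nat
    rw [add_zero] at h3
    obtain ⟨w0, -, hw0⟩ := exists_limit_point hG (c := fun _ => c') tendsto_const_nhds h3 hw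
    exact ⟨w0, hw0⟩

/-- A proper subspace has a nonzero orthogonal vector. -/
theorem exists_orth (hG : IsEvenPosDef G) {P : Submodule ℝ (Fin r → ℝ)} (hP : P ≠ ⊤) :
    ∃ u : Fin r → ℝ, u ≠ 0 ∧ ∀ x ∈ P, bL G u x = 0 := by
  obtain ⟨f, hf0, hf⟩ := Submodule.exists_le_ker_of_lt_top P (lt_top_iff_ne_top.mpr hP)
  let Φ : (Fin r → ℝ) →ₗ[ℝ] Module.Dual ℝ (Fin r → ℝ) :=
    { toFun := fun u =>
        { toFun := fun x => bL G u x
          map_add' := fun x y => bL_add_right G u x y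
          map_smul' := fun a x => by rw [bL_smul_right]; rfl }
      map_add' := fun u v => LinearMap.ext fun x => bL_add_left G u v x
      map_smul' := fun a u => LinearMap.ext fun x => bL_smul_left G a u x }
  have hinj : Function.Injective Φ := by
    rw [injective_iff_map_eq_zero]
    intro u hu
    by_contra hne
    have h1 : Φ u u = 0 := by rw [hu]; rfl
    exact (hG.pos u hne).ne' h1
  have hsurj : Function.Surjective Φ := by
    have h1 : Module.finrank ℝ (Fin r → ℝ) = Module.finrank ℝ (Module.Dual ℝ (Fin r → ℝ)) :=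
      (Subspace.dual_finrank_eq).symm
    exact (LinearMap.injective_iff_surjective_of_finrank_eq_finrank h1).mp hinj
  obtain ⟨u, hu⟩ := hsurj f
  refine ⟨u, ?_, fun x hx => ?_⟩
  · rintro rfl
    apply hf0
    rw [← hu, map_zero]
  · have h1 : f x = 0 := hf hx
    rw [← hu] at h1
    exact h1

end Pool.Agent.Work.MP_ccc26a_nt
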