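import Mathlib

/-!
# Definitions for the Gritsenko-Nikulin question on complete 2-divisors

An even positive-definite lattice `L` of rank `r` is given by its Gram matrix `G` (an integral
symmetric `r × r` matrix), i.e. `L = ℤ ^ r` with `(x, y) = ∑ i, ∑ j, x i * G i j * y j`.
The lattice `M = 2U ⊕ L(-1)` is `ℤ × (ℤ × ℤ ^ r × ℤ) × ℤ`; the outer two coordinates span the
first hyperbolic plane, the two integer coordinates of the middle factor span the second one.
-/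

set_option autoImplicit false

namespace Pool.Agent.Work.MP_ccc26a_nt

open Filter Topology

/-- The bilinear form `(x, y) = ∑ i, ∑ j, x i * G i j * y j` on `K ^ r` (`K = ℤ, ℚ, ℝ, ℂ`). -/
def bL {K : Type*} [CommRing K] {r : ℕ} (G : Matrix (Fin r) (Fin r) ℤ) (x y : Fin r → K) : K :=
  ∑ i, ∑ j, x i * (G i j : K) * y j

/-- `K ⊗ (U ⊕ L(-1))` as the set of triples `(n, ℓ, m)`. -/
abbrev NVec (K : Type*) (r : ℕ) : Type _ := K × (Fin r → K) × K

/-- `K ⊗ (2U ⊕ L(-1))` as the set of triples `(a, x, b)` with `x` in `K ⊗ (U ⊕ L(-1))`. -/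
abbrev MVec (K : Type*) (r : ℕ) : Type _ := K × NVec K r × K

/-- The bilinear form of `U ⊕ L(-1)`: `((n, ℓ, m), (n', ℓ', m')) = n m' + m n' - (ℓ, ℓ')`. -/
def bN {K : Type*} [CommRing K] {r : ℕ} (G : Matrix (Fin r) (Fin r) ℤ) (x y : NVec K r) : K :=
  x.1 * y.2.2 + x.2.2 * y.1 - bL G x.2.1 y.2.1

/-- The bilinear form of `M = 2U ⊕ L(-1)`: `((a, x, b), (a', x', b')) = a b' + b a' + (x, x')`. -/
def bM {K : Type*} [CommRing K] {r : ℕ} (G : Matrix (Fin r) (Fin r) ℤ) (v w : MVec K r) : K :=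
  v.1 * w.2.2 + v.2.2 * w.1 + bN G v.2.1 w.2.1

/-- `G` is the Gram matrix of an even positive-definite lattice. -/
structure IsEvenPosDef {r : ℕ} (G : Matrix (Fin r) (Fin r) ℤ) : Prop where
  /-- `G` is symmetric -/
  symm : G.IsSymm
  /-- `(x, x)` is even for all `x` in the lattice -/
  even : ∀ x : Fin r → ℤ, Even (bL G x x)
  /-- the form is positive definite -/
  pos : ∀ x : Fin r → ℝ, x ≠ 0 → 0 < bL G x x

/-- The inclusion of the lattice `M` in `M ⊗ ℂ`. -/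
def toC {r : ℕ} (v : MVec ℤ r) : MVec ℂ r :=
  ((v.1 : ℂ), ((v.2.1.1 : ℂ), (fun i => (v.2.1.2.1 i : ℂ)), (v.2.1.2.2 : ℂ)), (v.2.2 : ℂ))

/-- Complex conjugation on `M ⊗ ℂ`. -/
def conjM {r : ℕ} (w : MVec ℂ r) : MVec ℂ r :=
  ((starRingEnd ℂ) w.1, ((starRingEnd ℂ) w.2.1.1, (fun i => (starRingEnd ℂ) (w.2.1.2.1 i)),
    (starRingEnd ℂ) w.2.1.2.2), (starRingEnd ℂ) w.2.2)

/-- The affine cone over `{[Z] ∈ ℙ(M ⊗ ℂ) : (Z, Z) = 0, (Z, conj Z) > 0}`
(the number `(Z, conj Z)` is always real). -/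
def periodCone {r : ℕ} (G : Matrix (Fin r) (Fin r) ℤ) : Set (MVec ℂ r) :=
  {w | bM G w w = 0 ∧ 0 < (bM G w (conjM w)).re}

/-- `D` is (the affine cone over) a connected component `𝒟(M)` of the period domain. -/
def IsPeriodComponent {r : ℕ} (G : Matrix (Fin r) (Fin r) ℤ) (D : Set (MVec ℂ r)) : Prop :=
  ∃ w ∈ periodCone G, D = connectedComponentIn (periodCone G) w

theorem toC_add {r : ℕ} (v w : MVec ℤ r) : toC (v + w) = toC v + toC w := by
  ext <;> simp [toC]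

theorem toC_neg {r : ℕ} (v : MVec ℤ r) : toC (-v) = -toC v := by
  ext <;> simp [toC]

theorem toC_zero {r : ℕ} : toC (0 : MVec ℤ r) = 0 := by
  ext <;> simp [toC]

/-- `g` is an isometry of `M` that preserves the component `D` and acts trivially on `M^∨ / M`.
An isometry of `M` is regarded as a `ℂ`-linear automorphism of `M ⊗ ℂ` that maps `M` onto itself;
`M^∨` consists of the `y` in `M ⊗ ℂ` with `(y, v) ∈ ℤ` for all `v ∈ M`. -/
structure IsStable {r : ℕ} (G : Matrix (Fin r) (Fin r) ℤ) (D : Set (MVec ℂ r))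
    (g : Equiv.Perm (MVec ℂ r)) : Prop where
  /-- `g` is additive -/
  add : ∀ v w, g (v + w) = g v + g w
  /-- `g` is `ℂ`-linear -/
  smul : ∀ (t : ℂ) (v : MVec ℂ r), g (t • v) = t • g v
  /-- `g` preserves the form -/
  isometry : ∀ v w, bM G (g v) (g w) = bM G v w
  /-- `g` maps `M` onto itself -/
  lattice : g '' Set.range toC = Set.range toC
  /-- `g` acts trivially on `M^∨ / M` -/
  discr : ∀ y, (∀ v : MVec ℤ r, ∃ k : ℤ, bM G y (toC v) = k) → g y - y ∈ Set.range toC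
  /-- `g` preserves `D` -/
  comp : g '' D = D

theorem IsStable.mul {r : ℕ} {G : Matrix (Fin r) (Fin r) ℤ} {D : Set (MVec ℂ r)}
    {a b : Equiv.Perm (MVec ℂ r)} (ha : IsStable G D a) (hb : IsStable G D b) :
    IsStable G D (a * b) where
  add v w := by rw [Equiv.Perm.mul_apply, hb.add, ha.add]; rfl
  smul t v := by rw [Equiv.Perm.mul_apply, hb.smul, ha.smul]; rfl
  isometry v w := by rw [Equiv.Perm.mul_apply, Equiv.Perm.mul_apply, ha.isometry, hb.isometry]
  lattice := by rw [Equiv.Perm.coe_mul, Set.image_comp, hb.lattice, ha.lattice]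
  discr y hy := by
    have hy' : ∀ v : MVec ℤ r, ∃ k : ℤ, bM G (b y) (toC v) = k := by
      intro v
      have hv : toC v ∈ b '' Set.range toC := by rw [hb.lattice]; exact ⟨v, rfl⟩
      obtain ⟨_, ⟨u, rfl⟩, hu⟩ := hv
      obtain ⟨k, hk⟩ := hy u
      exact ⟨k, by rw [← hu, hb.isometry, hk]⟩
    obtain ⟨u1, h1⟩ := ha.discr (b y) hy'
    obtain ⟨u2, h2⟩ := hb.discr y hy
    refine ⟨u1 + u2, ?_⟩
    rw [toC_add, h1, h2, Equiv.Perm.mul_apply]
    abel
  comp := by rw [Equiv.Perm.coe_mul, Set.image_comp, hb.comp, ha.comp]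

theorem IsStable.one {r : ℕ} {G : Matrix (Fin r) (Fin r) ℤ} {D : Set (MVec ℂ r)} :
    IsStable G D 1 where
  add v w := rfl
  smul t v := rfl
  isometry v w := rfl
  lattice := by rw [Equiv.Perm.coe_one, Set.image_id]
  discr y _ := ⟨0, by rw [toC_zero, Equiv.Perm.coe_one, id, sub_self]⟩
  comp := by rw [Equiv.Perm.coe_one, Set.image_id]

theorem IsStable.inv {r : ℕ} {G : Matrix (Fin r) (Fin r) ℤ} {D : Set (MVec ℂ r)}
    {a : Equiv.Perm (MVec ℂ r)} (ha : IsStable G D a) : IsStable G D a⁻¹ := by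
  have hinv : ∀ v, a (a⁻¹ v) = v := fun v => a.apply_symm_apply v
  have hinv' : ∀ v, a⁻¹ (a v) = v := fun v => a.symm_apply_apply v
  have himg : ∀ S : Set (MVec ℂ r), a '' S = S → (⇑(a⁻¹)) '' S = S := by
    intro S hS
    conv_lhs => rw [← hS]
    rw [← Set.image_comp]
    convert! Set.image_id S
    ext1 v
    exact hinv' v
  refine ⟨fun v w => ?_, fun t v => ?_, fun v w => ?_, himg _ ha.lattice, fun y hy => ?_,
    himg _ ha.comp⟩
  · apply a.injective
    rw [hinv, ha.add, hinv, hinv]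
  · apply a.injective
    rw [hinv, ha.smul, hinv]
  · rw [← ha.isometry (a⁻¹ v) (a⁻¹ w), hinv, hinv]
  · have hy' : ∀ v : MVec ℤ r, ∃ k : ℤ, bM G (a⁻¹ y) (toC v) = k := by
      intro v
      have hv : a (toC v) ∈ Set.range toC := by rw [← ha.lattice]; exact ⟨_, ⟨v, rfl⟩, rfl⟩
      obtain ⟨u, hu⟩ := hv
      obtain ⟨k, hk⟩ := hy u
      exact ⟨k, by rw [← ha.isometry, hinv, ← hu, hk]⟩
    obtain ⟨u, hu⟩ := ha.discr _ hy'
    refine ⟨-u, ?_⟩
    rw [toC_neg, hu, hinv]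
    abel

/-- The group `Õ⁺(M)` of all `g` with `IsStable G D g`: the isometries of `M` that preserve the
component `D` and act trivially on `M^∨ / M`. -/
def stableOrth {r : ℕ} (G : Matrix (Fin r) (Fin r) ℤ) (D : Set (MVec ℂ r)) :
    Subgroup (Equiv.Perm (MVec ℂ r)) where
  carrier := {g | IsStable G D g}
  mul_mem' := IsStable.mul
  one_mem' := IsStable.one
  inv_mem' := IsStable.inv

/-- `F` is holomorphic on `D`: near each point of `D` it is the restriction to `D` of an analytic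
function on `M ⊗ ℂ`. -/
def HoloOn {r : ℕ} (D : Set (MVec ℂ r)) (F : MVec ℂ r → ℂ) : Prop :=
  ∀ w ∈ D, ∃ H : MVec ℂ r → ℂ, AnalyticAt ℂ H w ∧ ∀ᶠ w' in 𝓝[D] w, F w' = H w'

/-- `F` is a modular form of weight `k` and character `χ` for `Õ⁺(M)` on the cone `D`. -/
structure IsModularForm {r : ℕ} (G : Matrix (Fin r) (Fin r) ℤ) (D : Set (MVec ℂ r)) (k : ℤ)
    (χ : stableOrth G D →* ℂˣ) (F : MVec ℂ r → ℂ) : Prop where
  /-- `F` is holomorphic on `D` -/
  holo : HoloOn D F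
  /-- `F` is homogeneous of degree `-k` -/
  homog : ∀ t : ℂ, t ≠ 0 → ∀ w ∈ D, F (t • w) = t ^ (-k) * F w
  /-- `F` transforms by `χ` under `Õ⁺(M)` -/
  equiv : ∀ g : stableOrth G D, ∀ w ∈ D, F ((g : Equiv.Perm (MVec ℂ r)) w) = χ g * F w

/-- `F` has complete 2-divisor: near each point `w` of `D` the function `F` is the product of a
nonvanishing analytic function and of the linear forms `(v, ·)`, `v` running over the vectors
`v ∈ M` with `(v, v) = -2` and `(v, w) = 0`, one from each pair `± v`. That is,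
`div F = ∑_{v ∈ M / ±1, (v, v) = -2} 𝒟_v`, each component with multiplicity one. -/
def HasCompleteTwoDivisor {r : ℕ} (G : Matrix (Fin r) (Fin r) ℤ) (D : Set (MVec ℂ r))
    (F : MVec ℂ r → ℂ) : Prop :=
  ∀ w ∈ D, ∃ S : Finset (MVec ℤ r),
    (∀ v, (v ∈ S ∨ -v ∈ S) ↔ (bM G v v = -2 ∧ bM G (toC v) w = 0)) ∧ (∀ v ∈ S, -v ∉ S) ∧
    ∃ U : MVec ℂ r → ℂ, AnalyticAt ℂ U w ∧ U w ≠ 0 ∧
      ∀ᶠ w' in 𝓝[D] w, F w' = U w' * ∏ v ∈ S, bM G (toC v) w'

/-- The `Norm₂` condition: every class of `L^∨ / L` contains a vector `h` with `0 ≤ (h, h) ≤ 2`. -/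
def NormTwo {r : ℕ} (G : Matrix (Fin r) (Fin r) ℤ) : Prop :=
  ∀ y : Fin r → ℚ, (∀ x : Fin r → ℤ, ∃ k : ℤ, bL G y (fun i => (x i : ℚ)) = k) →
    ∃ v : Fin r → ℤ, 0 ≤ bL G (fun i => y i + v i) (fun i => y i + v i) ∧
      bL G (fun i => y i + v i) (fun i => y i + v i) ≤ 2

/-- `Λ` is a Gram matrix of the Leech lattice: the even unimodular positive-definite lattice of
rank 24 with no vectors of norm 2. -/
structure IsLeech (Λ : Matrix (Fin 24) (Fin 24) ℤ) : Prop where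
  /-- even and positive definite -/
  evenPosDef : IsEvenPosDef Λ
  /-- unimodular -/
  unimodular : Λ.det = 1
  /-- no vector of norm 2 -/
  noRoot : ∀ x : Fin 24 → ℤ, bL Λ x x ≠ 2

/-- The lattice with Gram matrix `G` is isometric to a primitive sublattice of the lattice with
Gram matrix `Λ`. -/
def PrimitivelyEmbeds {r s : ℕ} (G : Matrix (Fin r) (Fin r) ℤ) (Λ : Matrix (Fin s) (Fin s) ℤ) :
    Prop :=
  ∃ φ : (Fin r → ℤ) →ₗ[ℤ] (Fin s → ℤ), Function.Injective φ ∧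
    (∀ x y, bL Λ (φ x) (φ y) = bL G x y) ∧
    ∀ (n : ℤ) (z : Fin s → ℤ), n ≠ 0 → n • z ∈ LinearMap.range φ → z ∈ LinearMap.range φ

end Pool.Agent.Work.MP_ccc26a_nt
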