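import Pool.Agent.Work.MP_ccc26a_nt.Leech

set_option autoImplicit false

namespace Pool.Agent.Work.MP_ccc26a_nt

variable {r : ℕ} {G : Matrix (Fin r) (Fin r) ℤ}

/-- Isometric embeddings in a lattice of minimum at least four are primitive. -/
theorem embeds_of_isometry (hG : IsEvenPosDef G) (hcov : CovRat G) {s : ℕ}
    {Λ : Matrix (Fin s) (Fin s) ℤ} (hΛ : IsEvenPosDef Λ) (hΛ2 : ∀ x : Fin s → ℤ, bL Λ x x ≠ 2)
    (φ : (Fin r → ℤ) →ₗ[ℤ] (Fin s → ℤ)) (hφ : ∀ x y, bL Λ (φ x) (φ y) = bL G x y) :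
    PrimitivelyEmbeds G Λ := by
  refine ⟨φ, ?_, hφ, ?_⟩
  · rw [injective_iff_map_eq_zero]
    intro x hx
    by_contra hne
    have h1 := hφ x x
    rw [hx, bL_zero_left] at h1
    have := bL_int_pos hG hne
    omega
  · have key : ∀ (n : ℤ) (z : Fin s → ℤ), 0 < n → n • z ∈ LinearMap.range φ →
        z ∈ LinearMap.range φ := by
      rintro n z hn ⟨x, hx⟩
      obtain ⟨w, hw⟩ := hcov x n hn
      have h1 : φ (x - n • w) = n • (z - φ w) := by
        rw [map_sub, map_smul, hx, smul_sub]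
      have h2 := hφ (x - n • w) (x - n • w)
      rw [h1, bL_smul_left, bL_smul_right] at h2
      have h3 : n ^ 2 * bL Λ (z - φ w) (z - φ w) ≤ n ^ 2 * 2 := by
        calc n ^ 2 * bL Λ (z - φ w) (z - φ w) = n * (n * bL Λ (z - φ w) (z - φ w)) := by ring
          _ = bL G (x - n • w) (x - n • w) := h2
          _ ≤ 2 * n ^ 2 := hw
          _ = n ^ 2 * 2 := by ring
      have h4 : bL Λ (z - φ w) (z - φ w) ≤ 2 := le_of_mul_le_mul_left h3 (by positivity)
      have h5 := hΛ2 (z - φ w)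
      obtain ⟨m, hm⟩ := hΛ.even (z - φ w)
      have h6 := bL_int_nonneg hΛ (z - φ w)
      have h7 : bL Λ (z - φ w) (z - φ w) = 0 := by omega
      have h8 : z - φ w = 0 := by
        by_contra hne
        have := bL_int_pos hΛ hne
        omega
      exact ⟨w, (sub_eq_zero.mp h8).symm⟩
    intro n z hn hz
    rcases lt_or_gt_of_ne hn with h | h
    · refine key (-n) z (by omega) ?_
      rw [neg_smul]
      exact neg_mem hz
    · exact key n z h hz

/-- Embedding in the Leech lattice through standard coordinates. -/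
theorem embeds_of_coords (hG : IsEvenPosDef G) (hcov : CovRat G)
    (α : (Fin r → ℤ) →ₗ[ℤ] (Fin 24 → ℤ))
    (h1 : ∀ x y, ∑ j, α x j * α y j = 8 * bL G x y)
    (h2 : ∀ x i, (8 : ℤ) ∣ ∑ j, α x j * Bas i j) : PrimitivelyEmbeds G Lam := by
  have h3 : ∀ k : Fin r, ∃ y : Fin 24 → ℤ, av y = α (Pi.single k 1) := fun k =>
    leech_surj _ (h2 _)
  choose y hy using h3
  let φ : (Fin r → ℤ) →ₗ[ℤ] (Fin 24 → ℤ) :=
    ∑ k, (LinearMap.proj k : (Fin r → ℤ) →ₗ[ℤ] ℤ).smulRight (y k)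
  let A : (Fin 24 → ℤ) →ₗ[ℤ] (Fin 24 → ℤ) :=
    { toFun := av
      map_add' := av_add
      map_smul' := fun n x => av_smul n x }
  have h4 : A ∘ₗ φ = α := by
    apply LinearMap.pi_ext'
    intro k
    apply LinearMap.ext_ring
    have h5 : φ (Pi.single k 1) = y k := by
      simp only [φ, LinearMap.sum_apply, LinearMap.smulRight_apply, LinearMap.proj_apply]
      rw [Finset.sum_eq_single k]
      · simp
      · intro b _ hb
        simp [hb]
      · intro h; exact absurd (Finset.mem_univ k) h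
    show av (φ (Pi.single k 1)) = α (Pi.single k 1)
    rw [h5, hy]
  have h5 : ∀ x, av (φ x) = α x := fun x => LinearMap.congr_fun h4 x
  refine embeds_of_isometry hG hcov lam_evenPosDef lam_noRoot φ fun x y => ?_
  have h6 := av_inner (φ x) (φ y)
  rw [h5, h5, h1] at h6
  linarith

/-- The `Norm₂` condition from the covering property. -/
theorem normTwo_of_cov (hG : IsEvenPosDef G) (hcov : CovRat G) : NormTwo G := by
  intro y _
  -- common denominator
  obtain ⟨q, hq0, hq⟩ : ∃ q : ℤ, 0 < q ∧ ∀ i, ∃ c : ℤ, y i * q = c := by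
    refine ⟨∏ i, ((y i).den : ℤ), Finset.prod_pos fun i _ => by exact_mod_cast (y i).pos, ?_⟩
    intro i
    refine ⟨(y i).num * ∏ j ∈ Finset.univ.erase i, ((y j).den : ℤ), ?_⟩
    rw [← Finset.mul_prod_erase Finset.univ (fun j => ((y j).den : ℤ)) (Finset.mem_univ i)]
    push_cast
    rw [← mul_assoc]
    congr 1
    exact_mod_cast (y i).mul_den_eq_num
  choose C hC using hq
  obtain ⟨w, hw⟩ := hcov C q hq0
  refine ⟨-w, ?_, ?_⟩
  all_goals
    have hqQ : (0 : ℚ) < q := by exact_mod_cast hq0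
    have h1 : (fun i => y i + (((-w) i : ℤ) : ℚ)) =
        (q : ℚ)⁻¹ • (fun i => (((C - q • w) i : ℤ) : ℚ)) := by
      ext i
      simp only [Pi.neg_apply, Pi.smul_apply, Pi.sub_apply, smul_eq_mul]
      push_cast
      rw [← hC i]
      field_simp
      ring
    have h2 : bL G (fun i => y i + (((-w) i : ℤ) : ℚ)) (fun i => y i + (((-w) i : ℤ) : ℚ)) =
        (q : ℚ)⁻¹ * ((q : ℚ)⁻¹ * ((bL G (C - q • w) (C - q • w) : ℤ) : ℚ)) := by
      rw [h1, bL_smul_left, bL_smul_right]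
      congr 2
      exact bL_map G (Int.castRingHom ℚ) _ _
    rw [h2]
  · have h3 : (0 : ℚ) ≤ ((bL G (C - q • w) (C - q • w) : ℤ) : ℚ) := by
      exact_mod_cast bL_int_nonneg hG _
    positivity
  · have h3 : ((bL G (C - q • w) (C - q • w) : ℤ) : ℚ) ≤ 2 * (q : ℚ) ^ 2 := by
      exact_mod_cast hw
    calc (q : ℚ)⁻¹ * ((q : ℚ)⁻¹ * ((bL G (C - q • w) (C - q • w) : ℤ) : ℚ))
        ≤ (q : ℚ)⁻¹ * ((q : ℚ)⁻¹ * (2 * (q : ℚ) ^ 2)) := by gcongr
      _ = 2 := by field_simp

end Pool.Agent.Work.MP_ccc26a_nt
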