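import Pool.Agent.Work.MP_ccc26a_nt.Frame

set_option autoImplicit false

namespace Pool.Agent.Work.MP_ccc26a_nt

variable {r : ℕ}

theorem FrameData.inner {S : AddSubgroup (Fin r → ℤ)} (hS : FrameData S) {a b : Fin r → ℤ}
    (ha : a ∈ S) (hb : b ∈ S) : (8 : ℤ) ∣ ∑ i, a i * b i := by
  have h1 := hS.int16 a ha
  have h2 := hS.int16 b hb
  have h3 := hS.int16 _ (S.add_mem ha hb)
  have h4 : ∑ i, (a + b) i ^ 2 = ∑ i, a i ^ 2 + ∑ i, b i ^ 2 + 2 * ∑ i, a i * b i := by
    rw [Finset.mul_sum, ← Finset.sum_add_distrib, ← Finset.sum_add_distrib]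
    exact Finset.sum_congr rfl fun i _ => by rw [Pi.add_apply]; ring
  rw [h4] at h3
  omega

theorem FrameData.not_single {S : AddSubgroup (Fin r → ℤ)} (hS : FrameData S) (i0 : Fin r)
    {x : Fin r → ℤ} (hx : (fun i => 4 * x i) ∈ S) : (2 : ℤ) ∣ ∑ i, x i := by
  by_contra hodd
  have h1 : (2 : ℤ) ∣ ∑ i, (x i - if i = i0 then 1 else 0) := by
    rw [Finset.sum_sub_distrib, Finset.sum_ite_eq' Finset.univ i0]
    simp only [Finset.mem_univ, if_true]
    omega
  have h2 := hS.dn _ h1
  have h3 := S.sub_mem hx h2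
  have h4 : ((fun i => 4 * x i) - fun i => 4 * (x i - if i = i0 then 1 else 0)) =
      Pi.single i0 4 := by
    ext i
    simp only [Pi.sub_apply, Pi.single_apply]
    split_ifs <;> ring
  rw [h4] at h3
  have h5 := hS.min _ h3 (by
    intro h
    have := congrFun h i0
    simp at this)
  have h6 : ∑ i, (Pi.single i0 (4 : ℤ) : Fin r → ℤ) i ^ 2 = 16 := by
    rw [Finset.sum_eq_single i0]
    · simp
    · intro b _ hb
      simp [hb]
    · intro h; exact absurd (Finset.mem_univ i0) h
  omega

theorem sq_eq_one {t : ℤ} (h : t ^ 2 = 1) : t = 1 ∨ t = -1 := by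
  have h1 : (t - 1) * (t + 1) = 0 := by linear_combination h
  rcases mul_eq_zero.mp h1 with h2 | h2
  · left; omega
  · right; omega

theorem zmod2_cases (t : ZMod 2) : t = 0 ∨ t = 1 := by
  revert t; decide

/-- The existence of suitable signs in the even case. -/
theorem FrameData.exists_signs {S : AddSubgroup (Fin r → ℤ)} (hS : FrameData S) (i0 : Fin r) :
    ∃ σ : Fin r → ℤ, (∀ i, σ i = 1 ∨ σ i = -1) ∧
      ∀ b : Fin r → ℤ, (fun i => 2 * b i) ∈ S → (4 : ℤ) ∣ ∑ i, σ i * b i := by
  have hsum : ∀ b : Fin r → ℤ, (fun i => 2 * b i) ∈ S → (2 : ℤ) ∣ ∑ i, b i := by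
    intro b hb
    have h1 := hS.int16 _ hb
    have h2 : ∑ i, (2 * b i) ^ 2 = 4 * ∑ i, b i ^ 2 := by
      rw [Finset.mul_sum]
      exact Finset.sum_congr rfl fun i _ => by ring
    rw [h2] at h1
    have h3 : (2 : ℤ) ∣ ∑ i, (b i ^ 2 - b i) := by
      refine Finset.dvd_sum fun j _ => ?_
      have h5 : b j ^ 2 - b j = b j * (b j - 1) := by ring
      rw [h5]
      exact (Int.even_mul_pred_self (b j)).two_dvd
    rw [Finset.sum_sub_distrib] at h3
    omega
  let P : AddSubgroup ((Fin r → ZMod 2) × ZMod 2) :=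
    { carrier := {p | ∃ b : Fin r → ℤ, (fun i => 2 * b i) ∈ S ∧ (∀ i, (b i : ZMod 2) = p.1 i) ∧
        ∃ m : ℤ, ∑ i, b i = 2 * m ∧ (m : ZMod 2) = p.2}
      zero_mem' := by
        refine ⟨0, ?_, fun i => by simp, 0, by simp, by simp⟩
        have : (fun i : Fin r => 2 * (0 : Fin r → ℤ) i) = 0 := by ext i; simp
        rw [this]
        exact S.zero_mem
      add_mem' := by
        rintro p p' ⟨b, hb, hbp, m, hm, hmp⟩ ⟨b', hb', hbp', m', hm', hmp'⟩
        refine ⟨b + b', ?_, fun i => ?_, m + m', ?_, ?_⟩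
        · have : (fun i : Fin r => 2 * (b + b') i) = (fun i => 2 * b i) + fun i => 2 * b' i := by
            ext i; simp; ring
          rw [this]
          exact S.add_mem hb hb'
        · rw [Pi.add_apply, Int.cast_add, hbp, hbp']; rfl
        · simp only [Pi.add_apply, Finset.sum_add_distrib, hm, hm']; ring
        · rw [Int.cast_add, hmp, hmp']; rfl
      neg_mem' := by
        rintro p ⟨b, hb, hbp, m, hm, hmp⟩
        refine ⟨-b, ?_, fun i => ?_, -m, ?_, ?_⟩
        · have : (fun i : Fin r => 2 * (-b) i) = -(fun i => 2 * b i) := by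
            ext i; simp
          rw [this]
          exact S.neg_mem hb
        · rw [Pi.neg_apply, Int.cast_neg, hbp]; rfl
        · simp only [Pi.neg_apply, Finset.sum_neg_distrib, hm]; ring
        · rw [Int.cast_neg, hmp]; rfl }
  have hnot : ((0 : Fin r → ZMod 2), (1 : ZMod 2)) ∉ AddSubgroup.toZModSubmodule 2 P := by
    rintro ⟨b, hb, hbp, m, hm, hmp⟩
    have h1 : ∀ i, ∃ x, b i = 2 * x := by
      intro i
      have := hbp i
      simp only [Pi.zero_apply] at this
      exact (ZMod.intCast_zmod_eq_zero_iff_dvd (b i) 2).mp this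
    choose x hx using h1
    have h2 : (fun i => 2 * b i) = fun i => 4 * x i := by
      ext i; rw [hx]; ring
    rw [h2] at hb
    have h3 := hS.not_single i0 hb
    have h4 : ∑ i, b i = 2 * ∑ i, x i := by
      rw [Finset.mul_sum]
      exact Finset.sum_congr rfl fun i _ => hx i
    have h5 : m = ∑ i, x i := by omega
    rw [← h5] at h3
    have h6 := (ZMod.intCast_zmod_eq_zero_iff_dvd m 2).mpr h3
    simp only at hmp
    rw [h6] at hmp
    exact zero_ne_one hmp
  obtain ⟨f, hf, hPf⟩ := Submodule.exists_le_ker_of_notMem hnot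
  have hf1 : f (0, 1) = 1 := by
    rcases zmod2_cases (f (0, 1)) with h | h
    · exact absurd h hf
    · exact h
  have key : ∀ b : Fin r → ℤ, (fun i => 2 * b i) ∈ S → ∀ m : ℤ, ∑ i, b i = 2 * m →
      (m : ZMod 2) = ∑ i, f (Pi.single i 1, 0) * (b i : ZMod 2) := by
    intro b hb m hm
    have h1 : ((fun i => (b i : ZMod 2)), (m : ZMod 2)) ∈ AddSubgroup.toZModSubmodule 2 P :=
      ⟨b, hb, fun i => rfl, m, hm, rfl⟩
    have h2 : f ((fun i => (b i : ZMod 2)), (m : ZMod 2)) = 0 := hPf h1
    have h3 : ((fun i => (b i : ZMod 2)), (m : ZMod 2)) =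
        ∑ i, (b i : ZMod 2) • ((Pi.single i (1 : ZMod 2) : Fin r → ZMod 2), (0 : ZMod 2)) +
          (m : ZMod 2) • ((0 : Fin r → ZMod 2), (1 : ZMod 2)) := by
      ext i
      · simp [Prod.fst_sum, Finset.sum_apply, Pi.single_apply]
      · simp [Prod.snd_sum]
    rw [h3, map_add, map_sum, map_smul, hf1] at h2
    simp only [map_smul, smul_eq_mul, mul_one] at h2
    have h4 : (m : ZMod 2) = -∑ i, (b i : ZMod 2) * f (Pi.single i 1, 0) := by
      linear_combination h2
    rw [h4, ZMod.neg_eq_self_mod_two]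
    exact Finset.sum_congr rfl fun i _ => mul_comm _ _
  refine ⟨fun i => if f (Pi.single i 1, 0) = 0 then 1 else -1, fun i => ?_, fun b hb => ?_⟩
  · simp only
    split_ifs
    · left; rfl
    · right; rfl
  · obtain ⟨m, hm⟩ := hsum b hb
    have h1 := key b hb m hm
    set J : Fin r → ℤ := fun i => if f (Pi.single i 1, 0) = 0 then 0 else b i with hJ
    have h2 : (m : ZMod 2) = ((∑ i, J i : ℤ) : ZMod 2) := by
      rw [h1]
      push_cast
      refine Finset.sum_congr rfl fun i _ => ?_
      rcases zmod2_cases (f (Pi.single i 1, 0)) with h | h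
      · simp [hJ, h]
      · simp [hJ, h]
    have h3 : (2 : ℤ) ∣ m - ∑ i, J i := by
      have := (ZMod.intCast_zmod_eq_zero_iff_dvd (m - ∑ i, J i) 2).mp (by
        rw [Int.cast_sub, h2, sub_self])
      exact this
    have h4 : ∑ i, (if f (Pi.single i 1, 0) = 0 then (1 : ℤ) else -1) * b i =
        ∑ i, b i - 2 * ∑ i, J i := by
      rw [Finset.mul_sum, ← Finset.sum_sub_distrib]
      refine Finset.sum_congr rfl fun i _ => ?_
      simp only [hJ]
      split_ifs <;> ring
    rw [h4, hm]
    omega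

/-- Structure of the lattice in the even case. -/
theorem FrameData.even_case {S : AddSubgroup (Fin r → ℤ)} (hS : FrameData S) (i0 : Fin r)
    (hev : ∀ a ∈ S, ∀ i, (2 : ℤ) ∣ a i) :
    r ≤ 8 ∧ ∃ σ : Fin r → ℤ, (∀ i, σ i = 1 ∨ σ i = -1) ∧
      ∀ a ∈ S, ∃ b : Fin r → ℤ, (∀ i, a i = 2 * b i) ∧ (4 : ℤ) ∣ ∑ i, σ i * b i ∧
        ((∀ i, (2 : ℤ) ∣ b i) ∨ (r = 8 ∧ ∀ i, b i % 2 = 1)) := by
  obtain ⟨σ, hσ, hσS⟩ := hS.exists_signs i0
  have hσ2 : ∀ i, σ i * σ i = 1 := by
    intro i
    rcases hσ i with h | h <;> rw [h] <;> norm_num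
  -- the rank is at most eight
  have hr8 : r ≤ 8 := by
    obtain ⟨a, haS, ha⟩ := hS.cov (fun i => σ i * (1 + 4 * (if i = i0 then 1 else 0)))
    have hb : ∀ i, ∃ b, a i = 2 * b := hev a haS
    choose b hb using hb
    have hodd : ∀ i, (σ i * (1 + 4 * (if i = i0 then (1 : ℤ) else 0)) - a i) % 2 = 1 := by
      intro i
      rw [hb i]
      rcases hσ i with h | h <;> rw [h] <;> split_ifs <;> omega
    -- either all entries are `±1` or the sum is large
    by_cases hall : ∀ i, (σ i * (1 + 4 * (if i = i0 then (1 : ℤ) else 0)) - a i) ^ 2 = 1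
    · exfalso
      have hbS : (fun i => 2 * b i) ∈ S := by
        have : (fun i => 2 * b i) = a := by ext i; rw [hb i]
        rw [this]; exact haS
      have h4 := hσS b hbS
      have h5 := hS.int16 a haS
      have h6 : ∑ i, a i ^ 2 = 4 * ∑ i, (σ i * b i) ^ 2 := by
        rw [Finset.mul_sum]
        refine Finset.sum_congr rfl fun i _ => ?_
        rw [hb i, mul_pow, mul_pow, sq (σ i), hσ2]; ring
      rw [h6] at h5
      have h7 : ∑ i, (σ i * b i) ^ 2 - ∑ i, σ i * b i =
          (σ i0 * b i0) ^ 2 - σ i0 * b i0 := by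
        rw [← Finset.sum_sub_distrib]
        rw [Finset.sum_eq_single i0]
        · intro i _ hi
          have h8 := hall i
          simp only [hi, if_false, mul_zero, add_zero, mul_one] at h8
          rw [hb i] at h8
          have h9 : σ i * b i = 0 ∨ σ i * b i = 1 := by
            rcases sq_eq_one h8 with h | h
            · rcases hσ i with hs | hs <;> rw [hs] at h ⊢ <;> omega
            · rcases hσ i with hs | hs <;> rw [hs] at h ⊢ <;> omega
          rcases h9 with h | h <;> rw [h] <;> norm_num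
        · intro h; exact absurd (Finset.mem_univ i0) h
      have h8 := hall i0
      simp only [if_true, mul_one] at h8
      rw [hb i0] at h8
      have h9 : σ i0 * b i0 = 2 ∨ σ i0 * b i0 = 3 := by
        rcases sq_eq_one h8 with h | h
        · rcases hσ i0 with hs | hs <;> rw [hs] at h ⊢ <;> omega
        · rcases hσ i0 with hs | hs <;> rw [hs] at h ⊢ <;> omega
      rcases h9 with h | h
      · rw [h] at h7; omega
      · rw [h] at h7; omega
    · push Not at hall
      obtain ⟨j, hj⟩ := hall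
      have h1 : ∀ i, 1 ≤ (σ i * (1 + 4 * (if i = i0 then (1 : ℤ) else 0)) - a i) ^ 2 :=
        fun i => one_le_sq_of_odd (hodd i)
      have h2 : 9 ≤ (σ j * (1 + 4 * (if j = i0 then (1 : ℤ) else 0)) - a j) ^ 2 := by
        have h3 := hodd j
        set t := σ j * (1 + 4 * (if j = i0 then (1 : ℤ) else 0)) - a j
        have h4 : t ≠ 1 := by rintro h; rw [h] at hj; norm_num at hj
        have h5 : t ≠ -1 := by rintro h; rw [h] at hj; norm_num at hj
        have h6 : 3 ≤ t ∨ t ≤ -3 := by omega
        rcases h6 with h | h <;> nlinarith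
      have h3 : ∑ i : Fin r, (1 : ℤ) + 8 ≤
          ∑ i, (σ i * (1 + 4 * (if i = i0 then (1 : ℤ) else 0)) - a i) ^ 2 := by
        rw [← Finset.add_sum_erase _ _ (Finset.mem_univ j),
          ← Finset.add_sum_erase _ _ (Finset.mem_univ j)]
        have h4 : ∑ i ∈ Finset.univ.erase j, (1 : ℤ) ≤ ∑ i ∈ Finset.univ.erase j,
            (σ i * (1 + 4 * (if i = i0 then (1 : ℤ) else 0)) - a i) ^ 2 :=
          Finset.sum_le_sum fun i _ => h1 i
        linarith
      have h4 : ∑ i : Fin r, (1 : ℤ) = r := by simp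
      rw [h4] at h3
      have h5 : ((r : ℤ)) + 8 ≤ 16 := h3.trans ha
      omega
  refine ⟨hr8, σ, hσ, fun a haS => ?_⟩
  have hb : ∀ i, ∃ b, a i = 2 * b := hev a haS
  choose b hb using hb
  have hbS : (fun i => 2 * b i) ∈ S := by
    have : (fun i => 2 * b i) = a := by ext i; rw [hb i]
    rw [this]; exact haS
  refine ⟨b, hb, hσS b hbS, ?_⟩
  by_cases hall : ∀ i, (2 : ℤ) ∣ b i
  · left; exact hall
  · right
    push Not at hall
    obtain ⟨j0, hj0⟩ := hall
    have hj0' : b j0 % 2 = 1 := by omega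
    -- reduce the entries
    have hred : 32 ≤ 4 * ∑ i, (b i % 2) ^ 2 := by
      by_cases hpar : (2 : ℤ) ∣ ∑ i, b i / 2
      · have h1 := S.sub_mem hbS (hS.dn _ hpar)
        have h2 : ((fun i => 2 * b i) - fun i => 4 * (b i / 2)) = fun i => 2 * (b i % 2) := by
          ext i; simp only [Pi.sub_apply]; omega
        rw [h2] at h1
        have h3 := hS.min _ h1 (by
          intro h
          have := congrFun h j0
          simp only [Pi.zero_apply] at this
          omega)
        refine h3.trans (le_of_eq ?_)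
        rw [Finset.mul_sum]
        exact Finset.sum_congr rfl fun i _ => by ring
      · have hpar' : (2 : ℤ) ∣ ∑ i, (b i / 2 + if i = j0 then 1 else 0) := by
          rw [Finset.sum_add_distrib, Finset.sum_ite_eq' Finset.univ j0]
          simp only [Finset.mem_univ, if_true]
          omega
        have h1 := S.sub_mem hbS (hS.dn _ hpar')
        have h2 : ((fun i => 2 * b i) - fun i => 4 * (b i / 2 + if i = j0 then 1 else 0)) =
            fun i => 2 * (b i % 2) - 4 * (if i = j0 then 1 else 0) := by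
          ext i; simp only [Pi.sub_apply]; split_ifs <;> omega
        rw [h2] at h1
        have h3 := hS.min _ h1 (by
          intro h
          have := congrFun h j0
          simp only [Pi.zero_apply, if_true] at this
          omega)
        refine h3.trans (le_of_eq ?_)
        rw [Finset.mul_sum]
        refine Finset.sum_congr rfl fun i _ => ?_
        split_ifs with h
        · rw [h, hj0']; norm_num
        · ring
    have h01 : ∀ i, (b i % 2) ^ 2 = b i % 2 := by
      intro i
      rcases Int.emod_two_eq_zero_or_one (b i) with h | h <;> rw [h] <;> norm_num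
    simp only [h01] at hred
    have h1 : ∑ i, (1 - b i % 2) ≤ (r : ℤ) - 8 := by
      rw [Finset.sum_sub_distrib]
      simp only [Finset.sum_const, Finset.card_univ, Fintype.card_fin, nsmul_eq_mul, mul_one]
      omega
    have h2 : ∀ i ∈ Finset.univ, 0 ≤ 1 - b i % 2 := by
      intro i _
      omega
    have h3 := Finset.sum_nonneg h2
    have hr : r = 8 := by omega
    refine ⟨hr, fun i => ?_⟩
    have h4 : ∑ i, (1 - b i % 2) = 0 := by omega
    have h5 := (Finset.sum_eq_zero_iff_of_nonneg h2).mp h4 i (Finset.mem_univ i)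
    omega

end Pool.Agent.Work.MP_ccc26a_nt
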