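import Pool.Agent.Work.MP_ccc26a_nt.CaseA

set_option autoImplicit false

namespace Pool.Agent.Work.MP_ccc26a_nt

variable {r : ℕ} {G : Matrix (Fin r) (Fin r) ℤ}

/-- `N` is not of the form `p ^ 2 * k` with `k` even, `k ≥ 4`, `k ≠ 8`. -/
def Bad (p N : ℤ) : Prop := ¬ (N % (2 * p ^ 2) = 0 ∧ 4 * p ^ 2 ≤ N ∧ N ≠ 8 * p ^ 2)

instance (p N : ℤ) : Decidable (Bad p N) := by unfold Bad; infer_instance

/-- The lattice vector with given coefficients. -/
def comb {m : ℕ} (b : Fin m → (Fin r → ℤ)) (a : Fin m → ℤ) : Fin r → ℤ := ∑ i, a i • b i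

theorem bL_sum_left {K : Type*} [CommRing K] {ι : Type*} (s : Finset ι) (f : ι → Fin r → K)
    (y : Fin r → K) : bL G (∑ i ∈ s, f i) y = ∑ i ∈ s, bL G (f i) y := by
  classical
  induction s using Finset.induction_on with
  | empty => simp [bL_zero_left]
  | insert a s ha ih => rw [Finset.sum_insert ha, Finset.sum_insert ha, bL_add_left, ih]

theorem bL_sum_right {K : Type*} [CommRing K] {ι : Type*} (s : Finset ι) (f : ι → Fin r → K)
    (y : Fin r → K) : bL G y (∑ i ∈ s, f i) = ∑ i ∈ s, bL G y (f i) := by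
  classical
  induction s using Finset.induction_on with
  | empty => simp [bL_zero_right]
  | insert a s ha ih => rw [Finset.sum_insert ha, Finset.sum_insert ha, bL_add_right, ih]

theorem bL_comb {m : ℕ} {b : Fin m → (Fin r → ℤ)} {G0 : Matrix (Fin m) (Fin m) ℤ}
    (hb : ∀ i j, bL G (b i) (b j) = G0 i j) (a a' : Fin m → ℤ) :
    bL G (comb b a) (comb b a') = bL G0 a a' := by
  rw [comb, comb, bL_sum_left]
  simp only [bL_sum_right, bL_smul_left, bL_smul_right, hb]
  rw [bL]
  exact Finset.sum_congr rfl fun i _ => Finset.sum_congr rfl fun j _ => by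
    rw [Int.cast_id]; ring

theorem comb_sub {m : ℕ} (b : Fin m → (Fin r → ℤ)) (a a' : Fin m → ℤ) :
    comb b (a - a') = comb b a - comb b a' := by
  simp only [comb, Pi.sub_apply, sub_smul, Finset.sum_sub_distrib]

theorem comb_smul {m : ℕ} (b : Fin m → (Fin r → ℤ)) (n : ℤ) (a : Fin m → ℤ) :
    comb b (n • a) = n • comb b a := by
  simp only [comb, Pi.smul_apply, smul_eq_mul, Finset.smul_sum, mul_smul]

theorem finish_rank (hG : IsEvenPosDef G) {m : ℕ} {b : Fin m → (Fin r → ℤ)}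
    {G0 : Matrix (Fin m) (Fin m) ℤ} (hb : ∀ i j, bL G (b i) (b j) = G0 i j)
    (hspan : ∀ u : Fin r → ℝ, (∀ i, bL G u (rv (b i)) = 0) → u = 0)
    {K : Matrix (Fin m) (Fin m) ℤ} {δ : ℤ} (hδ : δ ≠ 0) (hK : K * G0 = δ • 1) : m = r := by
  let T : (Fin m → ℝ) →ₗ[ℝ] (Fin r → ℝ) :=
    ∑ i, (LinearMap.proj i : (Fin m → ℝ) →ₗ[ℝ] ℝ).smulRight (rv (b i))
  have hT : ∀ a, T a = ∑ i, a i • rv (b i) := by
    intro a
    simp only [T, LinearMap.sum_apply, LinearMap.smulRight_apply, LinearMap.proj_apply]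
  have hinj : Function.Injective T := by
    rw [injective_iff_map_eq_zero]
    intro a ha
    rw [hT] at ha
    have h1 : ∀ i, ∑ j, (G0 i j : ℝ) * a j = 0 := by
      intro i
      have h2 : bL G (rv (b i)) (∑ j, a j • rv (b j)) = 0 := by rw [ha, bL_zero_right]
      rw [bL_sum_right] at h2
      rw [← h2]
      refine Finset.sum_congr rfl fun j _ => ?_
      rw [bL_smul_right, bL_rv, hb]; ring
    have h3 : ∀ k i, ∑ j, (K k j : ℝ) * (G0 j i : ℝ) = if k = i then (δ : ℝ) else 0 := by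
      intro k i
      have h4 := congrFun (congrFun hK k) i
      rw [Matrix.mul_apply, Matrix.smul_apply, Matrix.one_apply, smul_eq_mul, mul_ite, mul_one,
        mul_zero] at h4
      have h5 : ((∑ j, K k j * G0 j i : ℤ) : ℝ) = ((if k = i then δ else 0 : ℤ) : ℝ) := by rw [h4]
      push_cast at h5
      exact h5
    ext k
    have h4 : ∑ j, (K k j : ℝ) * ∑ i, (G0 j i : ℝ) * a i = δ * a k := by
      calc ∑ j, (K k j : ℝ) * ∑ i, (G0 j i : ℝ) * a i
          = ∑ i, (∑ j, (K k j : ℝ) * (G0 j i : ℝ)) * a i := by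
            simp only [Finset.mul_sum, Finset.sum_mul]
            rw [Finset.sum_comm]
            exact Finset.sum_congr rfl fun i _ => Finset.sum_congr rfl fun j _ => by ring
        _ = δ * a k := by simp [h3]
    simp only [h1, mul_zero, Finset.sum_const_zero] at h4
    have hδR : (δ : ℝ) ≠ 0 := by exact_mod_cast hδ
    have := mul_eq_zero.mp h4.symm
    rcases this with h | h
    · exact absurd h hδR
    · exact h
  have hsurj : Function.Surjective T := by
    rw [← LinearMap.range_eq_top]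
    by_contra hne
    obtain ⟨u, hu, hu0⟩ := exists_orth hG hne
    apply hu
    apply hspan
    intro i
    apply hu0
    refine ⟨Pi.single i 1, ?_⟩
    rw [hT, Finset.sum_eq_single i]
    · simp
    · intro j _ hj
      simp [hj]
    · intro h; exact absurd (Finset.mem_univ i) h
  have h1 := (LinearEquiv.ofBijective T ⟨hinj, hsurj⟩).finrank_eq
  rwa [Module.finrank_fin_fun, Module.finrank_fin_fun] at h1

/-- The final step in the second case. -/
theorem finishB (hG : IsEvenPosDef G) (h2 : ∀ x : Fin r → ℤ, bL G x x ≠ 2)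
    (h8 : ∀ x : Fin r → ℤ, bL G x x ≠ 8) (hcov : CovRat G) {m : ℕ}
    (b : Fin m → (Fin r → ℤ)) (G0 : Matrix (Fin m) (Fin m) ℤ)
    (hb : ∀ i j, bL G (b i) (b j) = G0 i j)
    (hspan : ∀ u : Fin r → ℝ, (∀ i, bL G u (rv (b i)) = 0) → u = 0)
    (K : Matrix (Fin m) (Fin m) ℤ) (δ : ℤ) (hδ : δ ≠ 0) (hK : K * G0 = δ • 1)
    (hsat : ∀ p : ℕ, p.Prime → (p : ℤ) ∣ δ → ∀ a : Fin m → ℤ, (¬ ∀ i, (p : ℤ) ∣ a i) →
      ∃ a' : Fin m → ℤ, (∀ i, (p : ℤ) ∣ a i - a' i) ∧ Bad p (bL G0 a' a'))
    (A : Fin m → Fin 24 → ℤ) (hA1 : ∀ i j, ∑ k, A i k * A j k = 8 * G0 i j)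
    (hA2 : ∀ i k, (8 : ℤ) ∣ ∑ j, A i j * Bas k j) : PrimitivelyEmbeds G Lam := by
  have hm := finish_rank hG hb hspan hδ hK
  subst hm
  have hKG : ∀ z : Fin m → ℤ, K.mulVec (G0.mulVec z) = δ • z := by
    intro z
    rw [Matrix.mulVec_mulVec, hK, Matrix.smul_mulVec, Matrix.one_mulVec]
  let B : Matrix (Fin m) (Fin m) ℤ := Matrix.of fun i j => b j i
  have hB : ∀ a, B.mulVec a = comb b a := by
    intro a
    ext i
    simp only [B, comb, Matrix.mulVec, dotProduct, Matrix.of_apply, Finset.sum_apply,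
      Pi.smul_apply, smul_eq_mul]
    exact Finset.sum_congr rfl fun j _ => mul_comm _ _
  have hG0 : ∀ (z : Fin m → ℤ) (i : Fin m), G0.mulVec z i = bL G (b i) (comb b z) := by
    intro z i
    rw [comb, bL_sum_right]
    simp only [Matrix.mulVec, dotProduct]
    refine Finset.sum_congr rfl fun j _ => ?_
    rw [bL_smul_right, hb]; ring
  have hinj : ∀ a, comb b a = 0 → a = 0 := by
    intro a ha
    have h3 : G0.mulVec a = 0 := by
      ext i
      rw [hG0, ha, bL_zero_right]; rfl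
    have h4 := hKG a
    rw [h3, Matrix.mulVec_zero] at h4
    ext i
    have h5 := congrFun h4 i
    simp only [Pi.zero_apply, Pi.smul_apply, smul_eq_mul] at h5
    rcases mul_eq_zero.mp h5.symm with h | h
    · exact absurd h hδ
    · exact h
  have hprime : ∀ p : ℕ, p.Prime → ¬ ((p : ℤ) ∣ B.det) := by
    intro p hp hdvd
    have hp0 : (p : ℤ) ≠ 0 := by exact_mod_cast hp.ne_zero
    obtain ⟨z, hz, hz0⟩ := exists_of_prime_dvd_det hp hdvd
    rw [hB] at hz
    have hp1 : (p : ℤ) ∣ δ := by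
      have h3 : ∀ i, (p : ℤ) ∣ G0.mulVec z i := by
        intro i
        rw [hG0, bL_comm hG.symm, bL_eq_dot]
        exact Finset.dvd_sum fun j _ => Dvd.dvd.mul_right (hz j) _
      have h4 : ∀ i, (p : ℤ) ∣ δ * z i := by
        intro i
        have h5 := congrFun (hKG z) i
        simp only [Pi.smul_apply, smul_eq_mul] at h5
        rw [← h5]
        simp only [Matrix.mulVec, dotProduct]
        exact Finset.dvd_sum fun j _ => Dvd.dvd.mul_left (h3 j) _
      push Not at hz0
      obtain ⟨i, hi⟩ := hz0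
      rcases (Nat.prime_iff_prime_int.mp hp).dvd_or_dvd (h4 i) with h | h
      · exact h
      · exact absurd h hi
    obtain ⟨a', ha', hbad⟩ := hsat p hp hp1 z hz0
    choose y hy using hz
    choose v hv using ha'
    have h3 : comb b a' = (p : ℤ) • (y - comb b v) := by
      have h4 : a' = z - (p : ℤ) • v := by
        ext i
        have := hv i
        simp only [Pi.sub_apply, Pi.smul_apply, smul_eq_mul]
        omega
      rw [h4, comb_sub, comb_smul, smul_sub]
      congr 1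
      ext i
      rw [hy i]; rfl
    set x := y - comb b v with hx
    have h4 : bL G0 a' a' = p ^ 2 * bL G x x := by
      rw [← bL_comb hb, h3, bL_smul_left, bL_smul_right]; ring
    have hx0 : x ≠ 0 := by
      intro h0
      rw [h0, smul_zero] at h3
      have h5 := hinj a' h3
      apply hz0
      intro i
      have h6 := hv i
      rw [h5, Pi.zero_apply, sub_zero] at h6
      exact ⟨v i, h6⟩
    apply hbad
    have h5 := four_le hG h2 hx0
    obtain ⟨k, hk⟩ := hG.even x
    have h6 := h8 x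
    have hp2 : (0 : ℤ) < (p : ℤ) ^ 2 := by positivity
    refine ⟨?_, ?_, ?_⟩
    · rw [h4, hk]
      apply Int.emod_eq_zero_of_dvd
      exact ⟨k, by ring⟩
    · rw [h4]; nlinarith
    · rw [h4]
      intro h7
      apply h6
      apply mul_left_cancel₀ hp2.ne'
      rw [h7]; ring
  have habs : B.det.natAbs = 1 := by
    by_contra hne
    obtain ⟨p, hp, hdvd⟩ := Nat.exists_prime_and_dvd hne
    exact hprime p hp (Int.natCast_dvd.mpr hdvd)
  have hunit : IsUnit B.det := Int.isUnit_iff_natAbs_eq.mpr habs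
  have hinv : B * B⁻¹ = 1 := Matrix.mul_nonsing_inv B hunit
  have hx : ∀ x : Fin m → ℤ, comb b (B⁻¹.mulVec x) = x := by
    intro x
    rw [← hB, Matrix.mulVec_mulVec, hinv, Matrix.one_mulVec]
  let α : (Fin m → ℤ) →ₗ[ℤ] (Fin 24 → ℤ) :=
    { toFun := fun x j => ∑ i, B⁻¹.mulVec x i * A i j
      map_add' := fun x y => by
        ext j
        simp only [Pi.add_apply, Matrix.mulVec_add, add_mul, Finset.sum_add_distrib]
      map_smul' := fun n x => by
        ext j
        simp only [Pi.smul_apply, Matrix.mulVec_smul, smul_eq_mul, RingHom.id_apply,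
          Finset.mul_sum, mul_assoc] }
  have hα : ∀ x j, α x j = ∑ i, B⁻¹.mulVec x i * A i j := fun x j => rfl
  refine embeds_of_coords hG hcov α (fun x y => ?_) (fun x k => ?_)
  · have h3 : ∀ j, α x j * α y j =
        ∑ i, ∑ k, B⁻¹.mulVec x i * B⁻¹.mulVec y k * (A i j * A k j) := by
      intro j
      rw [hα, hα, Finset.sum_mul_sum]
      exact Finset.sum_congr rfl fun i _ => Finset.sum_congr rfl fun k _ => by ring
    simp only [h3]
    rw [Finset.sum_comm]
    have h4 : bL G x y = bL G0 (B⁻¹.mulVec x) (B⁻¹.mulVec y) := by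
      rw [← bL_comb hb, hx, hx]
    rw [h4, bL, Finset.mul_sum]
    refine Finset.sum_congr rfl fun i _ => ?_
    rw [Finset.sum_comm, Finset.mul_sum]
    refine Finset.sum_congr rfl fun k _ => ?_
    rw [← Finset.mul_sum, hA1, Int.cast_id]
    ring
  · have h3 : ∑ j, α x j * Bas k j = ∑ i, B⁻¹.mulVec x i * ∑ j, A i j * Bas k j := by
      simp only [hα, Finset.sum_mul, Finset.mul_sum]
      rw [Finset.sum_comm]
      exact Finset.sum_congr rfl fun i _ => Finset.sum_congr rfl fun j _ => by ring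
    rw [h3]
    exact Finset.dvd_sum fun i _ => Dvd.dvd.mul_left (hA2 i k) _

/-- The centred lift. -/
def cl {p : ℕ} (x : Fin p) : ℤ := if 2 * x.val ≤ p then (x.val : ℤ) else (x.val : ℤ) - p

theorem cl_congr {p : ℕ} (x : Fin p) : (p : ℤ) ∣ (x.val : ℤ) - cl x := by
  unfold cl
  split_ifs
  · simp
  · exact ⟨1, by ring⟩

theorem sat_of_check {m : ℕ} (p : ℕ) (hp : 0 < p) (G0 : Matrix (Fin m) (Fin m) ℤ)
    (shifts : List (Fin m → ℤ))
    (hcheck : ∀ a : Fin m → Fin p, (∃ i, (a i).val ≠ 0) → ∃ s ∈ shifts,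
      Bad p (bL G0 (fun i => cl (a i) + p * s i) (fun i => cl (a i) + p * s i))) :
    ∀ a : Fin m → ℤ, (¬ ∀ i, (p : ℤ) ∣ a i) →
      ∃ a' : Fin m → ℤ, (∀ i, (p : ℤ) ∣ a i - a' i) ∧ Bad p (bL G0 a' a') := by
  intro a ha
  have hpZ : (0 : ℤ) < p := by exact_mod_cast hp
  have h1 : ∀ i, 0 ≤ a i % p := fun i => Int.emod_nonneg _ hpZ.ne'
  have h2 : ∀ i, a i % p < p := fun i => Int.emod_lt_of_pos _ hpZ
  let f : Fin m → Fin p := fun i => ⟨(a i % p).toNat, by
    have := h1 i
    have := h2 i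
    omega⟩
  have hf : ∀ i, ((f i).val : ℤ) = a i % p := fun i => Int.toNat_of_nonneg (h1 i)
  obtain ⟨s, -, hs⟩ := hcheck f (by
    push Not at ha
    obtain ⟨i, hi⟩ := ha
    refine ⟨i, fun h0 => hi ?_⟩
    have h3 := hf i
    rw [h0] at h3
    exact Int.dvd_of_emod_eq_zero (by rw [← h3]; simp))
  refine ⟨_, fun i => ?_, hs⟩
  have h3 := cl_congr (f i)
  rw [hf i] at h3
  have h4 : (p : ℤ) ∣ a i - a i % p := Int.dvd_self_sub_emod
  have h5 : a i - (cl (f i) + p * s i) = (a i - a i % p) + (a i % p - cl (f i)) - p * s i := by ring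
  rw [h5]
  exact dvd_sub (dvd_add h4 h3) (Dvd.intro _ rfl)

end Pool.Agent.Work.MP_ccc26a_nt
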