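import Pool.Agent.Work.MP_ccc26a_nt.Defs

set_option autoImplicit false

namespace Pool.Agent.Work.MP_ccc26a_nt

section General

variable {K : Type*} [CommRing K] {r : ℕ} (G : Matrix (Fin r) (Fin r) ℤ)

theorem bL_add_left (x y z : Fin r → K) : bL G (x + y) z = bL G x z + bL G y z := by
  simp only [bL, Pi.add_apply, ← Finset.sum_add_distrib]
  exact Finset.sum_congr rfl fun i _ => Finset.sum_congr rfl fun j _ => by ring

theorem bL_add_right (x y z : Fin r → K) : bL G x (y + z) = bL G x y + bL G x z := by
  simp only [bL, Pi.add_apply, ← Finset.sum_add_distrib]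
  exact Finset.sum_congr rfl fun i _ => Finset.sum_congr rfl fun j _ => by ring

theorem bL_smul_left (c : K) (x y : Fin r → K) : bL G (c • x) y = c * bL G x y := by
  simp only [bL, Pi.smul_apply, smul_eq_mul, Finset.mul_sum]
  exact Finset.sum_congr rfl fun i _ => Finset.sum_congr rfl fun j _ => by ring

theorem bL_smul_right (c : K) (x y : Fin r → K) : bL G x (c • y) = c * bL G x y := by
  simp only [bL, Pi.smul_apply, smul_eq_mul, Finset.mul_sum]
  exact Finset.sum_congr rfl fun i _ => Finset.sum_congr rfl fun j _ => by ring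

theorem bL_zero_left (x : Fin r → K) : bL G 0 x = 0 := by
  simp [bL]

theorem bL_zero_right (x : Fin r → K) : bL G x 0 = 0 := by
  simp [bL]

theorem bL_neg_left (x y : Fin r → K) : bL G (-x) y = -bL G x y := by
  have := bL_smul_left G (-1 : K) x y
  simpa using this

theorem bL_neg_right (x y : Fin r → K) : bL G x (-y) = -bL G x y := by
  have := bL_smul_right G (-1 : K) x y
  simpa using this

theorem bL_sub_left (x y z : Fin r → K) : bL G (x - y) z = bL G x z - bL G y z := by
  rw [sub_eq_add_neg, bL_add_left, bL_neg_left, sub_eq_add_neg]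

theorem bL_sub_right (x y z : Fin r → K) : bL G x (y - z) = bL G x y - bL G x z := by
  rw [sub_eq_add_neg, bL_add_right, bL_neg_right, sub_eq_add_neg]

variable {G} in
theorem bL_comm (hG : G.IsSymm) (x y : Fin r → K) : bL G x y = bL G y x := by
  simp only [bL]
  rw [Finset.sum_comm]
  refine Finset.sum_congr rfl fun i _ => Finset.sum_congr rfl fun j _ => ?_
  have : G j i = G i j := hG.apply i j
  rw [this]; ring

theorem bN_add_left (x y z : NVec K r) : bN G (x + y) z = bN G x z + bN G y z := by
  simp only [bN, Prod.fst_add, Prod.snd_add, bL_add_left]; ring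

theorem bN_add_right (x y z : NVec K r) : bN G x (y + z) = bN G x y + bN G x z := by
  simp only [bN, Prod.fst_add, Prod.snd_add, bL_add_right]; ring

theorem bN_smul_left (c : K) (x y : NVec K r) : bN G (c • x) y = c * bN G x y := by
  simp only [bN, Prod.smul_fst, Prod.smul_snd, bL_smul_left, smul_eq_mul]; ring

theorem bN_smul_right (c : K) (x y : NVec K r) : bN G x (c • y) = c * bN G x y := by
  simp only [bN, Prod.smul_fst, Prod.smul_snd, bL_smul_right, smul_eq_mul]; ring

theorem bN_neg_left (x y : NVec K r) : bN G (-x) y = -bN G x y := by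
  have := bN_smul_left G (-1 : K) x y
  simpa using this

theorem bN_neg_right (x y : NVec K r) : bN G x (-y) = -bN G x y := by
  have := bN_smul_right G (-1 : K) x y
  simpa using this

theorem bN_sub_left (x y z : NVec K r) : bN G (x - y) z = bN G x z - bN G y z := by
  rw [sub_eq_add_neg, bN_add_left, bN_neg_left, sub_eq_add_neg]

theorem bN_sub_right (x y z : NVec K r) : bN G x (y - z) = bN G x y - bN G x z := by
  rw [sub_eq_add_neg, bN_add_right, bN_neg_right, sub_eq_add_neg]

theorem bN_zero_left (x : NVec K r) : bN G 0 x = 0 := by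
  simp [bN, bL_zero_left]

theorem bN_zero_right (x : NVec K r) : bN G x 0 = 0 := by
  simp [bN, bL_zero_right]

variable {G} in
theorem bN_comm (hG : G.IsSymm) (x y : NVec K r) : bN G x y = bN G y x := by
  simp only [bN, bL_comm hG x.2.1 y.2.1]; ring

theorem bM_add_left (x y z : MVec K r) : bM G (x + y) z = bM G x z + bM G y z := by
  simp only [bM, Prod.fst_add, Prod.snd_add, bN_add_left]; ring

theorem bM_add_right (x y z : MVec K r) : bM G x (y + z) = bM G x y + bM G x z := by
  simp only [bM, Prod.fst_add, Prod.snd_add, bN_add_right]; ring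

theorem bM_smul_left (c : K) (x y : MVec K r) : bM G (c • x) y = c * bM G x y := by
  simp only [bM, Prod.smul_fst, Prod.smul_snd, bN_smul_left, smul_eq_mul]; ring

theorem bM_smul_right (c : K) (x y : MVec K r) : bM G x (c • y) = c * bM G x y := by
  simp only [bM, Prod.smul_fst, Prod.smul_snd, bN_smul_right, smul_eq_mul]; ring

variable {G} in
theorem bM_comm (hG : G.IsSymm) (x y : MVec K r) : bM G x y = bM G y x := by
  simp only [bM, bN_comm hG x.2.1 y.2.1]; ring

end General

section Cast

variable {r : ℕ} (G : Matrix (Fin r) (Fin r) ℤ)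

/-- The map `N_K → N_{K'}` induced by a map `K → K'`. -/
def mapN {K K' : Type*} (f : K → K') (x : NVec K r) : NVec K' r :=
  (f x.1, (fun i => f (x.2.1 i)), f x.2.2)

theorem bL_map {K K' : Type*} [CommRing K] [CommRing K'] (f : K →+* K') (x y : Fin r → K) :
    bL G (fun i => f (x i)) (fun i => f (y i)) = f (bL G x y) := by
  simp [bL, map_sum]

theorem bN_map {K K' : Type*} [CommRing K] [CommRing K'] (f : K →+* K') (x y : NVec K r) :
    bN G (mapN f x) (mapN f y) = f (bN G x y) := by
  simp only [bN, mapN, bL_map, map_add, map_sub, map_mul]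

/-- The inclusion `N → N ⊗ ℝ`. -/
def toR (x : NVec ℤ r) : NVec ℝ r := mapN (Int.castRingHom ℝ) x

/-- The inclusion `N → N ⊗ ℚ`. -/
def toQ (x : NVec ℤ r) : NVec ℚ r := mapN (Int.castRingHom ℚ) x

theorem bN_toR (x y : NVec ℤ r) : bN G (toR x) (toR y) = ((bN G x y : ℤ) : ℝ) :=
  bN_map G (Int.castRingHom ℝ) x y

theorem toR_add (x y : NVec ℤ r) : toR (x + y) = toR x + toR y := by
  ext <;> simp [toR, mapN]

theorem toR_neg (x : NVec ℤ r) : toR (-x) = -toR x := by
  ext <;> simp [toR, mapN]

theorem toR_zsmul (n : ℤ) (x : NVec ℤ r) : toR (n • x) = (n : ℝ) • toR x := by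
  ext <;> simp [toR, mapN]

theorem toR_zero : toR (0 : NVec ℤ r) = 0 := by
  ext <;> simp [toR, mapN]

end Cast

/-- The primitive isotropic vector `z_∞ = (1, 0, 0)`. -/
def zInf {K : Type*} [CommRing K] {r : ℕ} : NVec K r := (1, 0, 0)

theorem bN_zInf {K : Type*} [CommRing K] {r : ℕ} (G : Matrix (Fin r) (Fin r) ℤ) (x : NVec K r) :
    bN G x zInf = x.2.2 := by
  simp [bN, zInf, bL_zero_right]

theorem toR_zInf {r : ℕ} : toR (zInf : NVec ℤ r) = zInf := by
  ext <;> simp [toR, mapN, zInf]

end Pool.Agent.Work.MP_ccc26a_nt
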