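import Pool.Agent.Work.MP_ccc26a_nt.Embed

set_option autoImplicit false

namespace Pool.Agent.Work.MP_ccc26a_nt

variable {r : ℕ} {G : Matrix (Fin r) (Fin r) ℤ}

theorem four_le (hG : IsEvenPosDef G) (h2 : ∀ x : Fin r → ℤ, bL G x x ≠ 2) {x : Fin r → ℤ}
    (hx : x ≠ 0) : 4 ≤ bL G x x := by
  have h1 := bL_int_pos hG hx
  obtain ⟨m, hm⟩ := hG.even x
  have h3 := h2 x
  omega

theorem bL_add_add (hG : G.IsSymm) (x y : Fin r → ℤ) :
    bL G (x + y) (x + y) = bL G x x + 2 * bL G x y + bL G y y := by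
  rw [bL_add_left, bL_add_right, bL_add_right, bL_comm hG y x]
  ring

theorem bL_sub_sub (hG : G.IsSymm) (x y : Fin r → ℤ) :
    bL G (x - y) (x - y) = bL G x x - 2 * bL G x y + bL G y y := by
  rw [bL_sub_left, bL_sub_right, bL_sub_right, bL_comm hG y x]
  ring

/-- The class of a vector of norm 8 modulo 2 contains no shorter vectors. -/
theorem eight_le (hG : IsEvenPosDef G) (h2 : ∀ x : Fin r → ℤ, bL G x x ≠ 2) {ℓ : Fin r → ℤ}
    (hℓ : bL G ℓ ℓ = 8) (w : Fin r → ℤ) : 8 ≤ bL G (ℓ - (2 : ℤ) • w) (ℓ - (2 : ℤ) • w) := by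
  have h1 : bL G (ℓ - (2 : ℤ) • w) (ℓ - (2 : ℤ) • w) =
      2 * bL G (ℓ - w) (ℓ - w) + 2 * bL G w w - bL G ℓ ℓ := by
    rw [bL_sub_sub hG.symm, bL_sub_sub hG.symm, bL_smul_left, bL_smul_right, bL_smul_right]
    ring
  rcases eq_or_ne w 0 with h3 | h3
  · rw [h3, smul_zero, sub_zero, hℓ]
  · rcases eq_or_ne (ℓ - w) 0 with h4 | h4
    · have h5 : w = ℓ := (sub_eq_zero.mp h4).symm
      rw [h1, h5, sub_self, bL_zero_left, hℓ]
      norm_num
    · have h5 := four_le hG h2 h3
      have h6 := four_le hG h2 h4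
      rw [h1, hℓ]
      omega

/-- Vectors of norm 8 in a class modulo 2 are orthogonal or equal up to sign. -/
theorem orth_of_congr (hG : IsEvenPosDef G) (h2 : ∀ x : Fin r → ℤ, bL G x x ≠ 2)
    {y y' z : Fin r → ℤ} (hy : bL G y y = 8) (hy' : bL G y' y' = 8) (hz : y = y' + (2 : ℤ) • z)
    (hne : y ≠ y') (hne' : y ≠ -y') : bL G y y' = 0 := by
  have hz0 : z ≠ 0 := by
    rintro rfl
    exact hne (by rw [hz, smul_zero, add_zero])
  have hz1 : y' + z ≠ 0 := by
    intro h
    have : z = -y' := by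
      rw [← sub_eq_zero, sub_neg_eq_add, add_comm]; exact h
    apply hne'
    rw [hz, this]
    module
  have h3 := four_le hG h2 hz0
  have h4 := four_le hG h2 hz1
  have e1 : bL G y y = bL G y' y' + 4 * bL G y' z + 4 * bL G z z := by
    rw [hz, bL_add_add hG.symm, bL_smul_left, bL_smul_right, bL_smul_right]
    ring
  have e2 : bL G (y' + z) (y' + z) = bL G y' y' + 2 * bL G y' z + bL G z z := bL_add_add hG.symm _ _
  have e3 : bL G y y' = bL G y' y' + 2 * bL G y' z := by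
    rw [hz, bL_add_left, bL_smul_left, bL_comm hG.symm z y']
  omega

/-- The orthogonal frame. -/
theorem exists_frame (hG : IsEvenPosDef G) (h2 : ∀ x : Fin r → ℤ, bL G x x ≠ 2)
    (hcov : CovRat G) {ℓ : Fin r → ℤ} (hℓ : bL G ℓ ℓ = 8) :
    ∃ w : Fin r → (Fin r → ℤ), (∀ i j, bL G (w i) (w j) = if i = j then 8 else 0) ∧
      (∀ i j, ∃ z, w i - w j = (2 : ℤ) • z) ∧
      ∀ x y : Fin r → ℤ, 8 * bL G x y = ∑ i, bL G x (w i) * bL G y (w i) := by
  set c : Fin r → ℝ := (1 / 2 : ℝ) • rv ℓ with hc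
  have hsub : ∀ v : Fin r → ℤ, rv v - c = (1 / 2 : ℝ) • rv ((2 : ℤ) • v - ℓ) := by
    intro v
    rw [rv_sub, rv_zsmul, hc]
    push_cast
    module
  have hnorm : ∀ v : Fin r → ℤ, bL G (rv v - c) (rv v - c) =
      (1 / 4 : ℝ) * ((bL G (ℓ - (2 : ℤ) • v) (ℓ - (2 : ℤ) • v) : ℤ) : ℝ) := by
    intro v
    have h3 : (2 : ℤ) • v - ℓ = -(ℓ - (2 : ℤ) • v) := by abel
    rw [hsub, bL_smul_left, bL_smul_right, bL_rv, h3, bL_neg_left, bL_neg_right, neg_neg]
    ring
  have H1 : ∀ w : Fin r → ℤ, 2 ≤ bL G (c - rv w) (c - rv w) := by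
    intro w
    have h3 : c - rv w = -(rv w - c) := by abel
    rw [h3, bL_neg_left, bL_neg_right, neg_neg, hnorm]
    have h4 : ((8 : ℤ) : ℝ) ≤ ((bL G (ℓ - (2 : ℤ) • w) (ℓ - (2 : ℤ) • w) : ℤ) : ℝ) := by
      exact_mod_cast eight_le hG h2 hℓ w
    push_cast at h4
    linarith
  have hhole := fun u (hu : u ≠ 0) => hole_lemma hG H1 (covering_real hG hcov) (u := u) hu
  let W : Set (Fin r → ℤ) := {y | bL G y y = 8 ∧ ∃ z, y = ℓ + (2 : ℤ) • z}
  have hspan : Submodule.span ℝ (rv '' W) = ⊤ := by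
    by_contra hne
    obtain ⟨u, hu, hu0⟩ := exists_orth hG hne
    obtain ⟨v, hv, hv0⟩ := hhole u hu
    rw [hsub, bL_smul_right] at hv0
    have h3 : (2 : ℤ) • v - ℓ ∈ W := by
      refine ⟨?_, v - ℓ, by module⟩
      rw [hnorm] at hv
      have h4 : ((bL G (ℓ - (2 : ℤ) • v) (ℓ - (2 : ℤ) • v) : ℤ) : ℝ) = ((8 : ℤ) : ℝ) := by
        push_cast; linarith
      have h5 : (2 : ℤ) • v - ℓ = -(ℓ - (2 : ℤ) • v) := by abel
      rw [h5, bL_neg_left, bL_neg_right, neg_neg]
      exact_mod_cast h4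
    have h4 := hu0 _ (Submodule.subset_span ⟨_, h3, rfl⟩)
    rw [h4] at hv0
    simp at hv0
  obtain ⟨f, hfW, hfspan, hfind⟩ := Submodule.exists_fun_fin_finrank_span_eq ℝ (rv '' W)
  have hrank : Module.finrank ℝ (Submodule.span ℝ (rv '' W)) = r := by
    rw [hspan, finrank_top, Module.finrank_fin_fun]
  replace hfspan := hfspan.trans hspan
  obtain ⟨f', hf'W, hf'span, hf'ind⟩ : ∃ f' : Fin r → (Fin r → ℝ), (∀ i, f' i ∈ rv '' W) ∧
      Submodule.span ℝ (Set.range f') = ⊤ ∧ LinearIndependent ℝ f' := by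
    let e : Fin r ≃ Fin (Module.finrank ℝ (Submodule.span ℝ (rv '' W))) := finCongr hrank.symm
    refine ⟨f ∘ e, fun i => hfW _, ?_, hfind.comp _ e.injective⟩
    rw [e.surjective.range_comp]
    exact hfspan
  choose w hwW hwf using hf'W
  have hinj : ∀ i j, i ≠ j → w i ≠ w j ∧ w i ≠ -w j := by
    intro i j hij
    constructor
    · intro h
      apply hij
      apply hf'ind.injective
      rw [← hwf, ← hwf, h]
    · intro h
      have h3 : f' i = -f' j := by rw [← hwf, ← hwf, h, rv_neg]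
      have h4 := (linearIndependent_iff'.mp hf'ind) {i, j} (fun _ => 1) (by
        rw [Finset.sum_pair hij, h3]; simp) i (by simp)
      exact one_ne_zero h4
  have horth : ∀ i j, bL G (w i) (w j) = if i = j then 8 else 0 := by
    intro i j
    split_ifs with hij
    · rw [hij]; exact (hwW j).1
    · obtain ⟨h3, h4⟩ := hinj i j hij
      obtain ⟨z, hz⟩ := (hwW i).2
      obtain ⟨z', hz'⟩ := (hwW j).2
      refine orth_of_congr hG h2 (hwW i).1 (hwW j).1 (z := z - z') ?_ h3 h4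
      rw [hz, hz']
      module
  refine ⟨w, horth, ?_, ?_⟩
  · intro i j
    obtain ⟨z, hz⟩ := (hwW i).2
    obtain ⟨z', hz'⟩ := (hwW j).2
    refine ⟨z - z', ?_⟩
    rw [hz, hz']
    module
  · intro x y
    have key : ∀ X ∈ Submodule.span ℝ (Set.range f'),
        8 * bL G X (rv y) = ∑ i, bL G X (rv (w i)) * bL G (rv y) (rv (w i)) := by
      intro X hX
      induction hX using Submodule.span_induction with
      | mem X hX =>
        obtain ⟨j, rfl⟩ := hX
        rw [← hwf j]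
        have h3 : ∀ i, bL G (rv (w j)) (rv (w i)) * bL G (rv y) (rv (w i)) =
            if j = i then 8 * bL G (rv (w j)) (rv y) else 0 := by
          intro i
          rw [bL_rv, horth]
          split_ifs with h
          · rw [h, bL_comm hG.symm (rv y)]; norm_num
          · simp
        simp only [h3, Finset.sum_ite_eq, Finset.mem_univ, if_true]
      | zero => simp [bL_zero_left]
      | add a b _ _ ha hb =>
        simp only [bL_add_left, mul_add, add_mul, ha, hb, Finset.sum_add_distrib]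
      | smul t a _ ha =>
        simp only [bL_smul_left]
        rw [mul_left_comm, ha, Finset.mul_sum]
        exact Finset.sum_congr rfl fun i _ => by ring
    have h3 := key (rv x) (by rw [hf'span]; trivial)
    simp only [bL_rv] at h3
    exact_mod_cast h3

/-- The data of the frame case in coordinates. -/
structure FrameData (S : AddSubgroup (Fin r → ℤ)) : Prop where
  par : ∀ a ∈ S, ∀ i j, (2 : ℤ) ∣ a i - a j
  dn : ∀ x : Fin r → ℤ, (2 : ℤ) ∣ ∑ i, x i → (fun i => 4 * x i) ∈ S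
  int16 : ∀ a ∈ S, (16 : ℤ) ∣ ∑ i, a i ^ 2
  min : ∀ a ∈ S, a ≠ 0 → 32 ≤ ∑ i, a i ^ 2
  cov : ∀ y : Fin r → ℤ, ∃ a ∈ S, ∑ i, (y i - a i) ^ 2 ≤ 16

/-- The coordinates of a lattice vector with respect to a frame. -/
def coordHom (G : Matrix (Fin r) (Fin r) ℤ) (w : Fin r → (Fin r → ℤ)) :
    (Fin r → ℤ) →+ (Fin r → ℤ) where
  toFun x := fun i => bL G x (w i)
  map_zero' := by ext i; simp [bL_zero_left]
  map_add' x y := by ext i; simp [bL_add_left]

theorem coordHom_apply (w : Fin r → (Fin r → ℤ)) (x : Fin r → ℤ) (i : Fin r) :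
    coordHom G w x i = bL G x (w i) := rfl

theorem frameData (hG : IsEvenPosDef G) (h2 : ∀ x : Fin r → ℤ, bL G x x ≠ 2)
    (hcov : CovRat G) (i0 : Fin r) {w : Fin r → (Fin r → ℤ)}
    (hw : ∀ i j, bL G (w i) (w j) = if i = j then 8 else 0)
    (hw2 : ∀ i j, ∃ z, w i - w j = (2 : ℤ) • z)
    (hform : ∀ x y : Fin r → ℤ, 8 * bL G x y = ∑ i, bL G x (w i) * bL G y (w i)) :
    FrameData (coordHom G w).range where
  par := by
    rintro _ ⟨x, rfl⟩ i j
    obtain ⟨z, hz⟩ := hw2 i j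
    refine ⟨bL G x z, ?_⟩
    rw [coordHom_apply, coordHom_apply, ← bL_sub_right, hz, bL_smul_right]
  dn := by
    intro x ⟨m, hm⟩
    have hz := fun i => hw2 i i0
    choose z hz using hz
    refine ⟨∑ i, x i • z i + m • w i0, ?_⟩
    ext k
    have h3 : ∀ i, bL G (z i) (w k) = 4 * (if i = k then 1 else 0) - 4 * (if i0 = k then 1 else 0) := by
      intro i
      have h4 : 2 * bL G (z i) (w k) = bL G (w i - w i0) (w k) := by
        rw [hz, bL_smul_left]
      rw [bL_sub_left, hw, hw] at h4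
      split_ifs at h4 ⊢ <;> omega
    have h4 : coordHom G w (∑ i, x i • z i + m • w i0) k =
        ∑ i, x i * bL G (z i) (w k) + m * bL G (w i0) (w k) := by
      rw [map_add, map_sum]
      simp only [Pi.add_apply, Finset.sum_apply, coordHom_apply, bL_smul_left]
    rw [h4, hw]
    simp only [h3, mul_sub, Finset.sum_sub_distrib]
    have h5 : ∑ i, x i * (4 * (if i = k then (1 : ℤ) else 0)) = 4 * x k := by
      simp [mul_comm]
    have h6 : ∑ i, x i * (4 * (if i0 = k then (1 : ℤ) else 0)) =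
        (2 * m) * (4 * (if i0 = k then (1 : ℤ) else 0)) := by
      rw [← Finset.sum_mul, hm]
    rw [h5, h6]
    split_ifs <;> ring
  int16 := by
    rintro _ ⟨x, rfl⟩
    have h3 := hform x x
    obtain ⟨m, hm⟩ := hG.even x
    refine ⟨m, ?_⟩
    have h4 : ∑ i, (coordHom G w x) i ^ 2 = ∑ i, bL G x (w i) * bL G x (w i) :=
      Finset.sum_congr rfl fun i _ => by rw [coordHom_apply, sq]
    rw [h4, ← h3, hm]; ring
  min := by
    rintro _ ⟨x, rfl⟩ hx
    have hx0 : x ≠ 0 := by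
      rintro rfl
      exact hx (map_zero _)
    have h3 := hform x x
    have h4 : ∑ i, (coordHom G w x) i ^ 2 = ∑ i, bL G x (w i) * bL G x (w i) :=
      Finset.sum_congr rfl fun i _ => by rw [coordHom_apply, sq]
    have h5 := four_le hG h2 hx0
    rw [h4, ← h3]
    omega
  cov := by
    intro y
    obtain ⟨v, hv⟩ := hcov (∑ i, y i • w i) 8 (by norm_num)
    refine ⟨coordHom G w v, ⟨v, rfl⟩, ?_⟩
    have h3 := hform (∑ i, y i • w i - (8 : ℤ) • v) (∑ i, y i • w i - (8 : ℤ) • v)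
    have h4 : ∀ k, bL G (∑ i, y i • w i - (8 : ℤ) • v) (w k) = 8 * (y k - coordHom G w v k) := by
      intro k
      rw [bL_sub_left, bL_smul_left, coordHom_apply]
      have h5 : bL G (∑ i, y i • w i) (w k) = 8 * y k := by
        have h6 : bL G (∑ i, y i • w i) (w k) = coordHom G w (∑ i, y i • w i) k := rfl
        rw [h6, map_sum]
        simp only [Finset.sum_apply, coordHom_apply, bL_smul_left, hw]
        simp [mul_comm]
      rw [h5]; ring
    simp only [h4] at h3
    have h5 : ∑ k, 8 * (y k - coordHom G w v k) * (8 * (y k - coordHom G w v k)) =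
        64 * ∑ k, (y k - coordHom G w v k) ^ 2 := by
      rw [Finset.mul_sum]
      exact Finset.sum_congr rfl fun k _ => by ring
    rw [h5] at h3
    have h6 : (2 : ℤ) * 8 ^ 2 = 128 := by norm_num
    rw [h6] at hv
    omega

end Pool.Agent.Work.MP_ccc26a_nt
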