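import Pool.Agent.Work.MP_ccc26a_nt.Comp

set_option autoImplicit false

namespace Pool.Agent.Work.MP_ccc26a_nt

open Filter Topology Set

variable {r : ℕ} {G : Matrix (Fin r) (Fin r) ℤ}

/-- A criterion for membership in the stable orthogonal group. -/
theorem mem_stableOrth_of {D : Set (MVec ℂ r)} (g : MVec ℂ r ≃ₗ[ℂ] MVec ℂ r)
    (h1 : ∀ v w, bM G (g v) (g w) = bM G v w)
    (h2 : ∀ v : MVec ℤ r, g (toC v) ∈ range (toC : MVec ℤ r → MVec ℂ r))
    (h2' : ∀ v : MVec ℤ r, g.symm (toC v) ∈ range (toC : MVec ℤ r → MVec ℂ r))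
    (h3 : ∀ y, (∀ v : MVec ℤ r, ∃ k : ℤ, bM G y (toC v) = k) → g y - y ∈ range toC)
    (h4 : ∀ w ∈ D, g w ∈ D) (h4' : ∀ w ∈ D, g.symm w ∈ D) : g.toEquiv ∈ stableOrth G D := by
  refine ⟨fun v w => map_add g v w, fun t v => map_smul g t v, h1, ?_, h3, ?_⟩
  · apply Subset.antisymm
    · rintro _ ⟨_, ⟨v, rfl⟩, rfl⟩
      exact h2 v
    · rintro _ ⟨v, rfl⟩
      exact ⟨g.symm (toC v), h2' v, g.apply_symm_apply _⟩
  · apply Subset.antisymm
    · rintro _ ⟨w, hw, rfl⟩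
      exact h4 w hw
    · intro w hw
      exact ⟨g.symm w, h4' w hw, g.apply_symm_apply _⟩

theorem toCN_add (x y : NVec ℤ r) : toCN (x + y) = toCN x + toCN y := by
  ext <;> simp [toCN, mapN]

theorem toCN_neg (x : NVec ℤ r) : toCN (-x) = -toCN x := by
  ext <;> simp [toCN, mapN]

theorem toCN_smul (n : ℤ) (x : NVec ℤ r) : toCN (n • x) = (n : ℂ) • toCN x := by
  ext <;> simp [toCN, mapN]

theorem toCN_zero : toCN (0 : NVec ℤ r) = 0 := by
  ext <;> simp [toCN, mapN]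

/-- Membership for an automorphism of `N` extended by the identity. -/
theorem extN_mem (hG : IsEvenPosDef G) {ε : ℤ} (hε : ε = 1 ∨ ε = -1)
    (g : MVec ℂ r ≃ₗ[ℂ] MVec ℂ r) (φ ψ : NVec ℂ r → NVec ℂ r)
    (hgφ : ∀ v, g v = (v.1, φ v.2.1, v.2.2)) (hgψ : ∀ v, g.symm v = (v.1, ψ v.2.1, v.2.2))
    (h1 : ∀ x y, bN G (φ x) (φ y) = bN G x y)
    (h2 : ∀ x : NVec ℤ r, φ (toCN x) ∈ range (toCN : NVec ℤ r → NVec ℂ r))
    (h2' : ∀ x : NVec ℤ r, ψ (toCN x) ∈ range (toCN : NVec ℤ r → NVec ℂ r))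
    (h3 : ∀ y, (∀ v : NVec ℤ r, ∃ k : ℤ, bN G y (toCN v) = k) →
      φ y - y ∈ range (toCN : NVec ℤ r → NVec ℂ r))
    (h4 : ∀ p : NVec ℝ r × NVec ℝ r, PosCone G p.2 → ∃ p' : NVec ℝ r × NVec ℝ r,
      PosCone G p'.2 ∧ φ (cplx p) = cplx p')
    (h4' : ∀ p : NVec ℝ r × NVec ℝ r, PosCone G p.2 → ∃ p' : NVec ℝ r × NVec ℝ r,
      PosCone G p'.2 ∧ ψ (cplx p) = cplx p') : g.toEquiv ∈ stableOrth G (comp G ε) := by
  have hψφ : ∀ x, φ (ψ x) = x := by
    intro x
    have := g.apply_symm_apply ((0 : ℂ), x, (0 : ℂ))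
    rw [hgψ, hgφ] at this
    exact congrArg (fun v : MVec ℂ r => v.2.1) this
  have h1' : ∀ x y, bN G (ψ x) (ψ y) = bN G x y := by
    intro x y
    rw [← h1 (ψ x) (ψ y), hψφ, hψφ]
  have hzc : ∀ (e : MVec ℂ r ≃ₗ[ℂ] MVec ℂ r) (θ : NVec ℂ r → NVec ℂ r),
      (∀ v, e v = (v.1, θ v.2.1, v.2.2)) → (∀ x y, bN G (θ x) (θ y) = bN G x y) →
      (∀ p : NVec ℝ r × NVec ℝ r, PosCone G p.2 → ∃ p' : NVec ℝ r × NVec ℝ r,
        PosCone G p'.2 ∧ θ (cplx p) = cplx p') → ∀ w ∈ comp G ε, e w ∈ comp G ε := by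
    intro e θ he hθ hθp w hw
    obtain ⟨t, ht, p, hp, rfl⟩ := exists_zc hG hε hw
    obtain ⟨p', hp', hpp'⟩ := hθp p hp
    have : e (zc G ε p) = zc G ε p' := by
      rw [he]
      simp only [zc]
      rw [← hpp', hθ]
    rw [map_smul, this]
    exact smul_comp_mem hG hε ht hp'
  refine mem_stableOrth_of g ?_ ?_ ?_ ?_ (hzc g φ hgφ h1 h4) (hzc g.symm ψ hgψ h1' h4')
  · intro v w
    rw [hgφ, hgφ]
    simp only [bM, h1]
  · intro v
    rw [hgφ]
    obtain ⟨u, hu⟩ := h2 v.2.1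
    refine ⟨(v.1, u, v.2.2), ?_⟩
    rw [toC_eq, toC_eq]
    simp only [hu]
  · intro v
    rw [hgψ]
    obtain ⟨u, hu⟩ := h2' v.2.1
    refine ⟨(v.1, u, v.2.2), ?_⟩
    rw [toC_eq, toC_eq]
    simp only [hu]
  · intro y hy
    have hy' : ∀ v : NVec ℤ r, ∃ k : ℤ, bN G y.2.1 (toCN v) = k := by
      intro v
      obtain ⟨k, hk⟩ := hy (0, v, 0)
      refine ⟨k, ?_⟩
      rw [← hk, toC_eq]
      simp [bM]
    obtain ⟨u, hu⟩ := h3 _ hy'
    refine ⟨(0, u, 0), ?_⟩
    rw [toC_eq, hgφ]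
    simp only [hu]
    ext <;> simp

theorem bN_toCN_int (x y : NVec ℤ r) : ∃ k : ℤ, bN G (toCN x) (toCN y) = k :=
  ⟨_, bN_toCN x y⟩

theorem eich_rc (z l : NVec ℤ r) (c : ℤ) (p : NVec ℝ r × NVec ℝ r) :
    eich G (toCN z) (toCN l) (c : ℂ) (cplx p) =
      cplx (eich G (toR z) (toR l) (c : ℝ) p.1, eich G (toR z) (toR l) (c : ℝ) p.2) := by
  have h1 : ∀ x y : NVec ℝ r, rc (x + y) = rc x + rc y := by
    intro x y; ext <;> simp [rc, mapN]
  have h2 : ∀ (a : ℝ) (y : NVec ℝ r), rc (a • y) = (a : ℂ) • rc y := by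
    intro a y; ext <;> simp [rc, mapN]
  have h3 : ∀ x y : NVec ℝ r, rc (x - y) = rc x - rc y := by
    intro x y; ext <;> simp [rc, mapN]
  rw [cplx_eq, cplx_eq, eich_add, eich_smul]
  simp only [eich, toCN_eq, bN_rc, h1, h2, h3]
  push_cast
  rfl

theorem reflN_rc (x : NVec ℤ r) (p : NVec ℝ r × NVec ℝ r) :
    reflN G (toCN x) (cplx p) = cplx (reflN G (toR x) p.1, reflN G (toR x) p.2) := by
  have h1 : ∀ x y : NVec ℝ r, rc (x + y) = rc x + rc y := by
    intro x y; ext <;> simp [rc, mapN]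
  have h2 : ∀ (a : ℝ) (y : NVec ℝ r), rc (a • y) = (a : ℂ) • rc y := by
    intro a y; ext <;> simp [rc, mapN]
  rw [cplx_eq, cplx_eq, reflN_add, reflN_smul]
  simp only [reflN, toCN_eq, bN_rc, h1, h2]

theorem toR_ne_zero {z : NVec ℤ r} (hz : z ≠ 0) : toR z ≠ 0 := by
  intro h
  apply hz
  have h1 := congrArg (fun v : NVec ℝ r => v.1) h
  have h2 := congrArg (fun v : NVec ℝ r => v.2.2) h
  have h3 := congrArg (fun v : NVec ℝ r => v.2.1) h
  refine Prod.ext ?_ (Prod.ext ?_ ?_)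
  · simpa [toR, mapN] using h1
  · funext i
    have := congrFun h3 i
    simpa [toR, mapN] using this
  · simpa [toR, mapN] using h2

/-- The Eichler transvection as an element of the stable orthogonal group. -/
theorem exists_eich (hG : IsEvenPosDef G) {ε : ℤ} (hε : ε = 1 ∨ ε = -1) {z l : NVec ℤ r} {c : ℤ}
    (hz0 : z ≠ 0) (hz : bN G z z = 0) (hzl : bN G z l = 0) (hl : bN G l l = 2 * c) :
    ∃ g : stableOrth G (comp G ε), ∀ p : NVec ℝ r × NVec ℝ r,
      (g : Equiv.Perm (MVec ℂ r)) (zc G ε p) =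
        zc G ε (eich G (toR z) (toR l) c p.1, eich G (toR z) (toR l) c p.2) := by
  have hzC : bN G (toCN z) (toCN z) = 0 := by rw [bN_toCN, hz]; simp
  have hzlC : bN G (toCN z) (toCN l) = 0 := by rw [bN_toCN, hzl]; simp
  have hlC : bN G (toCN l) (toCN l) = 2 * (c : ℂ) := by rw [bN_toCN, hl]; push_cast; ring
  have hzR : bN G (toR z) (toR z) = 0 := by rw [bN_toR, hz]; simp
  have hzlR : bN G (toR z) (toR l) = 0 := by rw [bN_toR, hzl]; simp
  have hlR : bN G (toR l) (toR l) = 2 * (c : ℝ) := by rw [bN_toR, hl]; push_cast; ring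
  have hzl' : bN G z (-l) = 0 := by rw [bN_neg_right, hzl]; simp
  have hl' : bN G (-l) (-l) = 2 * c := by rw [bN_neg_right, bN_neg_left, hl]; ring
  have hinv1 := eich_eich hG.symm hzC hzlC hlC
  have hinv2 : ∀ y, eich G (toCN z) (toCN l) (c : ℂ) (eich G (toCN z) (toCN (-l)) (c : ℂ) y) = y := by
    intro y
    have h1 : bN G (toCN z) (toCN (-l)) = 0 := by rw [bN_toCN, hzl']; simp
    have h2 : bN G (toCN (-l)) (toCN (-l)) = 2 * (c : ℂ) := by
      rw [bN_toCN, hl']; push_cast; ring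
    have := eich_eich hG.symm hzC h1 h2 y
    rw [toCN_neg, neg_neg] at this
    rw [toCN_neg]
    exact this
  let φ : NVec ℂ r ≃ₗ[ℂ] NVec ℂ r :=
    { toFun := eich G (toCN z) (toCN l) (c : ℂ)
      map_add' := eich_add _ _ _
      map_smul' := fun a y => eich_smul _ _ _ a y
      invFun := eich G (toCN z) (toCN (-l)) (c : ℂ)
      left_inv := fun y => by rw [toCN_neg]; exact hinv1 y
      right_inv := hinv2 }
  let g : MVec ℂ r ≃ₗ[ℂ] MVec ℂ r :=
    LinearEquiv.prodCongr (LinearEquiv.refl ℂ ℂ) (LinearEquiv.prodCongr φ (LinearEquiv.refl ℂ ℂ))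
  have hint : ∀ (l : NVec ℤ r) (x : NVec ℤ r), eich G (toCN z) (toCN l) (c : ℂ) (toCN x) ∈
      range (toCN : NVec ℤ r → NVec ℂ r) := by
    intro l x
    refine ⟨eich G z l c x, ?_⟩
    simp only [eich, bN_toCN]
    rw [sub_eq_add_neg, sub_eq_add_neg, toCN_add, toCN_add, toCN_add, toCN_neg, toCN_neg, toCN_smul,
      toCN_smul, toCN_smul]
    push_cast
    module
  have hcone : ∀ (l : NVec ℤ r), bN G z l = 0 → bN G l l = 2 * c →
      ∀ p : NVec ℝ r × NVec ℝ r, PosCone G p.2 → ∃ p' : NVec ℝ r × NVec ℝ r,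
      PosCone G p'.2 ∧ eich G (toCN z) (toCN l) (c : ℂ) (cplx p) = cplx p' := by
    intro l hzl hl p hp
    refine ⟨_, ?_, eich_rc z l c p⟩
    refine posCone_eich hG (toR_ne_zero hz0) hzR ?_ ?_ hp
    · rw [bN_toR, hzl]; simp
    · rw [bN_toR, hl]; push_cast; ring
  have hmem : g.toEquiv ∈ stableOrth G (comp G ε) := by
    refine extN_mem hG hε g (eich G (toCN z) (toCN l) (c : ℂ))
      (eich G (toCN z) (toCN (-l)) (c : ℂ)) (fun v => rfl) (fun v => rfl)
      (bN_eich hG.symm hzC hzlC hlC) (hint l) (hint (-l)) ?_ (hcone l hzl hl)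
      (hcone (-l) hzl' hl')
    intro y hy
    obtain ⟨k1, hk1⟩ := hy z
    obtain ⟨k2, hk2⟩ := hy l
    refine ⟨(-k1) • l + (k2 - c * k1) • z, ?_⟩
    rw [toCN_add, toCN_smul, toCN_smul]
    simp only [eich, hk1, hk2]
    push_cast
    module
  refine ⟨⟨g.toEquiv, hmem⟩, fun p => ?_⟩
  show ((ε : ℂ), eich G (toCN z) (toCN l) (c : ℂ) (cplx p), _) = _
  simp only [zc]
  rw [← eich_rc, bN_eich hG.symm hzC hzlC hlC]
  rfl

/-- The reflection in a root as an element of the stable orthogonal group. -/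
theorem exists_refl (hG : IsEvenPosDef G) {ε : ℤ} (hε : ε = 1 ∨ ε = -1) {x : NVec ℤ r}
    (hx : bN G x x = -2) :
    ∃ g : stableOrth G (comp G ε), ∀ p : NVec ℝ r × NVec ℝ r,
      (g : Equiv.Perm (MVec ℂ r)) (zc G ε p) =
        zc G ε (reflN G (toR x) p.1, reflN G (toR x) p.2) := by
  have hxC : bN G (toCN x) (toCN x) = -2 := by rw [bN_toCN, hx]; simp
  have hxR : bN G (toR x) (toR x) = -2 := by rw [bN_toR, hx]; simp
  let φ : NVec ℂ r ≃ₗ[ℂ] NVec ℂ r :=
    { toFun := reflN G (toCN x)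
      map_add' := reflN_add _
      map_smul' := fun a y => reflN_smul _ a y
      invFun := reflN G (toCN x)
      left_inv := reflN_reflN hxC
      right_inv := reflN_reflN hxC }
  let g : MVec ℂ r ≃ₗ[ℂ] MVec ℂ r :=
    LinearEquiv.prodCongr (LinearEquiv.refl ℂ ℂ) (LinearEquiv.prodCongr φ (LinearEquiv.refl ℂ ℂ))
  have hint : ∀ y : NVec ℤ r, reflN G (toCN x) (toCN y) ∈
      range (toCN : NVec ℤ r → NVec ℂ r) := by
    intro y
    refine ⟨reflN G x y, ?_⟩
    simp only [reflN, bN_toCN]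
    rw [toCN_add, toCN_smul]
  have hcone : ∀ p : NVec ℝ r × NVec ℝ r, PosCone G p.2 → ∃ p' : NVec ℝ r × NVec ℝ r,
      PosCone G p'.2 ∧ reflN G (toCN x) (cplx p) = cplx p' := by
    intro p hp
    exact ⟨_, posCone_reflN hG hxR hp, reflN_rc x p⟩
  have hmem : g.toEquiv ∈ stableOrth G (comp G ε) := by
    refine extN_mem hG hε g (reflN G (toCN x)) (reflN G (toCN x)) (fun v => rfl) (fun v => rfl)
      (bN_reflN hG.symm hxC) hint hint ?_ hcone hcone
    intro y hy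
    obtain ⟨k1, hk1⟩ := hy x
    refine ⟨k1 • x, ?_⟩
    rw [toCN_smul]
    simp only [reflN, hk1]
    module
  refine ⟨⟨g.toEquiv, hmem⟩, fun p => ?_⟩
  show ((ε : ℂ), reflN G (toCN x) (cplx p), _) = _
  simp only [zc]
  rw [← reflN_rc, bN_reflN hG.symm hxC]
  rfl

/-- The translation map. -/
noncomputable def trMap (G : Matrix (Fin r) (Fin r) ℤ) (l : NVec ℂ r) (k : ℂ) (v : MVec ℂ r) :
    MVec ℂ r :=
  (v.1, v.2.1 + v.1 • l, v.2.2 - bN G v.2.1 l - k * v.1)

theorem trMap_trMap {l : NVec ℂ r} {k : ℂ} (hl : bN G l l = 2 * k) (v : MVec ℂ r) :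
    trMap G (-l) k (trMap G l k v) = v := by
  refine Prod.ext rfl (Prod.ext ?_ ?_)
  · simp only [trMap]; module
  · simp only [trMap, bN_add_left, bN_smul_left, bN_neg_right, hl]; ring

theorem bM_trMap (hG : G.IsSymm) {l : NVec ℂ r} {k : ℂ} (hl : bN G l l = 2 * k)
    (v w : MVec ℂ r) : bM G (trMap G l k v) (trMap G l k w) = bM G v w := by
  simp only [trMap, bM, bN_add_left, bN_add_right, bN_smul_left, bN_smul_right, hl,
    bN_comm hG l w.2.1]
  ring

theorem even_bN (hG : IsEvenPosDef G) (l : NVec ℤ r) : ∃ k : ℤ, bN G l l = 2 * k := by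
  obtain ⟨m, hm⟩ := hG.even l.2.1
  refine ⟨l.1 * l.2.2 - m, ?_⟩
  simp only [bN, hm]; ring

/-- Translations as elements of the stable orthogonal group. -/
theorem exists_trans (hG : IsEvenPosDef G) {ε : ℤ} (hε : ε = 1 ∨ ε = -1) (l : NVec ℤ r) :
    ∃ g : stableOrth G (comp G ε), ∀ X Y : NVec ℝ r,
      (g : Equiv.Perm (MVec ℂ r)) (zc G ε (X, Y)) = zc G ε (X + toR l, Y) := by
  have hεC := sq_epsC hε
  set m : NVec ℤ r := ε • l with hm
  obtain ⟨k, hk⟩ := even_bN hG m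
  have hmC : bN G (toCN m) (toCN m) = 2 * (k : ℂ) := by rw [bN_toCN, hk]; push_cast; ring
  have hmC' : bN G (-toCN m) (-toCN m) = 2 * (k : ℂ) := by
    rw [bN_neg_left, bN_neg_right, hmC]; ring
  let g : MVec ℂ r ≃ₗ[ℂ] MVec ℂ r :=
    { toFun := trMap G (toCN m) k
      map_add' := fun v w => by
        refine Prod.ext rfl (Prod.ext ?_ ?_)
        · simp only [trMap, Prod.fst_add, Prod.snd_add]; module
        · simp only [trMap, Prod.fst_add, Prod.snd_add, bN_add_left]; ring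
      map_smul' := fun a v => by
        refine Prod.ext rfl (Prod.ext ?_ ?_)
        · simp only [trMap, Prod.smul_fst, Prod.smul_snd, RingHom.id_apply, smul_eq_mul]; module
        · simp only [trMap, Prod.smul_fst, Prod.smul_snd, RingHom.id_apply, smul_eq_mul,
            bN_smul_left]
          ring
      invFun := trMap G (-toCN m) k
      left_inv := trMap_trMap hmC
      right_inv := fun v => by
        have := trMap_trMap hmC' v
        rwa [neg_neg] at this }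
  have hcplx : ∀ (X Y : NVec ℝ r) (n : NVec ℤ r), cplx (X, Y) + toCN n = cplx (X + toR n, Y) := by
    intro X Y n
    ext <;> simp [cplx, toCN, toR, mapN] <;> ring
  -- action on the parametrised points
  have hact : ∀ (n : NVec ℤ r) (k : ℤ), bN G n n = 2 * k → ∀ X Y : NVec ℝ r,
      trMap G (toCN n) k (zc G ε (X, Y)) = zc G ε (X + toR (ε • n), Y) := by
    intro n k hk X Y
    have hnC : bN G (toCN n) (toCN n) = 2 * (k : ℂ) := by rw [bN_toCN, hk]; push_cast; ring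
    have h1 : cplx (X + toR (ε • n), Y) = cplx (X, Y) + (ε : ℂ) • toCN n := by
      rw [← hcplx, toCN_smul]
    refine Prod.ext rfl (Prod.ext ?_ ?_)
    · simp only [trMap, zc, h1]
    · simp only [trMap, zc, h1, bN_add_left, bN_add_right, bN_smul_left, bN_smul_right, hnC,
        bN_comm hG.symm (toCN n) (cplx (X, Y))]
      linear_combination (bN G (cplx (X, Y)) (toCN n) + ε * k) * hεC
  have hDmap : ∀ (n : NVec ℤ r) (k : ℤ), bN G n n = 2 * k → ∀ w ∈ comp G ε,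
      ∀ (e : MVec ℂ r ≃ₗ[ℂ] MVec ℂ r), (∀ v, e v = trMap G (toCN n) k v) → e w ∈ comp G ε := by
    intro n k hk w hw e he
    obtain ⟨t, ht, p, hp, rfl⟩ := exists_zc hG hε hw
    rw [map_smul, he, show p = (p.1, p.2) from rfl, hact n k hk]
    exact smul_comp_mem hG hε ht hp
  have hint : ∀ (n : NVec ℤ r) (k : ℤ) (v : MVec ℤ r), trMap G (toCN n) k (toC v) ∈
      range (toC : MVec ℤ r → MVec ℂ r) := by
    intro n k v
    refine ⟨(v.1, v.2.1 + v.1 • n, v.2.2 - bN G v.2.1 n - k * v.1), ?_⟩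
    rw [toC_eq, toC_eq]
    simp only [trMap, toCN_add, toCN_smul, bN_toCN]
    push_cast
    rfl
  have hmem : g.toEquiv ∈ stableOrth G (comp G ε) := by
    refine mem_stableOrth_of g (bM_trMap hG.symm hmC) (hint m k) ?_ ?_ ?_ ?_
    · intro v
      show trMap G (-toCN m) k (toC v) ∈ _
      rw [← toCN_neg]
      exact hint (-m) k v
    · intro y hy
      obtain ⟨a, ha⟩ := hy (0, 0, 1)
      obtain ⟨b, hb⟩ := hy (0, m, 0)
      rw [toC_eq] at ha hb
      simp only [bM, toCN_zero, bN_zero_right] at ha hb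
      have ha' : y.1 = a := by simpa using ha
      have hb' : bN G y.2.1 (toCN m) = b := by simpa using hb
      refine ⟨(0, a • m, -b - k * a), ?_⟩
      rw [toC_eq]
      show _ = trMap G (toCN m) k y - y
      refine Prod.ext ?_ (Prod.ext ?_ ?_)
      · simp [trMap]
      · simp only [trMap, toCN_smul, Prod.fst_sub, Prod.snd_sub, ha']
        module
      · simp only [trMap, Prod.snd_sub, hb', ha']
        push_cast
        ring
    · intro w hw
      exact hDmap m k hk w hw g (fun v => rfl)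
    · intro w hw
      refine hDmap (-m) k ?_ w hw g.symm (fun v => ?_)
      · rw [bN_neg_left, bN_neg_right, hk]; ring
      · rw [toCN_neg]; rfl
  refine ⟨⟨g.toEquiv, hmem⟩, fun X Y => ?_⟩
  show trMap G (toCN m) k (zc G ε (X, Y)) = _
  rw [hact m k hk, hm, smul_smul, sq_eps hε, one_smul]

end Pool.Agent.Work.MP_ccc26a_nt
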