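import Pool.Agent.Work.MP_ccc26a_nt.LeechQuad

set_option autoImplicit false

namespace Pool.Agent.Work.MP_ccc26a_nt

/-- The basis matrix of the Leech lattice in coordinates. -/
def Bas : Matrix (Fin 24) (Fin 24) ℤ := fun i j => ent basRows i j

/-- The Gram matrix of the Leech lattice. -/
def Lam : Matrix (Fin 24) (Fin 24) ℤ := fun i j => ent lamRows i j

/-- Its inverse. -/
def LamInv : Matrix (Fin 24) (Fin 24) ℤ := fun i j => ent invRows i j

theorem bas_gram (i j : Fin 24) : ∑ k, Bas i k * Bas j k = 8 * Lam i j := by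
  have := chk_gram i i.2 j j.2
  rw [sumTo_eq] at this
  exact this

theorem bas_mul : Bas * Bas.transpose = (8 : ℤ) • Lam := by
  ext i j
  rw [Matrix.mul_apply, Matrix.smul_apply, smul_eq_mul, ← bas_gram i j]
  rfl

theorem lam_inv : Lam * LamInv = 1 := by
  ext i j
  have := chk_inv i i.2 j j.2
  rw [sumTo_eq] at this
  rw [Matrix.mul_apply, Matrix.one_apply]
  refine this.trans ?_
  simp [Fin.ext_iff]

theorem inv_lam : LamInv * Lam = 1 := mul_eq_one_comm.mp lam_inv

theorem lam_symm : Lam.IsSymm := by
  ext i j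
  have h1 := bas_gram i j
  have h2 := bas_gram j i
  have h3 : ∑ k, Bas i k * Bas j k = ∑ k, Bas j k * Bas i k :=
    Finset.sum_congr rfl fun k _ => mul_comm _ _
  rw [Matrix.transpose_apply]
  linarith

/-- Coordinates of a vector of the Leech lattice. -/
def av (x : Fin 24 → ℤ) (j : Fin 24) : ℤ := ∑ i, x i * Bas i j

theorem av_add (x y : Fin 24 → ℤ) : av (x + y) = av x + av y := by
  ext j
  simp only [av, Pi.add_apply, add_mul, Finset.sum_add_distrib]

theorem av_smul (n : ℤ) (x : Fin 24 → ℤ) : av (n • x) = n • av x := by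
  ext j
  simp only [av, Pi.smul_apply, smul_eq_mul, Finset.mul_sum, mul_assoc]

theorem av_inner (x y : Fin 24 → ℤ) : ∑ j, av x j * av y j = 8 * bL Lam x y := by
  have h1 : ∀ j, av x j * av y j = ∑ i, ∑ k, x i * y k * (Bas i j * Bas k j) := by
    intro j
    rw [av, av, Finset.sum_mul_sum]
    exact Finset.sum_congr rfl fun i _ => Finset.sum_congr rfl fun k _ => by ring
  simp_rw [h1]
  rw [Finset.sum_comm, bL, Finset.mul_sum]
  refine Finset.sum_congr rfl fun i _ => ?_
  rw [Finset.sum_comm, Finset.mul_sum]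
  refine Finset.sum_congr rfl fun k _ => ?_
  rw [← Finset.mul_sum, bas_gram, Int.cast_id]
  ring

theorem av_injective {x : Fin 24 → ℤ} (h : av x = 0) : x = 0 := by
  have h1 : ∀ y, bL Lam y x = 0 := by
    intro y
    have := av_inner y x
    rw [h] at this
    simp at this
    linarith
  have h2 : ∀ i, ∑ j, Lam i j * x j = 0 := by
    intro i
    have := h1 (Pi.single i 1)
    simpa [bL, Pi.single_apply, Finset.sum_ite_eq] using this
  have h3 : Lam.mulVec x = 0 := by
    ext i
    exact h2 i
  have h4 : (LamInv * Lam).mulVec x = 0 := by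
    rw [← Matrix.mulVec_mulVec, h3, Matrix.mulVec_zero]
  rw [inv_lam, Matrix.one_mulVec] at h4
  exact h4

theorem lam_evenPosDef : IsEvenPosDef Lam where
  symm := lam_symm
  even := by
    intro x
    have hd : ∀ i, Even (Lam i i) := by
      intro i
      rw [Int.even_iff]
      exact chk_diag i i.2
    have key : ∀ s : Finset (Fin 24), Even (∑ i ∈ s, ∑ j ∈ s, x i * (Lam i j : ℤ) * x j) := by
      intro s
      induction s using Finset.induction_on with
      | empty => simp
      | insert a s ha ih =>
        rw [Finset.sum_insert ha, Finset.sum_insert ha]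
        have h1 : ∑ i ∈ s, ∑ j ∈ insert a s, x i * (Lam i j : ℤ) * x j =
            ∑ i ∈ s, x i * (Lam i a : ℤ) * x a + ∑ i ∈ s, ∑ j ∈ s, x i * (Lam i j : ℤ) * x j := by
          rw [← Finset.sum_add_distrib]
          exact Finset.sum_congr rfl fun i _ => Finset.sum_insert ha
        have h2 : ∑ i ∈ s, x i * (Lam i a : ℤ) * x a = ∑ j ∈ s, x a * (Lam a j : ℤ) * x j := by
          refine Finset.sum_congr rfl fun i _ => ?_
          have : Lam i a = Lam a i := lam_symm.apply a i
          rw [this]; ring
        rw [h1, h2]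
        have h3 : Even (x a * (Lam a a : ℤ) * x a) := by
          obtain ⟨m, hm⟩ := hd a
          rw [hm]
          exact ⟨x a * m * x a, by ring⟩
        have h4 : x a * (Lam a a : ℤ) * x a + ∑ j ∈ s, x a * (Lam a j : ℤ) * x j +
            (∑ j ∈ s, x a * (Lam a j : ℤ) * x j + ∑ i ∈ s, ∑ j ∈ s, x i * (Lam i j : ℤ) * x j) =
            x a * (Lam a a : ℤ) * x a + (∑ j ∈ s, x a * (Lam a j : ℤ) * x j +
            ∑ j ∈ s, x a * (Lam a j : ℤ) * x j) +
            ∑ i ∈ s, ∑ j ∈ s, x i * (Lam i j : ℤ) * x j := by ring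
        rw [h4]
        exact (h3.add ⟨_, rfl⟩).add ih
    have := key Finset.univ
    simpa [bL] using this
  pos := by
    intro x hx
    have h1 : ∀ x y : Fin 24 → ℝ, ∑ j, (∑ i, x i * (Bas i j : ℝ)) * (∑ i, y i * (Bas i j : ℝ)) =
        8 * bL Lam x y := by
      intro x y
      have h1 : ∀ j, (∑ i, x i * (Bas i j : ℝ)) * (∑ i, y i * (Bas i j : ℝ)) =
          ∑ i, ∑ k, x i * y k * ((Bas i j : ℝ) * (Bas k j : ℝ)) := by
        intro j
        rw [Finset.sum_mul_sum]
        exact Finset.sum_congr rfl fun i _ => Finset.sum_congr rfl fun k _ => by ring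
      simp_rw [h1]
      rw [Finset.sum_comm, bL, Finset.mul_sum]
      refine Finset.sum_congr rfl fun i _ => ?_
      rw [Finset.sum_comm, Finset.mul_sum]
      refine Finset.sum_congr rfl fun k _ => ?_
      rw [← Finset.mul_sum]
      have h2 : ∑ j, (Bas i j : ℝ) * (Bas k j : ℝ) = 8 * (Lam i k : ℝ) := by
        exact_mod_cast bas_gram i k
      rw [h2]
      ring
    have h2 := h1 x x
    have h3 : 0 ≤ ∑ j, (∑ i, x i * (Bas i j : ℝ)) * (∑ i, x i * (Bas i j : ℝ)) :=
      Finset.sum_nonneg fun j _ => mul_self_nonneg _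
    rcases h3.lt_or_eq with h4 | h4
    · linarith
    · exfalso
      have h5 : ∀ j, (∑ i, x i * (Bas i j : ℝ)) = 0 := by
        intro j
        have := (Finset.sum_eq_zero_iff_of_nonneg (fun j _ => mul_self_nonneg
          (∑ i, x i * (Bas i j : ℝ)))).mp h4.symm j (Finset.mem_univ j)
        exact mul_self_eq_zero.mp this
      have h6 : ∀ y, bL Lam y x = 0 := by
        intro y
        have := h1 y x
        simp only [h5, mul_zero, Finset.sum_const_zero] at this
        linarith
      apply hx
      have h7 : (Lam.map (Int.cast : ℤ → ℝ)).mulVec x = 0 := by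
        ext i
        have := h6 (Pi.single i 1)
        simpa [bL, Pi.single_apply, Finset.sum_ite_eq, Matrix.mulVec, dotProduct] using this
      have h8 : (LamInv.map (Int.cast : ℤ → ℝ)) * (Lam.map (Int.cast : ℤ → ℝ)) = 1 := by
        have := congrArg (fun M : Matrix (Fin 24) (Fin 24) ℤ => M.map (Int.castRingHom ℝ)) inv_lam
        simp only [Matrix.map_mul] at this
        rw [Matrix.map_one _ (map_zero _) (map_one _)] at this
        exact this
      have h9 : ((LamInv.map (Int.cast : ℤ → ℝ)) * (Lam.map (Int.cast : ℤ → ℝ))).mulVec x = 0 := by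
        rw [← Matrix.mulVec_mulVec, h7, Matrix.mulVec_zero]
      rw [h8, Matrix.one_mulVec] at h9
      exact h9

theorem lam_det : Lam.det = 1 := by
  have h1 : IsUnit Lam.det := by
    have := congrArg Matrix.det lam_inv
    rw [Matrix.det_mul, Matrix.det_one] at this
    exact IsUnit.of_mul_eq_one _ this
  have h2 : (0 : ℤ) ≤ 8 ^ 24 * Lam.det := by
    have := congrArg Matrix.det bas_mul
    rw [Matrix.det_mul, Matrix.det_transpose, Matrix.det_smul, Fintype.card_fin] at this
    rw [← this]
    exact mul_self_nonneg _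
  rcases Int.isUnit_iff.mp h1 with h | h
  · exact h
  · rw [h] at h2
    norm_num at h2

theorem dvd_av {m : ℤ} (c : Fin 24 → ℤ) (h : ∀ i, m ∣ ∑ j, c j * Bas i j) (x : Fin 24 → ℤ) :
    m ∣ ∑ j, c j * av x j := by
  have h1 : ∑ j, c j * av x j = ∑ i, x i * ∑ j, c j * Bas i j := by
    simp only [av, Finset.mul_sum]
    rw [Finset.sum_comm]
    exact Finset.sum_congr rfl fun i _ => Finset.sum_congr rfl fun j _ => by ring
  rw [h1]
  exact Finset.dvd_sum fun i _ => Dvd.dvd.mul_left (h i) _

theorem av_parity (x : Fin 24 → ℤ) (j : Fin 24) : (2 : ℤ) ∣ av x j - av x 0 := by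
  have h := dvd_av (m := 2) (fun k => (if k = j then 1 else 0) - (if k = 0 then 1 else 0)) ?_ x
  · simpa [sub_mul, Finset.sum_sub_distrib] using h
  · intro i
    have := chk_par i i.2 j j.2
    simp only [sub_mul, ite_mul, one_mul, zero_mul, Finset.sum_sub_distrib, Finset.sum_ite_eq',
      Finset.mem_univ, if_true]
    exact Int.dvd_of_emod_eq_zero this

theorem av_sum (x : Fin 24 → ℤ) : (8 : ℤ) ∣ (∑ j, av x j) - 4 * av x 0 := by
  have h := dvd_av (m := 8) (fun k => 1 - 4 * (if k = 0 then 1 else 0)) ?_ x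
  · simpa [sub_mul, Finset.sum_sub_distrib, mul_assoc, ← Finset.mul_sum] using h
  · intro i
    have := chk_sum i i.2
    rw [sumTo_eq] at this
    simp only [sub_mul, mul_assoc, ite_mul, one_mul, zero_mul, Finset.sum_sub_distrib,
      ← Finset.mul_sum, Finset.sum_ite_eq', Finset.mem_univ, if_true]
    exact Int.dvd_of_emod_eq_zero this

theorem av_gol (x : Fin 24 → ℤ) {g : ℕ} (hg : g < 12) :
    (4 : ℤ) ∣ ∑ j : Fin 24, ent golRows g j * av x j := by
  refine dvd_av (m := 4) (fun k => ent golRows g k) ?_ x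
  intro i
  have := chk_gol g hg i i.2
  rw [sumTo_eq] at this
  exact Int.dvd_of_emod_eq_zero this

theorem odd_sq {a : ℤ} (h : a % 2 = 1) : ∃ m, a ^ 2 = 4 * m + 1 := by
  obtain ⟨k, hk⟩ : ∃ k, a = 2 * k + 1 := ⟨a / 2, by omega⟩
  exact ⟨k ^ 2 + k, by rw [hk]; ring⟩

theorem even_sq {a : ℤ} (h : a % 2 = 0) : ∃ m, a ^ 2 = 4 * m := by
  obtain ⟨k, hk⟩ : ∃ k, a = 2 * k := ⟨a / 2, by omega⟩
  exact ⟨k ^ 2, by rw [hk]; ring⟩

theorem one_le_sq_of_odd {a : ℤ} (h : a % 2 = 1) : 1 ≤ a ^ 2 := by
  have h0 : a ≠ 0 := by rintro rfl; simp at h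
  have : 0 < a ^ 2 := by positivity
  omega

theorem lam_noRoot (x : Fin 24 → ℤ) : bL Lam x x ≠ 2 := by
  intro hx
  have hsq : ∑ j, av x j ^ 2 = 16 := by
    have := av_inner x x
    rw [hx] at this
    simp only [sq]
    linarith
  rcases Int.emod_two_eq_zero_or_one (av x 0) with h0 | h0
  swap
  · have h1 : ∀ j, 1 ≤ av x j ^ 2 := by
      intro j
      apply one_le_sq_of_odd
      have := av_parity x j
      omega
    have h2 : ∑ j : Fin 24, (1 : ℤ) ≤ ∑ j, av x j ^ 2 := Finset.sum_le_sum fun j _ => h1 j
    rw [hsq] at h2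
    simp at h2
  · have h1 : ∀ j, ∃ b, av x j = 2 * b := by
      intro j
      have := av_parity x j
      exact ⟨av x j / 2, by omega⟩
    choose b hb using h1
    have hb4 : ∑ j, b j ^ 2 = 4 := by
      have h2 : ∑ j, av x j ^ 2 = 4 * ∑ j, b j ^ 2 := by
        rw [Finset.mul_sum]
        exact Finset.sum_congr rfl fun j _ => by rw [hb]; ring
      linarith
    have hgol : ∀ g < 12, (2 : ℤ) ∣ ∑ j : Fin 24, ent golRows g j * b j := by
      intro g hg
      have h2 := av_gol x hg
      have h3 : ∑ j : Fin 24, ent golRows g j * av x j =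
          2 * ∑ j : Fin 24, ent golRows g j * b j := by
        rw [Finset.mul_sum]
        exact Finset.sum_congr rfl fun j _ => by rw [hb]; ring
      rw [h3] at h2
      omega
    set T : Finset (Fin 24) := Finset.univ.filter fun j => b j % 2 = 1 with hT
    -- the number of odd entries
    have hcard : (T.card : ℤ) ≤ 4 ∧ (4 : ℤ) ∣ T.card := by
      have h2 : ∑ j, b j ^ 2 = ∑ j ∈ T, b j ^ 2 + ∑ j ∈ Tᶜ, b j ^ 2 :=
        (Finset.sum_add_sum_compl T _).symm
      constructor
      · have h3 : ∑ j ∈ T, (1 : ℤ) ≤ ∑ j ∈ T, b j ^ 2 := by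
          refine Finset.sum_le_sum fun j hj => one_le_sq_of_odd ?_
          exact (Finset.mem_filter.mp hj).2
        have h4 : 0 ≤ ∑ j ∈ Tᶜ, b j ^ 2 := Finset.sum_nonneg fun j _ => sq_nonneg _
        simp only [Finset.sum_const, mul_one, nsmul_eq_mul] at h3
        linarith
      · have h3 : (4 : ℤ) ∣ ∑ j ∈ T, (b j ^ 2 - 1) := by
          refine Finset.dvd_sum fun j hj => ?_
          obtain ⟨m, hm⟩ := odd_sq (Finset.mem_filter.mp hj).2
          exact ⟨m, by linarith⟩
        have h4 : (4 : ℤ) ∣ ∑ j ∈ Tᶜ, b j ^ 2 := by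
          refine Finset.dvd_sum fun j hj => ?_
          have h5 : b j % 2 = 0 := by
            have : ¬ (b j % 2 = 1) := by
              intro h
              exact (Finset.mem_compl.mp hj) (Finset.mem_filter.mpr ⟨Finset.mem_univ _, h⟩)
            omega
          obtain ⟨m, hm⟩ := even_sq h5
          exact ⟨m, by linarith⟩
        rw [Finset.sum_sub_distrib] at h3
        simp only [Finset.sum_const, nsmul_eq_mul, mul_one] at h3
        omega
    have hcard' : T.card = 0 ∨ T.card = 4 := by omega
    rcases hcard' with hc | hc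
    · -- all entries even
      have hTe : T = ∅ := Finset.card_eq_zero.mp hc
      have h2 : ∀ j, ∃ c, b j = 2 * c := by
        intro j
        have : ¬ (b j % 2 = 1) := by
          intro h
          have : j ∈ T := Finset.mem_filter.mpr ⟨Finset.mem_univ _, h⟩
          rw [hTe] at this
          exact absurd this (Finset.notMem_empty j)
        exact ⟨b j / 2, by omega⟩
      choose c hc' using h2
      have h3 : ∑ j, c j ^ 2 = 1 := by
        have h4 : ∑ j, b j ^ 2 = 4 * ∑ j, c j ^ 2 := by
          rw [Finset.mul_sum]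
          exact Finset.sum_congr rfl fun j _ => by rw [hc']; ring
        linarith
      have h4 : (2 : ℤ) ∣ ∑ j, (c j ^ 2 - c j) := by
        refine Finset.dvd_sum fun j _ => ?_
        have h5 : c j ^ 2 - c j = c j * (c j - 1) := by ring
        rw [h5]
        exact (Int.even_mul_pred_self (c j)).two_dvd
      rw [Finset.sum_sub_distrib, h3] at h4
      have h5 : ∑ j, av x j = 4 * ∑ j, c j := by
        rw [Finset.mul_sum]
        exact Finset.sum_congr rfl fun j _ => by rw [hb, hc']; ring
      have h6 := av_sum x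
      rw [h5, hb 0] at h6
      have h7 := hc' 0
      omega
    · -- four odd entries
      let e := T.orderEmbOfFin hc
      have himg : Finset.image e Finset.univ = T := by
        ext j
        rw [Finset.mem_image]
        constructor
        · rintro ⟨i, -, rfl⟩
          exact T.orderEmbOfFin_mem hc i
        · intro hj
          have : j ∈ Set.range e := by
            rw [Finset.range_orderEmbOfFin]
            exact hj
          obtain ⟨i, hi⟩ := this
          exact ⟨i, Finset.mem_univ _, hi⟩
      have h01 : e 0 < e 1 := e.strictMono (by decide)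
      have h12 : e 1 < e 2 := e.strictMono (by decide)
      have h23 : e 2 < e 3 := e.strictMono (by decide)
      obtain ⟨g, hg, hg'⟩ := chk_quad (e 3) (e 3).2 (e 2) h23 (e 1) h12 (e 0) h01
      have h2 := hgol g hg
      have h3 : (2 : ℤ) ∣ ∑ j : Fin 24, ent golRows g j * b j -
          ∑ j ∈ T, ent golRows g j := by
        rw [← Finset.sum_add_sum_compl T (fun j : Fin 24 => ent golRows g j * b j)]
        have h4 : ∑ j ∈ T, ent golRows g j * b j + ∑ j ∈ Tᶜ, ent golRows g j * b j -
            ∑ j ∈ T, ent golRows g j =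
            ∑ j ∈ T, ent golRows g j * (b j - 1) + ∑ j ∈ Tᶜ, ent golRows g j * b j := by
          simp only [mul_sub, mul_one, Finset.sum_sub_distrib]
          ring
        rw [h4]
        refine dvd_add (Finset.dvd_sum fun j hj => ?_) (Finset.dvd_sum fun j hj => ?_)
        · refine Dvd.dvd.mul_left ?_ _
          have := (Finset.mem_filter.mp hj).2
          omega
        · refine Dvd.dvd.mul_left ?_ _
          have : ¬ (b j % 2 = 1) := by
            intro h
            exact (Finset.mem_compl.mp hj) (Finset.mem_filter.mpr ⟨Finset.mem_univ _, h⟩)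
          omega
      have h5 : ∑ j ∈ T, ent golRows g j =
          ent golRows g (e 0) + ent golRows g (e 1) + ent golRows g (e 2) + ent golRows g (e 3) := by
        rw [← himg, Finset.sum_image (fun a _ b _ h => e.injective h), Fin.sum_univ_four]
      rw [h5] at h3
      omega

theorem isLeech_lam : IsLeech Lam := ⟨lam_evenPosDef, lam_det, lam_noRoot⟩

/-- Vectors having integral products with the basis belong to the lattice. -/
theorem leech_surj (a : Fin 24 → ℤ) (h : ∀ i, (8 : ℤ) ∣ ∑ j, a j * Bas i j) :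
    ∃ x, av x = a := by
  choose m hm using h
  -- `x = m * LamInv`
  refine ⟨LamInv.mulVec m, ?_⟩
  set x := LamInv.mulVec m with hx
  have h1 : Lam.mulVec x = m := by
    rw [hx, Matrix.mulVec_mulVec, lam_inv, Matrix.one_mulVec]
  -- the difference is orthogonal to all rows of `Bas`
  have h2 : ∀ i, ∑ j, (av x j - a j) * Bas i j = 0 := by
    intro i
    have h3 := av_inner (Pi.single i 1) x
    have h4 : ∀ j, av (Pi.single i 1) j = Bas i j := by
      intro j
      simp [av, Pi.single_apply]
    have h5 : bL Lam (Pi.single i 1) x = m i := by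
      have h6 : bL Lam (Pi.single i 1) x = ∑ j, Lam i j * x j := by
        simp [bL, Pi.single_apply]
      rw [h6, ← h1]
      rfl
    simp only [h4] at h3
    rw [h5] at h3
    simp only [sub_mul, Finset.sum_sub_distrib, hm i]
    rw [← h3]
    rw [sub_eq_zero]
    exact Finset.sum_congr rfl fun j _ => mul_comm _ _
  -- hence it is zero
  have h3 : (Bas.mulVec (av x - a)) = 0 := by
    ext i
    have := h2 i
    simp only [Matrix.mulVec, dotProduct, Pi.sub_apply, Pi.zero_apply]
    rw [← this]
    exact Finset.sum_congr rfl fun j _ => mul_comm _ _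
  have hdet : Bas.det ≠ 0 := by
    intro h0
    have := congrArg Matrix.det bas_mul
    rw [Matrix.det_mul, Matrix.det_transpose, Matrix.det_smul, Fintype.card_fin, lam_det, h0] at this
    norm_num at this
  have h4 := Matrix.eq_zero_of_mulVec_eq_zero hdet h3
  exact sub_eq_zero.mp h4

end Pool.Agent.Work.MP_ccc26a_nt
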