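import Pool.Agent.Work.MP_ccc26a_nt.Cover

set_option autoImplicit false
set_option maxRecDepth 100000

namespace Pool.Agent.Work.MP_ccc26a_nt

/-- Rows of a basis of the Leech lattice in standard coordinates (scaled by `√8`). -/
def basRows : List (List ℤ) :=
  [[8, 0, 0, 0, 0, 0, 0, 0, 0, 0, 0, 0, 0, 0, 0, 0, 0, 0, 0, 0, 0, 0, 0, 0],
   [-4, 4, 0, 0, 0, 0, 0, 0, 0, 0, 0, 0, 0, 0, 0, 0, 0, 0, 0, 0, 0, 0, 0, 0],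
   [-4, 0, 4, 0, 0, 0, 0, 0, 0, 0, 0, 0, 0, 0, 0, 0, 0, 0, 0, 0, 0, 0, 0, 0],
   [-4, 0, 0, 4, 0, 0, 0, 0, 0, 0, 0, 0, 0, 0, 0, 0, 0, 0, 0, 0, 0, 0, 0, 0],
   [-4, 0, 0, 0, 4, 0, 0, 0, 0, 0, 0, 0, 0, 0, 0, 0, 0, 0, 0, 0, 0, 0, 0, 0],
   [-4, 0, 0, 0, 0, 4, 0, 0, 0, 0, 0, 0, 0, 0, 0, 0, 0, 0, 0, 0, 0, 0, 0, 0],
   [-4, 0, 0, 0, 0, 0, 4, 0, 0, 0, 0, 0, 0, 0, 0, 0, 0, 0, 0, 0, 0, 0, 0, 0],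
   [-4, 0, 0, 0, 0, 0, 0, 4, 0, 0, 0, 0, 0, 0, 0, 0, 0, 0, 0, 0, 0, 0, 0, 0],
   [-4, 0, 0, 0, 0, 0, 0, 0, 4, 0, 0, 0, 0, 0, 0, 0, 0, 0, 0, 0, 0, 0, 0, 0],
   [-4, 0, 0, 0, 0, 0, 0, 0, 0, 4, 0, 0, 0, 0, 0, 0, 0, 0, 0, 0, 0, 0, 0, 0],
   [-4, 0, 0, 0, 0, 0, 0, 0, 0, 0, 4, 0, 0, 0, 0, 0, 0, 0, 0, 0, 0, 0, 0, 0],
   [-4, 0, 0, 0, 0, 0, 0, 0, 0, 0, 0, 4, 0, 0, 0, 0, 0, 0, 0, 0, 0, 0, 0, 0],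
   [-4, -2, -2, -2, -2, -2, -2, -2, -2, -2, -2, -2, 2, 0, 0, 0, 0, 0, 0, 0, 0, 0, 0, 0],
   [2, -2, 0, -2, 0, 0, 0, -2, -2, -2, 0, -2, 0, 2, 0, 0, 0, 0, 0, 0, 0, 0, 0, 0],
   [2, 0, -2, 0, 0, 0, -2, -2, -2, 0, -2, -2, 0, 0, 2, 0, 0, 0, 0, 0, 0, 0, 0, 0],
   [2, -2, 0, 0, 0, -2, -2, -2, 0, -2, -2, 0, 0, 0, 0, 2, 0, 0, 0, 0, 0, 0, 0, 0],
   [2, 0, 0, 0, -2, -2, -2, 0, -2, -2, 0, -2, 0, 0, 0, 0, 2, 0, 0, 0, 0, 0, 0, 0],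
   [2, 0, 0, -2, -2, -2, 0, -2, -2, 0, -2, 0, 0, 0, 0, 0, 0, 2, 0, 0, 0, 0, 0, 0],
   [2, 0, -2, -2, -2, 0, -2, -2, 0, -2, 0, 0, 0, 0, 0, 0, 0, 0, 2, 0, 0, 0, 0, 0],
   [2, -2, -2, -2, 0, -2, -2, 0, -2, 0, 0, 0, 0, 0, 0, 0, 0, 0, 0, 2, 0, 0, 0, 0],
   [2, -2, -2, 0, -2, -2, 0, -2, 0, 0, 0, -2, 0, 0, 0, 0, 0, 0, 0, 0, 2, 0, 0, 0],
   [2, -2, 0, -2, -2, 0, -2, 0, 0, 0, -2, -2, 0, 0, 0, 0, 0, 0, 0, 0, 0, 2, 0, 0],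
   [2, 0, -2, -2, 0, -2, 0, 0, 0, -2, -2, -2, 0, 0, 0, 0, 0, 0, 0, 0, 0, 0, 2, 0],
   [-3, 1, 1, -1, 1, -1, -1, -1, 1, 1, 1, -1, -1, -1, -1, -1, -1, -1, -1, -1, -1, -1, -1, 1]]

/-- Rows of the Gram matrix. -/
def lamRows : List (List ℤ) :=
  [[8, -4, -4, -4, -4, -4, -4, -4, -4, -4, -4, -4, -4, 2, 2, 2, 2, 2, 2, 2, 2, 2, 2, -3],
   [-4, 4, 2, 2, 2, 2, 2, 2, 2, 2, 2, 2, 1, -2, -1, -2, -1, -1, -1, -2, -2, -2, -1, 2],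
   [-4, 2, 4, 2, 2, 2, 2, 2, 2, 2, 2, 2, 1, -1, -2, -1, -1, -1, -2, -2, -2, -1, -2, 2],
   [-4, 2, 2, 4, 2, 2, 2, 2, 2, 2, 2, 2, 1, -2, -1, -1, -1, -2, -2, -2, -1, -2, -2, 1],
   [-4, 2, 2, 2, 4, 2, 2, 2, 2, 2, 2, 2, 1, -1, -1, -1, -2, -2, -2, -1, -2, -2, -1, 2],
   [-4, 2, 2, 2, 2, 4, 2, 2, 2, 2, 2, 2, 1, -1, -1, -2, -2, -2, -1, -2, -2, -1, -2, 1],
   [-4, 2, 2, 2, 2, 2, 4, 2, 2, 2, 2, 2, 1, -1, -2, -2, -2, -1, -2, -2, -1, -2, -1, 1],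
   [-4, 2, 2, 2, 2, 2, 2, 4, 2, 2, 2, 2, 1, -2, -2, -2, -1, -2, -2, -1, -2, -1, -1, 1],
   [-4, 2, 2, 2, 2, 2, 2, 2, 4, 2, 2, 2, 1, -2, -2, -1, -2, -2, -1, -2, -1, -1, -1, 2],
   [-4, 2, 2, 2, 2, 2, 2, 2, 2, 4, 2, 2, 1, -2, -1, -2, -2, -1, -2, -1, -1, -1, -2, 2],
   [-4, 2, 2, 2, 2, 2, 2, 2, 2, 2, 4, 2, 1, -1, -2, -2, -1, -2, -1, -1, -1, -2, -2, 2],
   [-4, 2, 2, 2, 2, 2, 2, 2, 2, 2, 2, 4, 1, -2, -2, -1, -2, -1, -1, -1, -2, -2, -2, 1],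
   [-4, 1, 1, 1, 1, 1, 1, 1, 1, 1, 1, 1, 8, 2, 2, 2, 2, 2, 2, 2, 2, 2, 2, 1],
   [2, -2, -1, -2, -1, -1, -1, -2, -2, -2, -1, -2, 2, 4, 2, 2, 2, 2, 2, 2, 2, 2, 2, -1],
   [2, -1, -2, -1, -1, -1, -2, -2, -2, -1, -2, -2, 2, 2, 4, 2, 2, 2, 2, 2, 2, 2, 2, -1],
   [2, -2, -1, -1, -1, -2, -2, -2, -1, -2, -2, -1, 2, 2, 2, 4, 2, 2, 2, 2, 2, 2, 2, -1],
   [2, -1, -1, -1, -2, -2, -2, -1, -2, -2, -1, -2, 2, 2, 2, 2, 4, 2, 2, 2, 2, 2, 2, -1],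
   [2, -1, -1, -2, -2, -2, -1, -2, -2, -1, -2, -1, 2, 2, 2, 2, 2, 4, 2, 2, 2, 2, 2, -1],
   [2, -1, -2, -2, -2, -1, -2, -2, -1, -2, -1, -1, 2, 2, 2, 2, 2, 2, 4, 2, 2, 2, 2, -1],
   [2, -2, -2, -2, -1, -2, -2, -1, -2, -1, -1, -1, 2, 2, 2, 2, 2, 2, 2, 4, 2, 2, 2, -1],
   [2, -2, -2, -1, -2, -2, -1, -2, -1, -1, -1, -2, 2, 2, 2, 2, 2, 2, 2, 2, 4, 2, 2, -1],
   [2, -2, -1, -2, -2, -1, -2, -1, -1, -1, -2, -2, 2, 2, 2, 2, 2, 2, 2, 2, 2, 4, 2, -1],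
   [2, -1, -2, -2, -1, -2, -1, -1, -1, -2, -2, -2, 2, 2, 2, 2, 2, 2, 2, 2, 2, 2, 4, -1],
   [-3, 2, 2, 1, 2, 1, 1, 1, 2, 2, 2, 1, 1, -1, -1, -1, -1, -1, -1, -1, -1, -1, -1, 4]]

/-- Rows of the inverse of the Gram matrix. -/
def invRows : List (List ℤ) :=
  [[582, 91, 91, 141, 91, 141, 141, 141, 91, 91, 91, 141, 39, 35, 35, 35, 35, 35, 35, 35, 35, 35, 35, 65],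
   [91, 16, 14, 22, 14, 22, 22, 22, 14, 14, 14, 22, 6, 6, 5, 6, 5, 5, 5, 6, 6, 6, 5, 10],
   [91, 14, 16, 22, 14, 22, 22, 22, 14, 14, 14, 22, 6, 5, 6, 5, 5, 5, 6, 6, 6, 5, 6, 10],
   [141, 22, 22, 36, 22, 34, 34, 34, 22, 22, 22, 34, 9, 9, 8, 8, 8, 9, 9, 9, 8, 9, 9, 16],
   [91, 14, 14, 22, 16, 22, 22, 22, 14, 14, 14, 22, 6, 5, 5, 5, 6, 6, 6, 5, 6, 6, 5, 10],
   [141, 22, 22, 34, 22, 36, 34, 34, 22, 22, 22, 34, 9, 8, 8, 9, 9, 9, 8, 9, 9, 8, 9, 16],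
   [141, 22, 22, 34, 22, 34, 36, 34, 22, 22, 22, 34, 9, 8, 9, 9, 9, 8, 9, 9, 8, 9, 8, 16],
   [141, 22, 22, 34, 22, 34, 34, 36, 22, 22, 22, 34, 9, 9, 9, 9, 8, 9, 9, 8, 9, 8, 8, 16],
   [91, 14, 14, 22, 14, 22, 22, 22, 16, 14, 14, 22, 6, 6, 6, 5, 6, 6, 5, 6, 5, 5, 5, 10],
   [91, 14, 14, 22, 14, 22, 22, 22, 14, 16, 14, 22, 6, 6, 5, 6, 6, 5, 6, 5, 5, 5, 6, 10],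
   [91, 14, 14, 22, 14, 22, 22, 22, 14, 14, 16, 22, 6, 5, 6, 6, 5, 6, 5, 5, 5, 6, 6, 10],
   [141, 22, 22, 34, 22, 34, 34, 34, 22, 22, 22, 36, 9, 9, 9, 8, 9, 8, 8, 8, 9, 9, 9, 16],
   [39, 6, 6, 9, 6, 9, 9, 9, 6, 6, 6, 9, 4, 2, 2, 2, 2, 2, 2, 2, 2, 2, 2, 4],
   [35, 6, 5, 9, 5, 8, 8, 9, 6, 6, 5, 9, 2, 4, 2, 2, 2, 2, 2, 2, 2, 2, 2, 4],
   [35, 5, 6, 8, 5, 8, 9, 9, 6, 5, 6, 9, 2, 2, 4, 2, 2, 2, 2, 2, 2, 2, 2, 4],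
   [35, 6, 5, 8, 5, 9, 9, 9, 5, 6, 6, 8, 2, 2, 2, 4, 2, 2, 2, 2, 2, 2, 2, 4],
   [35, 5, 5, 8, 6, 9, 9, 8, 6, 6, 5, 9, 2, 2, 2, 2, 4, 2, 2, 2, 2, 2, 2, 4],
   [35, 5, 5, 9, 6, 9, 8, 9, 6, 5, 6, 8, 2, 2, 2, 2, 2, 4, 2, 2, 2, 2, 2, 4],
   [35, 5, 6, 9, 6, 8, 9, 9, 5, 6, 5, 8, 2, 2, 2, 2, 2, 2, 4, 2, 2, 2, 2, 4],
   [35, 6, 6, 9, 5, 9, 9, 8, 6, 5, 5, 8, 2, 2, 2, 2, 2, 2, 2, 4, 2, 2, 2, 4],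
   [35, 6, 6, 8, 6, 9, 8, 9, 5, 5, 5, 9, 2, 2, 2, 2, 2, 2, 2, 2, 4, 2, 2, 4],
   [35, 6, 5, 9, 6, 8, 9, 8, 5, 5, 6, 9, 2, 2, 2, 2, 2, 2, 2, 2, 2, 4, 2, 4],
   [35, 5, 6, 9, 5, 9, 8, 8, 5, 6, 6, 9, 2, 2, 2, 2, 2, 2, 2, 2, 2, 2, 4, 4],
   [65, 10, 10, 16, 10, 16, 16, 16, 10, 10, 10, 16, 4, 4, 4, 4, 4, 4, 4, 4, 4, 4, 4, 8]]

/-- Generators of the Golay code. -/
def golRows : List (List ℤ) :=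
  [[1, 0, 0, 0, 0, 0, 0, 0, 0, 0, 0, 0, 0, 1, 1, 1, 1, 1, 1, 1, 1, 1, 1, 1],
   [0, 1, 0, 0, 0, 0, 0, 0, 0, 0, 0, 0, 1, 1, 0, 1, 0, 0, 0, 1, 1, 1, 0, 1],
   [0, 0, 1, 0, 0, 0, 0, 0, 0, 0, 0, 0, 1, 0, 1, 0, 0, 0, 1, 1, 1, 0, 1, 1],
   [0, 0, 0, 1, 0, 0, 0, 0, 0, 0, 0, 0, 1, 1, 0, 0, 0, 1, 1, 1, 0, 1, 1, 0],
   [0, 0, 0, 0, 1, 0, 0, 0, 0, 0, 0, 0, 1, 0, 0, 0, 1, 1, 1, 0, 1, 1, 0, 1],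
   [0, 0, 0, 0, 0, 1, 0, 0, 0, 0, 0, 0, 1, 0, 0, 1, 1, 1, 0, 1, 1, 0, 1, 0],
   [0, 0, 0, 0, 0, 0, 1, 0, 0, 0, 0, 0, 1, 0, 1, 1, 1, 0, 1, 1, 0, 1, 0, 0],
   [0, 0, 0, 0, 0, 0, 0, 1, 0, 0, 0, 0, 1, 1, 1, 1, 0, 1, 1, 0, 1, 0, 0, 0],
   [0, 0, 0, 0, 0, 0, 0, 0, 1, 0, 0, 0, 1, 1, 1, 0, 1, 1, 0, 1, 0, 0, 0, 1],
   [0, 0, 0, 0, 0, 0, 0, 0, 0, 1, 0, 0, 1, 1, 0, 1, 1, 0, 1, 0, 0, 0, 1, 1],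
   [0, 0, 0, 0, 0, 0, 0, 0, 0, 0, 1, 0, 1, 0, 1, 1, 0, 1, 0, 0, 0, 1, 1, 1],
   [0, 0, 0, 0, 0, 0, 0, 0, 0, 0, 0, 1, 1, 1, 1, 0, 1, 0, 0, 0, 1, 1, 1, 0]]

/-- Entry of a list of rows. -/
def ent (l : List (List ℤ)) (i j : ℕ) : ℤ := (l.getD i []).getD j 0

/-- Sum of the first `n` values. -/
def sumTo (f : ℕ → ℤ) : ℕ → ℤ
  | 0 => 0
  | n + 1 => sumTo f n + f n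

theorem sumTo_eq (f : ℕ → ℤ) (n : ℕ) : sumTo f n = ∑ i : Fin n, f i := by
  induction n with
  | zero => simp [sumTo]
  | succ n ih => rw [sumTo, ih, Fin.sum_univ_castSucc]; simp

theorem chk_gram : ∀ i < 24, ∀ j < 24,
    sumTo (fun k => ent basRows i k * ent basRows j k) 24 = 8 * ent lamRows i j := by
  decide +kernel

theorem chk_inv : ∀ i < 24, ∀ j < 24,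
    sumTo (fun k => ent lamRows i k * ent invRows k j) 24 = if i = j then 1 else 0 := by
  decide +kernel

theorem chk_par : ∀ i < 24, ∀ j < 24, (ent basRows i j - ent basRows i 0) % 2 = 0 := by
  decide +kernel

theorem chk_sum : ∀ i < 24, (sumTo (fun j => ent basRows i j) 24 - 4 * ent basRows i 0) % 8 = 0 := by
  decide +kernel

theorem chk_gol : ∀ g < 12, ∀ i < 24,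
    (sumTo (fun j => ent golRows g j * ent basRows i j) 24) % 4 = 0 := by
  decide +kernel

theorem chk_diag : ∀ i < 24, (ent lamRows i i) % 2 = 0 := by
  decide +kernel

end Pool.Agent.Work.MP_ccc26a_nt
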