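import Pool.Agent.Work.MP_ccc26a_nt.LeechData

set_option autoImplicit false
set_option maxRecDepth 100000

namespace Pool.Agent.Work.MP_ccc26a_nt

/-- No four columns of the generator matrix sum to zero modulo `2`. -/
theorem chk_quad : ∀ l < 24, ∀ k < l, ∀ j < k, ∀ i < j, ∃ g < 12,
    (ent golRows g i + ent golRows g j + ent golRows g k + ent golRows g l) % 2 = 1 := by
  decide +kernel

end Pool.Agent.Work.MP_ccc26a_nt
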