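import Pool.Agent.Work.MP_ccc26a_nt.Weyl

set_option autoImplicit false

namespace Pool.Agent.Work.MP_ccc26a_nt

open Filter Topology Set

variable {r : ℕ} {G : Matrix (Fin r) (Fin r) ℤ}

/-- The complex vector `X + iY`. -/
def cplx (p : NVec ℝ r × NVec ℝ r) : NVec ℂ r :=
  ((p.1.1 : ℂ) + p.2.1 * Complex.I, (fun i => (p.1.2.1 i : ℂ) + p.2.2.1 i * Complex.I),
    (p.1.2.2 : ℂ) + p.2.2.2 * Complex.I)

/-- Real vectors as complex vectors. -/
def rc (x : NVec ℝ r) : NVec ℂ r := mapN Complex.ofRealHom x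

theorem bN_rc (x y : NVec ℝ r) : bN G (rc x) (rc y) = ((bN G x y : ℝ) : ℂ) :=
  bN_map G Complex.ofRealHom x y

theorem cplx_eq (p : NVec ℝ r × NVec ℝ r) : cplx p = rc p.1 + Complex.I • rc p.2 := by
  ext <;> simp [cplx, rc, mapN, mul_comm]

/-- Integral vectors as complex vectors. -/
def toCN (x : NVec ℤ r) : NVec ℂ r := mapN (Int.castRingHom ℂ) x

theorem toCN_eq (x : NVec ℤ r) : toCN x = rc (toR x) := by
  ext <;> simp [toCN, rc, toR, mapN]

theorem toC_eq (v : MVec ℤ r) : toC v = ((v.1 : ℂ), toCN v.2.1, (v.2.2 : ℂ)) := rfl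

theorem bN_toCN (x y : NVec ℤ r) : bN G (toCN x) (toCN y) = ((bN G x y : ℤ) : ℂ) :=
  bN_map G (Int.castRingHom ℂ) x y

theorem bM_toC (v w : MVec ℤ r) : bM G (toC v) (toC w) = ((bM G v w : ℤ) : ℂ) := by
  simp only [toC_eq, bM, bN_toCN]
  push_cast; ring

theorem bN_toCN_cplx (x : NVec ℤ r) (p : NVec ℝ r × NVec ℝ r) :
    bN G (toCN x) (cplx p) = (bN G (toR x) p.1 : ℝ) + (bN G (toR x) p.2 : ℝ) * Complex.I := by
  rw [cplx_eq, toCN_eq, bN_add_right, bN_smul_right, bN_rc, bN_rc]; ring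

theorem bN_cplx_cplx (hG : G.IsSymm) (p : NVec ℝ r × NVec ℝ r) :
    bN G (cplx p) (cplx p) =
      ((bN G p.1 p.1 - bN G p.2 p.2 : ℝ) : ℂ) + ((2 * bN G p.1 p.2 : ℝ) : ℂ) * Complex.I := by
  rw [cplx_eq, bN_add_right, bN_smul_right, bN_add_left, bN_add_left, bN_smul_left, bN_smul_left,
    bN_rc, bN_rc, bN_rc, bN_rc, bN_comm hG p.2 p.1]
  have := Complex.I_mul_I
  push_cast
  linear_combination (((bN G p.2 p.2 : ℝ) : ℂ)) * this

/-- The point `(ε, Z, -ε (Z, Z) / 2)` of the period cone. -/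
noncomputable def zc (G : Matrix (Fin r) (Fin r) ℤ) (ε : ℤ) (p : NVec ℝ r × NVec ℝ r) :
    MVec ℂ r :=
  ((ε : ℂ), cplx p, -(ε : ℂ) * bN G (cplx p) (cplx p) / 2)

/-- The component with sign `ε`. -/
def comp (G : Matrix (Fin r) (Fin r) ℤ) (ε : ℤ) : Set (MVec ℂ r) :=
  {w | w ∈ periodCone G ∧ 0 < ε * (w.2.1.2.2 * (starRingEnd ℂ) w.1).im}

theorem sq_eps {ε : ℤ} (hε : ε = 1 ∨ ε = -1) : ε * ε = 1 := by
  rcases hε with rfl | rfl <;> norm_num

theorem sq_epsC {ε : ℤ} (hε : ε = 1 ∨ ε = -1) : (ε : ℂ) * ε = 1 := by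
  exact_mod_cast sq_eps hε

theorem sq_epsR {ε : ℤ} (hε : ε = 1 ∨ ε = -1) : (ε : ℝ) * ε = 1 := by
  exact_mod_cast sq_eps hε

theorem bM_zc {ε : ℤ} (hε : ε = 1 ∨ ε = -1) (p : NVec ℝ r × NVec ℝ r) :
    bM G (zc G ε p) (zc G ε p) = 0 := by
  simp only [zc, bM]
  linear_combination (-bN G (cplx p) (cplx p)) * sq_epsC hε

theorem conj_bL (x y : Fin r → ℂ) :
    bL G (fun i => (starRingEnd ℂ) (x i)) (fun i => (starRingEnd ℂ) (y i)) =
      (starRingEnd ℂ) (bL G x y) :=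
  bL_map G (starRingEnd ℂ) x y

/-- The real number `(w, conj w)`. -/
theorem bM_conj_zc (hG : G.IsSymm) {ε : ℤ} (hε : ε = 1 ∨ ε = -1) (p : NVec ℝ r × NVec ℝ r) :
    bM G (zc G ε p) (conjM (zc G ε p)) = ((2 * bN G p.2 p.2 : ℝ) : ℂ) := by
  have h1 : conjM (zc G ε p) =
      ((ε : ℂ), mapN (starRingEnd ℂ) (cplx p),
        (starRingEnd ℂ) (-(ε : ℂ) * bN G (cplx p) (cplx p) / 2)) := by
    simp [conjM, zc, mapN]
  have h2 : mapN (starRingEnd ℂ) (cplx p) = rc p.1 - Complex.I • rc p.2 := by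
    ext <;> simp [cplx, rc, mapN, mul_comm, sub_eq_add_neg]
  have h3 : bN G (cplx p) (mapN (starRingEnd ℂ) (cplx p)) =
      ((bN G p.1 p.1 + bN G p.2 p.2 : ℝ) : ℂ) := by
    rw [h2, cplx_eq, bN_sub_right, bN_smul_right, bN_add_left, bN_add_left, bN_smul_left,
      bN_smul_left, bN_rc, bN_rc, bN_rc, bN_rc, bN_comm hG p.2 p.1]
    have := Complex.I_mul_I
    push_cast
    linear_combination (-((bN G p.2 p.2 : ℝ) : ℂ)) * this
  rw [h1, zc, bM]
  simp only [h3]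
  rw [bN_cplx_cplx hG]
  simp only [map_div₀, map_mul, map_neg, map_add, Complex.conj_ofReal, Complex.conj_I,
    map_intCast, map_ofNat]
  push_cast
  linear_combination (-(((bN G p.1 p.1 : ℝ) : ℂ) - ((bN G p.2 p.2 : ℝ) : ℂ))) * sq_epsC hε

theorem zc_mem (hG : G.IsSymm) {ε : ℤ} (hε : ε = 1 ∨ ε = -1) {p : NVec ℝ r × NVec ℝ r}
    (hp : PosCone G p.2) : zc G ε p ∈ comp G ε := by
  refine ⟨⟨bM_zc hε p, ?_⟩, ?_⟩
  · rw [bM_conj_zc hG hε, Complex.ofReal_re]
    have := hp.1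
    linarith
  · have h1 : ((zc G ε p).2.1.2.2 * (starRingEnd ℂ) (zc G ε p).1).im = ε * p.2.2.2 := by
      simp [zc, cplx, mul_comm]
    rw [h1]
    have h2 := sq_epsR hε
    have h3 := hp.2
    have h4 : (ε : ℝ) * (ε * p.2.2.2) = p.2.2.2 := by rw [← mul_assoc, h2, one_mul]
    rw [h4]; exact h3

/-- No two timelike vectors are orthogonal. -/
theorem no_orth (hG : IsEvenPosDef G) {X Y : NVec ℝ r} (hX : 0 < bN G X X) (hY : 0 < bN G Y Y) :
    bN G X Y ≠ 0 := by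
  have key : ∀ Z : NVec ℝ r, 0 < bN G Z Z → ∃ s : ℝ, s ≠ 0 ∧ PosCone G (s • Z) := by
    intro Z hZ
    rcases lt_trichotomy Z.2.2 0 with h | h | h
    · refine ⟨-1, by norm_num, ?_, ?_⟩
      · rw [bN_smul_left, bN_smul_right]; linarith
      · simp; exact h
    · have := bN_self_nonpos hG Z h
      linarith
    · refine ⟨1, by norm_num, ?_, ?_⟩
      · rw [one_smul]; exact hZ
      · simpa using h
  obtain ⟨s, hs, hsX⟩ := key X hX
  obtain ⟨t, ht, htY⟩ := key Y hY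
  intro h0
  have := posCone_inner hG hsX htY
  rw [bN_smul_left, bN_smul_right, h0] at this
  simp at this

/-- Decompose a complex vector into real and imaginary part. -/
def reIm (x : NVec ℂ r) : NVec ℝ r × NVec ℝ r :=
  ((x.1.re, (fun i => (x.2.1 i).re), x.2.2.re), (x.1.im, (fun i => (x.2.1 i).im), x.2.2.im))

theorem cplx_reIm (x : NVec ℂ r) : cplx (reIm x) = x := by
  ext <;> simp [cplx, reIm]

theorem periodCone_fst_ne (hG : IsEvenPosDef G) {w : MVec ℂ r} (hw : w ∈ periodCone G) :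
    w.1 ≠ 0 := by
  intro h0
  obtain ⟨h1, h2⟩ := hw
  set p := reIm w.2.1 with hp
  have e1 : bN G (cplx p) (cplx p) = 0 := by
    simp only [bM, h0, zero_mul, mul_zero, zero_add] at h1
    rw [hp, cplx_reIm]; exact h1
  have e2 : bM G w (conjM w) = ((bN G p.1 p.1 + bN G p.2 p.2 : ℝ) : ℂ) := by
    have h3 : bM G w (conjM w) = bN G w.2.1 (mapN (starRingEnd ℂ) w.2.1) := by
      simp [bM, conjM, h0, mapN]
    rw [h3, ← cplx_reIm w.2.1, ← hp]
    have h4 : mapN (starRingEnd ℂ) (cplx p) = rc p.1 - Complex.I • rc p.2 := by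
      ext <;> simp [cplx, rc, mapN, mul_comm, sub_eq_add_neg]
    rw [h4, cplx_eq, bN_sub_right, bN_smul_right, bN_add_left, bN_add_left, bN_smul_left,
      bN_smul_left, bN_rc, bN_rc, bN_rc, bN_rc, bN_comm hG.symm p.2 p.1]
    have := Complex.I_mul_I
    push_cast
    linear_combination (-((bN G p.2 p.2 : ℝ) : ℂ)) * this
  rw [bN_cplx_cplx hG.symm] at e1
  have e3 := congrArg Complex.re e1
  have e4 := congrArg Complex.im e1
  simp at e3 e4
  rw [e2, Complex.ofReal_re] at h2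
  exact no_orth hG (X := p.1) (Y := p.2) (by linarith) (by linarith) e4

/-- Parametrisation of the components. -/
theorem exists_zc (hG : IsEvenPosDef G) {ε : ℤ} (hε : ε = 1 ∨ ε = -1) {w : MVec ℂ r}
    (hw : w ∈ comp G ε) : ∃ t : ℂ, t ≠ 0 ∧ ∃ p, PosCone G p.2 ∧ w = t • zc G ε p := by
  have ha := periodCone_fst_ne hG hw.1
  have hεC := sq_epsC hε
  have hε0 : (ε : ℂ) ≠ 0 := by
    intro h; rw [h] at hεC; simp at hεC
  set t : ℂ := ε * w.1 with ht
  have ht0 : t ≠ 0 := mul_ne_zero hε0 ha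
  set p := reIm (t⁻¹ • w.2.1) with hp
  have hcp : cplx p = t⁻¹ • w.2.1 := cplx_reIm _
  have hw1 : w.1 = t * ε := by rw [ht]; linear_combination (-w.1) * hεC
  have hweq : w = t • zc G ε p := by
    refine Prod.ext ?_ (Prod.ext ?_ ?_)
    · simp only [zc, Prod.smul_fst, smul_eq_mul]; exact hw1
    · simp only [zc, Prod.smul_fst, Prod.smul_snd, hcp, smul_smul, mul_inv_cancel₀ ht0, one_smul]
    · simp only [zc, Prod.smul_snd, smul_eq_mul, hcp, bN_smul_left, bN_smul_right]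
      have h1 := hw.1.1
      simp only [bM] at h1
      have h2 : bN G w.2.1 w.2.1 = -2 * (t * ε) * w.2.2 := by
        rw [← hw1]; linear_combination h1
      rw [h2]
      field_simp
      linear_combination (-w.2.2) * hεC
  refine ⟨t, ht0, p, ?_, hweq⟩
  have hnt : 0 < ‖t‖ ^ 2 := by positivity
  constructor
  · have h1 := hw.1.2
    have h2 : bM G w (conjM w) = (‖t‖ ^ 2 : ℝ) * ((2 * bN G p.2 p.2 : ℝ) : ℂ) := by
      have h3 : conjM w = (starRingEnd ℂ t) • conjM (zc G ε p) := by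
        conv_lhs => rw [hweq]
        ext <;> simp [conjM]
      rw [h3]
      conv_lhs => rw [hweq]
      rw [bM_smul_left, bM_smul_right, bM_conj_zc hG.symm hε, ← mul_assoc, Complex.mul_conj,
        Complex.normSq_eq_norm_sq]
    rw [h2, ← Complex.ofReal_mul, Complex.ofReal_re] at h1
    by_contra hc
    push Not at hc
    have := mul_nonpos_of_nonneg_of_nonpos hnt.le (show 2 * bN G p.2 p.2 ≤ 0 by linarith)
    linarith
  · have h1 := hw.2
    have h2 : w.2.1.2.2 * (starRingEnd ℂ) w.1 =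
        ((‖t‖ ^ 2 : ℝ) : ℂ) * (ε * ((p.1.2.2 : ℂ) + p.2.2.2 * Complex.I)) := by
      have h3 : w.1 = (t • zc G ε p).1 := by rw [← hweq]
      have h4 : w.2.1.2.2 = (t • zc G ε p).2.1.2.2 := by rw [← hweq]
      rw [h3, h4]
      simp only [zc, cplx, Prod.smul_fst, Prod.smul_snd, smul_eq_mul, map_mul, map_intCast]
      rw [← Complex.normSq_eq_norm_sq, ← Complex.mul_conj]
      ring
    have h3 : (w.2.1.2.2 * (starRingEnd ℂ) w.1).im = ‖t‖ ^ 2 * (ε * p.2.2.2) := by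
      rw [h2, Complex.im_ofReal_mul]
      simp
    rw [h3] at h1
    have h4 := sq_epsR hε
    have h5 : (ε : ℝ) * (‖t‖ ^ 2 * (ε * p.2.2.2)) = ‖t‖ ^ 2 * p.2.2.2 := by
      linear_combination (‖t‖ ^ 2 * p.2.2.2) * h4
    rw [h5] at h1
    by_contra hc
    push Not at hc
    have := mul_nonpos_of_nonneg_of_nonpos hnt.le hc
    linarith

end Pool.Agent.Work.MP_ccc26a_nt
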