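import Pool.Agent.Work.MP_ccc26a_nt.EvenCase
import Pool.Agent.Work.MP_ccc26a_nt.Code

set_option autoImplicit false

namespace Pool.Agent.Work.MP_ccc26a_nt

variable {r : ℕ}

/-- The binary code of the even vectors. -/
def codeOf (S : AddSubgroup (Fin r → ℤ)) : Submodule (ZMod 2) (Fin r → ZMod 2) :=
  AddSubgroup.toZModSubmodule 2
    { carrier := {c | ∃ b : Fin r → ℤ, (fun i => 2 * b i) ∈ S ∧ ∀ i, (b i : ZMod 2) = c i}
      zero_mem' := by
        refine ⟨0, ?_, fun i => by simp⟩
        have : (fun i : Fin r => 2 * (0 : Fin r → ℤ) i) = 0 := by ext i; simp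
        rw [this]
        exact S.zero_mem
      add_mem' := by
        rintro c c' ⟨b, hb, hbc⟩ ⟨b', hb', hbc'⟩
        refine ⟨b + b', ?_, fun i => ?_⟩
        · have : (fun i : Fin r => 2 * (b + b') i) = (fun i => 2 * b i) + fun i => 2 * b' i := by
            ext i; simp; ring
          rw [this]
          exact S.add_mem hb hb'
        · rw [Pi.add_apply, Int.cast_add, hbc, hbc']; rfl
      neg_mem' := by
        rintro c ⟨b, hb, hbc⟩
        refine ⟨-b, ?_, fun i => ?_⟩
        · have : (fun i : Fin r => 2 * (-b) i) = -(fun i => 2 * b i) := by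
            ext i; simp
          rw [this]
          exact S.neg_mem hb
        · rw [Pi.neg_apply, Int.cast_neg, hbc]; rfl }

theorem mem_codeOf {S : AddSubgroup (Fin r → ℤ)} {c : Fin r → ZMod 2} :
    c ∈ codeOf S ↔ ∃ b : Fin r → ℤ, (fun i => 2 * b i) ∈ S ∧ ∀ i, (b i : ZMod 2) = c i := Iff.rfl

theorem intCast_ne_zero_iff (b : ℤ) : (b : ZMod 2) ≠ 0 ↔ b % 2 = 1 := by
  rw [Ne, ZMod.intCast_zmod_eq_zero_iff_dvd b 2]
  omega

/-- The code is doubly even. -/
theorem FrameData.doubly_even {S : AddSubgroup (Fin r → ℤ)} (hS : FrameData S) :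
    ∀ c ∈ codeOf S, 4 ∣ hammingNorm c := by
  rintro c ⟨b, hb, hbc⟩
  have h1 := hS.int16 _ hb
  have h2 : ∑ i, (2 * b i) ^ 2 = 4 * ∑ i, b i ^ 2 := by
    rw [Finset.mul_sum]
    exact Finset.sum_congr rfl fun i _ => by ring
  rw [h2] at h1
  have h3 : (hammingNorm c : ℤ) = ∑ i, (if c i ≠ 0 then (1 : ℤ) else 0) := by
    rw [hammingNorm, Finset.card_filter]
    push_cast
    rfl
  have h4 : (4 : ℤ) ∣ ∑ i, (b i ^ 2 - if c i ≠ 0 then (1 : ℤ) else 0) := by
    refine Finset.dvd_sum fun i _ => ?_
    split_ifs with h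
    · rw [← hbc i, intCast_ne_zero_iff] at h
      obtain ⟨m, hm⟩ := odd_sq h
      exact ⟨m, by linarith⟩
    · rw [← hbc i, intCast_ne_zero_iff] at h
      obtain ⟨m, hm⟩ := even_sq (show b i % 2 = 0 by omega)
      exact ⟨m, by linarith⟩
  rw [Finset.sum_sub_distrib, ← h3] at h4
  omega

theorem sum_mod_two (n : ℕ) : ∑ i ∈ Finset.range n, ((i : ℤ) % 2) = (n : ℤ) / 2 := by
  induction n with
  | zero => simp
  | succ n ih =>
    rw [Finset.sum_range_succ, ih]
    push_cast
    omega

/-- Structure of the lattice in the odd case. -/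
theorem FrameData.odd_case {S : AddSubgroup (Fin r → ℤ)} (hS : FrameData S) (i0 : Fin r)
    {a0 : Fin r → ℤ} (ha0 : a0 ∈ S) (hodd : a0 i0 % 2 = 1) :
    r = 24 ∧ ∀ α : Fin r → ℤ, (∀ β ∈ S, (8 : ℤ) ∣ ∑ i, α i * β i) → α ∈ S := by
  have hodd' : ∀ i, a0 i % 2 = 1 := by
    intro i
    have := hS.par a0 ha0 i i0
    omega
  -- the rank is divisible by eight and at least 24
  have hr1 : 24 ≤ r ∧ 8 ∣ r := by
    set ρ : Fin r → ℤ := fun i => if a0 i % 4 = 1 then 1 else -1 with hρ
    have hρ2 : ∀ i, ρ i * ρ i = 1 := by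
      intro i
      simp only [hρ]
      split_ifs <;> norm_num
    have hx : ∀ i, ∃ x, a0 i = ρ i + 4 * x := by
      intro i
      have := hodd' i
      simp only [hρ]
      split_ifs with h
      · exact ⟨(a0 i - 1) / 4, by omega⟩
      · exact ⟨(a0 i + 1) / 4, by omega⟩
    choose x hx using hx
    have hρ0 : ρ i0 ≠ 0 := by
      intro h
      have := hρ2 i0
      rw [h] at this
      norm_num at this
    by_cases hpar : (2 : ℤ) ∣ ∑ i, x i
    · have h1 := S.sub_mem ha0 (hS.dn _ hpar)
      have h2 : (a0 - fun i => 4 * x i) = ρ := by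
        ext i; simp only [Pi.sub_apply]; rw [hx i]; ring
      rw [h2] at h1
      have h3 := hS.min _ h1 (fun h => hρ0 (congrFun h i0))
      have h4 := hS.int16 _ h1
      have h5 : ∑ i, ρ i ^ 2 = r := by
        have : ∀ i, ρ i ^ 2 = 1 := fun i => by rw [sq, hρ2]
        simp [this]
      rw [h5] at h3 h4
      omega
    · have hpar' : (2 : ℤ) ∣ ∑ i, (x i + if i = i0 then ρ i0 else 0) := by
        rw [Finset.sum_add_distrib, Finset.sum_ite_eq' Finset.univ i0]
        simp only [Finset.mem_univ, if_true]
        have : ρ i0 % 2 = 1 := by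
          simp only [hρ]
          split_ifs <;> norm_num
        omega
      have h1 := S.sub_mem ha0 (hS.dn _ hpar')
      have h2 : (a0 - fun i => 4 * (x i + if i = i0 then ρ i0 else 0)) =
          fun i => ρ i - 4 * (if i = i0 then ρ i0 else 0) := by
        ext i; simp only [Pi.sub_apply]; rw [hx i]; ring
      rw [h2] at h1
      have h3 := hS.min _ h1 (fun h => by
        have := congrFun h i0
        simp only [if_true, Pi.zero_apply] at this
        omega)
      have h4 := hS.int16 _ h1
      have h5 : ∑ i, (ρ i - 4 * (if i = i0 then ρ i0 else 0)) ^ 2 = (r : ℤ) + 8 := by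
        have : ∀ i, (ρ i - 4 * (if i = i0 then ρ i0 else 0)) ^ 2 =
            1 + (if i = i0 then 8 else 0) := by
          intro i
          split_ifs with h
          · rw [h]; linear_combination 9 * hρ2 i0
          · linear_combination hρ2 i
        simp only [this, Finset.sum_add_distrib, Finset.sum_ite_eq', Finset.mem_univ, if_true]
        simp
      rw [h5] at h3 h4
      omega
  -- the rank is at most 32
  have hr2 : r ≤ 32 := by
    obtain ⟨a, haS, ha⟩ := hS.cov (fun i => ((i : ℕ) : ℤ) % 2)
    have hsum : ∑ i : Fin r, ((i : ℕ) : ℤ) % 2 = (r : ℤ) / 2 := by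
      rw [← sum_mod_two r, ← Fin.sum_univ_eq_sum_range (fun i => ((i : ℤ) % 2)) r]
    rcases Int.emod_two_eq_zero_or_one (a i0) with h0 | h0
    · have h1 : ∑ i : Fin r, ((i : ℕ) : ℤ) % 2 ≤ ∑ i : Fin r, (((i : ℕ) : ℤ) % 2 - a i) ^ 2 := by
        refine Finset.sum_le_sum fun i _ => ?_
        have h2 := hS.par a haS i i0
        rcases Int.emod_two_eq_zero_or_one ((i : ℕ) : ℤ) with h | h
        · rw [h]; positivity
        · rw [h]
          exact one_le_sq_of_odd (by omega)
      rw [hsum] at h1
      have := h1.trans ha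
      omega
    · have h1 : ∑ i : Fin r, (1 - ((i : ℕ) : ℤ) % 2) ≤
          ∑ i : Fin r, (((i : ℕ) : ℤ) % 2 - a i) ^ 2 := by
        refine Finset.sum_le_sum fun i _ => ?_
        have h2 := hS.par a haS i i0
        rcases Int.emod_two_eq_zero_or_one ((i : ℕ) : ℤ) with h | h
        · rw [h]
          exact one_le_sq_of_odd (by omega)
        · rw [h]; simp only [sub_self]; positivity
      rw [Finset.sum_sub_distrib, hsum] at h1
      simp only [Finset.sum_const, Finset.card_univ, Fintype.card_fin, nsmul_eq_mul, mul_one] at h1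
      have := h1.trans ha
      omega
  -- covering radius of the code
  have hcov : ∀ s : Fin r → ZMod 2, ∃ c ∈ codeOf S, hammingNorm (s - c) ≤ 4 := by
    intro s
    obtain ⟨a, haS, ha⟩ := hS.cov (fun i => 2 * ((s i).val : ℤ))
    rcases Int.emod_two_eq_zero_or_one (a i0) with h0 | h0
    · have h1 : ∀ i, ∃ b, a i = 2 * b := by
        intro i
        have := hS.par a haS i i0
        exact ⟨a i / 2, by omega⟩
      choose b hb using h1
      refine ⟨fun i => (b i : ZMod 2), ⟨b, ?_, fun i => rfl⟩, ?_⟩
      · have : (fun i => 2 * b i) = a := by ext i; rw [hb i]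
        rw [this]; exact haS
      · have h2 : (hammingNorm (s - fun i => (b i : ZMod 2)) : ℤ) ≤
            ∑ i, (((s i).val : ℤ) - b i) ^ 2 := by
          have h3 : (hammingNorm (s - fun i => (b i : ZMod 2)) : ℤ) =
              ∑ i, (if (s - fun i => (b i : ZMod 2)) i ≠ 0 then (1 : ℤ) else 0) := by
            rw [hammingNorm, Finset.card_filter]
            push_cast
            rfl
          rw [h3]
          refine Finset.sum_le_sum fun i _ => ?_
          split_ifs with h
          · have h4 : ((((s i).val : ℤ) - b i : ℤ) : ZMod 2) ≠ 0 := by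
              push_cast
              rw [ZMod.natCast_zmod_val]
              exact h
            rw [intCast_ne_zero_iff] at h4
            exact one_le_sq_of_odd h4
          · positivity
        have h3 : ∑ i, (2 * ((s i).val : ℤ) - a i) ^ 2 = 4 * ∑ i, (((s i).val : ℤ) - b i) ^ 2 := by
          rw [Finset.mul_sum]
          exact Finset.sum_congr rfl fun i _ => by rw [hb i]; ring
        rw [h3] at ha
        omega
    · exfalso
      have h1 : ∑ i : Fin r, (1 : ℤ) ≤ ∑ i : Fin r, (2 * ((s i).val : ℤ) - a i) ^ 2 := by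
        refine Finset.sum_le_sum fun i _ => ?_
        have h2 := hS.par a haS i i0
        exact one_le_sq_of_odd (by omega)
      simp only [Finset.sum_const, Finset.card_univ, Fintype.card_fin, nsmul_eq_mul, mul_one] at h1
      have := h1.trans ha
      omega
  have hDE := hS.doubly_even
  have hr : r = 24 ∨ r = 32 := by omega
  rcases hr with rfl | rfl
  swap
  · exact (code32 _ hDE hcov).elim
  refine ⟨rfl, ?_⟩
  have hone : (fun _ => (1 : ZMod 2)) ∈ codeOf S := by
    refine ⟨a0, ?_, fun i => ?_⟩
    · have : (fun i => 2 * a0 i) = a0 + a0 := by ext i; simp; ring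
      rw [this]
      exact S.add_mem ha0 ha0
    · exact z2 _ ((intCast_ne_zero_iff _).mpr (hodd' i))
  have hself := code24 _ hDE hone hcov
  -- even vectors of the dual belong to the lattice
  have heven : ∀ α : Fin 24 → ℤ, (∀ β ∈ S, (8 : ℤ) ∣ ∑ i, α i * β i) → (∀ i, (2 : ℤ) ∣ α i) →
      α ∈ S := by
    intro α hα hev
    choose b hb using hev
    have h1 : (fun i => (b i : ZMod 2)) ∈ dualCode (codeOf S) := by
      rintro c ⟨b', hb', hbc'⟩
      have h2 := hα _ hb'
      have h3 : ∑ i, α i * (2 * b' i) = 4 * ∑ i, b i * b' i := by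
        rw [Finset.mul_sum]
        exact Finset.sum_congr rfl fun i _ => by rw [hb i]; ring
      rw [h3] at h2
      have h4 : ∑ i, (b i : ZMod 2) * c i = ((∑ i, b i * b' i : ℤ) : ZMod 2) := by
        push_cast
        exact Finset.sum_congr rfl fun i _ => by rw [hbc' i]
      rw [h4, ZMod.intCast_zmod_eq_zero_iff_dvd _ 2]
      push_cast
      omega
    rw [hself] at h1
    obtain ⟨b'', hb'', hbc⟩ := h1
    have h2 : ∀ i, ∃ x, b i - b'' i = 2 * x := by
      intro i
      have := (ZMod.intCast_zmod_eq_zero_iff_dvd (b i - b'' i) 2).mp (by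
        rw [Int.cast_sub, hbc i, sub_self])
      exact this
    choose x hx using h2
    have h3 : α = (fun i => 2 * b'' i) + fun i => 4 * x i := by
      ext i
      simp only [Pi.add_apply]
      rw [hb i]
      have := hx i
      omega
    have h4 : (2 : ℤ) ∣ ∑ i, x i := by
      have h5 := hα a0 ha0
      have h6 := hS.inner hb'' ha0
      have h7 : ∑ i, α i * a0 i = ∑ i, 2 * b'' i * a0 i + 4 * ∑ i, x i * a0 i := by
        rw [Finset.mul_sum, ← Finset.sum_add_distrib]
        exact Finset.sum_congr rfl fun i _ => by rw [h3]; simp only [Pi.add_apply]; ring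
      have h8 : (2 : ℤ) ∣ ∑ i, (x i * a0 i - x i) := by
        refine Finset.dvd_sum fun i _ => ?_
        have h9 : x i * a0 i - x i = x i * (a0 i - 1) := by ring
        rw [h9]
        refine Dvd.dvd.mul_left ?_ _
        have := hodd' i
        omega
      rw [Finset.sum_sub_distrib] at h8
      omega
    rw [h3]
    exact S.add_mem hb'' (hS.dn _ h4)
  intro α hα
  -- all entries have the same parity
  have hpar : ∀ i, (2 : ℤ) ∣ α i - α i0 := by
    intro i
    have h1 : (2 : ℤ) ∣ ∑ k, ((if k = i then (1 : ℤ) else 0) - (if k = i0 then 1 else 0)) := by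
      rw [Finset.sum_sub_distrib]
      simp
    have h2 := hα _ (hS.dn _ h1)
    have h3 : ∑ k, α k * (4 * ((if k = i then (1 : ℤ) else 0) - (if k = i0 then 1 else 0))) =
        4 * (α i - α i0) := by
      have h4 : ∀ k, α k * (4 * ((if k = i then (1 : ℤ) else 0) - (if k = i0 then 1 else 0))) =
          4 * (if k = i then α k else 0) - 4 * (if k = i0 then α k else 0) := by
        intro k; split_ifs <;> ring
      simp only [h4, Finset.sum_sub_distrib, ← Finset.mul_sum]
      simp
      ring
    rw [h3] at h2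
    omega
  rcases Int.emod_two_eq_zero_or_one (α i0) with h0 | h0
  · exact heven α hα fun i => by have := hpar i; omega
  · have h1 : α - a0 ∈ S := by
      refine heven _ (fun β hβ => ?_) fun i => ?_
      · have h2 := hα β hβ
        have h3 := hS.inner ha0 hβ
        have h4 : ∑ i, (α - a0) i * β i = ∑ i, α i * β i - ∑ i, a0 i * β i := by
          rw [← Finset.sum_sub_distrib]
          exact Finset.sum_congr rfl fun i _ => by rw [Pi.sub_apply]; ring
        rw [h4]
        exact dvd_sub h2 h3
      · have h2 := hpar i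
        have h3 := hodd' i
        rw [Pi.sub_apply]
        omega
    have h2 := S.add_mem h1 ha0
    rwa [sub_add_cancel] at h2

end Pool.Agent.Work.MP_ccc26a_nt
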