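import Pool.Agent.Work.MP_ccc26a_nt.Form

set_option autoImplicit false

namespace Pool.Agent.Work.MP_ccc26a_nt

variable {r : ℕ} {G : Matrix (Fin r) (Fin r) ℤ}

theorem bL_intCast (x y : Fin r → ℤ) :
    bL G (fun i => (x i : ℝ)) (fun i => (y i : ℝ)) = ((bL G x y : ℤ) : ℝ) :=
  bL_map G (Int.castRingHom ℝ) x y

theorem bL_int_pos (hG : IsEvenPosDef G) {x : Fin r → ℤ} (hx : x ≠ 0) : 0 < bL G x x := by
  have h := hG.pos (fun i => (x i : ℝ)) (by
    intro h
    apply hx
    ext i
    have := congrFun h i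
    simpa using this)
  rw [bL_intCast] at h
  exact_mod_cast h

theorem bL_int_nonneg (hG : IsEvenPosDef G) (x : Fin r → ℤ) : 0 ≤ bL G x x := by
  rcases eq_or_ne x 0 with rfl | hx
  · simp [bL_zero_left]
  · exact (bL_int_pos hG hx).le

/-- A positive root: norm `-2` and positive height (the height is the last coordinate). -/
def PosRoot (G : Matrix (Fin r) (Fin r) ℤ) (x : NVec ℤ r) : Prop := bN G x x = -2 ∧ 0 < x.2.2

theorem bN_self_eq (x : NVec ℤ r) (h : x.2.2 = 0) : bN G x x = -bL G x.2.1 x.2.1 := by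
  simp [bN, h]

theorem height_ne_zero (h2 : ∀ x : Fin r → ℤ, bL G x x ≠ 2) {x : NVec ℤ r}
    (hx : bN G x x = -2) : x.2.2 ≠ 0 := by
  intro h
  rw [bN_self_eq x h] at hx
  exact h2 x.2.1 (by linarith)

theorem posRoot_or_neg (h2 : ∀ x : Fin r → ℤ, bL G x x ≠ 2) {x : NVec ℤ r}
    (hx : bN G x x = -2) : PosRoot G x ∨ PosRoot G (-x) := by
  rcases lt_or_gt_of_ne (height_ne_zero h2 hx) with h | h
  · right
    refine ⟨by rw [bN_neg_left, bN_neg_right]; simpa using hx, ?_⟩
    simpa using h
  · left
    exact ⟨hx, h⟩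

/-- The basic inequality between the heights of two positive roots and their product. -/
theorem height_ineq (hG : IsEvenPosDef G) {x y : NVec ℤ r} (hx : PosRoot G x)
    (hy : PosRoot G y) :
    x.2.2 * y.2.2 * (-bN G x y) ≤ x.2.2 ^ 2 + y.2.2 ^ 2 := by
  have h1 : (y.2.2 • x - x.2.2 • y).2.2 = 0 := by
    simp; ring
  have h2 := bN_self_eq (G := G) _ h1
  have h3 := bL_int_nonneg hG (y.2.2 • x - x.2.2 • y).2.1
  have h4 : bN G (y.2.2 • x - x.2.2 • y) (y.2.2 • x - x.2.2 • y) =
      y.2.2 ^ 2 * (-2) - 2 * x.2.2 * y.2.2 * bN G x y + x.2.2 ^ 2 * (-2) := by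
    rw [bN_sub_left, bN_sub_right, bN_sub_right, bN_smul_left, bN_smul_right, bN_smul_left,
      bN_smul_right, bN_smul_left, bN_smul_right, bN_smul_left, bN_smul_right, hx.1, hy.1,
      bN_comm hG.symm y x]
    ring
  nlinarith

theorem eq_of_height_eq (hG : IsEvenPosDef G) {x y : NVec ℤ r} (hx : PosRoot G x)
    (hy : PosRoot G y) (hh : x.2.2 = y.2.2) (hb : bN G x y ≤ -2) : x = y := by
  have h1 : (x - y).2.2 = 0 := by simp [hh]
  have h2 := bN_self_eq (G := G) _ h1
  have h3 := bL_int_nonneg hG (x - y).2.1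
  have h4 : bN G (x - y) (x - y) = -4 - 2 * bN G x y := by
    rw [bN_sub_left, bN_sub_right, bN_sub_right, hx.1, hy.1, bN_comm hG.symm y x]; ring
  have h5 : bL G (x - y).2.1 (x - y).2.1 = 0 := by linarith
  have h6 : (x - y).2.1 = 0 := by
    by_contra hne
    exact absurd h5 (bL_int_pos hG hne).ne'
  have h7 : x.2.1 = y.2.1 := by
    have : x.2.1 - y.2.1 = 0 := h6
    exact sub_eq_zero.mp this
  have h8 : x.1 = y.1 := by
    have e1 := hx.1
    have e2 := hy.1
    simp only [bN] at e1 e2
    rw [← h7, ← hh] at e2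
    have : x.2.2 * (x.1 - y.1) = 0 := by linarith
    rcases mul_eq_zero.mp this with h | h
    · exact absurd h hx.2.ne'
    · linarith
  exact Prod.ext h8 (Prod.ext h7 hh)

/-- The reflection of `y` in the root `x`. -/
theorem refl_norm (hG : IsEvenPosDef G) {x y : NVec ℤ r} (hx : bN G x x = -2)
    (hy : bN G y y = -2) : bN G (y + bN G x y • x) (y + bN G x y • x) = -2 := by
  rw [bN_add_left, bN_add_right, bN_add_right, bN_smul_left, bN_smul_right, bN_smul_left,
    bN_smul_right, hx, hy, bN_comm hG.symm y x]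
  ring

/-- `x` is isolated: it is the only positive root that is negative on `s_x z_∞`. -/
def Isolated (G : Matrix (Fin r) (Fin r) ℤ) (x : NVec ℤ r) : Prop :=
  PosRoot G x ∧ ∀ y, PosRoot G y → y ≠ x → 0 < y.2.2 + x.2.2 * bN G x y

theorem isolated_of_forall (hG : IsEvenPosDef G) (h2 : ∀ x : Fin r → ℤ, bL G x x ≠ 2)
    {x : NVec ℤ r} (hx : PosRoot G x)
    (H : ∀ y, PosRoot G y → y.2.2 < x.2.2 → 0 ≤ bN G x y) : Isolated G x := by
  refine ⟨hx, fun y hy hne => ?_⟩
  by_contra hcon
  push Not at hcon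
  -- the reflected root has nonzero height
  have h3 := height_ne_zero h2 (refl_norm hG hx.1 hy.1)
  have h4 : (y + bN G x y • x).2.2 = y.2.2 + bN G x y * x.2.2 := by simp
  rw [h4] at h3
  set i := x.2.2 with hi
  set a := y.2.2 with ha
  set b := -bN G x y with hb
  have hb' : bN G x y = -b := by rw [hb]; ring
  rw [hb'] at hcon h3
  have hi0 : 0 < i := hx.2
  have ha0 : 0 < a := hy.2
  have hlt : a < i * b := by
    rcases lt_or_eq_of_le hcon with h | h
    · linarith
    · exact absurd (by linarith) h3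
  have hb0 : 0 < b := by
    by_contra h
    push Not at h
    have : i * b ≤ 0 := mul_nonpos_of_nonneg_of_nonpos hi0.le h
    linarith
  have hineq := height_ineq hG hx hy
  rw [← hi, ← ha, ← hb] at hineq
  rcases lt_trichotomy a i with hai | hai | hai
  · have := H y hy hai
    rw [hb'] at this
    linarith
  · -- a = i
    rw [hai] at hlt hineq
    have h5 : b ≤ 2 := by
      by_contra h
      push Not at h
      have h6 : 3 ≤ b := h
      have h7 : i * i * 3 ≤ i * i * b := by
        apply mul_le_mul_of_nonneg_left h6 (by positivity)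
      have h8 : 0 < i * i := by positivity
      nlinarith
    have h6 : 2 ≤ b := by
      by_contra h
      push Not at h
      have h7 : b = 1 := by omega
      rw [h7] at hlt
      linarith
    apply hne
    exact (eq_of_height_eq hG hx hy (by rw [← hi, ← ha, hai]) (by rw [hb']; linarith)).symm
  · -- a > i
    have h5 : i * b < a + i := by
      by_contra h
      push Not at h
      have h6 : a * (a + i) ≤ a * (i * b) := mul_le_mul_of_nonneg_left h ha0.le
      nlinarith
    -- the root b x - y
    have h7 : PosRoot G (-(y + bN G x y • x)) := by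
      refine ⟨?_, ?_⟩
      · rw [bN_neg_left, bN_neg_right, neg_neg]
        exact refl_norm hG hx.1 hy.1
      · have : (-(y + bN G x y • x)).2.2 = -(a + -b * i) := by
          simp [hb', ha, hi]
        rw [this]; linarith
    have h8 := H _ h7 (by
      have : (-(y + bN G x y • x)).2.2 = -(a + -b * i) := by
          simp [hb', ha, hi]
      rw [this]; linarith)
    rw [bN_neg_right, bN_add_right, bN_smul_right, hx.1, hb'] at h8
    linarith

/-- A positive root that is not isolated is a positive combination of roots of smaller height. -/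
theorem exists_decomp (hG : IsEvenPosDef G) (h2 : ∀ x : Fin r → ℤ, bL G x x ≠ 2)
    {x : NVec ℤ r} (hx : PosRoot G x) (hni : ¬ Isolated G x) :
    ∃ y z : NVec ℤ r, ∃ b : ℤ, PosRoot G y ∧ PosRoot G z ∧ y.2.2 < x.2.2 ∧ z.2.2 < x.2.2 ∧
      0 < b ∧ x = z + b • y := by
  have h3 : ∃ y, PosRoot G y ∧ y.2.2 < x.2.2 ∧ bN G x y < 0 := by
    by_contra h
    push Not at h
    exact hni (isolated_of_forall hG h2 hx fun y hy hlt => h y hy hlt)
  -- choose `y` of minimal height
  obtain ⟨y, ⟨hy, hylt, hyneg⟩, hmin⟩ :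
      ∃ y, (PosRoot G y ∧ y.2.2 < x.2.2 ∧ bN G x y < 0) ∧
        ∀ z, (PosRoot G z ∧ z.2.2 < x.2.2 ∧ bN G x z < 0) → y.2.2 ≤ z.2.2 := by
    have : ∃ n : ℕ, ∃ y, (PosRoot G y ∧ y.2.2 < x.2.2 ∧ bN G x y < 0) ∧ y.2.2.toNat = n := by
      obtain ⟨y, hy⟩ := h3
      exact ⟨_, y, hy, rfl⟩
    classical
    obtain ⟨y, hy, hyn⟩ := Nat.find_spec this
    refine ⟨y, hy, fun z hz => ?_⟩
    have h4 := Nat.find_min' this ⟨z, hz, rfl⟩
    rw [← hyn] at h4
    have h5 := hy.1.2
    have h6 := hz.1.2
    omega
  set i := x.2.2 with hi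
  set a := y.2.2 with ha
  set b := -bN G x y with hb
  have hb' : bN G x y = -b := by rw [hb]; ring
  have hb0 : 0 < b := by linarith
  have hi0 : 0 < i := hx.2
  have ha0 : 0 < a := hy.2
  have hineq := height_ineq hG hx hy
  rw [← hi, ← ha, ← hb] at hineq
  have hz1 : bN G (x + bN G y x • y) (x + bN G y x • y) = -2 := refl_norm hG hy.1 hx.1
  have hcomm : bN G y x = -b := by rw [bN_comm hG.symm y x, hb']
  have hzh : (x + bN G y x • y).2.2 = i - b * a := by
    simp [hcomm, ha, hi]; ring
  have hz2 := height_ne_zero h2 hz1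
  rw [hzh] at hz2
  rcases lt_or_gt_of_ne hz2 with h | h
  · exfalso
    -- the root b y - x
    have h7 : PosRoot G (-(x + bN G y x • y)) := by
      refine ⟨?_, ?_⟩
      · rw [bN_neg_left, bN_neg_right, neg_neg]
        exact hz1
      · have : (-(x + bN G y x • y)).2.2 = -(i - b * a) := by
          rw [← hzh]; rfl
        rw [this]; linarith
    have h8 : (-(x + bN G y x • y)).2.2 = -(i - b * a) := by
      rw [← hzh]; rfl
    have h9 : b * a - i < a := by
      by_contra hc
      push Not at hc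
      have h10 : i * a ≤ i * (b * a - i) := mul_le_mul_of_nonneg_left hc hi0.le
      nlinarith
    have h11 : bN G x (-(x + bN G y x • y)) = -b ^ 2 + 2 := by
      rw [bN_neg_right, bN_add_right, bN_smul_right, hx.1, hb', hcomm]
      ring
    have hb2 : 2 ≤ b := by
      by_contra hc
      push Not at hc
      have : b = 1 := by omega
      rw [this] at h
      linarith
    have h12 := hmin _ ⟨h7, by rw [h8]; linarith, by rw [h11]; nlinarith⟩
    rw [h8] at h12
    linarith
  · refine ⟨y, x + bN G y x • y, b, hy, ⟨hz1, by rw [hzh]; linarith⟩, hylt, ?_, hb0, ?_⟩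
    · rw [hzh]
      have : 0 < b * a := mul_pos hb0 ha0
      linarith
    · rw [hcomm]
      module

/-- If isolated roots have height one, an additive map positive on the roots of height one is
positive on all positive roots. -/
theorem pos_of_height_one (hG : IsEvenPosDef G) (h2 : ∀ x : Fin r → ℤ, bL G x x ≠ 2)
    (hiso : ∀ x, Isolated G x → x.2.2 = 1) (φ : NVec ℤ r →+ ℝ)
    (hφ : ∀ x, PosRoot G x → x.2.2 = 1 → 0 < φ x) :
    ∀ x, PosRoot G x → 0 < φ x := by
  have key : ∀ n : ℕ, ∀ x, PosRoot G x → x.2.2.toNat ≤ n → 0 < φ x := by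
    intro n
    induction n with
    | zero =>
      intro x hx hn
      have := hx.2
      omega
    | succ n ih =>
      intro x hx hn
      by_cases hI : Isolated G x
      · exact hφ x hx (hiso x hI)
      · obtain ⟨y, z, b, hy, hz, hyx, hzx, hb, hxe⟩ := exists_decomp hG h2 hx hI
        have hx0 := hx.2
        have hy0 := hy.2
        have hz0 := hz.2
        have h3 := ih y hy (by omega)
        have h4 := ih z hz (by omega)
        rw [hxe, map_add, map_zsmul, zsmul_eq_mul]
        have : (0 : ℝ) < b := by exact_mod_cast hb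
        positivity
  intro x hx
  exact key _ x hx le_rfl

end Pool.Agent.Work.MP_ccc26a_nt
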