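import Pool.Agent.Work.MP_ccc26a_nt.Tube

set_option autoImplicit false

namespace Pool.Agent.Work.MP_ccc26a_nt

open Filter Topology Set

/-- The horizontal strip. -/
def strip : Set ℂ := {u | |u.im| < 1}

theorem convex_strip : Convex ℝ strip := by
  intro u hu v hv s t hs ht hst
  simp only [strip, mem_ofPred_eq, Complex.add_im, Complex.smul_im, smul_eq_mul] at *
  rw [abs_lt] at *
  constructor
  · rcases eq_or_lt_of_le hs with h | h
    · have : t = 1 := by linarith
      rw [← h, this]; linarith [hv.1]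
    · nlinarith [hu.1, hv.1]
  · rcases eq_or_lt_of_le hs with h | h
    · have : t = 1 := by linarith
      rw [← h, this]; linarith [hv.2]
    · nlinarith [hu.2, hv.2]

theorem isOpen_strip : IsOpen strip := by
  have : Continuous fun u : ℂ => |u.im| := by fun_prop
  exact isOpen_lt this continuous_const

/-- The function `sin (2 π u)`. -/
noncomputable def s2 (u : ℂ) : ℂ := Complex.sin (2 * Real.pi * u)

theorem s2_neg (u : ℂ) : s2 (-u) = -s2 u := by
  simp only [s2, mul_neg, Complex.sin_neg]

theorem s2_add_one (u : ℂ) : s2 (u + 1) = s2 u := by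
  simp only [s2]
  rw [show (2 * Real.pi * (u + 1) : ℂ) = 2 * Real.pi * u + 2 * Real.pi by ring]
  exact Complex.sin_add_two_pi _

theorem s2_eq_zero {u : ℂ} : s2 u = 0 ↔ ∃ b : ℤ, 2 * u = b := by
  simp only [s2, Complex.sin_eq_zero_iff]
  have hpi : (Real.pi : ℂ) ≠ 0 := by exact_mod_cast Real.pi_ne_zero
  constructor
  · rintro ⟨k, hk⟩
    refine ⟨k, ?_⟩
    have : (Real.pi : ℂ) * (2 * u) = Real.pi * k := by linear_combination hk
    exact mul_left_cancel₀ hpi this
  · rintro ⟨k, hk⟩
    exact ⟨k, by linear_combination (Real.pi : ℂ) * hk⟩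

theorem hasDerivAt_s2 (u : ℂ) :
    HasDerivAt s2 (2 * Real.pi * Complex.cos (2 * Real.pi * u)) u := by
  have h1 : HasDerivAt (fun u : ℂ => 2 * Real.pi * u) (2 * Real.pi * 1) u :=
    (hasDerivAt_id u).const_mul _
  have h2 := (Complex.hasDerivAt_sin (2 * Real.pi * u)).comp u h1
  convert! h2 using 1
  ring

theorem s2_deriv_ne_zero {u : ℂ} (h : s2 u = 0) :
    (2 * Real.pi * Complex.cos (2 * Real.pi * u) : ℂ) ≠ 0 := by
  have hpi : (2 * Real.pi : ℂ) ≠ 0 := by
    simp [Real.pi_ne_zero]
  refine mul_ne_zero hpi ?_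
  intro hc
  have := Complex.sin_sq_add_cos_sq (2 * Real.pi * u)
  simp only [s2] at h
  rw [h, hc] at this
  norm_num at this

/-- A logarithm of `sin (2 π u)` in the lower half plane. -/
noncomputable def logS2 (u : ℂ) : ℂ :=
  2 * Real.pi * Complex.I * u + Complex.log (1 - Complex.exp (-(4 * Real.pi * Complex.I * u))) -
    Complex.log (2 * Complex.I)

theorem logS2_aux {u : ℂ} (hu : u.im < 0) :
    1 - Complex.exp (-(4 * Real.pi * Complex.I * u)) ∈ Complex.slitPlane := by
  left
  have h1 : ‖Complex.exp (-(4 * Real.pi * Complex.I * u))‖ < 1 := by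
    rw [Complex.norm_exp]
    have : (-(4 * Real.pi * Complex.I * u) : ℂ).re = 4 * Real.pi * u.im := by
      simp
    rw [this]
    rw [Real.exp_lt_one_iff]
    have := Real.pi_pos
    nlinarith
  have h2 := Complex.re_le_norm (Complex.exp (-(4 * Real.pi * Complex.I * u)))
  simp only [Complex.sub_re, Complex.one_re]
  linarith

theorem exp_logS2 {u : ℂ} (hu : u.im < 0) : Complex.exp (logS2 u) = s2 u := by
  have h1 : 1 - Complex.exp (-(4 * Real.pi * Complex.I * u)) ≠ 0 :=
    Complex.slitPlane_ne_zero (logS2_aux hu)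
  have h2 : (2 * Complex.I : ℂ) ≠ 0 := by simp
  rw [logS2, Complex.exp_sub, Complex.exp_add, Complex.exp_log h1, Complex.exp_log h2, s2,
    Complex.sin]
  have e1 : Complex.exp (2 * Real.pi * Complex.I * u) *
      Complex.exp (-(4 * Real.pi * Complex.I * u)) =
      Complex.exp (-(2 * Real.pi * u) * Complex.I) := by
    rw [← Complex.exp_add]; congr 1; ring
  have e2 : Complex.exp (2 * Real.pi * Complex.I * u) =
      Complex.exp (2 * Real.pi * u * Complex.I) := by congr 1; ring
  rw [mul_sub, mul_one, e1, e2, div_eq_iff h2]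
  have hI : Complex.I * Complex.I = -1 := Complex.I_mul_I
  linear_combination (-(Complex.exp (-(2 * Real.pi * u) * Complex.I) -
    Complex.exp (2 * Real.pi * u * Complex.I))) * hI

theorem logS2_add_one (u : ℂ) : logS2 (u + 1) = logS2 u + 2 * Real.pi * Complex.I := by
  simp only [logS2]
  have : Complex.exp (-(4 * Real.pi * Complex.I * (u + 1))) =
      Complex.exp (-(4 * Real.pi * Complex.I * u)) := by
    rw [Complex.exp_eq_exp_iff_exists_int]
    exact ⟨-2, by push_cast; ring⟩
  rw [this]; ring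

theorem continuousOn_logS2 : ContinuousOn logS2 {u : ℂ | u.im < 0} := by
  unfold logS2
  refine ContinuousOn.sub (ContinuousOn.add ?_ ?_) continuousOn_const
  · fun_prop
  · refine ContinuousOn.clog ?_ fun u hu => logS2_aux hu
    fun_prop

/-- Winding number of a function on the strip with simple zeros exactly at the half-integers. -/
theorem winding_strip {φ : ℂ → ℂ} {χ χ' : ℂ}
    (hcont : ContinuousOn φ strip)
    (hz : ∀ u ∈ strip, φ u = 0 → s2 u = 0)
    (hsimple : ∀ u ∈ strip, s2 u = 0 → ∃ V : ℂ → ℂ, ContinuousAt V u ∧ V u ≠ 0 ∧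
      ∀ᶠ v in 𝓝 u, φ v = V v * (-2 * (v - u)))
    (hneg : ∀ u ∈ strip, φ (-u) = χ * φ u) (hone : ∀ u ∈ strip, φ (u + 1) = χ' * φ u)
    {g : ℂ → ℂ} (hg : ContinuousOn g {u | u ∈ strip ∧ u.im < 0})
    (hge : ∀ u ∈ strip, u.im < 0 → Complex.exp (g u) = φ u)
    {u : ℂ} (hu : u ∈ strip) (hu' : u.im < 0) :
    g (u + 1) - g u = 2 * Real.pi * Complex.I := by
  set A : Set ℂ := {u | u ∈ strip ∧ s2 u ≠ 0} with hA
  have hs2cont : Continuous s2 :=
    continuous_iff_continuousAt.mpr fun u => (hasDerivAt_s2 u).continuousAt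
  have hnegmem : ∀ u, u ∈ strip → -u ∈ strip := by
    intro u hu; simpa [strip] using hu
  have honemem : ∀ u, u ∈ strip → u + 1 ∈ strip := by
    intro u hu; simpa [strip] using hu
  have hAB : A ⊆ strip := fun u hu => hu.1
  have hBA : strip ⊆ closure A := by
    intro v hv
    by_cases h0 : s2 v = 0
    · have h1 := (hasDerivAt_s2 v).eventually_ne (c := 0) (s2_deriv_ne_zero h0)
      have h2 : ∀ᶠ w in 𝓝[≠] v, w ∈ strip :=
        mem_nhdsWithin_of_mem_nhds (isOpen_strip.mem_nhds hv)
      have h3 : ∀ᶠ w in 𝓝[≠] v, w ∈ A := by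
        filter_upwards [h1, h2] with w hw1 hw2 using ⟨hw2, hw1⟩
      rw [mem_closure_iff_frequently]
      exact (h3.frequently).filter_mono nhdsWithin_le_nhds
    · exact subset_closure ⟨hv, h0⟩
  -- limits of the quotient
  have hlim : ∀ v ∈ strip, ∃ y, y ≠ 0 ∧ Tendsto (fun w => φ w / s2 w) (𝓝[A] v) (𝓝 y) := by
    intro v hv
    by_cases h0 : s2 v = 0
    · obtain ⟨V, hV1, hV2, hV3⟩ := hsimple v hv h0
      have hd0 := s2_deriv_ne_zero h0
      refine ⟨V v * (-2) * (2 * Real.pi * Complex.cos (2 * Real.pi * v))⁻¹, ?_, ?_⟩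
      · exact mul_ne_zero (mul_ne_zero hV2 (by norm_num)) (inv_ne_zero hd0)
      · have h1 : Tendsto (slope s2 v) (𝓝[≠] v)
            (𝓝 (2 * Real.pi * Complex.cos (2 * Real.pi * v))) :=
          hasDerivAt_iff_tendsto_slope.mp (hasDerivAt_s2 v)
        have hle : 𝓝[A] v ≤ 𝓝[≠] v := by
          apply nhdsWithin_mono
          intro w hw hwv
          rw [mem_singleton_iff] at hwv
          rw [hwv] at hw
          exact hw.2 h0
        have h2 := (h1.mono_left hle).inv₀ hd0
        have h3 : Tendsto V (𝓝[A] v) (𝓝 (V v)) := hV1.tendsto.mono_left nhdsWithin_le_nhds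
        have h4 := (h3.mul_const (-2)).mul h2
        refine h4.congr' ?_
        have h5 : ∀ᶠ w in 𝓝[A] v, φ w = V w * (-2 * (w - v)) :=
          hV3.filter_mono nhdsWithin_le_nhds
        have h6 : ∀ᶠ w in 𝓝[A] v, w ∈ A := eventually_mem_nhdsWithin
        filter_upwards [h5, h6] with w hw1 hw2
        have hwv : w - v ≠ 0 := by
          intro h
          have : w = v := sub_eq_zero.mp h
          rw [this] at hw2
          exact hw2.2 h0
        rw [hw1, slope_def_field, h0, sub_zero, inv_div]
        ring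
    · refine ⟨φ v / s2 v, div_ne_zero (fun h => h0 (hz v hv h)) h0, ?_⟩
      have : ContinuousAt (fun w => φ w / s2 w) v :=
        (hcont.continuousAt (isOpen_strip.mem_nhds hv)).div hs2cont.continuousAt h0
      exact this.tendsto.mono_left nhdsWithin_le_nhds
  set ψ : ℂ → ℂ := extendFrom A (fun w => φ w / s2 w) with hψ
  have hψcont : ContinuousOn ψ strip :=
    continuousOn_extendFrom hBA fun v hv => by
      obtain ⟨y, -, hy⟩ := hlim v hv
      exact ⟨y, hy⟩
  have hψne : ∀ v ∈ strip, ψ v ≠ 0 := by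
    intro v hv
    obtain ⟨y, hy0, hy⟩ := hlim v hv
    have : ψ v = y := extendFrom_eq (hBA hv) hy
    rw [this]; exact hy0
  have hψA : ∀ v ∈ A, ψ v = φ v / s2 v := by
    intro v hv
    apply extendFrom_eq (hBA hv.1)
    have : ContinuousAt (fun w => φ w / s2 w) v :=
      (hcont.continuousAt (isOpen_strip.mem_nhds hv.1)).div hs2cont.continuousAt hv.2
    exact this.tendsto.mono_left nhdsWithin_le_nhds
  have hψneg : ∀ v ∈ strip, ψ (-v) = -χ * ψ v := by
    have : EqOn (fun v => ψ (-v)) (fun v => -χ * ψ v) A := by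
      intro v hv
      have hv' : -v ∈ A := ⟨hnegmem _ hv.1, by rw [s2_neg]; exact neg_ne_zero.mpr hv.2⟩
      simp only
      rw [hψA v hv, hψA (-v) hv', hneg v hv.1, s2_neg]
      rw [div_neg]; ring
    refine this.of_subset_closure ?_ ?_ hAB hBA
    · exact hψcont.comp (by fun_prop) fun v hv => hnegmem v hv
    · exact continuousOn_const.mul hψcont
  have hψone : ∀ v ∈ strip, ψ (v + 1) = χ' * ψ v := by
    have : EqOn (fun v => ψ (v + 1)) (fun v => χ' * ψ v) A := by
      intro v hv
      have hv' : v + 1 ∈ A := ⟨honemem _ hv.1, by rw [s2_add_one]; exact hv.2⟩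
      simp only
      rw [hψA v hv, hψA (v + 1) hv', hone v hv.1, s2_add_one]
      ring
    refine this.of_subset_closure ?_ ?_ hAB hBA
    · exact hψcont.comp (by fun_prop) fun v hv => honemem v hv
    · exact continuousOn_const.mul hψcont
  obtain ⟨k, hk, hke⟩ := exists_log_of_convex convex_strip hψcont hψne
  have h0mem : (0 : ℂ) ∈ strip := by simp [strip]
  have hχ : -χ = 1 := by
    have := hψneg 0 h0mem
    rw [neg_zero] at this
    have h1 := hψne 0 h0mem
    have h2 : (-χ - 1) * ψ 0 = 0 := by linear_combination -this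
    rcases mul_eq_zero.mp h2 with h | h
    · linear_combination h
    · exact absurd h h1
  have hhalf : (1 / 2 : ℂ) ∈ strip := by simp [strip]
  have hnhalf : (-(1 / 2) : ℂ) ∈ strip := hnegmem _ hhalf
  have heven : k (1 / 2) = k (-(1 / 2)) := by
    have h1 := const_of_exp_const (S := strip) (h := fun v => k (-v) - k v)
      convex_strip.isPreconnected ?_ (w := 1) ?_ h0mem hnhalf
    · simp only [neg_zero, sub_self, neg_neg] at h1
      linear_combination -h1
    · exact (hk.comp (by fun_prop) fun v hv => hnegmem v hv).sub hk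
    · intro v hv
      rw [Complex.exp_sub, hke _ (hnegmem v hv), hke v hv, hψneg v hv, hχ, one_mul,
        div_self (hψne v hv)]
  have hkone : ∀ v ∈ strip, k (v + 1) = k v := by
    intro v hv
    have h1 := const_of_exp_const (S := strip) (h := fun v => k (v + 1) - k v)
      convex_strip.isPreconnected ?_ (w := χ') ?_ hnhalf hv
    · rw [show (-(1 / 2) + 1 : ℂ) = 1 / 2 by norm_num, heven, sub_self] at h1
      linear_combination -h1
    · exact (hk.comp (by fun_prop) fun v hv => honemem v hv).sub hk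
    · intro v hv
      rw [Complex.exp_sub, hke _ (honemem v hv), hke v hv, hψone v hv,
        mul_div_assoc, div_self (hψne v hv), mul_one]
  -- compare the logarithms on the lower half of the strip
  set Bm : Set ℂ := {u | u ∈ strip ∧ u.im < 0} with hBm
  have hBmconv : Convex ℝ Bm := by
    have h1 : Convex ℝ {u : ℂ | u.im < 0} := convex_halfSpace_im_lt 0
    exact convex_strip.inter h1
  have hBmA : ∀ v ∈ Bm, v ∈ A := by
    intro v hv
    refine ⟨hv.1, fun h => ?_⟩
    rw [s2_eq_zero] at h
    obtain ⟨b, hb⟩ := h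
    have := congrArg Complex.im hb
    simp at this
    have h2 := hv.2
    linarith
  have h1mem : u + 1 ∈ Bm := ⟨honemem _ hu, by simpa using hu'⟩
  have h2 := const_of_exp_const (S := Bm) (h := fun v => g v - k v - logS2 v)
      hBmconv.isPreconnected ?_ (w := 1) ?_ (show u ∈ Bm from ⟨hu, hu'⟩) h1mem
  · rw [hkone u hu, logS2_add_one] at h2
    linear_combination -h2
  · refine (hg.sub (hk.mono fun v hv => hv.1)).sub (continuousOn_logS2.mono fun v hv => hv.2)
  · intro v hv
    rw [Complex.exp_sub, Complex.exp_sub, hge v hv.1 hv.2, hke v hv.1, exp_logS2 hv.2,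
      hψA v (hBmA v hv)]
    have h3 := (hBmA v hv).2
    have h4 : φ v ≠ 0 := fun h => h3 (hz v hv.1 h)
    field_simp

end Pool.Agent.Work.MP_ccc26a_nt
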