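import Pool.Agent.Work.MP_ccc26a_nt.Group

set_option autoImplicit false

namespace Pool.Agent.Work.MP_ccc26a_nt

open Filter Topology Set

variable {r : ℕ} {G : Matrix (Fin r) (Fin r) ℤ}

theorem isOpen_posCone : IsOpen {p : NVec ℝ r × NVec ℝ r | PosCone G p.2} := by
  have h1 : Continuous fun p : NVec ℝ r × NVec ℝ r => bN G p.2 p.2 :=
    (continuous_bN (K := ℝ)).comp (continuous_snd.prodMk continuous_snd)
  have h2 : Continuous fun p : NVec ℝ r × NVec ℝ r => p.2.2.2 := by fun_prop
  exact (isOpen_lt continuous_const h1).inter (isOpen_lt continuous_const h2)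

/-- `zc` tends to the point within the component. -/
theorem tendsto_zc (hG : IsEvenPosDef G) {ε : ℤ} (hε : ε = 1 ∨ ε = -1)
    {p : NVec ℝ r × NVec ℝ r} (hp : PosCone G p.2) :
    Tendsto (zc G ε) (𝓝 p) (𝓝[comp G ε] (zc G ε p)) := by
  refine tendsto_nhdsWithin_iff.mpr ⟨(continuous_zc ε).tendsto p, ?_⟩
  filter_upwards [isOpen_posCone.mem_nhds hp] with q hq
  exact zc_mem hG.symm hε hq

theorem bM_toC_zc {ε : ℤ} (v : MVec ℤ r) (p : NVec ℝ r × NVec ℝ r) :
    bM G (toC v) (zc G ε p) = v.1 * (-(ε : ℂ) * bN G (cplx p) (cplx p) / 2) + v.2.2 * ε +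
      ((bN G (toR v.2.1) p.1 : ℝ) + (bN G (toR v.2.1) p.2 : ℝ) * Complex.I) := by
  rw [toC_eq, bM, zc, bN_toCN_cplx]

/-- Vectors of norm `-2` orthogonal to a point with large imaginary part. -/
theorem root_of_orth (hG : IsEvenPosDef G) {ε : ℤ} (hε : ε = 1 ∨ ε = -1) {v : MVec ℤ r}
    {p : NVec ℝ r × NVec ℝ r} (hp : PosCone G p.2) (hp2 : 2 < bN G p.2 p.2)
    (hv : bM G v v = -2) (h0 : bM G (toC v) (zc G ε p) = 0) :
    v.1 = 0 ∧ bN G v.2.1 v.2.1 = -2 ∧ bN G (toR v.2.1) p.2 = 0 ∧
      bN G (toR v.2.1) p.1 + ε * v.2.2 = 0 := by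
  have hεR := sq_epsR hε
  rw [bM_toC_zc, bN_cplx_cplx hG.symm] at h0
  have hre := congrArg Complex.re h0
  have him := congrArg Complex.im h0
  have e1 : ((v.1 : ℂ) * (-(ε : ℂ) * (((bN G p.1 p.1 - bN G p.2 p.2 : ℝ) : ℂ) +
      ((2 * bN G p.1 p.2 : ℝ) : ℂ) * Complex.I) / 2) + v.2.2 * ε +
      ((bN G (toR v.2.1) p.1 : ℝ) + (bN G (toR v.2.1) p.2 : ℝ) * Complex.I)) =
      (((v.1 : ℝ) * (-(ε : ℝ) * (bN G p.1 p.1 - bN G p.2 p.2) / 2) + v.2.2 * ε +
        bN G (toR v.2.1) p.1 : ℝ) : ℂ) +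
      ((-(v.1 : ℝ) * ε * bN G p.1 p.2 + bN G (toR v.2.1) p.2 : ℝ) : ℂ) * Complex.I := by
    push_cast; ring
  rw [e1] at hre him
  have hre' : (v.1 : ℝ) * (-(ε : ℝ) * (bN G p.1 p.1 - bN G p.2 p.2) / 2) + v.2.2 * ε +
      bN G (toR v.2.1) p.1 = 0 := by
    simpa using hre
  have him' : -(v.1 : ℝ) * ε * bN G p.1 p.2 + bN G (toR v.2.1) p.2 = 0 := by
    simpa using him
  have hvR : bN G (toR v.2.1) (toR v.2.1) = -2 - 2 * v.1 * v.2.2 := by
    rw [bN_toR]
    have : bN G v.2.1 v.2.1 = -2 - 2 * v.1 * v.2.2 := by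
      simp only [bM] at hv
      linarith
    rw [this]; push_cast; ring
  -- the vector `x - a ε X`
  have hW0 : bN G (toR v.2.1 - ((v.1 : ℝ) * ε) • p.1) p.2 = 0 := by
    rw [bN_sub_left, bN_smul_left]; linarith
  have hWW : bN G (toR v.2.1 - ((v.1 : ℝ) * ε) • p.1) (toR v.2.1 - ((v.1 : ℝ) * ε) • p.1) =
      -2 + (v.1 : ℝ) ^ 2 * bN G p.2 p.2 := by
    simp only [bN_sub_left, bN_sub_right, bN_smul_left, bN_smul_right, hvR,
      bN_comm hG.symm p.1 (toR v.2.1)]
    have h5 : bN G (toR v.2.1) p.1 =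
      (v.1 : ℝ) * ((ε : ℝ) * (bN G p.1 p.1 - bN G p.2 p.2) / 2) - v.2.2 * ε := by linarith
    rw [h5]
    linear_combination ((-(v.1 : ℝ) ^ 2 * (bN G p.1 p.1 - bN G p.2 p.2)) + 2 * v.1 * v.2.2 +
      (v.1 : ℝ) ^ 2 * bN G p.1 p.1) * hεR
  have hle : bN G (toR v.2.1 - ((v.1 : ℝ) * ε) • p.1) (toR v.2.1 - ((v.1 : ℝ) * ε) • p.1) ≤ 0 := by
    by_contra hc
    push Not at hc
    exact no_orth hG hc hp.1 hW0
  rw [hWW] at hle
  have ha : v.1 = 0 := by
    by_contra hne
    have h1 : (1 : ℝ) ≤ (v.1 : ℝ) ^ 2 := by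
      have : 1 ≤ v.1 ^ 2 := by
        have : 0 < v.1 ^ 2 := by positivity
        omega
      exact_mod_cast this
    nlinarith
  rw [ha] at hre' him' hvR
  simp only [Int.cast_zero, zero_mul, neg_zero, mul_zero, sub_zero, zero_add] at hre' him' hvR
  refine ⟨ha, ?_, him', by linarith⟩
  rw [bN_toR] at hvR
  exact_mod_cast hvR

theorem bN_smul_smul_int (ε : ℤ) (hε : ε * ε = 1) (x : NVec ℤ r) :
    bN G (ε • x) (ε • x) = bN G x x := by
  have h1 : bN G (ε • x) (ε • x) = ε * (ε * bN G x x) := by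
    rw [bN_smul_left, bN_smul_right]
  rw [h1, ← mul_assoc, hε, one_mul]

theorem tubeData_of_modularForm (hG : IsEvenPosDef G) {ε : ℤ} (hε : ε = 1 ∨ ε = -1) {k : ℤ}
    {χ : stableOrth G (comp G ε) →* ℂˣ} {F : MVec ℂ r → ℂ}
    (hF : IsModularForm G (comp G ε) k χ F) (hdiv : HasCompleteTwoDivisor G (comp G ε) F) :
    TubeData G (fun p => F (zc G ε p)) where
  cont := by
    intro p hp
    have hw := zc_mem hG.symm hε (show PosCone G p.2 from hp)
    obtain ⟨H, hH, hFH⟩ := hF.holo _ hw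
    have h1 : ContinuousWithinAt F (comp G ε) (zc G ε p) := by
      have h2 : ContinuousWithinAt H (comp G ε) (zc G ε p) := hH.continuousAt.continuousWithinAt
      exact h2.congr_of_eventuallyEq hFH (hFH.self_of_nhdsWithin hw)
    have h3 : ContinuousAt (fun p => F (zc G ε p)) p := by
      have h4 := tendsto_zc hG hε (show PosCone G p.2 from hp)
      exact h1.tendsto.comp h4
    exact h3.continuousWithinAt
  trans := by
    intro l
    obtain ⟨g, hg⟩ := exists_trans hG hε l
    refine ⟨χ g, fun X Y hY => ?_⟩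
    have := hF.equiv g _ (zc_mem hG.symm hε (p := (X, Y)) hY)
    rw [hg] at this
    exact this
  eich := by
    intro z l c hz0 hz hzl hl
    obtain ⟨g, hg⟩ := exists_eich hG hε hz0 hz hzl hl
    refine ⟨χ g, fun X Y hY => ?_⟩
    have := hF.equiv g _ (zc_mem hG.symm hε (p := (X, Y)) hY)
    rw [hg] at this
    exact this
  refl := by
    intro x hx
    obtain ⟨g, hg⟩ := exists_refl hG hε hx
    refine ⟨χ g, fun X Y hY => ?_⟩
    have := hF.equiv g _ (zc_mem hG.symm hε (p := (X, Y)) hY)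
    rw [hg] at this
    exact this
  zero := by
    intro X Y hY hY2 h0
    have hw := zc_mem hG.symm hε (p := (X, Y)) hY
    obtain ⟨S, hS, hS', U, hU, hU0, hev⟩ := hdiv _ hw
    have h1 := hev.self_of_nhdsWithin hw
    rw [h0] at h1
    have h2 : ∏ v ∈ S, bM G (toC v) (zc G ε (X, Y)) = 0 := by
      rcases mul_eq_zero.mp h1.symm with h | h
      · exact absurd h hU0
      · exact h
    obtain ⟨v, hvS, hv0⟩ := Finset.prod_eq_zero_iff.mp h2
    have hv := (hS v).mp (Or.inl hvS)
    obtain ⟨-, h4, h5, h6⟩ := root_of_orth hG hε (p := (X, Y)) hY hY2 hv.1 hv.2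
    refine ⟨ε • v.2.1, v.2.2, ?_, ?_, ?_⟩
    · rw [bN_smul_smul_int ε (sq_eps hε)]; exact h4
    · rw [toR_zsmul, bN_smul_left, h5, mul_zero]
    · rw [toR_zsmul, bN_smul_left]
      simp only at h6
      linear_combination (ε : ℝ) * h6 - (v.2.2 : ℝ) * sq_epsR hε
  simple := by
    intro X Y hY hY2 x b hx hxY hxX huniq
    have hεZ := sq_eps hε
    have hεC := sq_epsC hε
    have hεR := sq_epsR hε
    have hw := zc_mem hG.symm hε (p := (X, Y)) hY
    obtain ⟨S, hS, hS', U, hU, hU0, hev⟩ := hdiv _ hw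
    set v0 : MVec ℤ r := (0, ε • x, b) with hv0
    have hv0n : bM G v0 v0 = -2 := by
      simp only [hv0, bM]
      rw [bN_smul_smul_int ε hεZ, hx]; ring
    have hform : ∀ p : NVec ℝ r × NVec ℝ r, bM G (toC v0) (zc G ε p) =
        ε * (((bN G (toR x) p.1 + b : ℝ) : ℂ) + ((bN G (toR x) p.2 : ℝ) : ℂ) * Complex.I) := by
      intro p
      rw [bM_toC_zc, hv0, toR_zsmul, bN_smul_left, bN_smul_left]
      push_cast; ring
    have hv0z : bM G (toC v0) (zc G ε (X, Y)) = 0 := by
      rw [hform]; simp only [hxY, hxX]; simp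
    have hmem := (hS v0).mpr ⟨hv0n, hv0z⟩
    have hall : ∀ v ∈ S, v = v0 ∨ v = -v0 := by
      intro v hvS
      have hv := (hS v).mp (Or.inl hvS)
      obtain ⟨h3, h4, h5, h6⟩ := root_of_orth hG hε (p := (X, Y)) hY hY2 hv.1 hv.2
      simp only at h5 h6
      rcases huniq v.2.1 h4 h5 with h7 | h7
      · have h8 : (v.2.2 : ℝ) = ε * b := by
          rw [h7] at h6
          linear_combination (ε : ℝ) * h6 - (ε : ℝ) * hxX - (v.2.2 : ℝ) * hεR
        have h9 : v.2.2 = ε * b := by exact_mod_cast h8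
        rcases hε with rfl | rfl
        · left
          refine Prod.ext h3 (Prod.ext ?_ ?_)
          · simp [hv0, h7]
          · simp [hv0, h9]
        · right
          refine Prod.ext (by simp [hv0, h3]) (Prod.ext ?_ ?_)
          · simp [hv0, h7]
          · simp [hv0, h9]
      · have h8 : (v.2.2 : ℝ) = -(ε * b) := by
          rw [h7, toR_neg, bN_neg_left] at h6
          linear_combination (ε : ℝ) * h6 + (ε : ℝ) * hxX - (v.2.2 : ℝ) * hεR
        have h9 : v.2.2 = -(ε * b) := by exact_mod_cast h8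
        rcases hε with rfl | rfl
        · right
          refine Prod.ext (by simp [hv0, h3]) (Prod.ext ?_ ?_)
          · simp [hv0, h7]
          · simp [hv0, h9]
        · left
          refine Prod.ext h3 (Prod.ext ?_ ?_)
          · simp [hv0, h7]
          · simp [hv0, h9]
    -- the product is `±` the linear form of `v0`
    have hprod : ∃ s : ℂ, s ≠ 0 ∧ ∀ w, ∏ v ∈ S, bM G (toC v) w = s * bM G (toC v0) w := by
      rcases hmem with h | h
      · have hSe : S = {v0} := by
          ext v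
          rw [Finset.mem_singleton]
          constructor
          · intro hv
            rcases hall v hv with h' | h'
            · exact h'
            · exfalso
              rw [h'] at hv
              exact hS' v0 h hv
          · rintro rfl; exact h
        refine ⟨1, one_ne_zero, fun w => ?_⟩
        rw [hSe, Finset.prod_singleton, one_mul]
      · have hSe : S = {-v0} := by
          ext v
          rw [Finset.mem_singleton]
          constructor
          · intro hv
            rcases hall v hv with h' | h'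
            · exfalso
              rw [h'] at hv
              exact hS' v0 hv h
            · exact h'
          · rintro rfl; exact h
        refine ⟨-1, by norm_num, fun w => ?_⟩
        rw [hSe, Finset.prod_singleton, toC_neg]
        have := bM_smul_left G (-1 : ℂ) (toC v0) w
        rw [neg_one_smul] at this
        exact this
    obtain ⟨s, hs0, hs⟩ := hprod
    have hε0 : (ε : ℂ) ≠ 0 := by
      intro h; rw [h] at hεC; simp at hεC
    refine ⟨fun p => U (zc G ε p) * s * ε, ?_, ?_, ?_⟩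
    · have h1 : ContinuousAt (fun p => U (zc G ε p)) (X, Y) :=
        ContinuousAt.comp (f := zc G ε) hU.continuousAt (continuous_zc ε).continuousAt
      exact (h1.mul continuousAt_const).mul continuousAt_const
    · exact mul_ne_zero (mul_ne_zero hU0 hs0) hε0
    · have h1 := (tendsto_zc hG hε (p := (X, Y)) hY).eventually hev
      filter_upwards [h1] with p hp
      rw [hp, hs, hform]
      ring

end Pool.Agent.Work.MP_ccc26a_nt
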