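import Pool.Agent.Work.MP_ccc26a_nt.Cone
import Pool.Agent.Work.MP_ccc26a_nt.ConvexLog

set_option autoImplicit false

namespace Pool.Agent.Work.MP_ccc26a_nt

open Filter Topology Set

variable {r : ℕ} {G : Matrix (Fin r) (Fin r) ℤ}

/-- A continuous function whose exponential is constant on a preconnected set is constant. -/
theorem const_of_exp_const {E : Type*} [TopologicalSpace E] {S : Set E} (hS : IsPreconnected S)
    {h : E → ℂ} (hc : ContinuousOn h S) {w : ℂ} (he : ∀ z ∈ S, Complex.exp (h z) = w)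
    {z z' : E} (hz : z ∈ S) (hz' : z' ∈ S) : h z = h z' := by
  -- `(h - h z) / (2 π i)` takes integral values
  have h1 : ∀ y ∈ S, ∃ n : ℤ, h y = h z + n * (2 * Real.pi * Complex.I) := by
    intro y hy
    have := (Complex.exp_eq_exp_iff_exists_int).mp ((he y hy).trans (he z hz).symm)
    exact this
  have hpi : (2 * Real.pi * Complex.I : ℂ) ≠ 0 := by
    simp [Real.pi_ne_zero]
  let k : E → ℂ := fun y => (h y - h z) / (2 * Real.pi * Complex.I)
  have hk : ContinuousOn k S := (hc.sub continuousOn_const).div_const _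
  have hk2 : ContinuousOn (fun y => (k y).re) S := Complex.continuous_re.comp_continuousOn hk
  have hkint : ∀ y ∈ S, ∃ n : ℤ, k y = n := by
    intro y hy
    obtain ⟨n, hn⟩ := h1 y hy
    refine ⟨n, ?_⟩
    simp only [k, hn]
    field_simp
    ring
  have hconn : IsPreconnected ((fun y => (k y).re) '' S) := hS.image _ hk2
  have hmem0 : (k z).re ∈ (fun y => (k y).re) '' S := ⟨z, hz, rfl⟩
  have hmem1 : (k z').re ∈ (fun y => (k y).re) '' S := ⟨z', hz', rfl⟩
  have hkz : k z = 0 := by simp [k]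
  obtain ⟨n, hn⟩ := hkint z' hz'
  by_contra hne
  have hn0 : n ≠ 0 := by
    rintro rfl
    apply hne
    have : k z' = 0 := by simpa using hn
    simp only [k, div_eq_zero_iff, hpi, or_false] at this
    exact (sub_eq_zero.mp this).symm
  -- the image contains an interval between `0` and `n`, hence a half-integer
  have hord := hconn.ordConnected
  rw [hkz] at hmem0
  rw [hn] at hmem1
  simp only [Complex.zero_re, Complex.intCast_re] at hmem0 hmem1
  rcases lt_or_gt_of_ne hn0 with hlt | hgt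
  · have h2 : (-(1 / 2) : ℝ) ∈ Icc (n : ℝ) 0 := by
      have : (n : ℝ) ≤ -1 := by exact_mod_cast Int.le_sub_one_of_lt hlt
      constructor <;> linarith
    obtain ⟨y, hy, hyk⟩ := hord.out hmem1 hmem0 h2
    obtain ⟨m, hm⟩ := hkint y hy
    simp only [hm, Complex.intCast_re] at hyk
    have h3 : (2 * m : ℝ) = -1 := by linarith
    have h4 : 2 * m = -1 := by exact_mod_cast h3
    omega
  · have h2 : ((1 / 2) : ℝ) ∈ Icc (0 : ℝ) n := by
      have : (1 : ℝ) ≤ n := by exact_mod_cast hgt
      constructor <;> linarith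
    obtain ⟨y, hy, hyk⟩ := hord.out hmem0 hmem1 h2
    obtain ⟨m, hm⟩ := hkint y hy
    simp only [hm, Complex.intCast_re] at hyk
    have h3 : (2 * m : ℝ) = 1 := by linarith
    have h4 : 2 * m = 1 := by exact_mod_cast h3
    omega

/-- The properties of the function `(X, Y) ↦ F (1, X + iY, ..)` that are used. -/
structure TubeData (G : Matrix (Fin r) (Fin r) ℤ) (f : NVec ℝ r × NVec ℝ r → ℂ) : Prop where
  cont : ContinuousOn f {p | PosCone G p.2}
  trans : ∀ l : NVec ℤ r, ∃ χ : ℂ, ∀ X Y, PosCone G Y → f (X + toR l, Y) = χ * f (X, Y)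
  eich : ∀ z l : NVec ℤ r, ∀ c : ℤ, z ≠ 0 → bN G z z = 0 → bN G z l = 0 → bN G l l = 2 * c →
    ∃ χ : ℂ, ∀ X Y, PosCone G Y →
      f (eich G (toR z) (toR l) c X, eich G (toR z) (toR l) c Y) = χ * f (X, Y)
  refl : ∀ x : NVec ℤ r, bN G x x = -2 →
    ∃ χ : ℂ, ∀ X Y, PosCone G Y → f (reflN G (toR x) X, reflN G (toR x) Y) = χ * f (X, Y)
  zero : ∀ X Y, PosCone G Y → 2 < bN G Y Y → f (X, Y) = 0 →
    ∃ x : NVec ℤ r, ∃ b : ℤ, bN G x x = -2 ∧ bN G (toR x) Y = 0 ∧ bN G (toR x) X + b = 0
  simple : ∀ X Y, PosCone G Y → 2 < bN G Y Y → ∀ x : NVec ℤ r, ∀ b : ℤ, bN G x x = -2 →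
    bN G (toR x) Y = 0 → bN G (toR x) X + b = 0 →
    (∀ x' : NVec ℤ r, bN G x' x' = -2 → bN G (toR x') Y = 0 → x' = x ∨ x' = -x) →
    ∃ U : NVec ℝ r × NVec ℝ r → ℂ, ContinuousAt U (X, Y) ∧ U (X, Y) ≠ 0 ∧
      ∀ᶠ p in 𝓝 (X, Y),
        f p = U p * (((bN G (toR x) p.1 + b : ℝ) : ℂ) + ((bN G (toR x) p.2 : ℝ) : ℂ) * Complex.I)

/-- The tube over the region. -/
def TubeSet (G : Matrix (Fin r) (Fin r) ℤ) : Set (NVec ℝ r × NVec ℝ r) := {p | p.2 ∈ Region G}

theorem region_posCone {Y : NVec ℝ r} (hY : Y ∈ Region G) : PosCone G Y :=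
  ⟨by have := hY.1; linarith, hY.2.1⟩

theorem convex_tubeSet (hG : IsEvenPosDef G) : Convex ℝ (TubeSet G) := by
  intro p hp q hq s t hs ht hst
  exact convex_region hG hp hq hs ht hst

theorem tube_ne_zero (h2 : ∀ x : Fin r → ℤ, bL G x x ≠ 2)
    {f : NVec ℝ r × NVec ℝ r → ℂ} (hf : TubeData G f) {p : NVec ℝ r × NVec ℝ r}
    (hp : p ∈ TubeSet G) : f p ≠ 0 := by
  intro h0
  obtain ⟨x, b, hx, hxY, -⟩ := hf.zero p.1 p.2 (region_posCone hp) hp.1 h0
  rcases posRoot_or_neg h2 hx with h | h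
  · have := hp.2.2 x h
    linarith
  · have := hp.2.2 (-x) h
    rw [toR_neg, bN_neg_left] at this
    linarith

theorem toR_eich (z l y : NVec ℤ r) (c : ℤ) :
    toR (eich G z l c y) = eich G (toR z) (toR l) (c : ℝ) (toR y) := by
  simp only [eich, bN_toR]
  ext <;> simp [toR, mapN]

/-- The region is nonempty. -/
theorem region_nonempty (hG : IsEvenPosDef G) : (Region G).Nonempty := by
  refine ⟨(2, 0, 1), ?_, ?_, ?_⟩
  · simp [bN, bL_zero_left]
  · norm_num
  · intro x hx
    -- `(x, Y) = n + 2 m` where `2 n m = ℓ² - 2 ≥ -2`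
    have h1 := hx.1
    have h3 := hx.2
    have h4 := bL_int_nonneg hG x.2.1
    simp only [bN] at h1
    have h5 : -1 ≤ x.1 * x.2.2 := by linarith
    have h6 : 0 < x.1 + 2 * x.2.2 := by
      by_contra hc
      push Not at hc
      have h7 : x.1 ≤ -2 * x.2.2 := by linarith
      have h8 : x.1 * x.2.2 ≤ -2 * x.2.2 * x.2.2 := mul_le_mul_of_nonneg_right h7 h3.le
      nlinarith
    have h7 : bN G (toR x) (2, 0, 1) = ((x.1 + 2 * x.2.2 : ℤ) : ℝ) := by
      simp [bN, toR, mapN, bL_zero_right]; ring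
    rw [h7]
    exact_mod_cast h6

section Log

variable {f : NVec ℝ r × NVec ℝ r → ℂ} {g : NVec ℝ r × NVec ℝ r → ℂ}

theorem tube_add_mem {p : NVec ℝ r × NVec ℝ r} (hp : p ∈ TubeSet G) (X : NVec ℝ r) :
    (p.1 + X, p.2) ∈ TubeSet G := hp

/-- The increments of the logarithm under translations are constant. -/
theorem exists_increment (hG : IsEvenPosDef G) (h2 : ∀ x : Fin r → ℤ, bL G x x ≠ 2)
    (hf : TubeData G f) (hg : ContinuousOn g (TubeSet G))
    (hgf : ∀ p ∈ TubeSet G, Complex.exp (g p) = f p) :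
    ∃ c : NVec ℤ r →+ ℂ, ∀ l, ∀ p ∈ TubeSet G, g (p.1 + toR l, p.2) = g p + c l := by
  obtain ⟨Y0, hY0⟩ := region_nonempty hG
  have hp0 : ((0 : NVec ℝ r), Y0) ∈ TubeSet G := hY0
  have key : ∀ l : NVec ℤ r, ∀ p ∈ TubeSet G, ∀ q ∈ TubeSet G,
      g (p.1 + toR l, p.2) - g p = g (q.1 + toR l, q.2) - g q := by
    intro l p hp q hq
    obtain ⟨χ, hχ⟩ := hf.trans l
    refine const_of_exp_const (S := TubeSet G)
      (h := fun p => g (p.1 + toR l, p.2) - g p) (convex_tubeSet hG).isPreconnected ?_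
      (w := χ) ?_ hp hq
    · refine ContinuousOn.sub ?_ hg
      refine hg.comp (f := fun p : NVec ℝ r × NVec ℝ r => (p.1 + toR l, p.2)) ?_ ?_
      · fun_prop
      · intro p hp; exact hp
    · intro p hp
      rw [Complex.exp_sub, hgf _ hp, hgf _ (tube_add_mem hp _), hχ _ _ (region_posCone hp),
        mul_div_assoc, div_self (tube_ne_zero h2 hf hp), mul_one]
  refine ⟨⟨⟨fun l => g (0 + toR l, Y0) - g (0, Y0), ?_⟩, ?_⟩, ?_⟩
  · simp [toR_zero]
  · intro l l'
    have h1 := key l' (0, Y0) hp0 (0 + toR l, Y0) hp0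
    simp only at h1 ⊢
    rw [h1, toR_add, ← add_assoc]
    ring
  · intro l p hp
    have h1 := key l p hp (0, Y0) hp0
    simp only [AddMonoidHom.coe_mk, ZeroHom.coe_mk]
    rw [← h1]; ring

/-- Invariance of the increments under transvections fixing an isotropic vector on which all
positive roots are positive. -/
theorem increment_invariant (hG : IsEvenPosDef G) (h2 : ∀ x : Fin r → ℤ, bL G x x ≠ 2)
    (hf : TubeData G f) (hg : ContinuousOn g (TubeSet G))
    (hgf : ∀ p ∈ TubeSet G, Complex.exp (g p) = f p)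
    {c : NVec ℤ r →+ ℂ} (hc : ∀ l, ∀ p ∈ TubeSet G, g (p.1 + toR l, p.2) = g p + c l)
    {z : NVec ℤ r} (hz0 : z ≠ 0) (hz : bN G z z = 0) (hzpos : ∀ x, PosRoot G x → 0 < bN G x z)
    {l : NVec ℤ r} {k : ℤ} (hzl : bN G z l = 0) (hl : bN G l l = 2 * k) (y : NVec ℤ r) :
    c (eich G z l k y) = c y := by
  obtain ⟨χ, hχ⟩ := hf.eich z l k hz0 hz hzl hl
  obtain ⟨Y0, hY0⟩ := region_nonempty hG
  have hsymm := hG.symm
  have hzR0 : (toR z : NVec ℝ r) ≠ 0 := by
    intro h
    apply hz0
    have h1 := congrArg Prod.fst h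
    have h3 := congrArg (fun v => v.2.2) h
    have h4 := congrArg (fun v => v.2.1) h
    simp only [toR, mapN] at h1 h3 h4
    refine Prod.ext (by simpa using h1) (Prod.ext ?_ (by simpa using h3))
    ext i
    have := congrFun h4 i
    simpa using this
  have hzR : bN G (toR z) (toR z) = 0 := by rw [bN_toR, hz]; simp
  have hzlR : bN G (toR z) (toR l) = 0 := by rw [bN_toR, hzl]; simp
  have hlR : bN G (toR l) (toR l) = 2 * (k : ℝ) := by rw [bN_toR, hl]; push_cast; ring
  let T : NVec ℝ r → NVec ℝ r := eich G (toR z) (toR l) (k : ℝ)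
  -- `T` preserves the region
  have hT : ∀ Y ∈ Region G, T Y ∈ Region G := by
    intro Y hY
    have hpc := posCone_eich hG hzR0 hzR hzlR hlR (region_posCone hY)
    refine ⟨?_, hpc.2, ?_⟩
    · have : bN G (T Y) (T Y) = bN G Y Y := bN_eich hsymm hzR hzlR hlR Y Y
      rw [this]; exact hY.1
    · intro x hx
      -- the preimage of the root
      have hzl' : bN G z (-l) = 0 := by rw [bN_neg_right, hzl]; simp
      have hl' : bN G (-l) (-l) = 2 * k := by rw [bN_neg_left, bN_neg_right, hl]; ring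
      set x' := eich G z (-l) k x with hx'
      have hx'norm : bN G x' x' = -2 := by
        rw [hx', bN_eich hsymm hz hzl' hl', hx.1]
      have hx'z : bN G x' z = bN G x z := by
        have h5 : eich G z (-l) k z = z := by
          simp only [eich, hz, hzl']; simp
        conv_lhs => rw [← h5]
        rw [hx', bN_eich hsymm hz hzl' hl']
      have hx'pos : PosRoot G x' := by
        rcases posRoot_or_neg h2 hx'norm with h | h
        · exact h
        · exfalso
          have h6 := hzpos _ h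
          rw [bN_neg_left, hx'z] at h6
          have h7 := hzpos _ hx
          linarith
      have h8 := hY.2.2 x' hx'pos
      have h9 : T (toR x') = toR x := by
        have h10 : eich G z (- -l) k (eich G z (-l) k x) = x := eich_eich hsymm hz hzl' hl' x
        rw [neg_neg] at h10
        have h11 := congrArg toR h10
        rw [toR_eich] at h11
        exact h11
      have h12 : bN G (T (toR x')) (T Y) = bN G (toR x') Y := bN_eich hsymm hzR hzlR hlR _ _
      rw [h9] at h12
      rw [h12]; exact h8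
  have hTcont : Continuous T := by
    have h0 : ∀ v : NVec ℝ r, Continuous fun y : NVec ℝ r => bN G y v := by
      intro v
      simp only [bN, bL]
      fun_prop
    have h1 := h0 (toR z)
    have h3 := h0 (toR l)
    show Continuous fun y => y - bN G y (toR z) • toR l + bN G y (toR l) • toR z -
      ((k : ℝ) * bN G y (toR z)) • toR z
    fun_prop
  have hconst : ∀ p ∈ TubeSet G, ∀ q ∈ TubeSet G,
      g (T p.1, T p.2) - g p = g (T q.1, T q.2) - g q := by
    intro p hp q hq
    refine const_of_exp_const (S := TubeSet G)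
      (h := fun p => g (T p.1, T p.2) - g p) (convex_tubeSet hG).isPreconnected ?_
      (w := χ) ?_ hp hq
    · refine ContinuousOn.sub ?_ hg
      refine hg.comp (f := fun p : NVec ℝ r × NVec ℝ r => (T p.1, T p.2)) ?_ ?_
      · exact Continuous.continuousOn (by fun_prop)
      · intro p hp; exact hT _ hp
    · intro p hp
      have h13 : f (T p.1, T p.2) = χ * f p := hχ p.1 p.2 (region_posCone hp)
      rw [Complex.exp_sub, hgf _ hp, hgf _ (hT _ hp), h13,
        mul_div_assoc, div_self (tube_ne_zero h2 hf hp), mul_one]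
  have hp0 : ((0 : NVec ℝ r), Y0) ∈ TubeSet G := hY0
  have hp1 : ((0 : NVec ℝ r) + toR y, Y0) ∈ TubeSet G := hY0
  have h1 := hconst _ hp1 _ hp0
  simp only at h1
  have hTadd : T (0 + toR y) = T 0 + toR (eich G z l k y) := by
    rw [toR_eich]
    exact eich_add _ _ _ _ _
  rw [hTadd] at h1
  have h3 := hc (eich G z l k y) (T 0, T Y0) (hT _ hY0)
  have h4 := hc y (0, Y0) hp0
  simp only at h3 h4
  rw [h3, h4] at h1
  linear_combination h1

end Log

end Pool.Agent.Work.MP_ccc26a_nt
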