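import Pool.Agent.Work.MP_ccc26a_nt.Strip

set_option autoImplicit false

namespace Pool.Agent.Work.MP_ccc26a_nt

open Filter Topology Set

variable {r : ℕ} {G : Matrix (Fin r) (Fin r) ℤ}

theorem zInf_ne_zero : (zInf : NVec ℤ r) ≠ 0 := by
  intro h
  have := congrArg Prod.fst h
  simp [zInf] at this

theorem bN_zInf_zInf {K : Type*} [CommRing K] : bN G (zInf : NVec K r) zInf = 0 := by
  rw [bN_zInf]; rfl

theorem strip_lt {u : ℂ} (hu : u ∈ strip) : -1 < u.im ∧ u.im < 1 := abs_lt.mp hu

/-- The increments are a multiple of the height. -/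
theorem increment_eq (hG : IsEvenPosDef G) (h2 : ∀ x : Fin r → ℤ, bL G x x ≠ 2) (hr : 0 < r)
    {f g : NVec ℝ r × NVec ℝ r → ℂ}
    (hf : TubeData G f) (hg : ContinuousOn g (TubeSet G))
    (hgf : ∀ p ∈ TubeSet G, Complex.exp (g p) = f p)
    {c : NVec ℤ r →+ ℂ} (hc : ∀ l, ∀ p ∈ TubeSet G, g (p.1 + toR l, p.2) = g p + c l) :
    ∃ c0 : ℂ, ∀ y, c y = y.2.2 * c0 := by
  have hsymm := hG.symm
  have inv : ∀ (l : NVec ℤ r) (k : ℤ), bN G zInf l = 0 → bN G l l = 2 * k → ∀ y,
      c (eich G zInf l k y) = c y := fun l k h1 h3 y =>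
    increment_invariant hG h2 hf hg hgf hc zInf_ne_zero bN_zInf_zInf
      (fun x hx => by rw [bN_zInf]; exact hx.2) h1 h3 y
  have hcz : ∀ (n : ℤ) (v : NVec ℤ r), c (n • v) = n * c v := by
    intro n v
    rw [map_zsmul, zsmul_eq_mul]
  have expand : ∀ (l : NVec ℤ r) (k : ℤ), bN G zInf l = 0 → bN G l l = 2 * k → ∀ y,
      -((bN G y zInf : ℤ) : ℂ) * c l + ((bN G y l : ℤ) : ℂ) * c zInf -
        ((k : ℂ) * ((bN G y zInf : ℤ) : ℂ)) * c zInf = 0 := by
    intro l k h1 h3 y
    have h4 := inv l k h1 h3 y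
    simp only [eich, map_add, map_sub, hcz] at h4
    push_cast at h4
    linear_combination h4
  -- `c z_∞ = 0`
  let ℓ : Fin r → ℤ := Pi.single ⟨0, hr⟩ 1
  have hℓ : ℓ ≠ 0 := by
    intro h
    have := congrFun h ⟨0, hr⟩
    simp [ℓ] at this
  have hcz0 : c zInf = 0 := by
    obtain ⟨k, hk⟩ := hG.even ℓ
    have h3 : bN G ((0, ℓ, 0) : NVec ℤ r) (0, ℓ, 0) = 2 * (-k) := by
      simp [bN, hk]; ring
    have h4 := expand (0, ℓ, 0) (-k) (by simp [bN, zInf, bL_zero_left]) h3 (0, ℓ, 0)
    rw [h3, bN_zInf] at h4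
    have h5 : (2 * (-k) : ℤ) ≠ 0 := by
      have := bL_int_pos hG hℓ
      omega
    have h6 : ((2 * (-k) : ℤ) : ℂ) * c zInf = 0 := by
      simp only [Int.cast_zero, neg_zero, zero_mul, mul_zero, sub_zero, zero_add] at h4
      exact h4
    rcases mul_eq_zero.mp h6 with h | h
    · exact absurd (by exact_mod_cast h) h5
    · exact h
  have hc0 : ∀ l : NVec ℤ r, l.2.2 = 0 → c l = 0 := by
    intro l hl
    obtain ⟨k, hk⟩ := hG.even l.2.1
    have h3 : bN G l l = 2 * (-k) := by
      simp only [bN, hl, hk]; ring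
    have h4 := expand l (-k) (by rw [bN_comm hsymm, bN_zInf]; exact hl) h3 (0, 0, 1)
    rw [hcz0, bN_zInf] at h4
    simpa using h4
  refine ⟨c (0, 0, 1), fun y => ?_⟩
  have h5 := hc0 (y - y.2.2 • ((0, 0, 1) : NVec ℤ r)) (by simp)
  rw [map_sub, hcz] at h5
  linear_combination h5

/-- The basic point on the mirror of an isolated root. -/
def mirrorPt (x : NVec ℤ r) : NVec ℝ r := (4 : ℝ) • zInf + (2 * (x.2.2 : ℝ)) • toR x

/-- The curve crossing the mirror of `x`. -/
def crossing (x : NVec ℤ r) (u : ℂ) : NVec ℝ r × NVec ℝ r :=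
  (u.re • toR x, mirrorPt x + u.im • toR x)

theorem toR_height (x : NVec ℤ r) : (toR x).2.2 = (x.2.2 : ℝ) := rfl

theorem crossing_self (hG : IsEvenPosDef G) {x : NVec ℤ r} (hx : PosRoot G x) (u : ℂ) :
    bN G (crossing x u).2 (crossing x u).2 = 8 * (x.2.2 : ℝ) ^ 2 - 2 * u.im ^ 2 := by
  have h1 : bN G (toR x) (toR x) = -2 := by rw [bN_toR, hx.1]; norm_num
  have h3 : bN G (toR x) zInf = (x.2.2 : ℝ) := by rw [bN_zInf, toR_height]
  simp only [crossing, mirrorPt, bN_add_left, bN_add_right, bN_smul_left, bN_smul_right, h1, h3,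
    bN_comm hG.symm zInf (toR x), bN_zInf_zInf]
  ring

theorem crossing_root (_hG : IsEvenPosDef G) {x : NVec ℤ r} (hx : PosRoot G x) (u : ℂ) :
    bN G (toR x) (crossing x u).2 = -2 * u.im := by
  have h1 : bN G (toR x) (toR x) = -2 := by rw [bN_toR, hx.1]; norm_num
  have h3 : bN G (toR x) zInf = (x.2.2 : ℝ) := by rw [bN_zInf, toR_height]
  simp only [crossing, mirrorPt, bN_add_right, bN_smul_right, h1, h3]
  ring

theorem one_le_height {x : NVec ℤ r} (hx : PosRoot G x) : (1 : ℝ) ≤ x.2.2 := by
  exact_mod_cast hx.2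

theorem crossing_height {x : NVec ℤ r} (u : ℂ) :
    (crossing x u).2.2.2 = (2 * x.2.2 + u.im) * x.2.2 := by
  simp only [crossing, mirrorPt, Prod.snd_add, Prod.smul_snd, toR_height, zInf, smul_eq_mul]
  ring

theorem crossing_pos {x : NVec ℤ r} (hx : PosRoot G x) {u : ℂ} (hu : u ∈ strip) :
    0 < (crossing x u).2.2.2 := by
  have h1 := one_le_height hx
  rw [crossing_height]
  have := (strip_lt hu).1
  have : 0 < 2 * (x.2.2 : ℝ) + u.im := by linarith
  positivity

theorem crossing_two (hG : IsEvenPosDef G) {x : NVec ℤ r} (hx : PosRoot G x) {u : ℂ}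
    (hu : u ∈ strip) : 2 < bN G (crossing x u).2 (crossing x u).2 := by
  rw [crossing_self hG hx]
  have h1 := one_le_height hx
  have h3 := strip_lt hu
  nlinarith [h3.1, h3.2]

theorem crossing_posCone (hG : IsEvenPosDef G) {x : NVec ℤ r} (hx : PosRoot G x) {u : ℂ}
    (hu : u ∈ strip) : PosCone G (crossing x u).2 :=
  ⟨by have := crossing_two hG hx hu; linarith, crossing_pos hx hu⟩

/-- Other positive roots are positive on the crossing. -/
theorem crossing_other (hG : IsEvenPosDef G) {x : NVec ℤ r} (hx : Isolated G x) {u : ℂ}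
    (hu : u ∈ strip) {y : NVec ℤ r} (hy : PosRoot G y) (hne : y ≠ x) :
    0 < bN G (toR y) (crossing x u).2 := by
  have h1 := one_le_height hx.1
  have h3 := strip_lt hu
  have h4 : bN G (toR y) zInf = (y.2.2 : ℝ) := by rw [bN_zInf, toR_height]
  have h5 : bN G (toR y) (toR x) = ((bN G x y : ℤ) : ℝ) := by
    rw [bN_toR, bN_comm hG.symm]
  have h6 : (0 : ℝ) < y.2.2 + x.2.2 * (bN G x y : ℤ) := by exact_mod_cast hx.2 y hy hne
  have h7 : bN G (toR y) (crossing x u).2 =
      4 * y.2.2 + (2 * x.2.2 + u.im) * (bN G x y : ℤ) := by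
    simp only [crossing, mirrorPt, bN_add_right, bN_smul_right, h4, h5]
    ring
  rw [h7]
  have h8 := one_le_height hy
  have h9 : (x.2.2 : ℝ) * (4 * y.2.2 + (2 * x.2.2 + u.im) * (bN G x y : ℤ)) =
      y.2.2 * (2 * x.2.2 - u.im) + (y.2.2 + x.2.2 * (bN G x y : ℤ)) * (2 * x.2.2 + u.im) := by
    ring
  have h10 : 0 < (y.2.2 : ℝ) * (2 * x.2.2 - u.im) :=
    mul_pos (by linarith) (by linarith)
  have h11 : 0 < ((y.2.2 : ℝ) + x.2.2 * (bN G x y : ℤ)) * (2 * x.2.2 + u.im) :=
    mul_pos h6 (by linarith)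
  have h12 : 0 < (x.2.2 : ℝ) * (4 * y.2.2 + (2 * x.2.2 + u.im) * (bN G x y : ℤ)) := by
    rw [h9]; linarith
  by_contra hc
  push Not at hc
  have := mul_nonpos_of_nonneg_of_nonpos (by linarith : (0 : ℝ) ≤ x.2.2) hc
  linarith

theorem crossing_mem (hG : IsEvenPosDef G) {x : NVec ℤ r} (hx : Isolated G x) {u : ℂ}
    (hu : u ∈ strip) (hu' : u.im < 0) : crossing x u ∈ TubeSet G := by
  refine ⟨crossing_two hG hx.1 hu, crossing_pos hx.1 hu, fun y hy => ?_⟩
  by_cases hne : y = x
  · rw [hne, crossing_root hG hx.1]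
    linarith
  · exact crossing_other hG hx hu hy hne

theorem continuous_crossing (x : NVec ℤ r) : Continuous (crossing x) := by
  unfold crossing
  fun_prop

/-- The increment attached to an isolated root. -/
theorem increment_isolated (hG : IsEvenPosDef G) (h2 : ∀ x : Fin r → ℤ, bL G x x ≠ 2)
    {f g : NVec ℝ r × NVec ℝ r → ℂ}
    (hf : TubeData G f) (hg : ContinuousOn g (TubeSet G))
    (hgf : ∀ p ∈ TubeSet G, Complex.exp (g p) = f p)
    {c : NVec ℤ r →+ ℂ} (hc : ∀ l, ∀ p ∈ TubeSet G, g (p.1 + toR l, p.2) = g p + c l)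
    {x : NVec ℤ r} (hx : Isolated G x) : c x = 2 * Real.pi * Complex.I := by
  obtain ⟨χ, hχ⟩ := hf.refl x hx.1.1
  obtain ⟨χ', hχ'⟩ := hf.trans x
  have hxR : bN G (toR x) (toR x) = -2 := by rw [bN_toR, hx.1.1]; norm_num
  have hone : ∀ u, crossing x (u + 1) = ((crossing x u).1 + toR x, (crossing x u).2) := by
    intro u
    simp only [crossing, Complex.add_re, Complex.one_re, Complex.add_im, Complex.one_im,
      add_zero, add_smul, one_smul]
  have hmirror : bN G (mirrorPt x) (toR x) = 0 := by
    have := crossing_root hG hx.1 0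
    simp only [crossing, Complex.zero_im, zero_smul, add_zero, mul_zero] at this
    rw [bN_comm hG.symm]; exact this
  have hneg : ∀ u, crossing x (-u) =
      (reflN G (toR x) (crossing x u).1, reflN G (toR x) (crossing x u).2) := by
    intro u
    simp only [crossing, reflN, Complex.neg_re, Complex.neg_im, bN_smul_left, bN_add_left,
      hmirror, hxR]
    refine Prod.ext ?_ ?_
    · simp only
      module
    · simp only
      module
  have key := winding_strip (φ := fun u => f (crossing x u)) (χ := χ) (χ' := χ')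
    (g := fun u => g (crossing x u)) (u := -(Complex.I / 2)) ?_ ?_ ?_ ?_ ?_ ?_ ?_ ?_ ?_
  · have h3 := hc x (crossing x (-(Complex.I / 2)))
      (crossing_mem hG hx (by simp [strip, abs_lt]; norm_num) (by simp))
    rw [hone, h3] at key
    linear_combination key
  · refine hf.cont.comp (continuous_crossing x).continuousOn ?_
    intro u hu
    exact crossing_posCone hG hx.1 hu
  · intro u hu h0
    obtain ⟨y, b, hy, hyY, hyX⟩ := hf.zero _ _ (crossing_posCone hG hx.1 hu)
      (crossing_two hG hx.1 hu) h0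
    -- `y = ± x`
    have hyx : y = x ∨ y = -x := by
      rcases posRoot_or_neg h2 hy with h | h
      · left
        by_contra hne
        have := crossing_other hG hx hu h hne
        linarith
      · right
        by_contra hne
        have hne' : -y ≠ x := by
          intro he; apply hne; rw [← he, neg_neg]
        have := crossing_other hG hx hu h hne'
        rw [toR_neg, bN_neg_left] at this
        linarith
    have him : u.im = 0 := by
      rcases hyx with rfl | rfl
      · rw [crossing_root hG hx.1] at hyY; linarith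
      · rw [toR_neg, bN_neg_left, crossing_root hG hx.1] at hyY; linarith
    have hre : ∃ b : ℤ, 2 * u.re = b := by
      have h3 : bN G (toR x) (crossing x u).1 = -2 * u.re := by
        simp only [crossing, bN_smul_right, hxR]; ring
      rcases hyx with h | h
      · rw [h] at hyX
        have h4 := h3.symm.trans (eq_neg_of_add_eq_zero_left hyX)
        exact ⟨b, by linarith⟩
      · rw [h, toR_neg, bN_neg_left] at hyX
        have h4 := h3.symm.trans (neg_eq_iff_eq_neg.mp (eq_neg_of_add_eq_zero_left hyX))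
        exact ⟨-b, by push_cast; linarith⟩
    rw [s2_eq_zero]
    obtain ⟨b, hb⟩ := hre
    refine ⟨b, ?_⟩
    apply Complex.ext
    · simpa using hb
    · simp [him]
  · intro u hu h0
    rw [s2_eq_zero] at h0
    obtain ⟨b, hb⟩ := h0
    have hre : 2 * u.re = b := by
      have := congrArg Complex.re hb
      simpa using this
    have him : u.im = 0 := by
      have := congrArg Complex.im hb
      simpa using this
    obtain ⟨U, hU1, hU2, hU3⟩ := hf.simple (crossing x u).1 (crossing x u).2
      (crossing_posCone hG hx.1 hu) (crossing_two hG hx.1 hu) x b hx.1.1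
      (by rw [crossing_root hG hx.1, him]; simp)
      (by
        simp only [crossing, bN_smul_right, hxR]
        linarith)
      (by
        intro y hy hyY
        rcases posRoot_or_neg h2 hy with h | h
        · left
          by_contra hne
          have := crossing_other hG hx hu h hne
          linarith
        · right
          by_contra hne
          have hne' : -y ≠ x := by
            intro he; apply hne; rw [← he, neg_neg]
          have := crossing_other hG hx hu h hne'
          rw [toR_neg, bN_neg_left] at this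
          linarith)
    refine ⟨fun v => U (crossing x v), ?_, hU2, ?_⟩
    · exact ContinuousAt.comp (g := U) hU1 (continuous_crossing x).continuousAt
    · have h3 : ∀ᶠ v in 𝓝 u, f (crossing x v) = U (crossing x v) *
          (((bN G (toR x) (crossing x v).1 + b : ℝ) : ℂ) +
            ((bN G (toR x) (crossing x v).2 : ℝ) : ℂ) * Complex.I) :=
        (continuous_crossing x).continuousAt.eventually hU3
      filter_upwards [h3] with v hv
      rw [hv]
      congr 1
      rw [crossing_root hG hx.1]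
      simp only [crossing, bN_smul_right, hxR]
      apply Complex.ext
      · simp; linarith
      · simp; linarith
  · intro u hu
    rw [hneg]
    exact hχ _ _ (crossing_posCone hG hx.1 hu)
  · intro u hu
    rw [hone]
    exact hχ' _ _ (crossing_posCone hG hx.1 hu)
  · refine hg.comp (continuous_crossing x).continuousOn ?_
    intro u hu
    exact crossing_mem hG hx hu.1 hu.2
  · intro u hu hu'
    exact hgf _ (crossing_mem hG hx hu hu')
  · simp [strip, abs_lt]; norm_num
  · simp

theorem isolated_height_one (hG : IsEvenPosDef G) (h2 : ∀ x : Fin r → ℤ, bL G x x ≠ 2) :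
    Isolated G ((-1, 0, 1) : NVec ℤ r) := by
  refine isolated_of_forall hG h2 ⟨?_, ?_⟩ fun y hy hlt => ?_
  · simp [bN, bL_zero_left]
  · simp
  · have := hy.2
    simp only at hlt
    omega

/-- The covering radius is at most `√2` (rational points). -/
theorem covering_rat (hG : IsEvenPosDef G) (h2 : ∀ x : Fin r → ℤ, bL G x x ≠ 2)
    {f : NVec ℝ r × NVec ℝ r → ℂ} (hf : TubeData G f) (C : Fin r → ℤ) (q : ℤ) (hq : 0 < q) :
    ∃ w : Fin r → ℤ, bL G (C - q • w) (C - q • w) ≤ 2 * q ^ 2 := by
  rcases Nat.eq_zero_or_pos r with hr | hr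
  · subst hr
    refine ⟨0, ?_⟩
    simp only [bL, Finset.univ_eq_empty, Finset.sum_empty]
    positivity
  by_contra hcon
  push Not at hcon
  have hsymm := hG.symm
  obtain ⟨g, hg, hgf⟩ := exists_log_of_convex (convex_tubeSet hG)
    (hf.cont.mono fun p hp => region_posCone hp) (fun p hp => tube_ne_zero h2 hf hp)
  obtain ⟨c, hc⟩ := exists_increment hG h2 hf hg hgf
  obtain ⟨c0, hc0⟩ := increment_eq hG h2 hr hf hg hgf hc
  have hc0' : c0 = 2 * Real.pi * Complex.I := by
    have h3 := increment_isolated hG h2 hf hg hgf hc (isolated_height_one hG h2)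
    rw [hc0] at h3
    simpa using h3
  have hpi : (2 * Real.pi * Complex.I : ℂ) ≠ 0 := by simp [Real.pi_ne_zero]
  have hiso : ∀ x, Isolated G x → x.2.2 = 1 := by
    intro x hx
    have h3 := increment_isolated hG h2 hf hg hgf hc hx
    rw [hc0, hc0'] at h3
    have h4 : ((x.2.2 : ℂ) - 1) * (2 * Real.pi * Complex.I) = 0 := by linear_combination h3
    rcases mul_eq_zero.mp h4 with h | h
    · have : (x.2.2 : ℂ) = 1 := by linear_combination h
      exact_mod_cast this
    · exact absurd h hpi
  -- the isotropic vector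
  set z : NVec ℤ r := (bL G C C, (2 * q) • C, 2 * q ^ 2) with hz
  have hz0 : z ≠ 0 := by
    intro h
    have := congrArg (fun v : NVec ℤ r => v.2.2) h
    simp only [hz] at this
    have h3 : (0 : ℤ) < 2 * q ^ 2 := by positivity
    rw [this] at h3
    exact lt_irrefl _ h3
  have hzz : bN G z z = 0 := by
    simp only [hz, bN, bL_smul_left, bL_smul_right]
    ring
  have hzone : ∀ x, PosRoot G x → x.2.2 = 1 → 0 < bN G x z := by
    intro x hx hx1
    have h3 := hx.1
    simp only [bN, hx1] at h3
    have h4 := hcon x.2.1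
    rw [bL_sub_left, bL_sub_right, bL_sub_right, bL_smul_left, bL_smul_right, bL_smul_left,
      bL_smul_right, bL_comm hsymm C x.2.1] at h4
    simp only [hz, bN, hx1, bL_smul_right]
    have h5 : q ^ 2 * (2 * x.1 - bL G x.2.1 x.2.1) = q ^ 2 * (-2) := by
      congr 1
      linarith
    linarith
  have hzpos : ∀ x, PosRoot G x → 0 < bN G x z := by
    intro x hx
    let φ : NVec ℤ r →+ ℝ :=
      { toFun := fun x => ((bN G x z : ℤ) : ℝ)
        map_zero' := by simp [bN_zero_left]
        map_add' := fun a b => by rw [bN_add_left]; push_cast; ring }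
    have h3 : 0 < φ x := by
      refine pos_of_height_one hG h2 hiso φ (fun x hx hx1 => ?_) x hx
      have := hzone x hx hx1
      show (0 : ℝ) < ((bN G x z : ℤ) : ℝ)
      exact_mod_cast this
    have h4 : (0 : ℝ) < ((bN G x z : ℤ) : ℝ) := h3
    exact_mod_cast h4
  -- an orthogonal vector of nonzero norm
  set ℓ : Fin r → ℤ := Pi.single ⟨0, hr⟩ 1 with hℓdef
  have hℓ : ℓ ≠ 0 := by
    intro h
    have := congrFun h ⟨0, hr⟩
    simp [ℓ] at this
  set l : NVec ℤ r := (bL G ℓ C, q • ℓ, 0) with hl
  have hlz : bN G z l = 0 := by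
    simp only [hz, hl, bN, bL_smul_left, bL_smul_right, bL_comm hsymm C ℓ]
    ring
  have hll : bN G l l = -(q ^ 2 * bL G ℓ ℓ) := by
    simp only [hl, bN, bL_smul_left, bL_smul_right]
    ring
  obtain ⟨k, hk⟩ := hG.even ℓ
  have hll2 : bN G l l = 2 * (-(q ^ 2 * k)) := by rw [hll, hk]; ring
  have h5 := increment_invariant hG h2 hf hg hgf hc hz0 hzz hzpos hlz hll2 l
  rw [hc0, hc0, hc0'] at h5
  have h6 : (eich G z l (-(q ^ 2 * k)) l).2.2 = l.2.2 := by
    have h7 : (((eich G z l (-(q ^ 2 * k)) l).2.2 : ℂ) - (l.2.2 : ℂ)) *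
        (2 * Real.pi * Complex.I) = 0 := by
      linear_combination h5
    rcases mul_eq_zero.mp h7 with h | h
    · have : ((eich G z l (-(q ^ 2 * k)) l).2.2 : ℂ) = (l.2.2 : ℂ) := by linear_combination h
      exact_mod_cast this
    · exact absurd h hpi
  have h7 : bN G l z = 0 := by rw [bN_comm hsymm]; exact hlz
  simp only [eich, h7, zero_smul, sub_zero, mul_zero] at h6
  have h8 : bN G l l * (2 * q ^ 2) = 0 := by
    have : (l + bN G l l • z).2.2 = l.2.2 + bN G l l * (2 * q ^ 2) := by
      simp [hz]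
    rw [this] at h6
    linarith
  rcases mul_eq_zero.mp h8 with h | h
  · rw [hll] at h
    have h9 := bL_int_pos hG hℓ
    have : 0 < q ^ 2 * bL G ℓ ℓ := by positivity
    linarith
  · have : 0 < 2 * q ^ 2 := by positivity
    linarith

end Pool.Agent.Work.MP_ccc26a_nt
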